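import Pool.Agent.Helper53.Transfer

/-!
# The finite basis theorem
-/

open Finset Function
open scoped symmDiff

set_option linter.unusedSectionVars false
set_option linter.unusedSimpArgs false

namespace Pool.Agent.Helper53

variable {V : Type*} [Fintype V] [DecidableEq V]

theorem Base.nonempty {A : Finset V} {c : V → ℕ} {m μ0 e : ℕ} (h : Base A c m (μ0 + e))
    (he : 1 ≤ e) (hcs : ∑ v ∈ A, c v + 2 = 2 * (A.card + μ0))
    (hfit : A.card + m ≤ Fintype.card V) : A.Nonempty := by
  classical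
  rw [nonempty_iff_ne_empty]
  rintro rfl
  have h1 : m ≤ (univ : Finset V).card := by
    rw [card_univ]; simpa using hfit
  obtain ⟨O, _, hOc⟩ := exists_subset_card_eq h1
  obtain ⟨F, hok, hdF, hkF⟩ := h O (fun _ => 2) (by simp) hOc (fun v hv => by simp at hv)
    (fun _ _ => rfl)
  have hd2 : ∀ v ∈ ∅ ∪ O, dg F v = 2 := hdF
  have hsum := hok.sum_dg
  rw [sum_congr rfl hd2, sum_const, empty_union, hOc] at hsum
  simp only [sum_empty, card_empty] at hcs
  simp only [smul_eq_mul] at hsum
  obtain ⟨x, hx⟩ := hok.ne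
  rw [empty_union] at hx
  have hm : 1 ≤ m := by rw [← hOc]; exact card_pos.mpr ⟨x, hx⟩
  have hFne : F.Nonempty := by
    rw [← card_pos]
    omega
  have hcard := hok.card_eq hFne
  rw [empty_union, hOc] at hcard
  have hmu : mu EvenSet F = 1 := by omega
  have h3 := card_circ_lt F
  rw [card_evs fam_evenSet, hmu] at h3
  omega

theorem card_odd_filter (A : Finset V) (d c : V → ℕ) :
    (A.filter (fun v => Odd (d v - c v))).card = ∑ v ∈ A, (d v - c v) % 2 := by
  rw [card_filter]
  refine sum_congr rfl ?_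
  intro v _
  rcases Nat.even_or_odd (d v - c v) with h | h
  · rw [if_neg (Nat.not_odd_iff_even.mpr h), Nat.even_iff.mp h]
  · rw [if_pos h, Nat.odd_iff.mp h]

theorem card_out_odd (A : Finset V) (d : V → ℕ) :
    (univ.filter (fun v => v ∉ A ∧ Odd (d v))).card = ∑ v ∈ univ \ A, io (d v) := by
  have h1 : univ.filter (fun v => v ∉ A ∧ Odd (d v)) = (univ \ A).filter (fun v => Odd (d v)) := by
    ext v; simp
  rw [h1, card_filter]
  refine sum_congr rfl ?_
  intro v _
  unfold io
  rcases Nat.even_or_odd (d v) with h | h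
  · rw [if_neg (Nat.not_odd_iff_even.mpr h), Nat.even_iff.mp h]
  · rw [if_pos h, Nat.odd_iff.mp h]

theorem card_ones (A : Finset V) (d : V → ℕ) (hA : ∀ v ∈ A, 3 ≤ d v) :
    (univ.filter (fun v => d v = 1)).card = ∑ v ∈ univ \ A, i1 (d v) := by
  have h1 : univ.filter (fun v => d v = 1) = (univ \ A).filter (fun v => d v = 1) := by
    ext v
    simp only [mem_filter, mem_univ, true_and, mem_sdiff]
    constructor
    · intro h
      refine ⟨?_, h⟩
      intro hv
      have := hA v hv
      omega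
    · exact fun h => h.2
  rw [h1, card_filter]
  rfl

theorem Ok.tch_univ {F : Finset (Sym2 V)} (h : Ok (univ : Finset V) F) (hne : F.Nonempty)
    (v : V) : 1 ≤ dg F v := by
  classical
  obtain ⟨e, he⟩ := hne
  have htne : (tch F).Nonempty := by
    obtain ⟨v, hv⟩ : ∃ v, v ∈ e := ⟨e.out.1, Sym2.out_fst_mem e⟩
    exact ⟨v, mem_tch.mpr (dg_pos.mpr ⟨e, he, hv⟩)⟩
  have h1 := card_le_mu_add h.nd htne
  have h2 := h.card_eq ⟨e, he⟩
  have h3 : tch F = univ := by
    apply eq_of_subset_of_card_le (subset_univ _)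
    omega
  have : v ∈ tch F := by rw [h3]; exact mem_univ v
  exact mem_tch.mp this

/-- the conditions relating a sequence to a base -/
def Fits (d : V → ℕ) (μ : ℕ) (A : Finset V) (c : V → ℕ) (m μ0 : ℕ) : Prop :=
  (∀ v ∈ A, 3 ≤ c v ∧ c v ≤ d v) ∧ ∑ v ∈ A, c v + 2 = 2 * (A.card + μ0) ∧
  μ0 ≤ μ ∧ (1 ≤ m ∨ μ0 = μ) ∧
  (univ.filter (fun v => d v = 1)).card + 2 * μ + m + A.card ≤ Fintype.card V + 2 * μ0 ∧
  (A.filter (fun v => Odd (d v - c v))).card + (univ.filter (fun v => v ∉ A ∧ Odd (d v))).card +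
    4 * μ + 2 * m + 2 * A.card ≤ 2 * Fintype.card V + 4 * μ0 ∧
  (A.filter (fun v => Odd (d v - c v))).card ≤
    (univ.filter (fun v => v ∉ A ∧ Odd (d v))).card

theorem card_sdiff_univ (A : Finset V) : (univ \ A).card + A.card = Fintype.card V := by
  have := card_sdiff_add_card_eq_card (subset_univ A)
  rwa [card_univ] at this

/-- sufficiency -/
theorem good_of_fits {d : V → ℕ} {μ e : ℕ} (hd : ∀ v, 1 ≤ d v)
    (hsum : ∑ v, d v + 2 = 2 * (Fintype.card V + μ)) {A : Finset V} {c : V → ℕ} {m μ0 : ℕ}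
    (h : Fits d μ A c m μ0) (hbase : Base A c m (μ0 + e)) : Good univ d (μ + e) := by
  obtain ⟨h1, h2, h3, h4, h5, h6, h7⟩ := h
  have hcA := card_sdiff_univ A
  have e1 := card_ones A d (fun v hv => (h1 v hv).1.trans (h1 v hv).2)
  have e2 := card_odd_filter A d c
  have e3 := card_out_odd A d
  have hμ0 : 1 ≤ μ0 := by
    have h8 : ∑ v ∈ A, c v ≥ ∑ _v ∈ A, 3 := sum_le_sum (fun v hv => (h1 v hv).1)
    rw [sum_const, smul_eq_mul] at h8
    omega
  have hsA : ∑ v ∈ A, d v + ∑ v ∈ univ \ A, d v = ∑ v, d v := by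
    rw [add_comm]; exact sum_sdiff (subset_univ A)
  have hm := master A c (μ0 + e) m μ0 (fun v hv => (h1 v hv).1) h2
    (by
      intro O d' hdis hA hO hmO
      exact (Base.subd_le (by omega) hmO hbase) O d' hdis rfl hA hO)
    (univ \ A).card (univ \ A) d μ rfl disjoint_sdiff (fun v hv => (h1 v hv).2)
    (fun v _ => hd v) (by omega) h3 (by omega) (by omega) (by omega) (by omega)
  rw [union_sdiff_of_subset (subset_univ A)] at hm
  have e9 : μ0 + e + (μ - μ0) = μ + e := by omega
  rwa [e9] at hm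

theorem fits_of_gs {d : V → ℕ} {μ e : ℕ} {A : Finset V} {c : V → ℕ} {m μ0 f1 f2 f3 m' : ℕ}
    (h : GS univ d μ e A c m μ0 f1 f2 f3) (hc3 : ∀ v ∈ A, 3 ≤ c v) (hm : m' ≤ m)
    (hor : 1 ≤ m' ∨ μ0 = μ) : Fits d μ A c m' μ0 := by
  have hcA := card_sdiff_univ A
  have e1 := card_ones A d (fun v hv => (hc3 v hv).trans (h.cd v hv))
  have e2 := card_odd_filter A d c
  have e3 := card_out_odd A d
  have h1 := h.M1
  have h2 := h.M2
  have h3 := h.M3
  exact ⟨fun v hv => ⟨hc3 v hv, h.cd v hv⟩, h.cs, h.le, hor, by omega, by omega, by omega⟩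

/-- **Finite basis theorem.** -/
theorem finite_basis (k : ℕ) (hk : 1 ≤ k) (d : V → ℕ) :
    Rz d k ↔ (∀ v, 1 ≤ d v) ∧ ∃ μ, 1 ≤ μ ∧ μ ≤ k ∧
      ∑ v, d v + 2 = 2 * (Fintype.card V + μ) ∧
      ∃ (A : Finset V) (c : V → ℕ) (m μ0 : ℕ), A.card + m ≤ max 3 (8 * (k - μ) - 2) ∧
        Rz (seq A c m) (μ0 + (k - μ)) ∧ Fits d μ A c m μ0 := by
  classical
  constructor
  · intro h
    have hg := good_of_rz h
    obtain ⟨F, hok, hdF, hkF⟩ := hg
    have hdF' : ∀ v, dg F v = d v := fun v => hdF v (mem_univ v)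
    have hdFe : dg F = d := funext hdF'
    have hcne : (circ EvenSet F).Nonempty := by rw [← card_pos]; omega
    obtain ⟨C, hC⟩ := hcne
    rw [mem_circ] at hC
    have hFne : F.Nonempty := hC.2.2.1.mono hC.1
    have hcard := hok.card_eq hFne
    rw [card_univ] at hcard
    have hsum := hok.sum_dg
    rw [hdFe] at hsum
    have hle := mu_le_circ fam_evenSet F.card F le_rfl
    have hlt := card_circ_lt F
    rw [card_evs fam_evenSet] at hlt
    have hμ1 : 1 ≤ mu EvenSet F := by
      by_contra h0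
      have : mu EvenSet F = 0 := by omega
      rw [this] at hlt
      omega
    have hsum' : ∑ v, d v + 2 = 2 * (Fintype.card V + mu EvenSet F) := by omega
    refine ⟨fun v => by rw [← hdF' v]; exact hok.tch_univ hFne v, mu EvenSet F, hμ1, by omega,
      hsum', ?_⟩
    rcases Nat.lt_or_ge (mu EvenSet F) k with hlt2 | hge
    · obtain ⟨e, he, he1, _, _, A, c, m, μ0, f1, f2, f3, hGS, hc3, hm, hb, _⟩ :=
        exists_state hok (by omega)
      rw [hdFe] at hGS
      have hek : k - mu EvenSet F = e := by omega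
      rw [hek]
      have hM1 := hGS.M1
      have hle0 := hGS.le
      have hcA := card_sdiff_univ A
      have hfit : A.card + m ≤ Fintype.card V := by omega
      have hAne := hGS.base.nonempty he1 hGS.cs hfit
      have hA3 : 3 * A.card ≤ ∑ v ∈ A, c v := by
        have h8 : ∑ v ∈ A, c v ≥ ∑ _v ∈ A, 3 := sum_le_sum hc3
        rw [sum_const, smul_eq_mul] at h8
        omega
      have hcs := hGS.cs
      have hApos := card_pos.mpr hAne
      by_cases hmb : m ≤ 2 * μ0
      · exact ⟨A, c, m, μ0, by omega, rz_of_base hGS.base hfit,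
          fits_of_gs hGS hc3 le_rfl hm⟩
      · obtain ⟨n, hn⟩ : ∃ n, m = 2 * μ0 + n := ⟨m - 2 * μ0, by omega⟩
        have hb2 := Base.reduce_all hAne hcs n (by rw [← hn]; exact hGS.base) (by omega)
        exact ⟨A, c, 2 * μ0, μ0, by omega, rz_of_base hb2 (by omega),
          fits_of_gs hGS hc3 (by omega) (Or.inl (by omega))⟩
    · have hμk : mu EvenSet F = k := by omega
      have hcardV : 3 ≤ Fintype.card V := by
        have h8 := three_le_of_circuit hC.2
        rw [← card_tch_circuit hC.2] at h8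
        exact h8.trans (card_le_univ _)
      obtain ⟨G, hG, hkG, hdG⟩ := h
      have hs : ∑ v, (G.neighborSet v).ncard + 2 = 2 * (Fintype.card V + mu EvenSet F) := by
        rw [← hsum']
        congr 1
        exact sum_congr rfl (fun v _ => hdG v)
      have hn := necessary G hG hcardV hs hkG
      simp only [hdG] at hn
      have hb : Base (∅ : Finset V) (fun _ => 0) 3 (1 + 0) := by
        intro O d' _ h2 _ h4
        rw [empty_union]
        exact good_cycle d' 0 O (by omega) h4
      refine ⟨∅, fun _ => 0, 3, 1, by simp, ?_, ?_⟩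
      · rw [hμk, Nat.sub_self]
        exact rz_of_base hb (by simpa using hcardV)
      · have e1 : (univ.filter (fun v => v ∉ (∅ : Finset V) ∧ Odd (d v))) =
            univ.filter (fun v => Odd (d v)) := by
          ext v; simp
        refine ⟨by simp, by simp, hμ1, Or.inl (by omega), ?_, ?_, ?_⟩
        · simp only [card_empty]; omega
        · rw [e1]; simp only [filter_empty, card_empty]; omega
        · simp
  · rintro ⟨hd, μ, hμ1, hμk, hsum, A, c, m, μ0, _, hrz, hfits⟩
    have hg := good_of_fits (e := k - μ) hd hsum hfits (base_of_rz hrz)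
    have e1 : μ + (k - μ) = k := by omega
    rw [e1] at hg
    exact rz_of_good hg

end Pool.Agent.Helper53
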