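import Pool.Agent.Helper53.Net
import Pool.Agent.Helper53.Basis

/-!
# Explicit small bases
-/

open Finset Function
open scoped symmDiff

set_option linter.unusedSectionVars false
set_option linter.unusedSimpArgs false

namespace Pool.Agent.Helper53

variable {V : Type*} [Fintype V] [DecidableEq V]

/-- gluing two bases at a common vertex -/
theorem Base.glue {A1 A2 : Finset V} {c1 c2 c : V → ℕ} {m1 m2 k1 k2 : ℕ} (h1 : Base A1 c1 m1 k1)
    (h2 : Base A2 c2 m2 k2) {u : V} (hA : A1 ∩ A2 = {u}) (hu : c u = c1 u + c2 u)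
    (hc1 : ∀ v ∈ A1, v ≠ u → c v = c1 v) (hc2 : ∀ v ∈ A2, v ≠ u → c v = c2 v) :
    Base (A1 ∪ A2) c (m1 + m2) (k1 + k2) := by
  classical
  intro O d h3 h4 h5 h6
  have hle : m1 ≤ O.card := by omega
  obtain ⟨O1, hO1, hO1c⟩ := exists_subset_card_eq hle
  have hO2c : (O \ O1).card = m2 := by
    rw [card_sdiff_of_subset hO1]; omega
  rw [disjoint_union_left] at h3
  have hd1 : Disjoint A1 O1 := h3.1.mono_right hO1
  have hd2 : Disjoint A2 (O \ O1) := h3.2.mono_right sdiff_subset
  have huA : u ∈ A1 ∩ A2 := by rw [hA]; simp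
  rw [mem_inter] at huA
  have huO : u ∉ O := fun hh => disjoint_left.mp h3.1 huA.1 hh
  have g1 := h1 O1 (fun v => if v ∈ A1 then c1 v else 2) hd1 hO1c (fun v hv => by simp [hv])
    (fun v hv => by
      have : v ∉ A1 := fun hh => disjoint_left.mp hd1 hh hv
      simp [this])
  have g2 := h2 (O \ O1) (fun v => if v ∈ A2 then c2 v else 2) hd2 hO2c
    (fun v hv => by simp [hv])
    (fun v hv => by
      have : v ∉ A2 := fun hh => disjoint_left.mp hd2 hh hv
      simp [this])
  have hint : (A1 ∪ O1) ∩ (A2 ∪ O \ O1) = {u} := by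
    ext v
    simp only [mem_inter, mem_union, mem_sdiff, mem_singleton]
    constructor
    · rintro ⟨h7 | h7, h8 | h8⟩
      · have : v ∈ A1 ∩ A2 := mem_inter.mpr ⟨h7, h8⟩
        rw [hA, mem_singleton] at this
        exact this
      · exact absurd h8.1 (fun hh => disjoint_left.mp h3.1 h7 hh)
      · exact absurd (hO1 h7) (fun hh => disjoint_left.mp h3.2 h8 hh)
      · exact absurd h7 h8.2
    · rintro rfl
      exact ⟨Or.inl huA.1, Or.inl huA.2⟩
  have hset : (A1 ∪ A2) ∪ O = (A1 ∪ O1) ∪ (A2 ∪ O \ O1) := by
    ext v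
    simp only [mem_union, mem_sdiff]
    constructor
    · rintro ((h | h) | h)
      · tauto
      · tauto
      · by_cases h' : v ∈ O1 <;> tauto
    · rintro ((h | h) | (h | h))
      · tauto
      · exact Or.inr (hO1 h)
      · tauto
      · tauto
  rw [hset]
  refine g1.glue g2 hint ?_ ?_ ?_
  · rw [h5 u (mem_union_left _ huA.1)]; simp [huA.1, huA.2, hu]
  · intro w hw hwu
    rw [mem_union] at hw
    rcases hw with hw | hw
    · rw [h5 w (mem_union_left _ hw)]; simp [hw, hc1 w hw hwu]
    · have : w ∉ A1 := fun hh => disjoint_left.mp hd1 hh hw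
      rw [h6 w (hO1 hw)]; simp [this]
  · intro w hw hwu
    rw [mem_union] at hw
    rcases hw with hw | hw
    · rw [h5 w (mem_union_right _ hw)]; simp [hw, hc2 w hw hwu]
    · have : w ∉ A2 := fun hh => disjoint_left.mp hd2 hh hw
      rw [h6 w (mem_sdiff.mp hw).1]; simp [this]

theorem notin_of_disj {A O : Finset V} (h : Disjoint A O) {a x : V} (ha : a ∈ A) (hx : x ∈ O) :
    a ≠ x := by
  rintro rfl
  exact disjoint_left.mp h ha hx

/-- the diamond -/
theorem net_dia {a b x y : V} (hab : a ≠ b) (hax : a ≠ x) (hay : a ≠ y) (hbx : b ≠ x)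
    (hby : b ≠ y) (hxy : x ≠ y) (d : V → ℕ) (ha : d a = 3) (hb : d b = 3) (hx : d x = 2)
    (hy : d y = 2) : Net {y, a, b, x} d 3 2 a y := by
  have h1 := net_triangle hab hax hbx (fun _ => 2) rfl rfl rfl
  refine h1.earA (z := y) (d' := d) ?_ hy (by rw [ha]) (by rw [hb]) ?_
  · simp [hay.symm, hby.symm, hxy.symm]
  · intro v hv hva hvb
    simp only [mem_insert, mem_singleton] at hv
    rcases hv with rfl | rfl | rfl
    · exact absurd rfl hva
    · exact absurd rfl hvb
    · exact hx

theorem net_dia' {a b x y : V} (hab : a ≠ b) (hax : a ≠ x) (hay : a ≠ y) (hbx : b ≠ x)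
    (hby : b ≠ y) (hxy : x ≠ y) (d : V → ℕ) (ha : d a = 3) (hb : d b = 3) (hx : d x = 2)
    (hy : d y = 2) : Net {y, a, b, x} d 3 2 a b := by
  have h1 := net_triangle hab hax hbx (fun _ => 2) rfl rfl rfl
  refine h1.earC (z := y) (d' := d) ?_ hy (by rw [ha]) (by rw [hb]) ?_
  · simp [hay.symm, hby.symm, hxy.symm]
  · intro v hv hva hvb
    simp only [mem_insert, mem_singleton] at hv
    rcases hv with rfl | rfl | rfl
    · exact absurd rfl hva
    · exact absurd rfl hvb
    · exact hx

theorem base_dia {a b : V} (hab : a ≠ b) {c : V → ℕ} (ha : c a = 3) (hb : c b = 3) :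
    Base {a, b} c 2 3 := by
  intro O d h1 h2 h3 h4
  obtain ⟨x, y, hxy, rfl⟩ := card_eq_two.mp h2
  have hax := notin_of_disj h1 (by simp : a ∈ ({a, b} : Finset V)) (by simp : x ∈ ({x, y} : Finset V))
  have hay := notin_of_disj h1 (by simp : a ∈ ({a, b} : Finset V)) (by simp : y ∈ ({x, y} : Finset V))
  have hbx := notin_of_disj h1 (by simp : b ∈ ({a, b} : Finset V)) (by simp : x ∈ ({x, y} : Finset V))
  have hby := notin_of_disj h1 (by simp : b ∈ ({a, b} : Finset V)) (by simp : y ∈ ({x, y} : Finset V))
  have h := (net_dia hab hax hay hbx hby hxy d (by rw [h3 a (by simp), ha])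
    (by rw [h3 b (by simp), hb]) (h4 x (by simp)) (h4 y (by simp))).good
  convert h using 1
  ext v; simp only [mem_union, mem_insert, mem_singleton]; tauto

theorem base_Q1 {a b : V} (hab : a ≠ b) {c : V → ℕ} (ha : c a = 4) (hb : c b = 4) :
    Base {a, b} c 3 6 := by
  intro O d h1 h2 h3 h4
  obtain ⟨x, y, z, hxy, hxz, hyz, rfl⟩ := card_eq_three.mp h2
  have ma : a ∈ ({a, b} : Finset V) := by simp
  have mb : b ∈ ({a, b} : Finset V) := by simp
  have mx : x ∈ ({x, y, z} : Finset V) := by simp
  have my : y ∈ ({x, y, z} : Finset V) := by simp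
  have mz : z ∈ ({x, y, z} : Finset V) := by simp
  have hax := notin_of_disj h1 ma mx
  have hay := notin_of_disj h1 ma my
  have haz := notin_of_disj h1 ma mz
  have hbx := notin_of_disj h1 mb mx
  have hby := notin_of_disj h1 mb my
  have hbz := notin_of_disj h1 mb mz
  have g1 := net_dia' hab hax hay hbx hby hxy (fun v => if v = a ∨ v = b then 3 else 2)
    (by simp) (by simp) (by simp [hax.symm, hbx.symm]) (by simp [hay.symm, hby.symm])
  have g2 := g1.earA (z := z) (d' := d) (by simp [haz.symm, hbz.symm, hxz.symm, hyz.symm])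
    (h4 z mz) (by simp [h3 a ma, ha]) (by simp [h3 b mb, hb])
    (by
      intro v hv hva hvb
      simp only [mem_insert, mem_singleton] at hv
      rcases hv with rfl | rfl | rfl | rfl
      · simp [hva, hvb, h4 _ my]
      · exact absurd rfl hva
      · exact absurd rfl hvb
      · simp [hva, hvb, h4 _ mx])
  convert g2.good using 1
  ext v; simp only [mem_union, mem_insert, mem_singleton]; tauto

theorem base_Q2 {a b y : V} (hab : a ≠ b) (hay : a ≠ y) (hby : b ≠ y) {c : V → ℕ}
    (ha : c a = 4) (hb : c b = 3) (hy : c y = 3) : Base {a, b, y} c 2 6 := by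
  intro O d h1 h2 h3 h4
  obtain ⟨x, z, hxz, rfl⟩ := card_eq_two.mp h2
  have ma : a ∈ ({a, b, y} : Finset V) := by simp
  have mb : b ∈ ({a, b, y} : Finset V) := by simp
  have my : y ∈ ({a, b, y} : Finset V) := by simp
  have mx : x ∈ ({x, z} : Finset V) := by simp
  have mz : z ∈ ({x, z} : Finset V) := by simp
  have hax := notin_of_disj h1 ma mx
  have haz := notin_of_disj h1 ma mz
  have hbx := notin_of_disj h1 mb mx
  have hbz := notin_of_disj h1 mb mz
  have hyx := notin_of_disj h1 my mx
  have hyz := notin_of_disj h1 my mz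
  have g1 := net_dia hab hax hay hbx hby hyx.symm (fun v => if v = a ∨ v = b then 3 else 2)
    (by simp) (by simp) (by simp [hax.symm, hbx.symm]) (by simp [hay.symm, hby.symm])
  have g2 := g1.earA (z := z) (d' := d) (by simp [haz.symm, hbz.symm, hxz.symm, hyz.symm])
    (h4 z mz) (by simp [h3 a ma, ha]) (by simp [h3 y my, hy, hay.symm, hby.symm])
    (by
      intro v hv hva hvy
      simp only [mem_insert, mem_singleton] at hv
      rcases hv with rfl | rfl | rfl | rfl
      · exact absurd rfl hvy
      · exact absurd rfl hva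
      · simp [h3 _ mb, hb]
      · simp [hax.symm, hbx.symm, h4 _ mx])
  convert g2.good using 1
  ext v; simp only [mem_union, mem_insert, mem_singleton]; tauto

theorem base_Q3 {a b y w : V} (hab : a ≠ b) (hay : a ≠ y) (haw : a ≠ w) (hby : b ≠ y)
    (hbw : b ≠ w) (hyw : y ≠ w) {c : V → ℕ}
    (ha : c a = 3) (hb : c b = 3) (hy : c y = 3) (hw : c w = 3) : Base {a, b, y, w} c 2 6 := by
  intro O d h1 h2 h3 h4
  obtain ⟨x, z, hxz, rfl⟩ := card_eq_two.mp h2
  have ma : a ∈ ({a, b, y, w} : Finset V) := by simp
  have mb : b ∈ ({a, b, y, w} : Finset V) := by simp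
  have my : y ∈ ({a, b, y, w} : Finset V) := by simp
  have mw : w ∈ ({a, b, y, w} : Finset V) := by simp
  have mx : x ∈ ({x, z} : Finset V) := by simp
  have mz : z ∈ ({x, z} : Finset V) := by simp
  have hax := notin_of_disj h1 ma mx
  have haz := notin_of_disj h1 ma mz
  have hbx := notin_of_disj h1 mb mx
  have hbz := notin_of_disj h1 mb mz
  have hyx := notin_of_disj h1 my mx
  have hyz := notin_of_disj h1 my mz
  have hwx := notin_of_disj h1 mw mx
  have hwz := notin_of_disj h1 mw mz
  have g1 := net_dia hab hax hay hbx hby hyx.symm (fun v => if v = a ∨ v = b then 3 else 2)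
    (by simp) (by simp) (by simp [hax.symm, hbx.symm]) (by simp [hay.symm, hby.symm])
  have g2 := g1.symm.sub (z := w) (d' := fun v => if v = a ∨ v = b then 3 else 2)
    (by simp [haw.symm, hbw.symm, hyw.symm, hwx]) (by simp [haw.symm, hbw.symm]) (fun _ _ => rfl)
  have g3 := g2.earA (z := z) (d' := d)
    (by simp [haz.symm, hbz.symm, hxz.symm, hyz.symm, hwz.symm])
    (h4 z mz) (by simp [h3 y my, hy, hay.symm, hby.symm]) (by simp [h3 w mw, hw, haw.symm, hbw.symm])
    (by
      intro v hv hvy hvw
      simp only [mem_insert, mem_singleton] at hv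
      rcases hv with rfl | rfl | rfl | rfl | rfl
      · exact absurd rfl hvw
      · exact absurd rfl hvy
      · simp [h3 _ ma, ha]
      · simp [h3 _ mb, hb]
      · simp [hax.symm, hbx.symm, h4 _ mx])
  convert g3.good using 1
  ext v; simp only [mem_union, mem_insert, mem_singleton]; tauto

theorem circ_full {F : Finset (Sym2 V)} (h6 : F.card ≤ 6)
    (hmu : mu EvenSet F = 3) {a : V} (ha : dg F a = 3) : (circ EvenSet F).card = 7 := by
  classical
  have h1 : circ EvenSet F = (evs EvenSet F).erase ∅ := by
    ext D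
    rw [mem_circ, mem_erase, mem_evs]
    constructor
    · rintro ⟨d1, d2⟩
      exact ⟨nonempty_iff_ne_empty.mp d2.2.1, d1, d2.1⟩
    · rintro ⟨d0, d1, d2⟩
      refine ⟨d1, ?_⟩
      obtain ⟨e, he⟩ := nonempty_iff_ne_empty.mpr d0
      obtain ⟨C, c1, c2, c3⟩ := fam_evenSet.circuit d2 he
      by_cases hCD : C = D
      · rw [← hCD]; exact c2
      · exfalso
        have hne : (D \ C).Nonempty := by
          rw [nonempty_iff_ne_empty]
          intro h0
          rw [sdiff_eq_empty_iff_subset] at h0
          exact hCD (Subset.antisymm c1 h0)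
        obtain ⟨f, hf⟩ := hne
        obtain ⟨C', c1', c2', _⟩ := fam_evenSet.circuit (fam_evenSet.sdiff d2 c2.1 c1) hf
        have h8 := three_le_of_circuit c2
        have h9 := three_le_of_circuit c2'
        have h10 := card_le_card c1'
        have h11 := card_sdiff_add_card_eq_card c1
        have h12 := card_le_card d1
        have hDF : D = F := eq_of_subset_of_card_le d1 (by omega)
        have h13 := d2.2 a
        rw [hDF, ha] at h13
        exact absurd h13 (by decide)
  rw [h1, card_erase_of_mem (mem_evs.mpr ⟨empty_subset _, fam_evenSet.zero⟩),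
    card_evs fam_evenSet, hmu]
  norm_num

theorem good_K4 {a b x y : V} (hab : a ≠ b) (hax : a ≠ x) (hay : a ≠ y) (hbx : b ≠ x)
    (hby : b ≠ y) (hxy : x ≠ y) (d : V → ℕ) (ha : d a = 3) (hb : d b = 3) (hx : d x = 3)
    (hy : d y = 3) : Good {y, a, b, x} d 7 := by
  classical
  set d0 : V → ℕ := fun v => if v = a ∨ v = b then 3 else 2 with hd0
  obtain ⟨F, hok, hdF, hkF, _⟩ := net_dia hab hax hay hbx hby hxy d0
    (by simp [hd0]) (by simp [hd0]) (by simp [hd0, hax.symm, hbx.symm])
    (by simp [hd0, hay.symm, hby.symm])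
  have e1 : dg F a = 3 := by rw [hdF a (by simp)]; simp [hd0]
  have e2 : dg F b = 3 := by rw [hdF b (by simp)]; simp [hd0]
  have e3 : dg F x = 2 := by rw [hdF x (by simp)]; simp [hd0, hax.symm, hbx.symm]
  have e4 : dg F y = 2 := by rw [hdF y (by simp)]; simp [hd0, hay.symm, hby.symm]
  have hsum := hok.sum_dg
  rw [sum_insert (by simp [hay.symm, hby.symm, hxy.symm]), sum_insert (by simp [hab, hax]),
    sum_insert (by simp [hbx]), sum_singleton, e1, e2, e3, e4] at hsum
  have hcardS : ({y, a, b, x} : Finset V).card = 4 := by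
    rw [card_insert_of_notMem (by simp [hay.symm, hby.symm, hxy.symm]),
      card_insert_of_notMem (by simp [hab, hax]), card_insert_of_notMem (by simp [hbx]),
      card_singleton]
  -- neighbours of a vertex of degree three
  have hnb : ∀ p q r s : V, ({y, a, b, x} : Finset V) = {p, q, r, s} → dg F p = 3 →
      s(p, q) ∈ F ∧ s(p, r) ∈ F ∧ s(p, s) ∈ F := by
    intro p q r s hS hp
    rw [dg_eq_card_nb] at hp
    have hsub : univ.filter (fun v => s(p, v) ∈ F) ⊆ {q, r, s} := by
      intro v hv
      rw [mem_filter] at hv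
      have h5 := hok.sup _ hv.2 v (by simp)
      have h6 : p ≠ v := by
        rintro rfl
        exact hok.nd _ hv.2 (by simp)
      rw [hS] at h5
      simp only [mem_insert, mem_singleton] at h5 ⊢
      rcases h5 with h5 | h5 | h5 | h5
      · exact absurd h5.symm h6
      · exact Or.inl h5
      · exact Or.inr (Or.inl h5)
      · exact Or.inr (Or.inr h5)
    have heq := eq_of_subset_of_card_le hsub (by rw [hp]; exact card_le_three)
    refine ⟨?_, ?_, ?_⟩
    · have : q ∈ univ.filter (fun v => s(p, v) ∈ F) := by rw [heq]; simp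
      exact (mem_filter.mp this).2
    · have : r ∈ univ.filter (fun v => s(p, v) ∈ F) := by rw [heq]; simp
      exact (mem_filter.mp this).2
    · have : s ∈ univ.filter (fun v => s(p, v) ∈ F) := by rw [heq]; simp
      exact (mem_filter.mp this).2
  have na := hnb a b x y (by ext v; simp only [mem_insert, mem_singleton]; tauto) e1
  have nb := hnb b a x y (by ext v; simp only [mem_insert, mem_singleton]; tauto) e2
  have hxyF : s(x, y) ∉ F := by
    intro h
    rw [dg_eq_card_nb] at e3
    have hsub : ({a, b, y} : Finset V) ⊆ univ.filter (fun v => s(x, v) ∈ F) := by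
      intro v hv
      rw [mem_filter]
      refine ⟨mem_univ _, ?_⟩
      simp only [mem_insert, mem_singleton] at hv
      rcases hv with rfl | rfl | rfl
      · rw [Sym2.eq_swap]; exact na.2.1
      · rw [Sym2.eq_swap]; exact nb.2.1
      · exact h
    have h5 := card_le_card hsub
    rw [e3, card_insert_of_notMem (by simp [hab, hay]), card_pair hby] at h5
    omega
  set F' : Finset (Sym2 V) := F ∪ {s(x, y)} with hF'
  have hdis : Disjoint F ({s(x, y)} : Finset (Sym2 V)) := by
    rw [disjoint_singleton_right]; exact hxyF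
  have hok' : Ok {y, a, b, x} F' := by
    refine ⟨?_, ?_, hok.ne, ?_⟩
    · intro e he
      rw [hF', mem_union, mem_singleton] at he
      rcases he with he | rfl
      · exact hok.nd e he
      · simpa using hxy
    · intro e he w hw
      rw [hF', mem_union, mem_singleton] at he
      rcases he with he | rfl
      · exact hok.sup e he w hw
      · rw [Sym2.mem_iff] at hw
        rcases hw with rfl | rfl <;> simp
    · intro p hp q hq
      exact (hok.con p hp q hq).mono (gr_mono subset_union_left)
  have hsing : ∀ w, dg ({s(x, y)} : Finset (Sym2 V)) w = (if w ∈ s(x, y) then 1 else 0) := by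
    intro w
    unfold dg
    rw [card_filter, sum_singleton]
  have hF'c : F'.card = 6 := by
    rw [hF', card_union_of_disjoint hdis, card_singleton]; omega
  have hmu : mu EvenSet F' = 3 := by
    have := hok'.card_eq (card_pos.mp (by omega))
    omega
  have ea : dg F' a = 3 := by
    rw [hF', dg_union hdis, hsing, e1]; simp [hax, hay]
  refine ⟨F', hok', ?_, circ_full (by omega) hmu ea⟩
  intro v hv
  simp only [mem_insert, mem_singleton] at hv
  rcases hv with rfl | rfl | rfl | rfl
  · rw [hF', dg_union hdis, hsing, e4, hy]; simp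
  · rw [ea, ha]
  · rw [hF', dg_union hdis, hsing, e2, hb]; simp [hbx, hby]
  · rw [hF', dg_union hdis, hsing, e3, hx]; simp

theorem base_K4 {a b x y : V} (hab : a ≠ b) (hax : a ≠ x) (hay : a ≠ y) (hbx : b ≠ x)
    (hby : b ≠ y) (hxy : x ≠ y) {c : V → ℕ} (ha : c a = 3) (hb : c b = 3) (hx : c x = 3)
    (hy : c y = 3) : Base {a, b, x, y} c 0 7 := by
  intro O d h1 h2 h3 h4
  rw [card_eq_zero] at h2
  subst h2
  have := good_K4 hab hax hay hbx hby hxy d (by rw [h3 a (by simp), ha])
    (by rw [h3 b (by simp), hb]) (by rw [h3 x (by simp), hx]) (by rw [h3 y (by simp), hy])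
  convert this using 1
  ext v; simp only [mem_union, mem_insert, mem_singleton, notMem_empty, or_false]; tauto

/-- two diamonds sharing a branch vertex -/
theorem base_T1 {u x y : V} (hux : u ≠ x) (huy : u ≠ y) (hxy : x ≠ y) {c : V → ℕ}
    (hu : c u = 6) (hx : c x = 3) (hy : c y = 3) : Base {u, x, y} c 4 6 := by
  have h1 := base_dia (a := u) (b := x) hux (c := fun _ => 3) rfl rfl
  have h2 := base_dia (a := u) (b := y) huy (c := fun _ => 3) rfl rfl
  have h3 := h1.glue h2 (u := u) (c := c) (by
      ext v
      simp only [mem_inter, mem_insert, mem_singleton]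
      constructor
      · rintro ⟨h | h, h' | h'⟩
        · exact h
        · exact h
        · exact h'
        · exact absurd (h.symm.trans h') hxy
      · intro h; exact ⟨Or.inl h, Or.inl h⟩) hu
    (by
      intro v hv hvu
      simp only [mem_insert, mem_singleton] at hv
      rcases hv with rfl | rfl
      · exact absurd rfl hvu
      · exact hx)
    (by
      intro v hv hvu
      simp only [mem_insert, mem_singleton] at hv
      rcases hv with rfl | rfl
      · exact absurd rfl hvu
      · exact hy)
  convert h3 using 1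
  ext v; simp only [mem_union, mem_insert, mem_singleton]; tauto

/-- two diamonds joined by an edge between branch vertices -/
theorem base_T4 {u v x y : V} (huv : u ≠ v) (hux : u ≠ x) (huy : u ≠ y) (hvx : v ≠ x)
    (hvy : v ≠ y) (hxy : x ≠ y) {c : V → ℕ}
    (hu : c u = 4) (hv : c v = 4) (hx : c x = 3) (hy : c y = 3) : Base {u, v, x, y} c 4 6 := by
  have h1 := base_dia (a := u) (b := x) hux (c := fun _ => 3) rfl rfl
  have h1' := h1.pend (a := u) (u := v) (by simp) (by simp [huv.symm, hvx]) (by simp)
  have h2 := base_dia (a := v) (b := y) hvy (c := fun _ => 3) rfl rfl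
  have h3 := h1'.glue h2 (u := v) (c := c) (by
      ext w
      simp only [mem_inter, mem_insert, mem_singleton]
      constructor
      · rintro ⟨h | h | h, h' | h'⟩
        · exact h
        · exact h
        · exact h'
        · exact absurd (h.symm.trans h') huy
        · exact h'
        · exact absurd (h.symm.trans h') hxy
      · intro h; exact ⟨Or.inl h, Or.inl h⟩)
    (by rw [hv, update_of_ne huv.symm]; simp)
    (by
      intro w hw hwv
      simp only [mem_insert, mem_singleton] at hw
      rcases hw with rfl | rfl | rfl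
      · exact absurd rfl hwv
      · rw [hu]; simp
      · rw [update_of_ne hux.symm, update_of_ne hvx.symm, hx])
    (by
      intro w hw hwv
      simp only [mem_insert, mem_singleton] at hw
      rcases hw with rfl | rfl
      · exact absurd rfl hwv
      · exact hy)
  convert h3 using 1
  ext w; simp only [mem_union, mem_insert, mem_singleton]; tauto

/-- `K₄` with a triangle attached -/
theorem base_K5 {a b x y : V} (hab : a ≠ b) (hax : a ≠ x) (hay : a ≠ y) (hbx : b ≠ x)
    (hby : b ≠ y) (hxy : x ≠ y) {c : V → ℕ} (ha : c a = 5) (hb : c b = 3) (hx : c x = 3)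
    (hy : c y = 3) : Base {a, b, x, y} c 2 8 := by
  have h1 := base_K4 hab hax hay hbx hby hxy (c := fun _ => 3) rfl rfl rfl rfl
  have h2 := h1.tri (a := a) (by simp)
  refine h2.congr ?_
  intro v hv
  simp only [mem_insert, mem_singleton] at hv
  rcases hv with rfl | rfl | rfl | rfl
  · simp [ha]
  · rw [update_of_ne hab.symm, hb]
  · rw [update_of_ne hax.symm, hx]
  · rw [update_of_ne hay.symm, hy]

end Pool.Agent.Helper53
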