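import Pool.Agent.Helper53.Steps

/-!
# Gluing a block at a vertex of the base
-/

open Finset Function
open scoped symmDiff

set_option linter.unusedSectionVars false
set_option linter.unusedSimpArgs false

namespace Pool.Agent.Helper53

variable {V : Type*} [Fintype V] [DecidableEq V]

/-- vertices of a block with large degree -/
def hi (T : Finset V) (dL : V → ℕ) : Finset V := T.filter (fun v => 3 ≤ dL v)
/-- vertices of a block with degree two -/
def lo (T : Finset V) (dL : V → ℕ) : Finset V := T.filter (fun v => dL v = 2)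

theorem hi_union_lo {T : Finset V} {dL : V → ℕ} (h2 : ∀ v ∈ T, 2 ≤ dL v) :
    hi T dL ∪ lo T dL = T := by
  ext v
  simp only [hi, lo, mem_union, mem_filter]
  constructor
  · tauto
  · intro hv
    have := h2 v hv
    rcases Nat.lt_or_ge (dL v) 3 with h3 | h3
    · right; exact ⟨hv, by omega⟩
    · left; exact ⟨hv, h3⟩

theorem hi_lo_disjoint (T : Finset V) (dL : V → ℕ) : Disjoint (hi T dL) (lo T dL) := by
  rw [disjoint_left]
  intro v h1 h2
  simp only [hi, lo, mem_filter] at h1 h2
  omega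

theorem sum_lo (T : Finset V) (dL : V → ℕ) : ∑ v ∈ lo T dL, dL v = 2 * (lo T dL).card := by
  have h : ∀ v ∈ lo T dL, dL v = 2 := fun v hv => (mem_filter.mp hv).2
  rw [sum_congr rfl h, sum_const]
  simp [mul_comm]

/-- the state given by a single block -/
theorem GS.root {T : Finset V} {dL : V → ℕ} {μL eL : ℕ} (hL : Good T dL (μL + eL))
    (h2 : ∀ v ∈ T, 2 ≤ dL v) (hs : ∑ v ∈ T, dL v + 2 = 2 * (T.card + μL)) :
    GS T dL μL eL (hi T dL) dL (lo T dL).card μL 0 0 0 := by
  have hdis := hi_lo_disjoint T dL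
  have hun := hi_union_lo h2
  have hsd : T \ hi T dL = lo T dL := by
    ext v
    simp only [hi, lo, mem_sdiff, mem_filter]
    constructor
    · rintro ⟨h5, h6⟩
      have := h2 v h5
      refine ⟨h5, ?_⟩
      by_contra hne
      exact h6 ⟨h5, by omega⟩
    · rintro ⟨h5, h6⟩
      exact ⟨h5, fun h7 => by omega⟩
  have z1 : ∑ v ∈ lo T dL, i1 (dL v) = 0 :=
    sum_eq_zero (fun v hv => by rw [(mem_filter.mp hv).2]; rfl)
  have z2 : ∑ v ∈ lo T dL, io (dL v) = 0 :=
    sum_eq_zero (fun v hv => by rw [(mem_filter.mp hv).2]; rfl)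
  have z3 : ∑ v ∈ hi T dL, (dL v - dL v) % 2 = 0 :=
    sum_eq_zero (fun v _ => by simp)
  have e1 : ∑ v ∈ T, dL v = ∑ v ∈ hi T dL, dL v + ∑ v ∈ lo T dL, dL v := by
    rw [← sum_union hdis, hun]
  have e2 : T.card = (hi T dL).card + (lo T dL).card := by
    rw [← card_union_of_disjoint hdis, hun]
  have e3 := sum_lo T dL
  refine ⟨filter_subset _ _, ?_, fun v _ => le_rfl, le_rfl, by omega, ?_, ?_, ?_, ?_⟩
  · intro v hv
    have := (mem_filter.mp hv).2
    omega
  · refine Base.of_one (d := dL) ?_ hdis (fun _ _ => rfl) (fun v hv => (mem_filter.mp hv).2)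
    rw [hun]; exact hL
  · rw [hsd]; omega
  · rw [hsd]; omega
  · rw [hsd]; omega

section

variable {S : Finset V} {d : V → ℕ} {μ e : ℕ} {A : Finset V} {c : V → ℕ} {m μ0 f1 f2 f3 : ℕ}

theorem GS.big (h : GS S d μ e A c m μ0 f1 f2 f3) {u : V} (huA : u ∈ A) {T : Finset V}
    {dL : V → ℕ} {μL eL : ℕ} (hST : S ∩ T = {u}) (hL : Good T dL (μL + eL))
    (h2 : ∀ v ∈ T, 2 ≤ dL v) (hs : ∑ v ∈ T, dL v + 2 = 2 * (T.card + μL)) {d' : V → ℕ}
    (hdu : d' u = d u + dL u) (hdS : ∀ v ∈ S, v ≠ u → d' v = d v)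
    (hdT : ∀ v ∈ T, v ≠ u → d' v = dL v) :
    GS (S ∪ T) d' (μ + μL) (e + eL) (A ∪ (hi T dL).erase u)
      (fun v => if v = u then c u + dL u else if v ∈ A then c v else dL v)
      (m + ((lo T dL).erase u).card) (μ0 + μL) f1 f2 f3 := by
  classical
  set B := (hi T dL).erase u with hB
  set W := (lo T dL).erase u with hW
  set c' : V → ℕ := fun v => if v = u then c u + dL u else if v ∈ A then c v else dL v with hc'
  have huST : u ∈ S ∩ T := by rw [hST]; simp
  have huS : u ∈ S := (mem_inter.mp huST).1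
  have huT : u ∈ T := (mem_inter.mp huST).2
  have notS : ∀ v ∈ T, v ≠ u → v ∉ S := by
    intro v hv hvu hvS
    have : v ∈ S ∩ T := mem_inter.mpr ⟨hvS, hv⟩
    rw [hST, mem_singleton] at this
    exact hvu this
  have hBT : ∀ v ∈ B, v ∈ T ∧ v ≠ u ∧ 3 ≤ dL v := by
    intro v hv
    rw [hB, mem_erase, hi, mem_filter] at hv
    exact ⟨hv.2.1, hv.1, hv.2.2⟩
  have hWT : ∀ v ∈ W, v ∈ T ∧ v ≠ u ∧ dL v = 2 := by
    intro v hv
    rw [hW, mem_erase, lo, mem_filter] at hv
    exact ⟨hv.2.1, hv.1, hv.2.2⟩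
  have hAB : Disjoint A B := by
    rw [disjoint_left]
    intro v h5 h6
    exact notS v (hBT v h6).1 (hBT v h6).2.1 (h.sub h5)
  have hBW : Disjoint B W := by
    rw [disjoint_left]
    intro v h5 h6
    have := (hBT v h5).2.2
    have := (hWT v h6).2.2
    omega
  have hTdec : T = insert u (B ∪ W) := by
    ext v
    simp only [mem_insert, mem_union]
    constructor
    · intro hv
      by_cases hvu : v = u
      · exact Or.inl hvu
      · right
        have := h2 v hv
        rcases Nat.lt_or_ge (dL v) 3 with h3 | h3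
        · right; rw [hW, mem_erase, lo, mem_filter]; exact ⟨hvu, hv, by omega⟩
        · left; rw [hB, mem_erase, hi, mem_filter]; exact ⟨hvu, hv, h3⟩
    · rintro (rfl | hv | hv)
      · exact huT
      · exact (hBT v hv).1
      · exact (hWT v hv).1
  have huBW : u ∉ B ∪ W := by
    rw [mem_union, not_or]
    exact ⟨fun hh => (hBT u hh).2.1 rfl, fun hh => (hWT u hh).2.1 rfl⟩
  have hTcard : T.card = B.card + W.card + 1 := by
    rw [hTdec, card_insert_of_notMem huBW, card_union_of_disjoint hBW]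
  have hsW : ∑ v ∈ W, dL v = 2 * W.card := by
    rw [sum_congr rfl (fun v hv => (hWT v hv).2.2), sum_const]; simp [mul_comm]
  have hTsum : ∑ v ∈ T, dL v = dL u + ∑ v ∈ B, dL v + 2 * W.card := by
    rw [hTdec, sum_insert huBW, sum_union hBW, hsW]; ring
  have hset : (S ∪ T) \ (A ∪ B) = (S \ A) ∪ W := by
    ext x
    simp only [mem_sdiff, mem_union]
    constructor
    · rintro ⟨h5, h6⟩
      rw [not_or] at h6
      by_cases hxS : x ∈ S
      · exact Or.inl ⟨hxS, h6.1⟩
      · right
        have hxT : x ∈ T := by tauto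
        rw [hTdec, mem_insert, mem_union] at hxT
        rcases hxT with rfl | hxT | hxT
        · exact absurd huS hxS
        · exact absurd hxT h6.2
        · exact hxT
    · rintro (⟨h5, h6⟩ | h5)
      · refine ⟨Or.inl h5, ?_⟩
        rw [not_or]
        exact ⟨h6, fun h7 => notS x (hBT x h7).1 (hBT x h7).2.1 h5⟩
      · refine ⟨Or.inr (hWT x h5).1, ?_⟩
        rw [not_or]
        refine ⟨fun h7 => notS x (hWT x h5).1 (hWT x h5).2.1 (h.sub h7), fun h7 =>
          disjoint_left.mp hBW h7 h5⟩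
  have hdis : Disjoint (S \ A) W := by
    rw [disjoint_left]
    intro v h5 h6
    exact notS v (hWT v h6).1 (hWT v h6).2.1 (mem_sdiff.mp h5).1
  have hM1 := h.M1
  have hM2 := h.M2
  have hM3 := h.M3
  have hle := h.le
  have hcs := h.cs
  -- sums
  have s1 : ∑ v ∈ S \ A, i1 (d' v) = ∑ v ∈ S \ A, i1 (d v) := by
    refine sum_congr rfl ?_
    intro v hv
    rw [hdS v (mem_sdiff.mp hv).1 (by rintro rfl; exact (mem_sdiff.mp hv).2 huA)]
  have s2 : ∑ v ∈ S \ A, io (d' v) = ∑ v ∈ S \ A, io (d v) := by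
    refine sum_congr rfl ?_
    intro v hv
    rw [hdS v (mem_sdiff.mp hv).1 (by rintro rfl; exact (mem_sdiff.mp hv).2 huA)]
  have s3 : ∑ v ∈ W, i1 (d' v) = 0 := sum_eq_zero (fun v hv => by
    rw [hdT v (hWT v hv).1 (hWT v hv).2.1, (hWT v hv).2.2]; rfl)
  have s4 : ∑ v ∈ W, io (d' v) = 0 := sum_eq_zero (fun v hv => by
    rw [hdT v (hWT v hv).1 (hWT v hv).2.1, (hWT v hv).2.2]; rfl)
  have cu : c' u = c u + dL u := by simp [hc']
  have cA : ∀ v ∈ A, v ≠ u → c' v = c v := by
    intro v hv hvu; simp [hc', hvu, hv]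
  have cB : ∀ v ∈ B, c' v = dL v := by
    intro v hv
    have h5 := hBT v hv
    have h6 : v ∉ A := fun hh => notS v h5.1 h5.2.1 (h.sub hh)
    simp [hc', h5.2.1, h6]
  have s5 : ∑ v ∈ A, (d' v - c' v) % 2 = ∑ v ∈ A, (d v - c v) % 2 := by
    refine sum_congr rfl ?_
    intro v hv
    by_cases hvu : v = u
    · rw [hvu, hdu, cu]
      congr 1; omega
    · rw [hdS v (h.sub hv) hvu, cA v hv hvu]
  have s6 : ∑ v ∈ B, (d' v - c' v) % 2 = 0 := sum_eq_zero (fun v hv => by
    rw [hdT v (hBT v hv).1 (hBT v hv).2.1, cB v hv]; simp)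
  have s7 : ∑ v ∈ A, c' v = ∑ v ∈ A, c v + dL u := by
    rw [← add_sum_erase A c' huA, ← add_sum_erase A c huA, cu]
    have : ∑ v ∈ A.erase u, c' v = ∑ v ∈ A.erase u, c v :=
      sum_congr rfl (fun v hv => cA v (mem_erase.mp hv).2 (mem_erase.mp hv).1)
    omega
  have s8 : ∑ v ∈ B, c' v = ∑ v ∈ B, dL v := sum_congr rfl cB
  refine ⟨?_, ?_, ?_, by omega, ?_, ?_, ?_, ?_, ?_⟩
  · apply union_subset (h.sub.trans subset_union_left)
    intro v hv
    exact mem_union_right _ (hBT v hv).1
  · intro v hv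
    rw [mem_union] at hv
    rcases hv with hv | hv
    · by_cases hvu : v = u
      · rw [hvu, cu]; have := h.c1 u huA; omega
      · rw [cA v hv hvu]; exact h.c1 v hv
    · rw [cB v hv]; have := (hBT v hv).2.2; omega
  · intro v hv
    rw [mem_union] at hv
    rcases hv with hv | hv
    · by_cases hvu : v = u
      · rw [hvu, cu, hdu]; have := h.cd u huA; omega
      · rw [cA v hv hvu, hdS v (h.sub hv) hvu]; exact h.cd v hv
    · rw [cB v hv, hdT v (hBT v hv).1 (hBT v hv).2.1]
  · rw [sum_union hAB, card_union_of_disjoint hAB, s7, s8]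
    omega
  · -- the base
    have hmN : m ≤ (S \ A).card := by omega
    obtain ⟨W1, hW1, hW1c⟩ := exists_subset_card_eq hmN
    have hW1S : ∀ v ∈ W1, v ∈ S ∧ v ∉ A := fun v hv => mem_sdiff.mp (hW1 hv)
    have hAW1 : Disjoint A W1 := by
      rw [disjoint_left]
      intro v h5 h6
      exact (hW1S v h6).2 h5
    have hW1W : Disjoint W1 W := by
      rw [disjoint_left]
      intro v h5 h6
      exact notS v (hWT v h6).1 (hWT v h6).2.1 (hW1S v h5).1
    have g1 : Good (A ∪ W1) (fun v => if v ∈ A then c v else 2) (μ0 + e) := by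
      refine h.base W1 _ hAW1 hW1c ?_ ?_
      · intro v hv; simp [hv]
      · intro v hv; simp [(hW1S v hv).2]
    have hint : (A ∪ W1) ∩ T = {u} := by
      ext v
      rw [mem_inter, mem_union, mem_singleton]
      constructor
      · rintro ⟨h5, h6⟩
        by_contra hvu
        have h7 := notS v h6 hvu
        rcases h5 with h5 | h5
        · exact h7 (h.sub h5)
        · exact h7 (hW1S v h5).1
      · rintro rfl; exact ⟨Or.inl huA, huT⟩
    set dd : V → ℕ := fun v => if v ∈ A ∪ B then c' v else 2 with hdd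
    have g2 : Good ((A ∪ W1) ∪ T) dd (μ0 + e + (μL + eL)) := by
      refine g1.glue hL hint (v := u) ?_ ?_ ?_
      · simp [hdd, huA, cu]
      · intro w hw hwu
        rw [mem_union] at hw
        rcases hw with hw | hw
        · simp [hdd, hw, cA w hw hwu]
        · have h5 := hW1S w hw
          have h6 : w ∉ B := fun hh => notS w (hBT w hh).1 (hBT w hh).2.1 h5.1
          simp [hdd, h5.2, h6]
      · intro w hw hwu
        have h5 := notS w hw hwu
        have h6 : w ∉ A := fun hh => h5 (h.sub hh)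
        by_cases hwB : w ∈ B
        · simp [hdd, hwB, cB w hwB]
        · have hwW : w ∈ W := by
            rw [hTdec, mem_insert, mem_union] at hw; tauto
          simp [hdd, h6, hwB, (hWT w hwW).2.2]
    have hset2 : (A ∪ W1) ∪ T = (A ∪ B) ∪ (W1 ∪ W) := by
      ext v
      simp only [mem_union]
      rw [hTdec, mem_insert, mem_union]
      constructor
      · rintro ((h5 | h5) | rfl | h5 | h5)
        · tauto
        · tauto
        · left; left; exact huA
        · tauto
        · tauto
      · tauto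
    have hdis2 : Disjoint (A ∪ B) (W1 ∪ W) := by
      rw [disjoint_union_left, disjoint_union_right, disjoint_union_right]
      refine ⟨⟨hAW1, ?_⟩, ?_, hBW⟩
      · rw [disjoint_left]
        intro v h5 h6
        exact notS v (hWT v h6).1 (hWT v h6).2.1 (h.sub h5)
      · rw [disjoint_left]
        intro v h5 h6
        exact notS v (hBT v h5).1 (hBT v h5).2.1 (hW1S v h6).1
    rw [hset2] at g2
    have g3 := Base.of_one (c := c') g2 hdis2 (fun v hv => by simp only [hdd, hv, if_true])
      (by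
        intro v hv
        have : v ∉ A ∪ B := fun hh => disjoint_left.mp hdis2 hh hv
        simp only [hdd, this, if_false])
    rw [card_union_of_disjoint hW1W, hW1c] at g3
    have e9 : μ0 + μL + (e + eL) = μ0 + e + (μL + eL) := by ring
    rw [e9]; exact g3
  · rw [hset, sum_union hdis, card_union_of_disjoint hdis, s1, s3]
    omega
  · rw [hset, sum_union hdis, sum_union hAB, card_union_of_disjoint hdis, s2, s4, s5, s6]
    omega
  · rw [hset, sum_union hdis, sum_union hAB, s2, s4, s5, s6]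
    omega

end

end Pool.Agent.Helper53
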