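import Pool.Agent.Helper53.Span

/-!
# Blocks of a binary matroid and the quadratic lower bound on the number of circuits
-/

open Finset
open scoped symmDiff

set_option linter.unusedSectionVars false

namespace Pool.Agent.Helper53

variable {α : Type*} [DecidableEq α] {P : Finset α → Prop}

/-- any two elements of `U` lie in a common circuit inside `U` -/
def Con (P : Finset α → Prop) (U : Finset α) : Prop :=
  U.Nonempty ∧ ∀ f ∈ U, ∀ g ∈ U, ∃ C, C ⊆ U ∧ IsC P C ∧ f ∈ C ∧ g ∈ C

theorem mem_blk_symm {F : Finset α} {e f : α} : f ∈ blk P F e ↔ e ∈ blk P F f := by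
  rw [mem_blk, mem_blk]
  constructor
  · rintro ⟨C, h1, h2, h3, h4⟩; exact ⟨C, h1, h2, h4, h3⟩
  · rintro ⟨C, h1, h2, h3, h4⟩; exact ⟨C, h1, h2, h4, h3⟩

theorem mem_blk_trans (h : Fam P) {F : Finset α} {e f g : α} (h1 : f ∈ blk P F e)
    (h2 : g ∈ blk P F f) : g ∈ blk P F e := by
  obtain ⟨C, c1, c2, c3, c4⟩ := mem_blk.mp h2
  exact circuit_subset_blk h c1 c2 c3 h1 c4

theorem con_blk (h : Fam P) {F : Finset α} {e : α} (he : e ∈ cyc P F) : Con P (blk P F e) := by
  obtain ⟨C, c1, c2, c3⟩ := mem_cyc.mp he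
  refine ⟨⟨e, mem_blk.mpr ⟨C, c1, c2, c3, c3⟩⟩, ?_⟩
  intro f hf g hg
  have h1 : g ∈ blk P F f := mem_blk_trans h (mem_blk_symm.mp hf) hg
  obtain ⟨D, d1, d2, d3, d4⟩ := mem_blk.mp h1
  exact ⟨D, circuit_subset_blk h d1 d2 d3 hf, d2, d3, d4⟩

theorem self_mem_blk {F : Finset α} {e : α} (he : e ∈ cyc P F) : e ∈ blk P F e := by
  obtain ⟨C, c1, c2, c3⟩ := mem_cyc.mp he
  exact mem_blk.mpr ⟨C, c1, c2, c3, c3⟩

theorem Con.cyc_eq {U : Finset α} (hU : Con P U) : cyc P U = U := by
  apply Subset.antisymm (cyc_subset U)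
  intro e he
  obtain ⟨C, c1, c2, c3, _⟩ := hU.2 e he e he
  exact mem_cyc.mpr ⟨C, c1, c2, c3⟩

theorem Con.blk_eq {U : Finset α} (hU : Con P U) {e : α} (he : e ∈ U) : blk P U e = U := by
  apply Subset.antisymm (blk_subset U e)
  intro f hf
  obtain ⟨C, c1, c2, c3, c4⟩ := hU.2 e he f hf
  exact mem_blk.mpr ⟨C, c1, c2, c3, c4⟩

/-- `U` is a union of blocks of `F` -/
def Sep (P : Finset α → Prop) (F U : Finset α) : Prop :=
  U ⊆ F ∧ ∀ C, C ⊆ F → IsC P C → C ⊆ U ∨ C ⊆ F \ U

theorem sep_blk (h : Fam P) (F : Finset α) (e : α) : Sep P F (blk P F e) := by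
  refine ⟨blk_subset F e, ?_⟩
  intro C hC hCc
  by_cases hm : ∃ f ∈ C, f ∈ blk P F e
  · obtain ⟨f, hf, hfb⟩ := hm
    left; exact circuit_subset_blk h hC hCc hf hfb
  · right
    intro f hf
    rw [mem_sdiff]
    exact ⟨hC hf, fun hb => hm ⟨f, hf, hb⟩⟩

theorem Sep.even_inter (h : Fam P) {F U : Finset α} (hs : Sep P F U) {X : Finset α} (hX : X ⊆ F)
    (hP : P X) : P (X ∩ U) := by
  have hQ : Fam (fun Y : Finset α => P (Y ∩ U)) := by
    refine ⟨by rw [empty_inter]; exact h.zero, ?_⟩
    intro A B hA hB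
    have e : (A ∆ B) ∩ U = (A ∩ U) ∆ (B ∩ U) := by
      ext x; simp only [mem_inter, mem_symmDiff]; tauto
    show P ((A ∆ B) ∩ U)
    rw [e]; exact h.add _ _ hA hB
  refine h.ind hQ _ X le_rfl hP ?_
  intro C hC hCc
  rcases hs.2 C (hC.trans hX) hCc with h1 | h1
  · have : C ∩ U = C := inter_eq_left.mpr h1
    rw [this]; exact hCc.1
  · have : C ∩ U = ∅ := by
      rw [eq_empty_iff_forall_notMem]
      intro x hx
      rw [mem_inter] at hx
      have := h1 hx.1
      rw [mem_sdiff] at this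
      exact this.2 hx.2
    rw [this]; exact h.zero

theorem Sep.card_circ {F U : Finset α} (hs : Sep P F U) :
    (circ P F).card = (circ P U).card + (circ P (F \ U)).card := by
  have h1 : circ P F = circ P U ∪ circ P (F \ U) := by
    ext C
    rw [mem_union, mem_circ, mem_circ, mem_circ]
    constructor
    · rintro ⟨h1, h2⟩
      rcases hs.2 C h1 h2 with h3 | h3
      · exact Or.inl ⟨h3, h2⟩
      · exact Or.inr ⟨h3, h2⟩
    · rintro (⟨h1, h2⟩ | ⟨h1, h2⟩)
      · exact ⟨h1.trans hs.1, h2⟩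
      · exact ⟨h1.trans sdiff_subset, h2⟩
  rw [h1, card_union_of_disjoint]
  rw [disjoint_left]
  intro C h2 h3
  rw [mem_circ] at h2 h3
  obtain ⟨x, hx⟩ := h2.2.2.1
  have := h3.1 hx
  rw [mem_sdiff] at this
  exact this.2 (h2.1 hx)

theorem Sep.mu (h : Fam P) {F U : Finset α} (hs : Sep P F U) :
    mu P F = mu P U + mu P (F \ U) := by
  have h1 : (evs P F).card = (evs P U).card * (evs P (F \ U)).card := by
    rw [← card_product]
    apply card_bij' (fun X _ => (X ∩ U, X \ U)) (fun p _ => p.1 ∪ p.2)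
    · intro X hX
      rw [mem_evs] at hX
      rw [mem_product, mem_evs, mem_evs]
      have h2 := hs.even_inter h hX.1 hX.2
      refine ⟨⟨inter_subset_right, h2⟩, ?_, ?_⟩
      · intro x hx
        rw [mem_sdiff] at hx ⊢
        exact ⟨hX.1 hx.1, hx.2⟩
      · have := h.sdiff hX.2 h2 inter_subset_left
        have e : X \ (X ∩ U) = X \ U := by
          ext x; simp only [mem_sdiff, mem_inter]; tauto
        rwa [e] at this
    · intro p hp
      rw [mem_product, mem_evs, mem_evs] at hp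
      rw [mem_evs]
      refine ⟨union_subset (hp.1.1.trans hs.1) (hp.2.1.trans sdiff_subset), ?_⟩
      have := h.add _ _ hp.1.2 hp.2.2
      have e : p.1 ∆ p.2 = p.1 ∪ p.2 := by
        have hd : Disjoint p.1 p.2 := by
          rw [disjoint_left]
          intro x h3 h4
          have := hp.2.1 h4
          rw [mem_sdiff] at this
          exact this.2 (hp.1.1 h3)
        rw [hd.symmDiff_eq_sup]; rfl
      rwa [e] at this
    · intro X _
      ext x
      simp only [mem_union, mem_inter, mem_sdiff]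
      tauto
    · intro p hp
      rw [mem_product, mem_evs, mem_evs] at hp
      ext x
      · simp only [mem_inter, mem_union]
        constructor
        · rintro ⟨h3 | h3, h4⟩
          · exact h3
          · have := hp.2.1 h3
            rw [mem_sdiff] at this
            exact absurd h4 this.2
        · intro h3; exact ⟨Or.inl h3, hp.1.1 h3⟩
      · simp only [mem_sdiff, mem_union]
        constructor
        · rintro ⟨h3 | h3, h4⟩
          · exact absurd (hp.1.1 h3) h4
          · exact h3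
        · intro h3
          have := hp.2.1 h3
          rw [mem_sdiff] at this
          exact ⟨Or.inr h3, this.2⟩
  rw [card_evs h F, card_evs h U, card_evs h (F \ U), ← pow_add] at h1
  exact Nat.pow_right_injective (le_refl 2) h1

theorem Sep.cyc {F U : Finset α} (hs : Sep P F U) :
    cyc P F = cyc P U ∪ cyc P (F \ U) := by
  ext x
  rw [mem_union, mem_cyc, mem_cyc, mem_cyc]
  constructor
  · rintro ⟨C, c1, c2, c3⟩
    rcases hs.2 C c1 c2 with h | h
    · exact Or.inl ⟨C, h, c2, c3⟩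
    · exact Or.inr ⟨C, h, c2, c3⟩
  · rintro (⟨C, c1, c2, c3⟩ | ⟨C, c1, c2, c3⟩)
    · exact ⟨C, c1.trans hs.1, c2, c3⟩
    · exact ⟨C, c1.trans sdiff_subset, c2, c3⟩

theorem evs_cyc (h : Fam P) (F : Finset α) : evs P F = evs P (cyc P F) := by
  ext X
  rw [mem_evs, mem_evs]
  constructor
  · rintro ⟨h1, h2⟩
    refine ⟨?_, h2⟩
    intro x hx
    obtain ⟨C, c1, c2, c3⟩ := h.circuit h2 hx
    exact mem_cyc.mpr ⟨C, c1.trans h1, c2, c3⟩
  · rintro ⟨h1, h2⟩; exact ⟨h1.trans (cyc_subset F), h2⟩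

theorem mu_cyc (h : Fam P) (F : Finset α) : mu P F = mu P (cyc P F) := by
  rw [mu, mu, evs_cyc h F]

theorem circ_cyc (F : Finset α) : circ P F = circ P (cyc P F) := by
  ext C
  rw [mem_circ, mem_circ]
  constructor
  · rintro ⟨h1, h2⟩
    refine ⟨?_, h2⟩
    intro x hx
    exact mem_cyc.mpr ⟨C, h1, h2, hx⟩
  · rintro ⟨h1, h2⟩; exact ⟨h1.trans (cyc_subset F), h2⟩

/-- rank at most number of circuits -/
theorem mu_le_circ (h : Fam P) : ∀ (n : ℕ) (F : Finset α), F.card ≤ n →
    mu P F ≤ (circ P F).card := by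
  intro n
  induction n with
  | zero =>
    intro F hF
    have : F = ∅ := by simpa using hF
    rw [mu_of_cyc_empty h (by rw [this]; simp [Pool.Agent.Helper53.cyc])]
    exact Nat.zero_le _
  | succ n ih =>
    intro F hF
    rcases (Pool.Agent.Helper53.cyc P F).eq_empty_or_nonempty with h0 | ⟨e, he⟩
    · rw [mu_of_cyc_empty h h0]; exact Nat.zero_le _
    · have hlt : (F.erase e).card < F.card := card_erase_lt_of_mem (cyc_subset F he)
      have h1 := ih (F.erase e) (by omega)
      have h2 := mu_erase h he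
      have h3 := card_circ_erase (P := P) F e
      have h4 : 1 ≤ (thr P F e).card := by
        obtain ⟨C, c1, c2, c3⟩ := mem_cyc.mp he
        exact card_pos.mpr ⟨C, mem_thr.mpr ⟨c1, c2, c3⟩⟩
      omega

theorem con_circuit {C : Finset α} (hC : IsC P C) : Con P C :=
  ⟨hC.2.1, fun _ hf _ hg => ⟨C, Subset.refl _, hC, hf, hg⟩⟩

theorem Con.mu_pos (h : Fam P) {U : Finset α} (hU : Con P U) : 1 ≤ mu P U := by
  obtain ⟨e, he⟩ := hU.1
  have h1 : e ∈ cyc P U := by rw [hU.cyc_eq]; exact he
  have := mu_erase h h1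
  omega

theorem Con.mu_le_thr (h : Fam P) {U : Finset α} (hU : Con P U) {e : α} (he : e ∈ U) :
    mu P U ≤ (thr P U e).card := by
  have := mu_blk_le (F := U) (e := e) h
  rwa [hU.blk_eq he] at this

/-- gluing a circuit to a connected set it meets -/
theorem Con.union_circuit (h : Fam P) {A D : Finset α} (hA : Con P A) (hD : IsC P D) {a : α}
    (haA : a ∈ A) (haD : a ∈ D) : Con P (A ∪ D) := by
  have h1 : blk P (A ∪ D) a = A ∪ D := by
    apply Subset.antisymm (blk_subset _ _)
    intro x hx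
    rw [mem_union] at hx
    rcases hx with hx | hx
    · obtain ⟨C, c1, c2, c3, c4⟩ := hA.2 a haA x hx
      exact mem_blk.mpr ⟨C, c1.trans subset_union_left, c2, c3, c4⟩
    · exact mem_blk.mpr ⟨D, subset_union_right, hD, haD, hx⟩
  have h2 : a ∈ cyc P (A ∪ D) := mem_cyc.mpr ⟨D, subset_union_right, hD, haD⟩
  have := con_blk h h2
  rwa [h1] at this

/-- last ear: a connected set of rank at least two is a connected set of rank one less plus a
series class -/
theorem Con.last_ear (h : Fam P) {U : Finset α} (hU : Con P U) (h2 : 2 ≤ mu P U) :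
    ∃ A, A ⊆ U ∧ Con P A ∧ mu P U = mu P A + 1 ∧
      (circ P A).card + mu P U ≤ (circ P U).card ∧ (U \ A).Nonempty ∧
      (∃ e ∈ U \ A, ser P U e = U \ A) := by
  classical
  -- the family of proper connected subsets
  set 𝒜 := U.powerset.filter (fun A => A ≠ U ∧ Con P A) with h𝒜
  have hne : 𝒜.Nonempty := by
    have hex : ∃ C, C ⊆ U ∧ IsC P C ∧ C ≠ U := by
      by_contra hcon
      push Not at hcon
      have h3 : ∀ C, C ⊆ U → IsC P C → C = U := hcon
      obtain ⟨e, he⟩ := hU.1
      have h4 : thr P U e ⊆ {U} := by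
        intro C hC
        obtain ⟨c1, c2, _⟩ := mem_thr.mp hC
        rw [mem_singleton]; exact h3 C c1 c2
      have h5 := card_le_card h4
      rw [card_singleton] at h5
      have := hU.mu_le_thr h he
      omega
    obtain ⟨C, c1, c2, c3⟩ := hex
    exact ⟨C, by rw [h𝒜, mem_filter, mem_powerset]; exact ⟨c1, c3, con_circuit c2⟩⟩
  obtain ⟨A, hA, hmax⟩ := exists_max_image 𝒜 card hne
  rw [h𝒜, mem_filter, mem_powerset] at hA
  obtain ⟨hAU, hAne, hAc⟩ := hA
  have hex : ∃ e ∈ U, e ∉ A := by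
    by_contra hcon
    push Not at hcon
    exact hAne (Subset.antisymm hAU hcon)
  -- any circuit meeting A and not inside A covers U \ A
  have hcov : ∀ D, D ⊆ U → IsC P D → ∀ a ∈ A, a ∈ D → (∃ x ∈ D, x ∉ A) → U \ A ⊆ D := by
    intro D hDU hD a haA haD hx
    obtain ⟨x, hxD, hxA⟩ := hx
    have h3 := hAc.union_circuit h hD haA haD
    have h4 : A ∪ D = U := by
      by_contra hne
      have h5 : A ∪ D ∈ 𝒜 := by
        rw [h𝒜, mem_filter, mem_powerset]
        exact ⟨union_subset hAU hDU, hne, h3⟩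
      have h6 := hmax _ h5
      have h7 : A.card < (A ∪ D).card := by
        apply card_lt_card
        rw [ssubset_iff_of_subset subset_union_left]
        exact ⟨x, mem_union_right _ hxD, hxA⟩
      omega
    intro y hy
    rw [mem_sdiff, ← h4, mem_union] at hy
    tauto
  obtain ⟨e, heU, heA⟩ := hex
  obtain ⟨a0, ha0⟩ := hAc.1
  obtain ⟨D, d1, d2, d3, d4⟩ := hU.2 e heU a0 (hAU ha0)
  have hcovD := hcov D d1 d2 a0 ha0 d4 ⟨e, d3, heA⟩
  -- every circuit through e covers U \ A
  have hall : ∀ D' ∈ thr P U e, U \ A ⊆ D' := by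
    intro D' hD'
    obtain ⟨e1, e2, e3⟩ := mem_thr.mp hD'
    by_cases hm : ∃ a ∈ A, a ∈ D'
    · obtain ⟨a, haA, haD⟩ := hm
      exact hcov D' e1 e2 a haA haD ⟨e, e3, heA⟩
    · exfalso
      have h3 : D' ⊆ D := by
        intro x hx
        apply hcovD
        rw [mem_sdiff]
        exact ⟨e1 hx, fun hxA => hm ⟨x, hxA, hx⟩⟩
      have h4 : D' = D := d2.eq_of_subset e2 h3
      exact hm ⟨a0, ha0, by rw [h4]; exact d4⟩
  have heC : e ∈ cyc P U := by rw [hU.cyc_eq]; exact heU
  have hser : ser P U e = U \ A := by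
    apply Subset.antisymm
    · intro f hf
      rw [mem_sdiff]
      have hfU := (mem_ser.mp hf).1
      refine ⟨hfU, ?_⟩
      intro hfA
      obtain ⟨C, c1, c2, c3, _⟩ := hAc.2 f hfA f hfA
      have := ser_symm h heC hf (mem_thr.mpr ⟨c1.trans hAU, c2, c3⟩)
      exact heA (c1 this)
    · intro f hf
      rw [mem_ser]
      exact ⟨(mem_sdiff.mp hf).1, fun C hC => hall C hC hf⟩
  have hcyc : cyc P (U.erase e) = A := by
    rw [cyc_erase h heC, hser, hU.cyc_eq]
    ext x; simp only [mem_sdiff]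
    constructor
    · tauto
    · intro hx; exact ⟨hAU hx, fun hh => hh.2 hx⟩
  have hmu := mu_erase h heC
  rw [mu_cyc h (U.erase e), hcyc] at hmu
  have hcirc := card_circ_erase (P := P) U e
  rw [circ_cyc (U.erase e), hcyc] at hcirc
  have hthr := hU.mu_le_thr h heU
  refine ⟨A, hAU, hAc, hmu, by omega, ⟨e, mem_sdiff.mpr ⟨heU, heA⟩⟩,
    e, mem_sdiff.mpr ⟨heU, heA⟩, hser⟩

/-- quadratic lower bound for the number of circuits of a connected set -/
theorem Con.quad (h : Fam P) : ∀ (m : ℕ) (U : Finset α), Con P U → mu P U = m →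
    m * (m + 1) ≤ 2 * (circ P U).card := by
  intro m
  induction m with
  | zero => intro U _ _; simp
  | succ m ih =>
    intro U hU hm
    by_cases h2 : 2 ≤ mu P U
    · obtain ⟨A, _, hA, hmu, hcirc, _⟩ := hU.last_ear h h2
      have h3 := ih A hA (by omega)
      nlinarith
    · have hm0 : m = 0 := by omega
      subst hm0
      have := mu_le_circ h U.card U le_rfl
      omega

end Pool.Agent.Helper53
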