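import Pool.Agent.Helper53.Nec

/-!
# Constructions: gluing at a vertex and subdividing an edge
-/

open Finset
open scoped symmDiff

set_option linter.unusedSectionVars false

namespace Pool.Agent.Helper53

variable {V : Type*} [Fintype V] [DecidableEq V]

/-- `F` is a set of edges on the vertex set `S` making `S` connected -/
structure Ok (S : Finset V) (F : Finset (Sym2 V)) : Prop where
  nd : ∀ e ∈ F, ¬ e.IsDiag
  sup : ∀ e ∈ F, ∀ v ∈ e, v ∈ S
  ne : S.Nonempty
  con : ∀ x ∈ S, ∀ y ∈ S, (SimpleGraph.fromEdgeSet (F : Set (Sym2 V))).Reachable x y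

theorem Ok.dg_zero {S : Finset V} {F : Finset (Sym2 V)} (h : Ok S F) {v : V} (hv : v ∉ S) :
    dg F v = 0 := by
  by_contra hne
  obtain ⟨e, he, hve⟩ := dg_pos.mp (Nat.pos_of_ne_zero hne)
  exact hv (h.sup e he v hve)

/-- gluing two connected pieces at a common vertex -/
theorem Ok.glue {S T : Finset V} {F K : Finset (Sym2 V)} (hF : Ok S F) (hK : Ok T K) {v : V}
    (hST : S ∩ T = {v}) : Ok (S ∪ T) (F ∪ K) where
  nd := by
    intro e he
    rw [mem_union] at he
    rcases he with he | he
    · exact hF.nd e he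
    · exact hK.nd e he
  sup := by
    intro e he w hw
    rw [mem_union] at he ⊢
    rcases he with he | he
    · exact Or.inl (hF.sup e he w hw)
    · exact Or.inr (hK.sup e he w hw)
  ne := hF.ne.mono subset_union_left
  con := by
    have hv : v ∈ S ∩ T := by rw [hST]; simp
    rw [mem_inter] at hv
    have m1 : SimpleGraph.fromEdgeSet (F : Set (Sym2 V)) ≤
        SimpleGraph.fromEdgeSet ((F ∪ K : Finset (Sym2 V)) : Set (Sym2 V)) :=
      SimpleGraph.fromEdgeSet_mono (by intro e he; simp at he ⊢; exact Or.inl he)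
    have m2 : SimpleGraph.fromEdgeSet (K : Set (Sym2 V)) ≤
        SimpleGraph.fromEdgeSet ((F ∪ K : Finset (Sym2 V)) : Set (Sym2 V)) :=
      SimpleGraph.fromEdgeSet_mono (by intro e he; simp at he ⊢; exact Or.inr he)
    have key : ∀ x ∈ S ∪ T, (SimpleGraph.fromEdgeSet
        ((F ∪ K : Finset (Sym2 V)) : Set (Sym2 V))).Reachable x v := by
      intro x hx
      rw [mem_union] at hx
      rcases hx with hx | hx
      · exact (hF.con x hx v hv.1).mono m1
      · exact (hK.con x hx v hv.2).mono m2
    intro x hx y hy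
    exact (key x hx).trans (key y hy).symm

theorem glue_disjoint {S T : Finset V} {F K : Finset (Sym2 V)} (hF : Ok S F) (hK : Ok T K) {v : V}
    (hST : S ∩ T = {v}) : Disjoint F K := by
  rw [disjoint_left]
  intro e he1 he2
  have hnd := hF.nd e he1
  induction e using Sym2.ind with
  | _ a b =>
    have ha : a ∈ S ∩ T := mem_inter.mpr ⟨hF.sup _ he1 a (by simp), hK.sup _ he2 a (by simp)⟩
    have hb : b ∈ S ∩ T := mem_inter.mpr ⟨hF.sup _ he1 b (by simp), hK.sup _ he2 b (by simp)⟩
    rw [hST, mem_singleton] at ha hb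
    apply hnd
    simp [ha, hb]

/-- the part of an even set inside a piece glued at one vertex is even -/
theorem evenSet_inter {S T : Finset V} {F K : Finset (Sym2 V)} (hF : Ok S F) (hK : Ok T K) {v : V}
    (hST : S ∩ T = {v}) {X : Finset (Sym2 V)} (hX : X ⊆ F ∪ K) (hXe : EvenSet X) :
    EvenSet (X ∩ K) := by
  have hnd : ∀ e ∈ X ∩ K, ¬ e.IsDiag := fun e he => hK.nd e (mem_inter.mp he).2
  rw [evenSet_iff_odds hnd]
  have h1 : odds (X ∩ K) ⊆ {v} := by
    intro w hw
    rw [mem_singleton]
    by_contra hwv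
    rw [mem_odds] at hw
    -- w is touched by K, so not in S
    obtain ⟨e, he, hwe⟩ := dg_pos.mp hw.pos
    have hwT : w ∈ T := hK.sup e (mem_inter.mp he).2 w hwe
    have hwS : w ∉ S := by
      intro hwS
      have : w ∈ S ∩ T := mem_inter.mpr ⟨hwS, hwT⟩
      rw [hST, mem_singleton] at this
      exact hwv this
    have h2 : dg (X ∩ K) w = dg X w := by
      unfold dg
      congr 1
      ext f
      simp only [mem_filter, mem_inter]
      constructor
      · rintro ⟨⟨h1, _⟩, h3⟩; exact ⟨h1, h3⟩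
      · rintro ⟨h1, h3⟩
        refine ⟨⟨h1, ?_⟩, h3⟩
        have := hX h1
        rw [mem_union] at this
        rcases this with h4 | h4
        · exact absurd (hF.sup f h4 w h3) hwS
        · exact h4
    rw [h2] at hw
    exact (Nat.not_odd_iff_even.mpr (hXe.2 w)) hw
  have h2 := even_card_odds hnd
  rcases subset_singleton_iff.mp h1 with h3 | h3
  · exact h3
  · rw [h3] at h2; simp at h2

/-- gluing adds up the numbers of circuits -/
theorem card_circ_glue {S T : Finset V} {F K : Finset (Sym2 V)} (hF : Ok S F) (hK : Ok T K) {v : V}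
    (hST : S ∩ T = {v}) :
    (circ EvenSet (F ∪ K)).card = (circ EvenSet F).card + (circ EvenSet K).card := by
  classical
  have hdis := glue_disjoint hF hK hST
  have h1 : circ EvenSet (F ∪ K) = circ EvenSet F ∪ circ EvenSet K := by
    ext X
    rw [mem_union, mem_circ, mem_circ, mem_circ]
    constructor
    · rintro ⟨hX, hc⟩
      have h2 := evenSet_inter hF hK hST hX hc.1
      rcases hc.2.2 _ inter_subset_left h2 with h3 | h3
      · left
        refine ⟨?_, hc⟩
        intro e he
        have := hX he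
        rw [mem_union] at this
        rcases this with h4 | h4
        · exact h4
        · exfalso
          have : e ∈ X ∩ K := mem_inter.mpr ⟨he, h4⟩
          rw [h3] at this; simp at this
      · right
        refine ⟨?_, hc⟩
        rw [← h3]; exact inter_subset_right
    · rintro (⟨h2, h3⟩ | ⟨h2, h3⟩)
      · exact ⟨h2.trans subset_union_left, h3⟩
      · exact ⟨h2.trans subset_union_right, h3⟩
  rw [h1, card_union_of_disjoint]
  rw [disjoint_left]
  intro X hX1 hX2
  rw [mem_circ] at hX1 hX2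
  obtain ⟨e, he⟩ := hX1.2.2.1
  exact disjoint_left.mp hdis (hX1.1 he) (hX2.1 he)

/-- `S` carries a connected graph with degrees `d` and exactly `k` circuits -/
def Good (S : Finset V) (d : V → ℕ) (k : ℕ) : Prop :=
  ∃ F : Finset (Sym2 V), Ok S F ∧ (∀ v ∈ S, dg F v = d v) ∧ (circ EvenSet F).card = k

theorem Good.congr {S : Finset V} {d d' : V → ℕ} {k : ℕ} (h : Good S d k)
    (hd : ∀ v ∈ S, d' v = d v) : Good S d' k := by
  obtain ⟨F, h1, h2, h3⟩ := h
  exact ⟨F, h1, fun v hv => by rw [h2 v hv, hd v hv], h3⟩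

/-- the gluing operation -/
theorem Good.glue {S T : Finset V} {d1 d2 d : V → ℕ} {k1 k2 : ℕ} (h1 : Good S d1 k1)
    (h2 : Good T d2 k2) {v : V} (hST : S ∩ T = {v}) (hv : d v = d1 v + d2 v)
    (hS : ∀ w ∈ S, w ≠ v → d w = d1 w) (hT : ∀ w ∈ T, w ≠ v → d w = d2 w) :
    Good (S ∪ T) d (k1 + k2) := by
  obtain ⟨F, hF, hdF, hkF⟩ := h1
  obtain ⟨K, hK, hdK, hkK⟩ := h2
  have hvST : v ∈ S ∩ T := by rw [hST]; simp
  rw [mem_inter] at hvST
  refine ⟨F ∪ K, hF.glue hK hST, ?_, by rw [card_circ_glue hF hK hST, hkF, hkK]⟩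
  intro w hw
  rw [dg_union (glue_disjoint hF hK hST)]
  by_cases hwv : w = v
  · subst hwv
    rw [hdF w hvST.1, hdK w hvST.2, hv]
  · rw [mem_union] at hw
    by_cases hwS : w ∈ S
    · have hwT : w ∉ T := by
        intro hwT
        have : w ∈ S ∩ T := mem_inter.mpr ⟨hwS, hwT⟩
        rw [hST, mem_singleton] at this
        exact hwv this
      rw [hK.dg_zero hwT, hdF w hwS, hS w hwS hwv]
      rfl
    · have hwT : w ∈ T := by tauto
      rw [hF.dg_zero hwS, hdK w hwT, hT w hwT hwv]
      simp

/-- a single vertex -/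
theorem good_single (v : V) (d : V → ℕ) (hd : d v = 0) : Good {v} d 0 := by
  refine ⟨∅, ⟨by simp, by simp, by simp, ?_⟩, ?_, ?_⟩
  · intro x hx y hy
    rw [mem_singleton] at hx hy
    rw [hx, hy]
  · intro w hw
    rw [mem_singleton] at hw
    rw [hw, hd]; simp [dg]
  · rw [card_eq_zero]
    ext X
    rw [mem_circ]
    constructor
    · rintro ⟨h1, h2⟩
      obtain ⟨e, he⟩ := h2.2.1
      have := h1 he
      simp at this
    · intro h; simp at h

end Pool.Agent.Helper53
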