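import Pool.Agent.Helper53.SmallSuff

/-!
# Chains of ears: cubic bases with a prescribed number of circuits
-/

open Finset Function
open scoped symmDiff

set_option linter.unusedSectionVars false
set_option linter.unusedSimpArgs false

namespace Pool.Agent.Helper53

/-- every choice of `2 n` vertices of degree three and `n + 1` vertices of degree two carries a
graph with `n + 1 + e` circuits and a root edge in exactly `t` circuits -/
def Ch (V : Type*) [Fintype V] [DecidableEq V] (n e t : ℕ) : Prop :=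
  ∀ (A O : Finset V) (d : V → ℕ), Disjoint A O → A.card = 2 * n → O.card = n + 1 →
    (∀ v ∈ A, d v = 3) → (∀ v ∈ O, d v = 2) → ∃ a b, Net (A ∪ O) d (n + 1 + e) t a b

/-- cubic bases -/
def Bs (V : Type*) [Fintype V] [DecidableEq V] (n e : ℕ) : Prop :=
  ∀ (A : Finset V) (c : V → ℕ), A.card = 2 * n → (∀ v ∈ A, c v = 3) →
    Base A c (n + 1) (n + 1 + e)

variable {V : Type*} [Fintype V] [DecidableEq V]

theorem Net.congr {S S' : Finset V} {d d' : V → ℕ} {K t : ℕ} {a b : V} (h : Net S d K t a b)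
    (hS : S' = S) (hd : ∀ v ∈ S, d' v = d v) : Net S' d' K t a b := by
  subst hS
  obtain ⟨F, h1, h2, h3, h4, h5⟩ := h
  exact ⟨F, h1, fun v hv => by rw [h2 v hv, hd v hv], h3, h4, h5⟩

theorem Ch.start : Ch V 1 1 2 := by
  intro A O d hdis hA hO h3 h2
  obtain ⟨a, b, hab, rfl⟩ := card_eq_two.mp hA
  obtain ⟨x, y, hxy, rfl⟩ := card_eq_two.mp hO
  have ma : a ∈ ({a, b} : Finset V) := by simp
  have mb : b ∈ ({a, b} : Finset V) := by simp
  have mx : x ∈ ({x, y} : Finset V) := by simp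
  have my : y ∈ ({x, y} : Finset V) := by simp
  have hax := notin_of_disj hdis ma mx
  have hay := notin_of_disj hdis ma my
  have hbx := notin_of_disj hdis mb mx
  have hby := notin_of_disj hdis mb my
  have h := net_dia hab hax hay hbx hby hxy d (h3 a ma) (h3 b mb) (h2 x mx) (h2 y my)
  refine ⟨a, y, h.congr ?_ (fun _ _ => rfl)⟩
  ext v; simp only [mem_union, mem_insert, mem_singleton]; tauto

/-- the situation before adding the last ear -/
theorem Ch.pre {n e t : ℕ} (h : Ch V n e t) {A O : Finset V} {d : V → ℕ} (hdis : Disjoint A O)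
    (hA : A.card = 2 * (n + 1)) (hO : O.card = n + 1 + 1) (h3 : ∀ v ∈ A, d v = 3)
    (h2 : ∀ v ∈ O, d v = 2) :
    ∃ (z1 z2 z3 : V) (d2 : V → ℕ), z1 ∈ A ∧ z2 ∈ A ∧ z3 ∈ O ∧ z1 ≠ z2 ∧ d2 z1 = 2 ∧ d2 z2 = 2 ∧
      (∀ v, v ≠ z1 → v ≠ z2 → d v = d2 v) ∧
      Net ((A ∪ O).erase z3) d2 (n + 1 + e) t z1 z2 := by
  obtain ⟨A', hA'A, hA'c⟩ := exists_subset_card_eq (show 2 ≤ A.card by omega)
  obtain ⟨z1, z2, hz12, rfl⟩ := card_eq_two.mp hA'c
  have hz1 : z1 ∈ A := hA'A (by simp)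
  have hz2 : z2 ∈ A := hA'A (by simp)
  obtain ⟨z3, hz3⟩ := card_pos.mp (show 0 < O.card by omega)
  set d2 : V → ℕ := fun v => if v = z1 ∨ v = z2 then 2 else d v with hd2
  have e1 : d2 z1 = 2 := by simp [hd2]
  have e2 : d2 z2 = 2 := by simp [hd2]
  have e3 : ∀ v, v ≠ z1 → v ≠ z2 → d v = d2 v := by
    intro v h5 h6; simp [hd2, h5, h6]
  have n1 : z1 ∉ O := fun hh => disjoint_left.mp hdis hz1 hh
  have n2 : z2 ∉ O := fun hh => disjoint_left.mp hdis hz2 hh
  have n3 : z3 ∉ A := fun hh => disjoint_left.mp hdis hh hz3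
  have c1 : (A \ {z1, z2}).card = 2 * n := by
    rw [card_sdiff_of_subset hA'A, hA'c, hA]; omega
  have c2 : (O.erase z3).card = n + 1 := by
    rw [card_erase_of_mem hz3, hO]; omega
  have dis' : Disjoint (A \ {z1, z2}) (O.erase z3) :=
    hdis.mono sdiff_subset (erase_subset _ _)
  obtain ⟨a, b, hN⟩ := h (A \ {z1, z2}) (O.erase z3) d dis' c1 c2
    (fun v hv => h3 v (mem_sdiff.mp hv).1) (fun v hv => h2 v (mem_of_mem_erase hv))
  have hz1n : z1 ∉ (A \ {z1, z2}) ∪ O.erase z3 := by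
    simp [n1]
  have hN1 := (hN.sub (z := z1) (d' := fun v => if v = z1 then 2 else d v) hz1n (by simp)
    (fun v hv => by
      have : v ≠ z1 := by rintro rfl; exact hz1n hv
      simp [this])).symm
  have hz2n : z2 ∉ insert z1 ((A \ {z1, z2}) ∪ O.erase z3) := by
    simp [n2, hz12.symm]
  have hN2 := hN1.sub (z := z2) (d' := d2) hz2n e2
    (fun v hv => by
      have h7 : v ≠ z2 := by rintro rfl; exact hz2n hv
      by_cases h8 : v = z1
      · simp [h8, e1]
      · simp [hd2, h7, h8])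
  refine ⟨z1, z2, z3, d2, hz1, hz2, hz3, hz12, e1, e2, e3, hN2.congr ?_ (fun _ _ => rfl)⟩
  ext v
  simp only [mem_erase, mem_union, mem_insert, mem_sdiff, mem_singleton, not_or]
  constructor
  · rintro ⟨h5, h6 | h6⟩
    · by_cases h7 : v = z2
      · exact Or.inl h7
      · by_cases h8 : v = z1
        · exact Or.inr (Or.inl h8)
        · exact Or.inr (Or.inr (Or.inl ⟨h6, h8, h7⟩))
    · exact Or.inr (Or.inr (Or.inr ⟨h5, h6⟩))
  · rintro (rfl | rfl | ⟨h5, _, _⟩ | ⟨h5, h6⟩)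
    · exact ⟨fun hh => n3 (hh ▸ hz2), Or.inl hz2⟩
    · exact ⟨fun hh => n3 (hh ▸ hz1), Or.inl hz1⟩
    · exact ⟨fun hh => n3 (hh ▸ h5), Or.inl h5⟩
    · exact ⟨h5, Or.inr h6⟩

theorem Ch.stepA {n e t : ℕ} (h : Ch V n e t) : Ch V (n + 1) (e + t) (t + 1) := by
  intro A O d hdis hA hO h3 h2
  obtain ⟨z1, z2, z3, d2, hz1, hz2, hz3, hz12, e1, e2, e3, hN⟩ := h.pre hdis hA hO h3 h2
  have hN2 := hN.earA (z := z3) (d' := d) (by simp) (h2 z3 hz3) (by rw [h3 z1 hz1, e1])
    (by rw [h3 z2 hz2, e2]) (fun v _ h5 h6 => e3 v h5 h6)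
  rw [insert_erase (mem_union_right _ hz3)] at hN2
  refine ⟨z1, z3, ?_⟩
  have e4 : n + 1 + 1 + (e + t) = n + 1 + e + t + 1 := by omega
  rw [e4]
  exact hN2

theorem Ch.stepB {n e t : ℕ} (h : Ch V n e t) : Ch V (n + 1) (e + t) (2 * t) := by
  intro A O d hdis hA hO h3 h2
  obtain ⟨z1, z2, z3, d2, hz1, hz2, hz3, hz12, e1, e2, e3, hN⟩ := h.pre hdis hA hO h3 h2
  obtain ⟨a', hN2⟩ := hN.earB (z := z3) (d' := d) e1 (by simp) (h2 z3 hz3)
    (by rw [h3 z1 hz1, e1]) (by rw [h3 z2 hz2, e2]) (fun v _ h5 h6 => e3 v h5 h6)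
  rw [insert_erase (mem_union_right _ hz3)] at hN2
  refine ⟨a', z1, ?_⟩
  have e4 : n + 1 + 1 + (e + t) = n + 1 + e + t + 1 := by omega
  rw [e4]
  exact hN2

theorem Ch.bs {n e t : ℕ} (h : Ch V n e t) : Bs V n e := by
  intro A c hA hc O d h1 h2 h3 h4
  obtain ⟨a, b, hN⟩ := h A O d h1 hA h2 (fun v hv => by rw [h3 v hv, hc v hv]) h4
  exact hN.good

/-- joining two bases by an edge -/
theorem Bs.join {n1 e1 n2 e2 : ℕ} (h1 : Bs V n1 e1) (h2 : Bs V n2 e2) :
    Bs V (n1 + n2 + 1) (e1 + e2) := by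
  intro A c hA hc
  obtain ⟨B, hBA, hBc⟩ := exists_subset_card_eq (show 2 ≤ A.card by omega)
  obtain ⟨u, w, huw, rfl⟩ := card_eq_two.mp hBc
  have huA : u ∈ A := hBA (by simp)
  have hwA : w ∈ A := hBA (by simp)
  have c1 : (A \ {u, w}).card = 2 * n1 + 2 * n2 := by
    rw [card_sdiff_of_subset hBA, hBc, hA]; omega
  obtain ⟨A1, hA1, hA1c⟩ := exists_subset_card_eq (show 2 * n1 ≤ (A \ {u, w}).card by omega)
  set A2 := (A \ {u, w}) \ A1 with hA2
  have hA2c : A2.card = 2 * n2 := by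
    rw [hA2, card_sdiff_of_subset hA1, c1, hA1c]; omega
  have in1 : ∀ v ∈ A1, v ∈ A ∧ v ≠ u ∧ v ≠ w := by
    intro v hv
    have := hA1 hv
    simp only [mem_sdiff, mem_insert, mem_singleton, not_or] at this
    tauto
  have in2 : ∀ v ∈ A2, v ∈ A ∧ v ≠ u ∧ v ≠ w ∧ v ∉ A1 := by
    intro v hv
    rw [hA2] at hv
    simp only [mem_sdiff, mem_insert, mem_singleton, not_or] at hv
    tauto
  have hw1 : w ∉ A1 := fun hh => (in1 w hh).2.2 rfl
  have hu1 : u ∉ A1 := fun hh => (in1 u hh).2.1 rfl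
  have hu2 : u ∉ A2 := fun hh => (in2 u hh).2.1 rfl
  have b1 : Base A1 (fun _ => 3) (n1 + 1) (n1 + 1 + e1) := h1 A1 _ hA1c (fun _ _ => rfl)
  have b2 : Base A2 (fun _ => 3) (n2 + 1) (n2 + 1 + e2) := h2 A2 _ hA2c (fun _ _ => rfl)
  have b3 := ((b1.subd (by omega)).slot hw1).pend (a := w) (u := u) (mem_insert_self _ _)
    (by rw [mem_insert, not_or]; exact ⟨huw, hu1⟩) (by simp)
  have b4 := (b2.subd (by omega)).slot hu2
  have b5 := b3.glue (c := c) (u := u) b4 ?_ ?_ ?_ ?_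
  · have s1 : insert u (insert w A1) ∪ insert u A2 = A := by
      ext v
      simp only [mem_union, mem_insert]
      constructor
      · rintro ((rfl | rfl | h) | rfl | h)
        · exact huA
        · exact hwA
        · exact (in1 v h).1
        · exact huA
        · exact (in2 v h).1
      · intro hv
        by_cases h5 : v = u
        · exact Or.inl (Or.inl h5)
        · by_cases h6 : v = w
          · exact Or.inl (Or.inr (Or.inl h6))
          · by_cases h7 : v ∈ A1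
            · exact Or.inl (Or.inr (Or.inr h7))
            · right; right
              rw [hA2]
              simp only [mem_sdiff, mem_insert, mem_singleton, not_or]
              exact ⟨⟨hv, h5, h6⟩, h7⟩
    rw [s1] at b5
    have s2 : n1 + n2 + 1 + 1 = n1 + 1 + (n2 + 1) := by omega
    have s3 : n1 + n2 + 1 + 1 + (e1 + e2) = n1 + 1 + e1 + (n2 + 1 + e2) := by omega
    rw [s3, s2]
    exact b5
  · ext v
    simp only [mem_inter, mem_insert, mem_singleton]
    constructor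
    · rintro ⟨h5 | h5 | h5, h6 | h6⟩
      · exact h5
      · exact h5
      · exact h6
      · exact absurd h5 (in2 v h6).2.2.1
      · exact h6
      · exact absurd h5 (in2 v h6).2.2.2
    · rintro rfl
      exact ⟨Or.inl rfl, Or.inl rfl⟩
  · rw [hc u huA, update_of_ne huw, update_self, update_self]
  · intro v hv hvu
    rw [mem_insert] at hv
    have hv' : v ∈ insert w A1 := by tauto
    rw [mem_insert] at hv'
    by_cases hvw : v = w
    · rw [hvw, hc w hwA, update_self, update_self]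
    · have hvA1 : v ∈ A1 := by tauto
      rw [hc v (in1 v hvA1).1, update_of_ne hvw, update_of_ne hvu, update_of_ne hvw]
  · intro v hv hvu
    rw [mem_insert] at hv
    have hv' : v ∈ A2 := by tauto
    rw [hc v (in2 v hv').1, update_of_ne hvu]

end Pool.Agent.Helper53
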