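import Pool.Agent.Helper53.Euler

/-!
# The excess of an even set lies in the semigroup generated by three and seven
-/

open Finset
open scoped symmDiff

set_option linter.unusedSectionVars false

namespace Pool.Agent.Helper53

variable {α : Type*} [DecidableEq α] {P : Finset α → Prop}

/-- cutting a circuit at two suitable elements lowers the rank by two -/
theorem cut_two (h : Fam P) {W A X B : Finset α} (hAW : A ⊆ W) (hXW : X ⊆ W) (hBW : B ⊆ W)
    (hA : P A) (hX : P X) (hAB : Disjoint A B) {x y : α} (hx : x ∈ A ∧ x ∈ X)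
    (hy : y ∈ A ∧ y ∉ X) : mu P B + 2 ≤ mu P W := by
  obtain ⟨C, c1, c2, c3⟩ := h.circuit hX hx.2
  have hxc : x ∈ cyc P W := mem_cyc.mpr ⟨C, c1.trans hXW, c2, c3⟩
  have hyAD : y ∈ A ∆ X := by rw [mem_symmDiff]; exact Or.inl hy
  obtain ⟨E, e1, e2, e3⟩ := h.circuit (h.add _ _ hA hX) hyAD
  have hEK : E ⊆ W.erase x := by
    intro z hz
    have h5 := e1 hz
    rw [mem_symmDiff] at h5
    rw [mem_erase]
    refine ⟨?_, ?_⟩
    · rintro rfl; tauto
    · rcases h5 with h5 | h5
      · exact hAW h5.1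
      · exact hXW h5.1
  have hyc : y ∈ cyc P (W.erase x) := mem_cyc.mpr ⟨E, hEK, e2, e3⟩
  have m1 := mu_erase h hxc
  have m2 := mu_erase h hyc
  have hsub : B ⊆ (W.erase x).erase y := by
    intro z hz
    rw [mem_erase, mem_erase]
    refine ⟨?_, ?_, hBW hz⟩
    · rintro rfl; exact disjoint_left.mp hAB hy.1 hz
    · rintro rfl; exact disjoint_left.mp hAB hx.1 hz
  have := mu_mono h hsub
  omega

/-- in rank three, an even set is compatible with a partition into three even sets -/
theorem three_parts (h : Fam P) {W A B C X : Finset α} (hAW : A ⊆ W) (hXW : X ⊆ W)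
    (hBW : B ⊆ W) (hCW : C ⊆ W) (hA : P A) (hB : P B) (hC : P C) (hX : P X)
    (hBn : B.Nonempty) (hCn : C.Nonempty) (hAB : Disjoint A B) (hAC : Disjoint A C)
    (hBC : Disjoint B C) (hm : mu P W ≤ 3) {x : α} (hx : x ∈ A ∧ x ∈ X) : A ⊆ X := by
  by_contra hn
  rw [not_subset] at hn
  obtain ⟨y, hy⟩ := hn
  have h1 := cut_two h hAW hXW (union_subset hBW hCW) hA hX
    (disjoint_union_right.mpr ⟨hAB, hAC⟩) hx hy
  have h2 := mu_add_le h hBC
  have h3 := mu_pos_of h hB hBn
  have h4 := mu_pos_of h hC hCn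
  omega

/-- the case of four disjoint even sets -/
theorem four_disjoint (h : Fam P) {K : Finset α} (_hP : P K) (hK : Con P K) (hm : mu P K = 5)
    {A B C D : Finset α} (hA : P A) (hB : P B) (hC : P C) (hD : P D)
    (hAn : A.Nonempty) (hBn : B.Nonempty) (hCn : C.Nonempty) (hDn : D.Nonempty)
    (hAB : Disjoint A B) (hAC : Disjoint A C) (hAD : Disjoint A D) (hBC : Disjoint B C)
    (hBD : Disjoint B D) (hCD : Disjoint C D) (hu : A ∪ B ∪ C ∪ D = K) :
    17 ≤ (circ P K).card := by
  classical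
  have inK : ∀ x, x ∈ A ∨ x ∈ B ∨ x ∈ C ∨ x ∈ D → x ∈ K := by
    intro x hx
    rw [← hu]; simp only [mem_union]; tauto
  have hAK : A ⊆ K := fun x hx => inK x (by tauto)
  have hBK : B ⊆ K := fun x hx => inK x (by tauto)
  have hCK : C ⊆ K := fun x hx => inK x (by tauto)
  have hDK : D ⊆ K := fun x hx => inK x (by tauto)
  -- rank of complements
  have comp : ∀ {U V1 V2 V3 : Finset α}, P U → P V1 → P V2 → P V3 → U.Nonempty → V1.Nonempty →
      V2.Nonempty → V3.Nonempty → Disjoint U V1 → Disjoint U V2 → Disjoint U V3 →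
      Disjoint V1 V2 → Disjoint V1 V3 → Disjoint V2 V3 → U ⊆ K → V1 ⊆ K → V2 ⊆ K → V3 ⊆ K →
      mu P (K \ U) = 3 ∧ V1 ⊆ K \ U ∧ V2 ⊆ K \ U ∧ V3 ⊆ K \ U ∧ mu P U = 1 := by
    intro U V1 V2 V3 pU p1 p2 p3 nU n1 n2 n3 d1 d2 d3 d12 d13 d23 sU s1 s2 s3
    have t1 : V1 ⊆ K \ U := fun z hz =>
      mem_sdiff.mpr ⟨s1 hz, fun hh => disjoint_left.mp d1 hh hz⟩
    have t2 : V2 ⊆ K \ U := fun z hz =>
      mem_sdiff.mpr ⟨s2 hz, fun hh => disjoint_left.mp d2 hh hz⟩
    have t3 : V3 ⊆ K \ U := fun z hz =>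
      mem_sdiff.mpr ⟨s3 hz, fun hh => disjoint_left.mp d3 hh hz⟩
    have h1 := mu_add_le h d12
    have h2 := mu_add_le h (disjoint_union_left.mpr ⟨d13, d23⟩ : Disjoint (V1 ∪ V2) V3)
    have h3 := mu_mono h (union_subset (union_subset t1 t2) t3)
    have h4 := mu_pos_of h p1 n1
    have h5 := mu_pos_of h p2 n2
    have h6 := mu_pos_of h p3 n3
    have h7 := mu_pos_of h pU nU
    have hne : (K \ U).Nonempty := n1.mono t1
    have h8 := hK.mu_add_lt h sU nU hne
    exact ⟨by omega, t1, t2, t3, by omega⟩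
  obtain ⟨mA, tB, tC, tD, uA⟩ := comp hA hB hC hD hAn hBn hCn hDn hAB hAC hAD hBC hBD hCD hAK hBK
    hCK hDK
  obtain ⟨mB, sA, sC, sD, uB⟩ := comp hB hA hC hD hBn hAn hCn hDn hAB.symm hBC hBD hAC hAD hCD
    hBK hAK hCK hDK
  obtain ⟨mC, rA, rB, rD, _⟩ := comp hC hA hB hD hCn hAn hBn hDn hAC.symm hBC.symm hCD hAB hAD
    hBD hCK hAK hBK hDK
  obtain ⟨mD, qA, qB, qC, _⟩ := comp hD hA hB hC hDn hAn hBn hCn hAD.symm hBD.symm hCD.symm hAB
    hAC hBC hDK hAK hBK hCK
  set Q := (evs P K).filter (fun E => (∃ x, x ∈ A ∧ x ∈ E) ∧ ∃ y, y ∈ A ∧ y ∉ E) with hQ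
  -- the elements of Q are circuits
  have hQc : ∀ E ∈ Q, IsC P E := by
    intro E hE
    rw [hQ, mem_filter, mem_evs] at hE
    obtain ⟨⟨hEK, hPE⟩, ⟨x0, hx0⟩, ⟨y0, hy0⟩⟩ := hE
    -- no part is contained in E
    have nopart : ∀ {U V1 V2 : Finset α}, P U → P V1 → P V2 → V1.Nonempty → V2.Nonempty →
        U ⊆ K → mu P (K \ U) = 3 → A ⊆ K \ U → V1 ⊆ K \ U → V2 ⊆ K \ U → Disjoint A U →
        Disjoint A V1 → Disjoint A V2 → Disjoint V1 V2 → ¬ U ⊆ E := by
      intro U V1 V2 pU p1 p2 n1 n2 sU mU tA t1 t2 dU d1 d2 d12 hUE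
      have hPU : P (E \ U) := h.sdiff hPE pU hUE
      have hsub : E \ U ⊆ K \ U := sdiff_subset_sdiff hEK (Subset.refl _)
      have hx0' : x0 ∈ E \ U := mem_sdiff.mpr ⟨hx0.2, fun hh => disjoint_left.mp dU hx0.1 hh⟩
      have := three_parts h tA hsub t1 t2 hA p1 p2 hPU n1 n2 d1 d2 d12 (by omega)
        ⟨hx0.1, hx0'⟩
      exact hy0.2 (mem_sdiff.mp (this hy0.1)).1
    have nB := nopart hB hC hD hCn hDn hBK mB sA sC sD hAB hAC hAD hCD
    have nC := nopart hC hB hD hBn hDn hCK mC rA rB rD hAC hAB hAD hBD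
    have nD := nopart hD hB hC hBn hCn hDK mD qA qB qC hAD hAB hAC hBC
    by_contra hnc
    obtain ⟨G, G', hGG, hdis, hG, hG', hGn, hG'n⟩ := exists_split h hPE ⟨x0, hx0.2⟩ hnc
    have meet : ∀ Z, Z ⊆ E → P Z → Z.Nonempty → ∃ x, x ∈ A ∧ x ∈ Z := by
      intro Z hZE hPZ hZn
      by_contra hcon
      push Not at hcon
      have hZA : Z ⊆ K \ A := fun z hz =>
        mem_sdiff.mpr ⟨hEK (hZE hz), fun hh => hcon z hh hz⟩
      obtain ⟨z, hz⟩ := hZn
      have hzK := hEK (hZE hz)
      rw [← hu] at hzK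
      simp only [mem_union] at hzK
      rcases hzK with ((h5 | h5) | h5) | h5
      · exact hcon z h5 hz
      · exact nB ((three_parts h tB hZA tC tD hB hC hD hPZ hCn hDn hBC hBD hCD (by omega)
          ⟨h5, hz⟩).trans hZE)
      · exact nC ((three_parts h tC hZA tB tD hC hB hD hPZ hBn hDn hBC.symm hCD hBD (by omega)
          ⟨h5, hz⟩).trans hZE)
      · exact nD ((three_parts h tD hZA tB tC hD hB hC hPZ hBn hCn hBD.symm hCD.symm hBC
          (by omega) ⟨h5, hz⟩).trans hZE)
    have hGE : G ⊆ E := by rw [← hGG]; exact subset_union_left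
    have hG'E : G' ⊆ E := by rw [← hGG]; exact subset_union_right
    obtain ⟨x, hx⟩ := meet G hGE hG hGn
    obtain ⟨y, hy⟩ := meet G' hG'E hG' hG'n
    have hyG : y ∉ G := fun hh => disjoint_left.mp hdis hh hy.2
    have hEAK : E ∆ A ⊆ K := by
      intro w hw
      rw [mem_symmDiff] at hw
      rcases hw with hw | hw
      · exact hEK hw.1
      · exact hAK hw.1
    have hav := avoid h hAK (hGE.trans hEK) hA hG (by omega) hx ⟨hy.1, hyG⟩ hEAK
      (h.add _ _ hPE hA)
      (by
        intro hh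
        rw [mem_symmDiff] at hh
        have := hGE hx.2
        tauto)
      (by
        intro hh
        rw [mem_symmDiff] at hh
        have := hG'E hy.2
        tauto)
    exact disjoint_left.mp hav (by rw [mem_symmDiff]; exact Or.inr hy0) hy0.1
  -- counting
  have hcount : (evs P K).card ≤ Q.card + (evs P (K \ A)).card + (evs P (K \ A)).card := by
    have h1 : evs P K ⊆ (Q ∪ evs P (K \ A)) ∪ (evs P (K \ A)).image (fun X => X ∪ A) := by
      intro E hE
      rw [mem_union, mem_union, mem_image]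
      by_cases h5 : ∃ x, x ∈ A ∧ x ∈ E
      · by_cases h6 : ∃ y, y ∈ A ∧ y ∉ E
        · exact Or.inl (Or.inl (by rw [hQ, mem_filter]; exact ⟨hE, h5, h6⟩))
        · right
          push Not at h6
          rw [mem_evs] at hE
          refine ⟨E \ A, ?_, ?_⟩
          · rw [mem_evs]
            exact ⟨sdiff_subset_sdiff hE.1 (Subset.refl _), h.sdiff hE.2 hA h6⟩
          · exact sdiff_union_of_subset h6
      · left; right
        push Not at h5
        rw [mem_evs] at hE ⊢
        exact ⟨fun z hz => mem_sdiff.mpr ⟨hE.1 hz, fun hh => h5 z hh hz⟩, hE.2⟩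
    have h2 := card_le_card h1
    have h3 := card_union_le (Q ∪ evs P (K \ A)) ((evs P (K \ A)).image (fun X => X ∪ A))
    have h4 := card_union_le Q (evs P (K \ A))
    have h5 := card_image_le (s := evs P (K \ A)) (f := fun X => X ∪ A)
    omega
  rw [card_evs h, card_evs h, hm, mA] at hcount
  have hBc : IsC P B := isC_of_mu h hB hBn (by omega)
  have hBQ : B ∉ Q := by
    rw [hQ, mem_filter]
    rintro ⟨_, ⟨x, hx⟩, _⟩
    exact disjoint_left.mp hAB hx.1 hx.2
  have hfin : insert B Q ⊆ circ P K := by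
    intro E hE
    rw [mem_insert] at hE
    rw [mem_circ]
    rcases hE with rfl | hE
    · exact ⟨hBK, hBc⟩
    · refine ⟨?_, hQc E hE⟩
      rw [hQ, mem_filter, mem_evs] at hE
      exact hE.1.1
  have := card_le_card hfin
  rw [card_insert_of_notMem hBQ] at this
  omega

/-- rank five: not exactly sixteen circuits -/
theorem five_ne (h : Fam P) {K : Finset α} (hP : P K) (hK : Con P K) (hm : mu P K = 5) :
    (circ P K).card ≠ 16 := by
  classical
  intro h16
  have hnc := not_isC_of_mu h (K := K) (by omega)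
  have hsub := circ_subset_pne (P := P) hnc
  have hcard := card_pne h hP hK.1
  rw [hm] at hcard
  -- no four disjoint even sets
  have nofour : ∀ A B C D : Finset α, P A → P B → P C → P D → A.Nonempty → B.Nonempty →
      C.Nonempty → D.Nonempty → Disjoint A B → Disjoint A C → Disjoint A D → Disjoint B C →
      Disjoint B D → Disjoint C D → A ∪ B ∪ C ∪ D = K → False := by
    intro A B C D a1 a2 a3 a4 a5 a6 a7 a8 b1 b2 b3 b4 b5 b6 hu
    have := four_disjoint h hP hK hm a1 a2 a3 a4 a5 a6 a7 a8 b1 b2 b3 b4 b5 b6 hu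
    omega
  set N := pne P K \ circ P K with hN
  have hNc : N.card = 14 := by
    rw [hN, card_sdiff_of_subset hsub, h16]; omega
  set R := (circ P K).filter (fun C => ¬ IsC P (K \ C)) with hR
  -- complements of non-circuits are circuits
  have hcomp : ∀ X ∈ N, IsC P (K \ X) := by
    intro X hX
    rw [hN, mem_sdiff, mem_circ] at hX
    obtain ⟨hX1, hX2⟩ := hX
    have hXc := pne_compl h hP hX1
    rw [mem_pne] at hX1 hXc
    have hXnc : ¬ IsC P X := fun hh => hX2 ⟨hX1.1, hh⟩
    by_contra hcc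
    obtain ⟨A, B, p1, p2, p3, p4, p5, p6⟩ :=
      exists_split h hX1.2.1 (nonempty_iff_ne_empty.mpr hX1.2.2.1) hXnc
    obtain ⟨C, D, q1, q2, q3, q4, q5, q6⟩ :=
      exists_split h hXc.2.1 (nonempty_iff_ne_empty.mpr hXc.2.2.1) hcc
    have hd : Disjoint X (K \ X) := disjoint_sdiff
    have i1 : A ⊆ X := by rw [← p1]; exact subset_union_left
    have i2 : B ⊆ X := by rw [← p1]; exact subset_union_right
    have i3 : C ⊆ K \ X := by rw [← q1]; exact subset_union_left
    have i4 : D ⊆ K \ X := by rw [← q1]; exact subset_union_right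
    refine nofour A B C D p3 p4 q3 q4 p5 p6 q5 q6 p2 (hd.mono i1 i3) (hd.mono i1 i4)
      (hd.mono i2 i3) (hd.mono i2 i4) q2 ?_
    rw [union_assoc (A ∪ B), q1, p1]
    exact union_sdiff_of_subset hX1.1
  have hRc : R.card = 14 := by
    rw [← hNc]
    symm
    apply card_bij (fun X _ => K \ X)
    · intro X hX
      have h1 := hcomp X hX
      rw [hN, mem_sdiff, mem_circ] at hX
      rw [mem_pne] at hX
      rw [hR, mem_filter, mem_circ]
      refine ⟨⟨sdiff_subset, h1⟩, ?_⟩
      rw [Finset.sdiff_sdiff_eq_self hX.1.1]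
      exact fun hh => hX.2 ⟨hX.1.1, hh⟩
    · intro X hX Y hY hXY
      rw [hN, mem_sdiff, mem_pne] at hX hY
      have h1 : K \ (K \ X) = K \ (K \ Y) := by rw [hXY]
      rwa [Finset.sdiff_sdiff_eq_self hX.1.1, Finset.sdiff_sdiff_eq_self hY.1.1] at h1
    · intro C hC
      rw [hR, mem_filter, mem_circ] at hC
      refine ⟨K \ C, ?_, Finset.sdiff_sdiff_eq_self hC.1.1⟩
      have h1 : C ∈ pne P K := hsub (mem_circ.mpr hC.1)
      have h2 := pne_compl h hP h1
      rw [hN, mem_sdiff, mem_circ]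
      exact ⟨h2, fun hh => hC.2 hh.2⟩
  -- structure of the complement of an element of R
  have hstr : ∀ C ∈ R, (∀ Y, Y ⊆ K \ C → P Y → Y.Nonempty → Y ≠ K \ C → IsC P Y) ∧
      (circ P (K \ C)).card = 2 := by
    intro C hC
    rw [hR, mem_filter, mem_circ] at hC
    obtain ⟨⟨hCK, hCc⟩, hCn⟩ := hC
    have hPX : P (K \ C) := h.sdiff hP hCc.1 hCK
    have hXn : (K \ C).Nonempty := by
      rw [nonempty_iff_ne_empty]
      intro h0
      rw [sdiff_eq_empty_iff_subset] at h0
      exact hnc (by rw [Subset.antisymm h0 hCK]; exact hCc)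
    have hall : ∀ Y, Y ⊆ K \ C → P Y → Y.Nonempty → Y ≠ K \ C → IsC P Y := by
      intro Y hY hPY hYn hYne
      by_contra hYc
      obtain ⟨A, B, p1, p2, p3, p4, p5, p6⟩ := exists_split h hPY hYn hYc
      have hd : Disjoint C (K \ C) := disjoint_sdiff
      have hrest : ((K \ C) \ Y).Nonempty := by
        rw [nonempty_iff_ne_empty]
        intro h0
        rw [sdiff_eq_empty_iff_subset] at h0
        exact hYne (Subset.antisymm hY h0)
      have i1 : A ⊆ Y := by rw [← p1]; exact subset_union_left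
      have i2 : B ⊆ Y := by rw [← p1]; exact subset_union_right
      have hd2 : Disjoint Y ((K \ C) \ Y) := disjoint_sdiff
      refine nofour A B C ((K \ C) \ Y) p3 p4 hCc.1 (h.sdiff hPX hPY hY) p5 p6 hCc.2.1 hrest
        p2 (hd.symm.mono_left (i1.trans hY)) (hd2.mono_left i1) (hd.symm.mono_left (i2.trans hY))
        (hd2.mono_left i2) (hd.mono_right sdiff_subset) ?_
      rw [p1, union_comm Y C, union_assoc, union_sdiff_of_subset hY]
      exact union_sdiff_of_subset hCK
    have hceq : circ P (K \ C) = pne P (K \ C) := by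
      apply Subset.antisymm (circ_subset_pne hCn)
      intro Y hY
      rw [mem_pne] at hY
      rw [mem_circ]
      exact ⟨hY.1, hall Y hY.1 hY.2.1 (nonempty_iff_ne_empty.mpr hY.2.2.1) hY.2.2.2⟩
    have hcp := card_pne h hPX hXn
    have hlt := hK.mu_add_lt h hCK hCc.2.1 hXn
    rw [mu_circuit h hCc, hm] at hlt
    have hge : 2 ≤ mu P (K \ C) := by
      by_contra hlt2
      exact hCn (isC_of_mu h hPX hXn (by omega))
    rw [← hceq] at hcp
    refine ⟨hall, ?_⟩
    have hcases : mu P (K \ C) = 2 ∨ mu P (K \ C) = 3 := by omega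
    rcases hcases with h2 | h3
    · rw [h2] at hcp; omega
    · exfalso
      have hpar := parity h hCK hCc (by omega)
      rw [h3] at hcp
      omega
  -- the triples
  set f : Finset α → Finset (Finset α) := fun C => insert C (circ P (K \ C)) with hf
  have hf3 : ∀ C ∈ R, (f C).card = 3 := by
    intro C hC
    have h1 := (hstr C hC).2
    rw [hR, mem_filter, mem_circ] at hC
    rw [hf]
    simp only
    rw [card_insert_of_notMem, h1]
    rw [mem_circ]
    rintro ⟨h2, _⟩
    obtain ⟨x, hx⟩ := hC.1.2.2.1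
    exact (mem_sdiff.mp (h2 hx)).2 hx
  have hfE : ∀ C ∈ R, ∀ E ∈ f C, E ∈ R ∧ f E = f C := by
    intro C hC E hE
    rw [hf] at hE
    simp only [mem_insert] at hE
    rcases hE with rfl | hE
    · exact ⟨hC, rfl⟩
    · obtain ⟨hall, hc2⟩ := hstr C hC
      have hC' := hC
      rw [hR, mem_filter, mem_circ] at hC'
      obtain ⟨⟨hCK, hCc⟩, hCn⟩ := hC'
      have hE' := mem_circ.mp hE
      have hPX : P (K \ C) := h.sdiff hP hCc.1 hCK
      have hEne : E ≠ K \ C := by rintro rfl; exact hCn hE'.2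
      set E2 := (K \ C) \ E with hE2
      have hE2n : E2.Nonempty := by
        rw [nonempty_iff_ne_empty]
        intro h0
        rw [hE2, sdiff_eq_empty_iff_subset] at h0
        exact hEne (Subset.antisymm hE'.1 h0)
      have hPE2 : P E2 := h.sdiff hPX hE'.2.1 hE'.1
      have hE2ne : E2 ≠ K \ C := by
        intro h0
        obtain ⟨x, hx⟩ := hE'.2.2.1
        have h1 : x ∈ E2 := by rw [h0]; exact hE'.1 hx
        rw [hE2] at h1
        exact (mem_sdiff.mp h1).2 hx
      have hE2c : IsC P E2 := hall E2 sdiff_subset hPE2 hE2n hE2ne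
      have hEE2 : E ≠ E2 := by
        intro h0
        obtain ⟨x, hx⟩ := hE'.2.2.1
        have h1 : x ∈ E2 := by rw [← h0]; exact hx
        rw [hE2] at h1
        exact (mem_sdiff.mp h1).2 hx
      have hcX : circ P (K \ C) = {E, E2} := by
        symm
        apply eq_of_subset_of_card_le
        · intro Z hZ
          simp only [mem_insert, mem_singleton] at hZ
          rcases hZ with rfl | rfl
          · exact hE
          · exact mem_circ.mpr ⟨sdiff_subset, hE2c⟩
        · rw [hc2, card_pair hEE2]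
      have hEK : E ⊆ K := hE'.1.trans sdiff_subset
      have hCsub : C ⊆ K \ E := fun z hz =>
        mem_sdiff.mpr ⟨hCK hz, fun hh => (mem_sdiff.mp (hE'.1 hh)).2 hz⟩
      have hE2sub : E2 ⊆ K \ E := fun z hz => by
        rw [hE2, mem_sdiff, mem_sdiff] at hz
        exact mem_sdiff.mpr ⟨hz.1.1, hz.2⟩
      have hCE2 : C ≠ E2 := by
        intro h0
        obtain ⟨x, hx⟩ := hCc.2.1
        have h1 : x ∈ E2 := by rw [← h0]; exact hx
        rw [hE2, mem_sdiff, mem_sdiff] at h1
        exact h1.1.2 hx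
      have hER : E ∈ R := by
        rw [hR, mem_filter, mem_circ]
        refine ⟨⟨hEK, hE'.2⟩, ?_⟩
        intro hc
        have h1 := hc.eq_of_subset hCc hCsub
        have h2 := hc.eq_of_subset hE2c hE2sub
        exact hCE2 (h1.trans h2.symm)
      have hcE : circ P (K \ E) = {C, E2} := by
        symm
        apply eq_of_subset_of_card_le
        · intro Z hZ
          simp only [mem_insert, mem_singleton] at hZ
          rcases hZ with rfl | rfl
          · exact mem_circ.mpr ⟨hCsub, hCc⟩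
          · exact mem_circ.mpr ⟨hE2sub, hE2c⟩
        · rw [(hstr E hER).2, card_pair hCE2]
      refine ⟨hER, ?_⟩
      rw [hf]
      simp only
      rw [hcE, hcX]
      ext Z
      simp only [mem_insert, mem_singleton]
      tauto
  have hsum : R.card = ∑ T ∈ R.image f, (R.filter (fun C => f C = T)).card :=
    card_eq_sum_card_image f R
  have hfib : ∀ T ∈ R.image f, (R.filter (fun C => f C = T)).card = 3 := by
    intro T hT
    rw [mem_image] at hT
    obtain ⟨C0, hC0, rfl⟩ := hT
    have : R.filter (fun C => f C = f C0) = f C0 := by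
      ext E
      rw [mem_filter]
      constructor
      · rintro ⟨_, h1⟩
        rw [← h1, hf]
        simp
      · intro hE
        exact hfE C0 hC0 E hE
    rw [this, hf3 C0 hC0]
  rw [sum_congr rfl hfib, sum_const, smul_eq_mul, hRc] at hsum
  omega

theorem semig {n : ℕ} (hn : 12 ≤ n) : ∃ a b, n = 3 * a + 7 * b := by
  have h3 : n % 3 = 0 ∨ n % 3 = 1 ∨ n % 3 = 2 := by omega
  rcases h3 with h | h | h
  · exact ⟨n / 3, 0, by omega⟩
  · exact ⟨(n - 7) / 3, 1, by omega⟩
  · exact ⟨(n - 14) / 3, 2, by omega⟩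

/-- the excess of a connected even set -/
theorem con_euler (h : Fam P) {K : Finset α} (hP : P K) (hK : Con P K) :
    ∃ a b, (circ P K).card = mu P K + (3 * a + 7 * b) := by
  have hq := hK.quad h (mu P K) K rfl
  have hpos := hK.mu_pos h
  have hle := mu_le_circ h K.card K le_rfl
  have hpn := card_pne h hP hK.1
  rcases Nat.lt_or_ge (mu P K) 6 with h6 | h6
  · have hm : mu P K = 1 ∨ mu P K = 2 ∨ mu P K = 3 ∨ mu P K = 4 ∨ mu P K = 5 := by omega
    rcases hm with hm | hm | hm | hm | hm
    · refine ⟨0, 0, ?_⟩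
      have hc := isC_of_mu h hP hK.1 (by omega)
      have h1 : circ P K ⊆ {K} := by
        intro C hC
        rw [mem_circ] at hC
        rw [mem_singleton]
        exact hc.eq_of_subset hC.2 hC.1
      have := card_le_card h1
      rw [card_singleton] at this
      omega
    · exfalso
      have h1 := card_le_card (circ_subset_pne (P := P) (not_isC_of_mu h (K := K) (by omega)))
      rw [hm] at hq hpn
      omega
    · refine ⟨1, 0, ?_⟩
      have h1 := card_le_card (circ_subset_pne (P := P) (not_isC_of_mu h (K := K) (by omega)))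
      rw [hm] at hq hpn
      omega
    · have h1 := card_le_card (circ_subset_pne (P := P) (not_isC_of_mu h (K := K) (by omega)))
      have h2 := four_ne h hP hK hm
      rw [hm] at hq hpn
      have h3 : (circ P K).card = 10 ∨ (circ P K).card = 11 ∨ (circ P K).card = 13 ∨
          (circ P K).card = 14 := by omega
      rcases h3 with h3 | h3 | h3 | h3
      · exact ⟨2, 0, by omega⟩
      · exact ⟨0, 1, by omega⟩
      · exact ⟨3, 0, by omega⟩
      · exact ⟨1, 1, by omega⟩
    · have h2 := five_ne h hP hK hm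
      rw [hm] at hq
      rcases Nat.lt_or_ge (circ P K).card 17 with h3 | h3
      · exact ⟨1, 1, by omega⟩
      · obtain ⟨a, b, hab⟩ := semig (n := (circ P K).card - 5) (by omega)
        exact ⟨a, b, by omega⟩
  · have h7 : 7 * mu P K ≤ mu P K * (mu P K + 1) := by nlinarith
    obtain ⟨a, b, hab⟩ := semig (n := (circ P K).card - mu P K) (by omega)
    exact ⟨a, b, by omega⟩

/-- **The excess of an even set lies in the semigroup generated by three and seven.** -/
theorem euler (h : Fam P) : ∀ (n : ℕ) (F : Finset α), F.card ≤ n → P F →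
    ∃ a b, (circ P F).card = mu P F + (3 * a + 7 * b) := by
  intro n
  induction n with
  | zero =>
    intro F hF _
    have h0 : F = ∅ := by simpa using hF
    refine ⟨0, 0, ?_⟩
    have h1 : circ P F = ∅ := by
      rw [eq_empty_iff_forall_notMem]
      intro C hC
      rw [mem_circ, h0] at hC
      obtain ⟨x, hx⟩ := hC.2.2.1
      have := hC.1 hx
      simp at this
    have h2 : mu P F = 0 := mu_of_cyc_empty h (by rw [h0]; simp [cyc])
    rw [h1, h2]; simp
  | succ n ih =>
    intro F hF hP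
    rcases F.eq_empty_or_nonempty with h0 | ⟨e, he⟩
    · exact ih F (by rw [h0]; simp) hP
    · obtain ⟨C, c1, c2, c3⟩ := h.circuit hP he
      have hec : e ∈ cyc P F := mem_cyc.mpr ⟨C, c1, c2, c3⟩
      have hcon := con_blk h hec
      have hsep := sep_blk h F e
      have hPK : P (blk P F e) := by
        have := hsep.even_inter h (Subset.refl F) hP
        rwa [inter_eq_right.mpr hsep.1] at this
      have hPr : P (F \ blk P F e) := h.sdiff hP hPK hsep.1
      have hlt : (F \ blk P F e).card < F.card := by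
        apply card_lt_card
        rw [ssubset_iff_of_subset sdiff_subset]
        exact ⟨e, he, fun hh => (mem_sdiff.mp hh).2 (self_mem_blk hec)⟩
      obtain ⟨a, b, hab⟩ := ih (F \ blk P F e) (by omega) hPr
      obtain ⟨a', b', hab'⟩ := con_euler h hPK hcon
      refine ⟨a + a', b + b', ?_⟩
      rw [hsep.card_circ, hsep.mu h, hab, hab']
      ring

end Pool.Agent.Helper53
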