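import Pool.Agent.Helper53.Exp
import Pool.Agent.Helper53.Euler5

/-!
# Chains of ears all of whose branch vertices have degree four
-/

open Finset Function
open scoped symmDiff

set_option linter.unusedSectionVars false
set_option linter.unusedSimpArgs false

namespace Pool.Agent.Helper53

variable {V : Type*} [Fintype V] [DecidableEq V]

/-- subdividing the root, with both new edges -/
theorem Net.sub2 {S : Finset V} {d d' : V → ℕ} {K t : ℕ} {a b z : V} (h : Net S d K t a b)
    (hz : z ∉ S) (h1 : d' z = 2) (h2 : ∀ v ∈ S, d' v = d v) :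
    ∃ F', Ok (insert z S) F' ∧ (∀ v ∈ insert z S, dg F' v = d' v) ∧
      (circ EvenSet F').card = K ∧ s(a, z) ∈ F' ∧ s(b, z) ∈ F' ∧
      (thr EvenSet F' s(a, z)).card = t := by
  obtain ⟨ha, hb, hab⟩ := h.mem
  obtain ⟨F, g1, g2, g3, g4, g5⟩ := h
  have haz : a ≠ z := by rintro rfl; exact hz ha
  have hbz : b ≠ z := by rintro rfl; exact hz hb
  have hz0 := g1.dg_zero hz
  have hzF : ∀ e ∈ F, z ∉ e := by
    intro e he hze
    have := dg_pos.mpr ⟨e, he, hze⟩
    omega
  have e3 : s(a, z) ≠ s(b, z) := by simp [hbz, hab, haz]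
  have n1 : s(a, z) ∉ F := ear_notin hz0 a
  have n2 : s(b, z) ∉ F := ear_notin hz0 b
  have mF' : ∀ e, e ∈ (F.erase s(a, b) ∪ {s(a, z), s(b, z)} : Finset (Sym2 V)) ↔
      (e ≠ s(a, b) ∧ e ∈ F) ∨ e = s(a, z) ∨ e = s(b, z) := by
    intro e; simp only [mem_union, mem_erase, mem_insert, mem_singleton]
  have hdis : Disjoint (F.erase s(a, b)) ({s(a, z), s(b, z)} : Finset (Sym2 V)) := by
    rw [disjoint_left]
    intro e h1 h2
    have h3 := (mem_erase.mp h1).2
    simp only [mem_insert, mem_singleton] at h2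
    rcases h2 with rfl | rfl
    · exact n1 h3
    · exact n2 h3
  have hdg0 : ∀ w, dg F w = dg (F.erase s(a, b)) w + dg ({s(a, b)} : Finset (Sym2 V)) w := by
    intro w
    rw [← dg_union]
    · congr 1
      rw [union_comm, ← insert_eq, insert_erase g4]
    · rw [disjoint_singleton_right]; simp
  refine ⟨F.erase s(a, b) ∪ {s(a, z), s(b, z)}, ⟨?_, ?_, ⟨z, mem_insert_self _ _⟩, ?_⟩, ?_, ?_,
    by simp, by simp, by rw [thr_subdiv hab haz hbz g4 hz0, g5]⟩
  · intro e he
    rcases (mF' e).mp he with h1 | h1 | h1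
    · exact g1.nd e h1.2
    · rw [h1]; simpa
    · rw [h1]; simpa
  · intro e he w hw
    rcases (mF' e).mp he with h1 | h1 | h1
    · exact mem_insert_of_mem (g1.sup e h1.2 w hw)
    · rw [h1, Sym2.mem_iff] at hw
      rcases hw with rfl | rfl
      · exact mem_insert_of_mem ha
      · exact mem_insert_self _ _
    · rw [h1, Sym2.mem_iff] at hw
      rcases hw with rfl | rfl
      · exact mem_insert_of_mem hb
      · exact mem_insert_self _ _
  · set F' : Finset (Sym2 V) := F.erase s(a, b) ∪ {s(a, z), s(b, z)} with hF'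
    have r1 : (SimpleGraph.fromEdgeSet (F' : Set (Sym2 V))).Reachable a z :=
      reach_of_mem ((mF' _).mpr (Or.inr (Or.inl rfl))) haz
    have r2 : (SimpleGraph.fromEdgeSet (F' : Set (Sym2 V))).Reachable b z :=
      reach_of_mem ((mF' _).mpr (Or.inr (Or.inr rfl))) hbz
    have step : ∀ p q, (SimpleGraph.fromEdgeSet (F : Set (Sym2 V))).Adj p q →
        (SimpleGraph.fromEdgeSet (F' : Set (Sym2 V))).Reachable p q := by
      intro p q hpq
      rw [SimpleGraph.fromEdgeSet_adj] at hpq
      have hpqF : s(p, q) ∈ F := by exact_mod_cast hpq.1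
      by_cases h1 : s(p, q) = s(a, b)
      · rw [Sym2.eq_iff] at h1
        rcases h1 with ⟨rfl, rfl⟩ | ⟨rfl, rfl⟩
        · exact r1.trans r2.symm
        · exact r2.trans r1.symm
      · exact reach_of_mem ((mF' _).mpr (Or.inl ⟨h1, hpqF⟩)) hpq.2
    have lift : ∀ p q, (SimpleGraph.fromEdgeSet (F : Set (Sym2 V))).Reachable p q →
        (SimpleGraph.fromEdgeSet (F' : Set (Sym2 V))).Reachable p q := by
      intro p q hpq
      obtain ⟨w⟩ := hpq
      induction w with
      | nil => exact SimpleGraph.Reachable.refl _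
      | cons hadj _ ih => exact (step _ _ hadj).trans ih
    have key : ∀ p ∈ insert z S,
        (SimpleGraph.fromEdgeSet (F' : Set (Sym2 V))).Reachable p a := by
      intro p hp
      rw [mem_insert] at hp
      rcases hp with rfl | hp
      · exact r1.symm
      · exact lift _ _ (g1.con p hp a ha)
    intro p hp q hq
    exact (key p hp).trans (key q hq).symm
  · intro w hw
    rw [dg_union hdis, dg_pair hab]
    rw [mem_insert] at hw
    have hsing : ∀ w, dg ({s(a, b)} : Finset (Sym2 V)) w = (if w ∈ s(a, b) then 1 else 0) := by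
      intro w
      unfold dg
      rw [card_filter, sum_singleton]
    rcases hw with rfl | hw
    · have h0 := hdg0 w
      rw [h1]
      have h1 : dg (F.erase s(a, b)) w = 0 := by omega
      rw [h1]; simp
    · rw [h2 w hw, ← g2 w hw, hdg0 w, hsing]
      have hwz : w ≠ z := by rintro rfl; exact hz hw
      simp only [Sym2.mem_iff, hwz, or_false]
      by_cases h1 : w = a
      · subst h1; simp [hab]
      · by_cases h2 : w = b
        · subst h2; simp [hab.symm]
        · simp [h1, h2]
  · rw [card_circ_subdiv hab g4 hz0, g3]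


/-- one more doubled edge: the root `xy` is subdivided by `z` and the part `zy` is doubled -/
theorem Net.opB {S : Finset V} {d d' : V → ℕ} {K t : ℕ} {x y z w : V} (h : Net S d K t x y)
    (hz : z ∉ S) (hw : w ∉ S) (hzw : z ≠ w) (h1 : d' w = 2) (h2 : d' z = 3)
    (h3 : d' y = d y + 1) (h4 : ∀ v ∈ S, v ≠ y → d' v = d v) :
    Net (insert w (insert z S)) d' (K + t + 1) (2 * t) x z := by
  obtain ⟨hx, hy, hxy⟩ := h.mem
  have hxz : x ≠ z := by rintro rfl; exact hz hx
  have hyz : y ≠ z := by rintro rfl; exact hz hy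
  obtain ⟨F, g1, g2, g3, g4, g5, g6⟩ := h.sub2 (z := z) (d' := fun v => if v = z then 2 else d v)
    hz (by simp) (fun v hv => by
      have : v ≠ z := by rintro rfl; exact hz hv
      simp [this])
  have hzS : z ∈ insert z S := mem_insert_self _ _
  have hyS : y ∈ insert z S := mem_insert_of_mem hy
  have hwS : w ∉ insert z S := by
    rw [mem_insert, not_or]; exact ⟨hzw.symm, hw⟩
  have hz2 : dg F z = 2 := by rw [g2 z hzS]; simp
  have hw0 := g1.dg_zero hwS
  have hzw' : z ≠ w := hzw
  have hyw : y ≠ w := by rintro rfl; exact hw hy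
  have g5' : s(z, y) ∈ F := by rw [Sym2.eq_swap]; exact g5
  have hstar := star_eq g4 g5 hxy hz2
  have hne : s(x, z) ≠ s(z, y) := by
    intro h
    rw [Sym2.eq_swap, Sym2.congr_right] at h
    exact hxy h
  have hser : ∀ C, C ⊆ F → IsC EvenSet C → (s(x, z) ∈ C ↔ s(z, y) ∈ C) := by
    intro C hC hCc
    have hat : ∀ f ∈ C, z ∈ f → f = s(x, z) ∨ f = s(z, y) := by
      intro f hf hzf
      have : f ∈ F.filter (fun e => z ∈ e) := mem_filter.mpr ⟨hC hf, hzf⟩
      rw [hstar] at this
      simp only [mem_insert, mem_singleton] at this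
      rcases this with h | h
      · exact Or.inl h
      · right; rw [h, Sym2.eq_swap]
    constructor
    · intro h
      by_contra hn
      refine no_pendant hCc.1 (e := s(x, z)) (v := z) (by simp) ?_ h
      intro f hf hzf
      rcases hat f hf hzf with h1 | h1
      · exact h1
      · rw [h1] at hf; exact absurd hf hn
    · intro h
      by_contra hn
      refine no_pendant hCc.1 (e := s(z, y)) (v := z) (by simp) ?_ h
      intro f hf hzf
      rcases hat f hf hzf with h1 | h1
      · rw [h1] at hf; exact absurd hf hn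
      · exact h1
  have ht : (thr EvenSet F s(z, y)).card = t := by
    rw [← g6]
    congr 1
    ext C
    rw [mem_thr, mem_thr]
    constructor
    · rintro ⟨c1, c2, c3⟩
      exact ⟨c1, c2, (hser C c1 c2).mpr c3⟩
    · rintro ⟨c1, c2, c3⟩
      exact ⟨c1, c2, (hser C c1 c2).mp c3⟩
  refine ⟨F ∪ {s(z, w), s(y, w)}, ok_ear g1 hzS hyS hwS,
    ear_deg g1 hzS hyS hyz.symm hwS g2 h1 (by simp [h2]) ?_ ?_,
    by rw [circ_ear hyz.symm hzw' hyw g5' hw0, g3, ht], mem_union_left _ g4,
    by rw [thr_mate hyz.symm hzw' hyw g5' hw0 g4 hne hser, ht]⟩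
  · simp only [hyz, if_false]; exact h3
  · intro v hv hvz hvy
    rw [mem_insert] at hv
    have hvS : v ∈ S := by tauto
    simp only [hvz, if_false]
    exact h4 v hvS hvy

/-- open chains: two vertices of degree three joined by the root, the others of degree four -/
def OE (V : Type*) [Fintype V] [DecidableEq V] (v m K q : ℕ) : Prop :=
  ∀ (A O : Finset V) (x y : V) (d : V → ℕ), Disjoint A O → A.card = v → O.card = m →
    x ∈ A → y ∈ A → x ≠ y → d x = 3 → d y = 3 → (∀ u ∈ A, u ≠ x → u ≠ y → d u = 4) →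
    (∀ u ∈ O, d u = 2) → Net (A ∪ O) d K (2 * q) x y

/-- bases all of whose branch vertices have degree four -/
def BE (V : Type*) [Fintype V] [DecidableEq V] (v e : ℕ) : Prop :=
  ∀ (A : Finset V) (c : V → ℕ), A.card = v → (∀ u ∈ A, c u = 4) → Base A c (v + 1) (v + 1 + e)

/-- bases with two branch vertices of degree three and the others of degree four -/
def BO (V : Type*) [Fintype V] [DecidableEq V] (a e : ℕ) : Prop :=
  ∀ (A : Finset V) (c : V → ℕ), A.card = a →
    (∃ x ∈ A, ∃ y ∈ A, x ≠ y ∧ c x = 3 ∧ c y = 3 ∧ ∀ u ∈ A, u ≠ x → u ≠ y → c u = 4) →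
    Base A c a (a + e)

theorem OE.start : OE V 2 2 3 1 := by
  intro A O x y d hdis hA hO hx hy hxy hdx hdy _ h2
  have hAeq : A = {x, y} := by
    symm
    apply eq_of_subset_of_card_le
    · intro z hz
      simp only [mem_insert, mem_singleton] at hz
      rcases hz with rfl | rfl
      · exact hx
      · exact hy
    · rw [hA, card_pair hxy]
  obtain ⟨a, b, hab, rfl⟩ := card_eq_two.mp hO
  have ma : a ∈ ({a, b} : Finset V) := by simp
  have mb : b ∈ ({a, b} : Finset V) := by simp
  have h := net_dia' hxy (notin_of_disj hdis hx ma) (notin_of_disj hdis hx mb)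
    (notin_of_disj hdis hy ma) (notin_of_disj hdis hy mb) hab d hdx hdy (h2 a ma) (h2 b mb)
  refine h.congr ?_ (fun _ _ => rfl)
  rw [hAeq]
  ext v; simp only [mem_union, mem_insert, mem_singleton]; tauto

theorem OE.stepB {v m K q : ℕ} (hv : 2 ≤ v) (h : OE V v m K q) :
    OE V (v + 1) (m + 1) (K + 2 * q + 1) (2 * q) := by
  intro A O x y d hdis hA hO hx hy hxy hdx hdy h4 h2
  have hu : ∃ u, u ∈ (A.erase x).erase y := by
    apply card_pos.mp
    rw [card_erase_of_mem (mem_erase.mpr ⟨hxy.symm, hy⟩), card_erase_of_mem hx]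
    omega
  obtain ⟨u, hu⟩ := hu
  rw [mem_erase, mem_erase] at hu
  obtain ⟨huy, hux, huA⟩ := hu
  obtain ⟨w, hw⟩ := card_pos.mp (show 0 < O.card by omega)
  have hwA : w ∉ A := fun hh => disjoint_left.mp hdis hh hw
  have hyO : y ∉ O := fun hh => disjoint_left.mp hdis hy hh
  have huO : u ∉ O := fun hh => disjoint_left.mp hdis huA hh
  have hxO : x ∉ O := fun hh => disjoint_left.mp hdis hx hh
  have hyw : y ≠ w := by rintro rfl; exact hwA hy
  have huw : u ≠ w := by rintro rfl; exact hwA huA
  have hN := h (A.erase y) (O.erase w) x u (fun z => if z = u then 3 else d z)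
    (hdis.mono (erase_subset _ _) (erase_subset _ _))
    (by rw [card_erase_of_mem hy, hA]; rfl) (by rw [card_erase_of_mem hw, hO]; rfl)
    (mem_erase.mpr ⟨hxy, hx⟩) (mem_erase.mpr ⟨huy, huA⟩) hux.symm
    (by simp [hux.symm, hdx]) (by simp)
    (fun z hz hzx hzu => by
      simp only [hzu, if_false]
      rw [mem_erase] at hz
      exact h4 z hz.2 hzx hz.1)
    (fun z hz => by
      have h5 := mem_of_mem_erase hz
      have : z ≠ u := by rintro rfl; exact huO h5
      simp only [this, if_false]
      exact h2 z h5)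
  have hzS : y ∉ A.erase y ∪ O.erase w := by
    simp [hyO]
  have hwS : w ∉ A.erase y ∪ O.erase w := by
    simp [hwA]
  have hB := hN.opB (z := y) (w := w) (d' := d) hzS hwS hyw (h2 w hw) hdy
    (by simp only [if_true]; exact h4 u huA hux huy)
    (fun z _ hzu => by simp [hzu])
  refine hB.congr ?_ (fun _ _ => rfl)
  ext z
  simp only [mem_union, mem_insert, mem_erase]
  constructor
  · rintro (h5 | h5)
    · by_cases h6 : z = y
      · exact Or.inr (Or.inl h6)
      · exact Or.inr (Or.inr (Or.inl ⟨h6, h5⟩))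
    · by_cases h6 : z = w
      · exact Or.inl h6
      · exact Or.inr (Or.inr (Or.inr ⟨h6, h5⟩))
  · rintro (rfl | rfl | ⟨_, h5⟩ | ⟨_, h5⟩)
    · exact Or.inr hw
    · exact Or.inl hy
    · exact Or.inl h5
    · exact Or.inr h5

theorem OE.stepA {v m K q : ℕ} (hv : 2 ≤ v) (h : OE V v m K q) :
    OE V (v + 2) (m + 1) (K + 4 * q + 3) (q + 1) := by
  intro A O x y d hdis hA hO hx hy hxy hdx hdy h4 h2
  have hcc : ((A.erase x).erase y).card = v := by
    rw [card_erase_of_mem (mem_erase.mpr ⟨hxy.symm, hy⟩), card_erase_of_mem hx]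
    omega
  obtain ⟨B, hB, hBc⟩ := exists_subset_card_eq (show 2 ≤ ((A.erase x).erase y).card by omega)
  obtain ⟨u1, u2, hu12, rfl⟩ := card_eq_two.mp hBc
  have hu1 := hB (by simp : u1 ∈ ({u1, u2} : Finset V))
  have hu2 := hB (by simp : u2 ∈ ({u1, u2} : Finset V))
  have hu1' := hu1
  have hu2' := hu2
  rw [mem_erase, mem_erase] at hu1' hu2'
  obtain ⟨hu1y, hu1x, hu1A⟩ := hu1'
  obtain ⟨hu2y, hu2x, hu2A⟩ := hu2'
  obtain ⟨w, hw⟩ := card_pos.mp (show 0 < O.card by omega)
  have hwA : w ∉ A := fun hh => disjoint_left.mp hdis hh hw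
  have hyO : y ∉ O := fun hh => disjoint_left.mp hdis hy hh
  have hxO : x ∉ O := fun hh => disjoint_left.mp hdis hx hh
  have hu1O : u1 ∉ O := fun hh => disjoint_left.mp hdis hu1A hh
  have hu2O : u2 ∉ O := fun hh => disjoint_left.mp hdis hu2A hh
  have hyw : y ≠ w := by rintro rfl; exact hwA hy
  have hxw : x ≠ w := by rintro rfl; exact hwA hx
  have hu1w : u1 ≠ w := by rintro rfl; exact hwA hu1A
  have hu2w : u2 ≠ w := by rintro rfl; exact hwA hu2A
  have hN := h ((A.erase x).erase y) (O.erase w) u1 u2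
    (fun z => if z = u1 ∨ z = u2 then 3 else d z)
    (hdis.mono ((erase_subset _ _).trans (erase_subset _ _)) (erase_subset _ _))
    hcc (by rw [card_erase_of_mem hw, hO]; rfl) hu1 hu2 hu12
    (by simp) (by simp)
    (fun z hz hz1 hz2 => by
      simp only [hz1, hz2, or_self, if_false]
      rw [mem_erase, mem_erase] at hz
      exact h4 z hz.2.2 hz.2.1 hz.1)
    (fun z hz => by
      have h5 := mem_of_mem_erase hz
      have h6 : z ≠ u1 := by rintro rfl; exact hu1O h5
      have h7 : z ≠ u2 := by rintro rfl; exact hu2O h5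
      simp only [h6, h7, or_self, if_false]
      exact h2 z h5)
  set S0 := (A.erase x).erase y ∪ O.erase w with hS0
  have hxS : x ∉ S0 := by simp [hS0, hxO]
  have hyS : y ∉ insert x S0 := by simp [hS0, hyO, hxy.symm]
  have hwS : w ∉ insert y (insert x S0) := by
    simp [hS0, hwA, hyw.symm, hxw.symm]
  -- first ear, through x
  have hN1 := (hN.earA (z := x) (d' := fun z => if z = x then 2 else d z) hxS (by simp)
    (by simp only [hu1x, if_false, true_or, if_true]; exact h4 u1 hu1A hu1x hu1y)
    (by simp only [hu2x, if_false, or_true, if_true]; exact h4 u2 hu2A hu2x hu2y)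
    (fun z hz hz1 hz2 => by
      have : z ≠ x := by rintro rfl; exact hxS hz
      simp [this, hz1, hz2])).symm
  -- subdivide it by y
  have hN2 := hN1.sub (z := y) (d' := fun z => if z = x ∨ z = y then 2 else d z) hyS (by simp)
    (fun z hz => by
      have : z ≠ y := by rintro rfl; exact hyS hz
      simp [this])
  -- second ear, through w
  have hN3 := hN2.earC (z := w) (d' := d) hwS (h2 w hw) (by simp [hdx]) (by simp [hdy])
    (fun z _ hz1 hz2 => by simp [hz1, hz2])
  have e1 : K + 4 * q + 3 = K + 2 * q + 1 + (2 * q + 1) + 1 := by ring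
  have e2 : 2 * (q + 1) = 2 * q + 1 + 1 := by ring
  rw [e1, e2]
  refine hN3.congr ?_ (fun _ _ => rfl)
  rw [hS0]
  ext z
  simp only [mem_union, mem_insert, mem_erase]
  constructor
  · rintro (h5 | h5)
    · by_cases h6 : z = y
      · exact Or.inr (Or.inl h6)
      · by_cases h7 : z = x
        · exact Or.inr (Or.inr (Or.inl h7))
        · exact Or.inr (Or.inr (Or.inr (Or.inl ⟨h6, h7, h5⟩)))
    · by_cases h6 : z = w
      · exact Or.inl h6
      · exact Or.inr (Or.inr (Or.inr (Or.inr ⟨h6, h5⟩)))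
  · rintro (rfl | rfl | rfl | ⟨_, _, h5⟩ | ⟨_, h5⟩)
    · exact Or.inr hw
    · exact Or.inl hy
    · exact Or.inl hx
    · exact Or.inl h5
    · exact Or.inr h5

/-- closing an open chain -/
theorem OE.close {v m K q : ℕ} (hv : 2 ≤ v) (h : OE V v m K q) {A : Finset V} {c : V → ℕ}
    (hA : A.card = v) (hc : ∀ u ∈ A, c u = 4) : Base A c (m + 1) (K + 2 * q + 1) := by
  intro O d hdis hO h3 h2
  obtain ⟨B, hB, hBc⟩ := exists_subset_card_eq (show 2 ≤ A.card by omega)
  obtain ⟨x, y, hxy, rfl⟩ := card_eq_two.mp hBc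
  have hx := hB (by simp : x ∈ ({x, y} : Finset V))
  have hy := hB (by simp : y ∈ ({x, y} : Finset V))
  obtain ⟨w, hw⟩ := card_pos.mp (show 0 < O.card by omega)
  have hwA : w ∉ A := fun hh => disjoint_left.mp hdis hh hw
  have hyO : y ∉ O := fun hh => disjoint_left.mp hdis hy hh
  have hxO : x ∉ O := fun hh => disjoint_left.mp hdis hx hh
  have hN := h A (O.erase w) x y (fun z => if z = x ∨ z = y then 3 else d z)
    (hdis.mono_right (erase_subset _ _)) hA (by rw [card_erase_of_mem hw, hO]; rfl) hx hy hxy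
    (by simp) (by simp)
    (fun z hz hz1 hz2 => by
      simp only [hz1, hz2, or_self, if_false]
      rw [h3 z hz, hc z hz])
    (fun z hz => by
      have h5 := mem_of_mem_erase hz
      have h6 : z ≠ x := by rintro rfl; exact hxO h5
      have h7 : z ≠ y := by rintro rfl; exact hyO h5
      simp only [h6, h7, or_self, if_false]
      exact h2 z h5)
  have hwS : w ∉ A ∪ O.erase w := by simp [hwA]
  have hN2 := hN.earC (z := w) (d' := d) hwS (h2 w hw)
    (by simp [h3 x hx, hc x hx]) (by simp [h3 y hy, hc y hy])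
    (fun z _ hz1 hz2 => by simp [hz1, hz2])
  have hs : insert w (A ∪ O.erase w) = A ∪ O := by
    ext z
    simp only [mem_union, mem_insert, mem_erase]
    constructor
    · rintro (rfl | h5 | ⟨_, h5⟩)
      · exact Or.inr hw
      · exact Or.inl h5
      · exact Or.inr h5
    · rintro (h5 | h5)
      · exact Or.inr (Or.inl h5)
      · by_cases h6 : z = w
        · exact Or.inl h6
        · exact Or.inr (Or.inr ⟨h6, h5⟩)
  rw [hs] at hN2
  exact hN2.good

/-- the numbers attained by chains -/
inductive CE : ℕ → ℕ → ℕ → Prop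
  | start : CE 2 3 1
  | stepB {v e q : ℕ} : CE v e q → CE (v + 1) (e + 4 * q) (2 * q)
  | stepA {v e q : ℕ} : CE v e q → CE (v + 2) (e + 4 * q + 3) (q + 1)

theorem CE.oe {v e q : ℕ} (h : CE v e q) :
    2 ≤ v ∧ ∃ m K, m ≤ v ∧ K + 2 * q = v + e ∧ OE V v m K q := by
  induction h with
  | start => exact ⟨le_rfl, 2, 3, by omega, by omega, OE.start⟩
  | stepB _ ih =>
    obtain ⟨h1, m, K, h2, h3, h4⟩ := ih
    exact ⟨by omega, m + 1, _, by omega, by omega, h4.stepB h1⟩
  | stepA _ ih =>
    obtain ⟨h1, m, K, h2, h3, h4⟩ := ih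
    exact ⟨by omega, m + 1, _, by omega, by omega, h4.stepA h1⟩

theorem CE.be {v e q : ℕ} (h : CE v e q) : BE V v e := by
  obtain ⟨h1, m, K, h2, h3, h4⟩ := h.oe (V := V)
  intro A c hA hc
  have h5 := h4.close h1 hA hc
  have h6 : K + 2 * q + 1 = v + 1 + e := by omega
  rw [h6] at h5
  exact Base.subd_le (by omega) (by omega) h5

theorem BE.join {v1 e1 v2 e2 : ℕ} (h1 : BE V v1 e1) (h2 : BE V v2 e2) :
    BE V (v1 + v2 + 1) (e1 + e2) := by
  intro A c hA hc
  obtain ⟨u, hu⟩ := card_pos.mp (show 0 < A.card by omega)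
  have hcc : (A.erase u).card = v1 + v2 := by rw [card_erase_of_mem hu]; omega
  obtain ⟨A1, hA1, hA1c⟩ := exists_subset_card_eq (show v1 ≤ (A.erase u).card by omega)
  set A2 := A.erase u \ A1 with hA2
  have hA2c : A2.card = v2 := by rw [hA2, card_sdiff_of_subset hA1, hA1c, hcc]; omega
  have hu1 : u ∉ A1 := fun hh => (mem_erase.mp (hA1 hh)).1 rfl
  have hu2 : u ∉ A2 := fun hh => by
    rw [hA2, mem_sdiff, mem_erase] at hh
    exact hh.1.1 rfl
  have b1 : Base A1 (fun _ => 4) (v1 + 1) (v1 + 1 + e1) := h1 A1 _ hA1c (fun _ _ => rfl)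
  have b2 : Base A2 (fun _ => 4) (v2 + 1) (v2 + 1 + e2) := h2 A2 _ hA2c (fun _ _ => rfl)
  have b3 := (b1.subd (by omega)).slot hu1
  have b4 := (b2.subd (by omega)).slot hu2
  have b5 := b3.glue (c := c) (u := u) b4 ?_ ?_ ?_ ?_
  · have s1 : insert u A1 ∪ insert u A2 = A := by
      ext z
      simp only [mem_union, mem_insert]
      constructor
      · rintro ((rfl | h) | rfl | h)
        · exact hu
        · exact (mem_erase.mp (hA1 h)).2
        · exact hu
        · rw [hA2, mem_sdiff, mem_erase] at h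
          exact h.1.2
      · intro hz
        by_cases h5 : z = u
        · exact Or.inl (Or.inl h5)
        · by_cases h6 : z ∈ A1
          · exact Or.inl (Or.inr h6)
          · right; right
            rw [hA2, mem_sdiff, mem_erase]
            exact ⟨⟨h5, hz⟩, h6⟩
    rw [s1] at b5
    have s2 : v1 + v2 + 1 + 1 = v1 + 1 + (v2 + 1) := by omega
    have s3 : v1 + v2 + 1 + 1 + (e1 + e2) = v1 + 1 + e1 + (v2 + 1 + e2) := by omega
    rw [s3, s2]
    exact b5
  · ext z
    simp only [mem_inter, mem_insert, mem_singleton]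
    constructor
    · rintro ⟨h5 | h5, h6 | h6⟩
      · exact h5
      · exact h5
      · exact h6
      · rw [hA2, mem_sdiff] at h6
        exact absurd h5 h6.2
    · rintro rfl
      exact ⟨Or.inl rfl, Or.inl rfl⟩
  · rw [hc u hu, update_self]
  · intro z hz hzu
    rw [mem_insert] at hz
    have hz' : z ∈ A1 := by tauto
    rw [hc z (mem_erase.mp (hA1 hz')).2, update_of_ne hzu]
  · intro z hz hzu
    rw [mem_insert] at hz
    have hz' : z ∈ A2 := by tauto
    rw [hA2, mem_sdiff, mem_erase] at hz'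
    rw [hc z hz'.1.2, update_of_ne hzu]

theorem BO.dia : BO V 2 1 := by
  rintro A c hA ⟨x, hx, y, hy, hxy, hcx, hcy, _⟩
  have hAeq : A = {x, y} := by
    symm
    apply eq_of_subset_of_card_le
    · intro z hz
      simp only [mem_insert, mem_singleton] at hz
      rcases hz with rfl | rfl
      · exact hx
      · exact hy
    · rw [hA, card_pair hxy]
  rw [hAeq]
  exact base_dia hxy hcx hcy

theorem BO.dia2 : BO V 4 2 := by
  rintro A c hA ⟨x, hx, y, hy, hxy, hcx, hcy, hc⟩
  have hcc : ((A.erase x).erase y).card = 2 := by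
    rw [card_erase_of_mem (mem_erase.mpr ⟨hxy.symm, hy⟩), card_erase_of_mem hx]
    omega
  obtain ⟨u, v, huv, huv2⟩ := card_eq_two.mp hcc
  have hu : u ∈ (A.erase x).erase y := by rw [huv2]; simp
  have hv : v ∈ (A.erase x).erase y := by rw [huv2]; simp
  rw [mem_erase, mem_erase] at hu hv
  have hAeq : A = {u, v, x, y} := by
    ext z
    simp only [mem_insert, mem_singleton]
    constructor
    · intro hz
      by_cases h5 : z = x
      · tauto
      · by_cases h6 : z = y
        · tauto
        · have : z ∈ (A.erase x).erase y := by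
            rw [mem_erase, mem_erase]; exact ⟨h6, h5, hz⟩
          rw [huv2] at this
          simp only [mem_insert, mem_singleton] at this
          tauto
    · rintro (rfl | rfl | rfl | rfl)
      · exact hu.2.2
      · exact hv.2.2
      · exact hx
      · exact hy
  rw [hAeq]
  exact base_T4 huv hu.2.1 hu.1 hv.2.1 hv.1 hxy (hc u hu.2.2 hu.2.1 hu.1)
    (hc v hv.2.2 hv.2.1 hv.1) hcx hcy

theorem BO.join {a e v e' : ℕ} (ha : 2 ≤ a) (h1 : BO V a e) (h2 : BE V v e') :
    BO V (a + v + 1) (e + e') := by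
  rintro A c hA ⟨x, hx, y, hy, hxy, hcx, hcy, hc⟩
  have hcc : ((A.erase x).erase y).card = a + v - 1 := by
    rw [card_erase_of_mem (mem_erase.mpr ⟨hxy.symm, hy⟩), card_erase_of_mem hx]
    omega
  obtain ⟨u, hu⟩ := card_pos.mp (show 0 < ((A.erase x).erase y).card by omega)
  rw [mem_erase, mem_erase] at hu
  obtain ⟨huy, hux, huA⟩ := hu
  have hxyA : ({x, y} : Finset V) ⊆ A.erase u := by
    intro z hz
    simp only [mem_insert, mem_singleton] at hz
    rw [mem_erase]
    rcases hz with rfl | rfl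
    · exact ⟨hux.symm, hx⟩
    · exact ⟨huy.symm, hy⟩
  have hcu : (A.erase u).card = a + v := by rw [card_erase_of_mem huA]; omega
  obtain ⟨A1, hA1a, hA1, hA1c⟩ := exists_subsuperset_card_eq hxyA
    (show ({x, y} : Finset V).card ≤ a by rw [card_pair hxy]; exact ha)
    (show a ≤ (A.erase u).card by omega)
  have hx1 : x ∈ A1 := hA1a (by simp)
  have hy1 : y ∈ A1 := hA1a (by simp)
  set A2 := A.erase u \ A1 with hA2
  have hA2c : A2.card = v := by rw [hA2, card_sdiff_of_subset hA1, hA1c, hcu]; omega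
  have hu1 : u ∉ A1 := fun hh => (mem_erase.mp (hA1 hh)).1 rfl
  have hu2 : u ∉ A2 := fun hh => by
    rw [hA2, mem_sdiff, mem_erase] at hh
    exact hh.1.1 rfl
  have b1 : Base A1 c a (a + e) := h1 A1 c hA1c ⟨x, hx1, y, hy1, hxy, hcx, hcy,
    fun z hz h5 h6 => hc z (mem_erase.mp (hA1 hz)).2 h5 h6⟩
  have b2 : Base A2 (fun _ => 4) (v + 1) (v + 1 + e') := h2 A2 _ hA2c (fun _ _ => rfl)
  have b3 := (b1.subd (by omega)).slot hu1
  have b4 := (b2.subd (by omega)).slot hu2
  have b5 := b3.glue (c := c) (u := u) b4 ?_ ?_ ?_ ?_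
  · have s1 : insert u A1 ∪ insert u A2 = A := by
      ext z
      simp only [mem_union, mem_insert]
      constructor
      · rintro ((rfl | h) | rfl | h)
        · exact huA
        · exact (mem_erase.mp (hA1 h)).2
        · exact huA
        · rw [hA2, mem_sdiff, mem_erase] at h
          exact h.1.2
      · intro hz
        by_cases h5 : z = u
        · exact Or.inl (Or.inl h5)
        · by_cases h6 : z ∈ A1
          · exact Or.inl (Or.inr h6)
          · right; right
            rw [hA2, mem_sdiff, mem_erase]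
            exact ⟨⟨h5, hz⟩, h6⟩
    rw [s1] at b5
    have s2 : a + v + 1 = a + (v + 1) := by omega
    have s3 : a + v + 1 + (e + e') = a + e + (v + 1 + e') := by omega
    rw [s3, s2]
    exact b5
  · ext z
    simp only [mem_inter, mem_insert, mem_singleton]
    constructor
    · rintro ⟨h5 | h5, h6 | h6⟩
      · exact h5
      · exact h5
      · exact h6
      · rw [hA2, mem_sdiff] at h6
        exact absurd h5 h6.2
    · rintro rfl
      exact ⟨Or.inl rfl, Or.inl rfl⟩
  · rw [hc u huA hux huy, update_self, update_self]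
  · intro z hz hzu
    rw [update_of_ne hzu]
  · intro z hz hzu
    rw [mem_insert] at hz
    have hz' : z ∈ A2 := by tauto
    rw [hA2, mem_sdiff, mem_erase] at hz'
    have h5 : z ≠ x := by rintro rfl; exact hz'.2 hx1
    have h6 : z ≠ y := by rintro rfl; exact hz'.2 hy1
    rw [hc z hz'.1.2 h5 h6, update_of_ne hzu]

end Pool.Agent.Helper53
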