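import Pool.Agent.Helper53.Span

/-!
# Even edge sets: degrees, odd vertices, and the second inequality
-/

open Finset
open scoped symmDiff

set_option linter.unusedSectionVars false

namespace Pool.Agent.Helper53

variable {V : Type*} [Fintype V] [DecidableEq V]

/-- the number of members of `X` containing `v` -/
def dg (X : Finset (Sym2 V)) (v : V) : ℕ := (X.filter (fun e => v ∈ e)).card

/-- the vertices lying in an odd number of members of `X` -/
def odds (X : Finset (Sym2 V)) : Finset V := univ.filter (fun v => Odd (dg X v))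

/-- the vertices lying in some member of `X` -/
def tch (X : Finset (Sym2 V)) : Finset V := univ.filter (fun v => 0 < dg X v)

/-- even edge sets without loops -/
def EvenSet (X : Finset (Sym2 V)) : Prop :=
  (∀ e ∈ X, ¬ e.IsDiag) ∧ ∀ v, Even (dg X v)

theorem mem_odds {X : Finset (Sym2 V)} {v : V} : v ∈ odds X ↔ Odd (dg X v) := by
  simp [odds]

theorem mem_tch {X : Finset (Sym2 V)} {v : V} : v ∈ tch X ↔ 0 < dg X v := by
  simp [tch]

theorem dg_pos {X : Finset (Sym2 V)} {v : V} : 0 < dg X v ↔ ∃ e ∈ X, v ∈ e := by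
  unfold dg
  rw [card_pos]
  constructor
  · rintro ⟨e, he⟩
    rw [mem_filter] at he
    exact ⟨e, he.1, he.2⟩
  · rintro ⟨e, he, hv⟩
    exact ⟨e, mem_filter.mpr ⟨he, hv⟩⟩

theorem dg_mono {X Y : Finset (Sym2 V)} (h : X ⊆ Y) (v : V) : dg X v ≤ dg Y v :=
  card_le_card (filter_subset_filter _ h)

theorem dg_union {X Y : Finset (Sym2 V)} (h : Disjoint X Y) (v : V) :
    dg (X ∪ Y) v = dg X v + dg Y v := by
  unfold dg
  rw [filter_union, card_union_of_disjoint]
  exact disjoint_filter_filter h

theorem dg_sdiff {X Y : Finset (Sym2 V)} (h : Y ⊆ X) (v : V) :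
    dg X v = dg (X \ Y) v + dg Y v := by
  rw [← dg_union sdiff_disjoint, sdiff_union_of_subset h]

theorem filter_symmDiff' (X Y : Finset (Sym2 V)) (v : V) :
    (X ∆ Y).filter (fun e => v ∈ e) =
      (X.filter (fun e => v ∈ e)) ∆ (Y.filter (fun e => v ∈ e)) := by
  ext e
  simp only [mem_filter, mem_symmDiff]
  tauto

theorem odds_symmDiff (X Y : Finset (Sym2 V)) : odds (X ∆ Y) = odds X ∆ odds Y := by
  ext v
  rw [mem_symmDiff, mem_odds, mem_odds, mem_odds]
  unfold dg
  rw [filter_symmDiff', odd_card_symmDiff]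
  tauto

theorem fam_evenSet : Fam (EvenSet (V := V)) where
  zero := ⟨by simp, by simp [dg]⟩
  add := by
    rintro A B ⟨hA1, hA2⟩ ⟨hB1, hB2⟩
    refine ⟨?_, ?_⟩
    · intro e he
      rw [mem_symmDiff] at he
      rcases he with he | he
      · exact hA1 e he.1
      · exact hB1 e he.1
    · intro v
      unfold dg
      rw [filter_symmDiff', even_card_symmDiff]
      have h1 := hA2 v
      have h2 := hB2 v
      unfold dg at h1 h2
      tauto

/-- handshake -/
theorem sum_dg {X : Finset (Sym2 V)} (hX : ∀ e ∈ X, ¬ e.IsDiag) :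
    ∑ v, dg X v = 2 * X.card := by
  have h1 : ∑ v, dg X v = ∑ v, ∑ e ∈ X, (if v ∈ e then 1 else 0) := by
    refine sum_congr rfl ?_
    intro v _
    unfold dg
    rw [card_filter]
  rw [h1, sum_comm]
  have h2 : ∀ e ∈ X, ∑ v : V, (if v ∈ e then 1 else 0) = 2 := by
    intro e he
    have hd := hX e he
    induction e using Sym2.ind with
    | _ a b =>
      have hab : a ≠ b := by simpa using hd
      rw [← card_filter]
      have : (univ.filter (fun v => v ∈ s(a, b))) = {a, b} := by
        ext v; simp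
      rw [this, card_pair hab]
  rw [sum_congr rfl h2]
  simp [mul_comm]

theorem even_card_odds {X : Finset (Sym2 V)} (hX : ∀ e ∈ X, ¬ e.IsDiag) :
    Even (odds X).card := by
  have h1 : Even (∑ v, dg X v) := by rw [sum_dg hX]; exact even_two_mul _
  rw [even_sum_iff_even_card_odd] at h1
  exact h1

theorem evenSet_iff_odds {X : Finset (Sym2 V)} (hX : ∀ e ∈ X, ¬ e.IsDiag) :
    EvenSet X ↔ odds X = ∅ := by
  constructor
  · rintro ⟨_, h⟩
    ext v
    rw [mem_odds]
    simp [← Nat.not_even_iff_odd, h v]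
  · intro h
    refine ⟨hX, ?_⟩
    intro v
    rw [← Nat.not_odd_iff_even, ← mem_odds, h]
    simp

/-- pigeonhole: `|U| ≤ rank + |touched vertices| - 1` -/
theorem card_le_mu_add {U : Finset (Sym2 V)} (hU : ∀ e ∈ U, ¬ e.IsDiag) (hne : (tch U).Nonempty) :
    U.card + 1 ≤ mu EvenSet U + (tch U).card := by
  classical
  obtain ⟨v0, hv0⟩ := hne
  have key := card_le_mul_card_image_of_maps_to (s := U.powerset)
    (t := ((tch U).erase v0).powerset) (f := fun X => (odds X).erase v0) ?_
    (evs EvenSet U).card ?_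
  · rw [card_powerset, card_powerset, card_erase_of_mem hv0, card_evs fam_evenSet, ← pow_add,
      Nat.pow_le_pow_iff_right (by norm_num)] at key
    have : 0 < (tch U).card := card_pos.mpr ⟨v0, hv0⟩
    omega
  · intro X hX
    rw [mem_powerset] at hX ⊢
    apply erase_subset_erase
    intro v hv
    rw [mem_odds] at hv
    rw [mem_tch]
    exact lt_of_lt_of_le hv.pos (dg_mono hX v)
  · intro b _
    rcases (U.powerset.filter (fun X => (odds X).erase v0 = b)).eq_empty_or_nonempty with h0 | hne
    · rw [h0]; simp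
    · obtain ⟨X0, hX0⟩ := hne
      rw [mem_filter, mem_powerset] at hX0
      apply card_le_card_of_injOn (fun X => X ∆ X0)
      · intro X hX
        rw [mem_coe, mem_filter, mem_powerset] at hX
        rw [mem_coe, mem_evs]
        have hsub : X ∆ X0 ⊆ U := by
          intro y hy
          rw [mem_symmDiff] at hy
          rcases hy with hy | hy
          · exact hX.1 hy.1
          · exact hX0.1 hy.1
        refine ⟨hsub, ?_⟩
        have hnd : ∀ e ∈ X ∆ X0, ¬ e.IsDiag := fun e he => hU e (hsub he)
        rw [evenSet_iff_odds hnd]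
        have h1 : odds (X ∆ X0) ⊆ {v0} := by
          intro v hv
          rw [odds_symmDiff, mem_symmDiff] at hv
          rw [mem_singleton]
          by_contra hne
          have e1 : v ∈ (odds X).erase v0 ↔ v ∈ (odds X0).erase v0 := by rw [hX.2, hX0.2]
          rw [mem_erase, mem_erase] at e1
          tauto
        have h2 := even_card_odds hnd
        rcases subset_singleton_iff.mp h1 with h3 | h3
        · exact h3
        · rw [h3] at h2; simp at h2
      · intro X _ Y _ hXY
        exact symmDiff_left_injective X0 hXY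

/-- every vertex touched by the block of `e` has degree at least two in it -/
theorem two_le_dg_of_circuits {U : Finset (Sym2 V)}
    (hU : ∀ f ∈ U, ∃ C, C ⊆ U ∧ IsC EvenSet C ∧ f ∈ C) {v : V} (hv : 0 < dg U v) :
    2 ≤ dg U v := by
  obtain ⟨f, hf, hvf⟩ := dg_pos.mp hv
  obtain ⟨C, hC, hCc, hfC⟩ := hU f hf
  have h1 : 0 < dg C v := dg_pos.mpr ⟨f, hfC, hvf⟩
  have h2 := hCc.1.2 v
  have h3 := dg_mono hC v
  rcases h2 with ⟨k, hk⟩
  omega

/-- number of vertices of degree at least three, when all touched vertices have degree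
at least two -/
theorem card_three_le {U : Finset (Sym2 V)} (hU : ∀ e ∈ U, ¬ e.IsDiag)
    (h2 : ∀ v, 0 < dg U v → 2 ≤ dg U v) :
    (univ.filter (fun v => 3 ≤ dg U v)).card + 2 * (tch U).card ≤ 2 * U.card := by
  classical
  rw [← sum_dg hU]
  have h3 : (univ.filter (fun v => 3 ≤ dg U v)).card = ∑ v : V, (if 3 ≤ dg U v then 1 else 0) := by
    rw [card_filter]
  have h4 : (tch U).card = ∑ v : V, (if 0 < dg U v then 1 else 0) := by
    unfold tch
    rw [card_filter]
  rw [h3, h4, mul_sum, ← sum_add_distrib]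
  refine sum_le_sum ?_
  intro v _
  have := h2 v
  split_ifs <;> omega

variable {F : Finset (Sym2 V)}

/-- the series class of `e` has few odd vertices -/
theorem odds_ser_le (hF : ∀ e ∈ F, ¬ e.IsDiag) {e : Sym2 V} (he : e ∈ cyc EvenSet F) :
    (odds (ser EvenSet F e)).card + 2 ≤ 2 * (thr EvenSet F e).card := by
  classical
  set U := blk EvenSet F e with hUdef
  have hUF : U ⊆ F := blk_subset F e
  have hUd : ∀ e ∈ U, ¬ e.IsDiag := fun f hf => hF f (hUF hf)
  have hUc : ∀ f ∈ U, ∃ C, C ⊆ U ∧ IsC EvenSet C ∧ f ∈ C := by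
    intro f hf
    obtain ⟨C, h1, h2, h3, h4⟩ := mem_blk.mp hf
    exact ⟨C, thr_subset_blk (mem_thr.mpr ⟨h1, h2, h3⟩), h2, h4⟩
  have h2 : ∀ v, 0 < dg U v → 2 ≤ dg U v := fun v hv => two_le_dg_of_circuits hUc hv
  obtain ⟨C0, hC0F, hC0c, heC0⟩ := mem_cyc.mp he
  have hC0 : C0 ∈ thr EvenSet F e := mem_thr.mpr ⟨hC0F, hC0c, heC0⟩
  have hserC : ∀ C ∈ thr EvenSet F e, ser EvenSet F e ⊆ C :=
    fun C hC f hf => (mem_ser.mp hf).2 C hC
  have heU : e ∈ U := thr_subset_blk hC0 heC0
  have hsub : odds (ser EvenSet F e) ⊆ univ.filter (fun v => 3 ≤ dg U v) := by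
    intro w hw
    rw [mem_odds] at hw
    rw [mem_filter]
    refine ⟨mem_univ _, ?_⟩
    have h5 : dg (ser EvenSet F e) w ≤ dg U w :=
      dg_mono ((hserC C0 hC0).trans (thr_subset_blk hC0)) w
    have h6 := h2 w (lt_of_lt_of_le hw.pos h5)
    by_contra h7
    have h8 : dg U w = 2 := by omega
    -- every circuit through e has degree two at w, so contains both edges of U at w
    have h9 : ∀ C ∈ thr EvenSet F e, C.filter (fun f => w ∈ f) = U.filter (fun f => w ∈ f) := by
      intro C hC
      apply eq_of_subset_of_card_le (filter_subset_filter _ (thr_subset_blk hC))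
      have h10 : dg (ser EvenSet F e) w ≤ dg C w := dg_mono (hserC C hC) w
      have h11 := (mem_thr.mp hC).2.1.1.2 w
      have h12 := hw.pos
      change dg U w ≤ dg C w
      rcases h11 with ⟨k, hk⟩
      omega
    have h13 : U.filter (fun f => w ∈ f) ⊆ (ser EvenSet F e).filter (fun f => w ∈ f) := by
      intro f hf
      rw [mem_filter]
      refine ⟨?_, (mem_filter.mp hf).2⟩
      rw [mem_ser]
      refine ⟨hUF (mem_filter.mp hf).1, ?_⟩
      intro C hC
      have := h9 C hC
      rw [← this] at hf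
      exact (mem_filter.mp hf).1
    have h14 : dg U w ≤ dg (ser EvenSet F e) w := card_le_card h13
    have h15 : dg (ser EvenSet F e) w = 2 := by omega
    rw [h15] at hw
    exact absurd hw (by decide)
  have h16 := card_le_card hsub
  have h17 := card_three_le hUd h2
  have htne : (tch U).Nonempty := by
    obtain ⟨v, hv⟩ : ∃ v, v ∈ e := ⟨e.out.1, Sym2.out_fst_mem e⟩
    exact ⟨v, mem_tch.mpr (dg_pos.mpr ⟨e, heU, hv⟩)⟩
  have h18 := card_le_mu_add hUd htne
  have h19 : mu EvenSet U ≤ (thr EvenSet F e).card := mu_blk_le fam_evenSet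
  omega

/-- **Second inequality.** -/
theorem odds_cyc_le : ∀ (n : ℕ) (F : Finset (Sym2 V)), F.card ≤ n → (∀ e ∈ F, ¬ e.IsDiag) →
    (odds (cyc EvenSet F)).card + 2 * mu EvenSet F ≤ 2 * (circ EvenSet F).card := by
  classical
  intro n
  induction n with
  | zero =>
    intro F hF _
    have h0 : F = ∅ := by simpa using hF
    have h1 : cyc EvenSet F = ∅ := by rw [h0]; simp [cyc]
    rw [mu_of_cyc_empty fam_evenSet h1, h1]
    have : odds (∅ : Finset (Sym2 V)) = ∅ := by
      ext v; rw [mem_odds]; simp [dg]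
    rw [this]; simp
  | succ n ih =>
    intro F hF hd
    rcases (cyc EvenSet F).eq_empty_or_nonempty with h1 | ⟨e, he⟩
    · rw [mu_of_cyc_empty fam_evenSet h1, h1]
      have : odds (∅ : Finset (Sym2 V)) = ∅ := by
        ext v; rw [mem_odds]; simp [dg]
      rw [this]; simp
    · have hlt : (F.erase e).card < F.card := card_erase_lt_of_mem (cyc_subset F he)
      have h2 := ih (F.erase e) (by omega) (fun f hf => hd f (erase_subset _ _ hf))
      have h3 := odds_ser_le hd he
      have h4 : odds (cyc EvenSet F) ⊆ odds (cyc EvenSet (F.erase e)) ∪ odds (ser EvenSet F e) := by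
        intro v hv
        rw [mem_union, mem_odds, mem_odds]
        rw [mem_odds, dg_sdiff (ser_subset_cyc he) v, ← cyc_erase fam_evenSet he] at hv
        by_contra hcon
        rw [not_or, Nat.not_odd_iff_even, Nat.not_odd_iff_even] at hcon
        exact (Nat.not_odd_iff_even.mpr (hcon.1.add hcon.2)) hv
      have h5 := (card_le_card h4).trans (card_union_le _ _)
      rw [mu_erase fam_evenSet he, card_circ_erase F e]
      omega

end Pool.Agent.Helper53
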