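import Pool.Agent.Helper53.Block

/-!
# Even sets which are unions of circuits: the number of circuits minus the rank is `3 a + 7 b`
-/

open Finset
open scoped symmDiff

set_option linter.unusedSectionVars false

namespace Pool.Agent.Helper53

variable {α : Type*} [DecidableEq α] {P : Finset α → Prop}

theorem evs_mono {X Y : Finset α} (h : X ⊆ Y) : evs P X ⊆ evs P Y := by
  intro Z hZ
  rw [mem_evs] at hZ ⊢
  exact ⟨hZ.1.trans h, hZ.2⟩

theorem mu_mono (h : Fam P) {X Y : Finset α} (hXY : X ⊆ Y) : mu P X ≤ mu P Y := by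
  have := card_le_card (evs_mono (P := P) hXY)
  rw [card_evs h, card_evs h] at this
  exact (Nat.pow_le_pow_iff_right (by norm_num)).mp this

theorem fam_union (h : Fam P) {A B : Finset α} (hA : P A) (hB : P B) (hd : Disjoint A B) :
    P (A ∪ B) := by
  have := h.add _ _ hA hB
  rwa [hd.symmDiff_eq_sup] at this

/-- superadditivity of the rank -/
theorem mu_add_le (h : Fam P) {X Y : Finset α} (hd : Disjoint X Y) :
    mu P X + mu P Y ≤ mu P (X ∪ Y) := by
  have h1 : (evs P X ×ˢ evs P Y).card ≤ (evs P (X ∪ Y)).card := by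
    apply card_le_card_of_injOn (fun p => p.1 ∪ p.2)
    · intro p hp
      simp only [coe_product, Set.mem_prod, mem_coe] at hp
      rw [mem_evs, mem_evs] at hp
      rw [mem_coe, mem_evs]
      exact ⟨union_subset_union hp.1.1 hp.2.1,
        fam_union h hp.1.2 hp.2.2 (hd.mono hp.1.1 hp.2.1)⟩
    · intro p hp q hq hpq
      simp only [coe_product, Set.mem_prod, mem_coe] at hp hq
      rw [mem_evs, mem_evs] at hp hq
      simp only at hpq
      have e1 : ∀ A B : Finset α, A ⊆ X → B ⊆ Y → (A ∪ B) ∩ X = A := by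
        intro A B hA hB
        ext x
        simp only [mem_inter, mem_union]
        constructor
        · rintro ⟨h1 | h1, h2⟩
          · exact h1
          · exact absurd (hB h1) (disjoint_left.mp hd h2)
        · intro h1; exact ⟨Or.inl h1, hA h1⟩
      have e2 : ∀ A B : Finset α, A ⊆ X → B ⊆ Y → (A ∪ B) ∩ Y = B := by
        intro A B hA hB
        ext x
        simp only [mem_inter, mem_union]
        constructor
        · rintro ⟨h1 | h1, h2⟩
          · exact absurd h2 (disjoint_left.mp hd (hA h1))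
          · exact h1
        · intro h1; exact ⟨Or.inr h1, hB h1⟩
      ext1
      · rw [← e1 p.1 p.2 hp.1.1 hp.2.1, hpq, e1 q.1 q.2 hq.1.1 hq.2.1]
      · rw [← e2 p.1 p.2 hp.1.1 hp.2.1, hpq, e2 q.1 q.2 hq.1.1 hq.2.1]
  rw [card_product, card_evs h, card_evs h, card_evs h, ← pow_add] at h1
  exact (Nat.pow_le_pow_iff_right (by norm_num)).mp h1

/-- strict superadditivity inside a connected set -/
theorem Con.mu_add_lt (h : Fam P) {K X : Finset α} (hK : Con P K) (hX : X ⊆ K)
    (hne : X.Nonempty) (hne2 : (K \ X).Nonempty) : mu P X + mu P (K \ X) < mu P K := by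
  have hd : Disjoint X (K \ X) := disjoint_sdiff
  obtain ⟨f, hf⟩ := hne
  obtain ⟨g, hg⟩ := hne2
  obtain ⟨C, c1, c2, c3, c4⟩ := hK.2 f (hX hf) g (mem_sdiff.mp hg).1
  have h1 : (evs P X ×ˢ evs P (K \ X)).card < (evs P K).card := by
    have h2 : ((evs P X ×ˢ evs P (K \ X)).image (fun p => p.1 ∪ p.2)) ⊂ evs P K := by
      rw [ssubset_iff_of_subset]
      · refine ⟨C, mem_evs.mpr ⟨c1, c2.1⟩, ?_⟩
        intro hC
        rw [mem_image] at hC
        obtain ⟨p, hp, hpC⟩ := hC
        rw [mem_product, mem_evs, mem_evs] at hp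
        have hsub : p.1 ⊆ C := by rw [← hpC]; exact subset_union_left
        have hfp : f ∈ p.1 := by
          have : f ∈ p.1 ∪ p.2 := by rw [hpC]; exact c3
          rw [mem_union] at this
          rcases this with h5 | h5
          · exact h5
          · exact absurd (hp.2.1 h5) (disjoint_left.mp hd hf)
        rcases c2.2.2 _ hsub hp.1.2 with h5 | h5
        · rw [h5] at hfp; simp at hfp
        · have : g ∈ p.1 := by rw [h5]; exact c4
          exact (mem_sdiff.mp hg).2 (hp.1.1 this)
      · intro Z hZ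
        rw [mem_image] at hZ
        obtain ⟨p, hp, rfl⟩ := hZ
        rw [mem_product, mem_evs, mem_evs] at hp
        rw [mem_evs]
        exact ⟨union_subset (hp.1.1.trans hX) (hp.2.1.trans sdiff_subset),
          fam_union h hp.1.2 hp.2.2 (hd.mono hp.1.1 hp.2.1)⟩
    have h3 := card_lt_card h2
    rw [card_image_of_injOn] at h3
    · exact h3
    · intro p hp q hq hpq
      rw [mem_coe, mem_product, mem_evs, mem_evs] at hp hq
      simp only at hpq
      have e1 : ∀ A B : Finset α, A ⊆ X → B ⊆ K \ X → (A ∪ B) ∩ X = A := by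
        intro A B hA hB
        ext x
        simp only [mem_inter, mem_union]
        constructor
        · rintro ⟨h1 | h1, h2⟩
          · exact h1
          · exact absurd (hB h1) (disjoint_left.mp hd h2)
        · intro h1; exact ⟨Or.inl h1, hA h1⟩
      have e2 : ∀ A B : Finset α, A ⊆ X → B ⊆ K \ X → (A ∪ B) ∩ (K \ X) = B := by
        intro A B hA hB
        ext x
        simp only [mem_inter, mem_union]
        constructor
        · rintro ⟨h1 | h1, h2⟩
          · exact absurd h2 (disjoint_left.mp hd (hA h1))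
          · exact h1
        · intro h1; exact ⟨Or.inr h1, hB h1⟩
      ext1
      · rw [← e1 p.1 p.2 hp.1.1 hp.2.1, hpq, e1 q.1 q.2 hq.1.1 hq.2.1]
      · rw [← e2 p.1 p.2 hp.1.1 hp.2.1, hpq, e2 q.1 q.2 hq.1.1 hq.2.1]
  rw [card_product, card_evs h, card_evs h, card_evs h, ← pow_add] at h1
  exact (Nat.pow_lt_pow_iff_right (by norm_num)).mp h1

theorem mu_circuit (h : Fam P) {C : Finset α} (hC : IsC P C) : mu P C = 1 := by
  have h1 : evs P C = {∅, C} := by
    ext X
    rw [mem_evs, mem_insert, mem_singleton]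
    constructor
    · rintro ⟨h1, h2⟩; exact hC.2.2 X h1 h2
    · rintro (rfl | rfl)
      · exact ⟨empty_subset _, h.zero⟩
      · exact ⟨Subset.refl _, hC.1⟩
  have h2 : (evs P C).card = 2 := by
    rw [h1, card_pair (nonempty_iff_ne_empty.mp hC.2.1).symm]
  rw [card_evs h] at h2
  exact Nat.pow_right_injective (le_refl 2) (by simpa using h2)

theorem mu_pos_of (h : Fam P) {X : Finset α} (hX : P X) (hne : X.Nonempty) : 1 ≤ mu P X := by
  obtain ⟨x, hx⟩ := hne
  obtain ⟨C, c1, c2, _⟩ := h.circuit hX hx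
  have := mu_mono h c1
  rw [mu_circuit h c2] at this
  exact this

/-- a nonempty even set which is not a circuit splits -/
theorem exists_split (h : Fam P) {X : Finset α} (hX : P X) (hne : X.Nonempty)
    (hnc : ¬ IsC P X) : ∃ A B, A ∪ B = X ∧ Disjoint A B ∧ P A ∧ P B ∧ A.Nonempty ∧
      B.Nonempty := by
  have : ∃ D, D ⊆ X ∧ P D ∧ D ≠ ∅ ∧ D ≠ X := by
    by_contra hcon
    apply hnc
    refine ⟨hX, hne, ?_⟩
    intro D hD hPD
    by_contra h2
    rw [not_or] at h2
    exact hcon ⟨D, hD, hPD, h2.1, h2.2⟩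
  obtain ⟨D, d1, d2, d3, d4⟩ := this
  refine ⟨D, X \ D, union_sdiff_of_subset d1, disjoint_sdiff, d2, h.sdiff hX d2 d1,
    nonempty_iff_ne_empty.mpr d3, ?_⟩
  rw [nonempty_iff_ne_empty]
  intro h0
  rw [sdiff_eq_empty_iff_subset] at h0
  exact d4 (Subset.antisymm d1 h0)

theorem isC_of_mu (h : Fam P) {X : Finset α} (hX : P X) (hne : X.Nonempty)
    (hm : mu P X ≤ 1) : IsC P X := by
  by_contra hnc
  obtain ⟨A, B, h1, h2, h3, h4, h5, h6⟩ := exists_split h hX hne hnc
  have e1 := mu_pos_of h h3 h5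
  have e2 := mu_pos_of h h4 h6
  have e3 := mu_add_le h h2
  rw [h1] at e3
  omega

/-- the proper nonempty even subsets -/
noncomputable def pne (P : Finset α → Prop) (K : Finset α) : Finset (Finset α) :=
  ((evs P K).erase ∅).erase K

theorem mem_pne {K X : Finset α} : X ∈ pne P K ↔ X ⊆ K ∧ P X ∧ X ≠ ∅ ∧ X ≠ K := by
  simp only [pne, mem_erase, mem_evs]
  tauto

theorem card_pne (h : Fam P) {K : Finset α} (hK : P K) (hne : K.Nonempty) :
    (pne P K).card + 2 = 2 ^ mu P K := by
  have h1 : K ∈ (evs P K).erase ∅ := by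
    rw [mem_erase, mem_evs]
    exact ⟨nonempty_iff_ne_empty.mp hne, Subset.refl _, hK⟩
  have h2 : (∅ : Finset α) ∈ evs P K := mem_evs.mpr ⟨empty_subset _, h.zero⟩
  have h3 := card_erase_add_one h1
  have h4 := card_erase_add_one h2
  rw [card_evs h] at h4
  unfold pne
  omega

theorem circ_subset_pne {K : Finset α} (hK : ¬ IsC P K) : circ P K ⊆ pne P K := by
  intro C hC
  rw [mem_circ] at hC
  rw [mem_pne]
  refine ⟨hC.1, hC.2.1, nonempty_iff_ne_empty.mp hC.2.2.1, ?_⟩
  rintro rfl
  exact hK hC.2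

theorem pne_compl (h : Fam P) {K X : Finset α} (hK : P K) (hX : X ∈ pne P K) :
    K \ X ∈ pne P K := by
  rw [mem_pne] at hX ⊢
  refine ⟨sdiff_subset, h.sdiff hK hX.2.1 hX.1, ?_, ?_⟩
  · intro h0
    rw [sdiff_eq_empty_iff_subset] at h0
    exact hX.2.2.2 (Subset.antisymm hX.1 h0)
  · intro h0
    apply hX.2.2.1
    rw [eq_empty_iff_forall_notMem]
    intro x hx
    have : x ∈ K \ X := by rw [h0]; exact hX.1 hx
    exact (mem_sdiff.mp this).2 hx

theorem not_isC_of_mu (h : Fam P) {K : Finset α} (h2 : 2 ≤ mu P K) : ¬ IsC P K := by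
  intro hc
  have := mu_circuit h hc
  omega

/-- rank four: not exactly two non-circuits -/
theorem four_ne (h : Fam P) {K : Finset α} (hP : P K) (hK : Con P K) (hm : mu P K = 4) :
    (circ P K).card ≠ 12 := by
  classical
  intro h12
  have hnc := not_isC_of_mu h (K := K) (by omega)
  have hsub := circ_subset_pne (P := P) hnc
  have hcard := card_pne h hP hK.1
  rw [hm] at hcard
  have hs : (pne P K \ circ P K).card = 2 := by
    rw [card_sdiff_of_subset hsub, h12]; omega
  obtain ⟨X, hX⟩ := card_pos.mp (show 0 < (pne P K \ circ P K).card by omega)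
  rw [mem_sdiff, mem_circ] at hX
  obtain ⟨hX1, hX2⟩ := hX
  have hXc := pne_compl h hP hX1
  rw [mem_pne] at hX1 hXc
  have hXnc : ¬ IsC P X := fun hh => hX2 ⟨hX1.1, hh⟩
  obtain ⟨A, B, hAB, hdis, hA, hB, hAn, hBn⟩ :=
    exists_split h hX1.2.1 (nonempty_iff_ne_empty.mpr hX1.2.2.1) hXnc
  set C := K \ X with hC
  have hCn : C.Nonempty := nonempty_iff_ne_empty.mpr hXc.2.2.1
  have hAX : A ⊆ X := by rw [← hAB]; exact subset_union_left
  have hBX : B ⊆ X := by rw [← hAB]; exact subset_union_right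
  have hdAC : Disjoint A C := disjoint_sdiff.mono_left hAX
  have hdBC : Disjoint B C := disjoint_sdiff.mono_left hBX
  -- the three complements
  have key : ∀ {U W : Finset α}, P U → P W → U.Nonempty → W.Nonempty → Disjoint U W →
      U ⊆ K → W ⊆ K → (K \ (U ∪ W)).Nonempty → (U ∪ W) ∈ pne P K \ circ P K := by
    intro U W hU hW hUn hWn hUW hUK hWK hne
    rw [mem_sdiff, mem_circ, mem_pne]
    refine ⟨⟨union_subset hUK hWK, fam_union h hU hW hUW, ?_, ?_⟩, ?_⟩
    · intro h0
      obtain ⟨x, hx⟩ := hUn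
      have : x ∈ U ∪ W := mem_union_left _ hx
      rw [h0] at this; simp at this
    · intro h0
      rw [h0] at hne
      simp at hne
    · rintro ⟨_, hc⟩
      rcases hc.2.2 U subset_union_left hU with h5 | h5
      · rw [h5] at hUn; simp at hUn
      · obtain ⟨x, hx⟩ := hWn
        have : x ∈ U := by rw [h5]; exact mem_union_right _ hx
        exact disjoint_left.mp hUW this hx
  have hKeq : A ∪ B ∪ C = K := by rw [hAB, hC]; exact union_sdiff_of_subset hX1.1
  have inK : ∀ x, x ∈ A ∨ x ∈ B ∨ x ∈ C → x ∈ K := by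
    intro x hx
    rw [← hKeq]; simp only [mem_union]; tauto
  have k1 := key hA hB hAn hBn hdis (fun x hx => inK x (by tauto)) (fun x hx => inK x (by tauto))
    (by
      obtain ⟨x, hx⟩ := hCn
      refine ⟨x, mem_sdiff.mpr ⟨inK x (by tauto), ?_⟩⟩
      rw [mem_union, not_or]
      exact ⟨fun hh => disjoint_left.mp hdAC hh hx, fun hh => disjoint_left.mp hdBC hh hx⟩)
  have k2 := key hA hXc.2.1 hAn hCn hdAC (fun x hx => inK x (by tauto))
    (fun x hx => inK x (by tauto))
    (by
      obtain ⟨x, hx⟩ := hBn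
      refine ⟨x, mem_sdiff.mpr ⟨inK x (by tauto), ?_⟩⟩
      rw [mem_union, not_or]
      exact ⟨fun hh => disjoint_left.mp hdis hh hx, fun hh => disjoint_left.mp hdBC hx hh⟩)
  have k3 := key hB hXc.2.1 hBn hCn hdBC (fun x hx => inK x (by tauto))
    (fun x hx => inK x (by tauto))
    (by
      obtain ⟨x, hx⟩ := hAn
      refine ⟨x, mem_sdiff.mpr ⟨inK x (by tauto), ?_⟩⟩
      rw [mem_union, not_or]
      exact ⟨fun hh => disjoint_left.mp hdis hx hh, fun hh => disjoint_left.mp hdAC hx hh⟩)
  have n12 : A ∪ B ≠ A ∪ C := by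
    intro hh
    obtain ⟨x, hx⟩ := hBn
    have : x ∈ A ∪ C := by rw [← hh]; exact mem_union_right _ hx
    rw [mem_union] at this
    rcases this with h5 | h5
    · exact disjoint_left.mp hdis h5 hx
    · exact disjoint_left.mp hdBC hx h5
  have n13 : A ∪ B ≠ B ∪ C := by
    intro hh
    obtain ⟨x, hx⟩ := hAn
    have : x ∈ B ∪ C := by rw [← hh]; exact mem_union_left _ hx
    rw [mem_union] at this
    rcases this with h5 | h5
    · exact disjoint_left.mp hdis hx h5
    · exact disjoint_left.mp hdAC hx h5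
  have n23 : A ∪ C ≠ B ∪ C := by
    intro hh
    obtain ⟨x, hx⟩ := hAn
    have : x ∈ B ∪ C := by rw [← hh]; exact mem_union_left _ hx
    rw [mem_union] at this
    rcases this with h5 | h5
    · exact disjoint_left.mp hdis hx h5
    · exact disjoint_left.mp hdAC hx h5
  have h3 : ({A ∪ B, A ∪ C, B ∪ C} : Finset (Finset α)).card = 3 := by
    rw [card_insert_of_notMem (by simp [n12, n13]), card_pair n23]
  have h4 : ({A ∪ B, A ∪ C, B ∪ C} : Finset (Finset α)) ⊆ pne P K \ circ P K := by
    intro Z hZ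
    simp only [mem_insert, mem_singleton] at hZ
    rcases hZ with rfl | rfl | rfl
    · exact k1
    · exact k2
    · exact k3
  have := card_le_card h4
  omega

/-- an even set avoiding two suitable elements avoids the circuit -/
theorem avoid (h : Fam P) {K A D : Finset α} (hAK : A ⊆ K) (hDK : D ⊆ K) (hA : P A) (hD : P D)
    (hm : mu P (K \ A) + 2 = mu P K) {x y : α} (hx : x ∈ A ∧ x ∈ D) (hy : y ∈ A ∧ y ∉ D)
    {X : Finset α} (hXK : X ⊆ K) (hX : P X) (hxX : x ∉ X) (hyX : y ∉ X) : Disjoint X A := by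
  have hxy : x ≠ y := by rintro rfl; exact hy.2 hx.2
  obtain ⟨C, c1, c2, c3⟩ := h.circuit hD hx.2
  have hxc : x ∈ cyc P K := mem_cyc.mpr ⟨C, c1.trans hDK, c2, c3⟩
  have hyAD : y ∈ A ∆ D := by rw [mem_symmDiff]; exact Or.inl hy
  obtain ⟨E, e1, e2, e3⟩ := h.circuit (h.add _ _ hA hD) hyAD
  have hEK : E ⊆ K.erase x := by
    intro z hz
    have h5 := e1 hz
    rw [mem_symmDiff] at h5
    rw [mem_erase]
    refine ⟨?_, ?_⟩
    · rintro rfl; tauto
    · rcases h5 with h5 | h5
      · exact hAK h5.1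
      · exact hDK h5.1
  have hyc : y ∈ cyc P (K.erase x) := mem_cyc.mpr ⟨E, hEK, e2, e3⟩
  have m1 := mu_erase h hxc
  have m2 := mu_erase h hyc
  have hsub : evs P (K \ A) ⊆ evs P ((K.erase x).erase y) := by
    apply evs_mono
    intro z hz
    rw [mem_sdiff] at hz
    rw [mem_erase, mem_erase]
    refine ⟨?_, ?_, hz.1⟩
    · rintro rfl; exact hz.2 hy.1
    · rintro rfl; exact hz.2 hx.1
  have heq : evs P (K \ A) = evs P ((K.erase x).erase y) := by
    apply eq_of_subset_of_card_le hsub
    rw [card_evs h, card_evs h]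
    apply Nat.pow_le_pow_right (by norm_num)
    omega
  have hXm : X ∈ evs P ((K.erase x).erase y) := by
    rw [mem_evs]
    refine ⟨?_, hX⟩
    intro z hz
    rw [mem_erase, mem_erase]
    refine ⟨?_, ?_, hXK hz⟩
    · rintro rfl; exact hyX hz
    · rintro rfl; exact hxX hz
  rw [← heq, mem_evs] at hXm
  rw [disjoint_left]
  intro z hz1 hz2
  exact (mem_sdiff.mp (hXm.1 hz1)).2 hz2

theorem swap_circuit (h : Fam P) {K A D : Finset α} (hAK : A ⊆ K) (hDK : D ⊆ K) (hA : IsC P A)
    (hD : IsC P D) (hm : mu P (K \ A) + 2 = mu P K) (hne : D ≠ A) {x : α} (hx : x ∈ A ∧ x ∈ D) :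
    IsC P (D ∆ A) := by
  have hex : ∃ y, y ∈ A ∧ y ∉ D := by
    by_contra hcon
    push Not at hcon
    exact hne (hD.eq_of_subset hA hcon).symm
  obtain ⟨y, hy⟩ := hex
  have hE : P (D ∆ A) := h.add _ _ hD.1 hA.1
  have hEK : D ∆ A ⊆ K := by
    intro z hz
    rw [mem_symmDiff] at hz
    rcases hz with hz | hz
    · exact hDK hz.1
    · exact hAK hz.1
  have hEn : (D ∆ A).Nonempty := ⟨y, by rw [mem_symmDiff]; exact Or.inr hy⟩
  by_contra hnc
  obtain ⟨G, G', hGG, hdis, hG, hG', hGn, hG'n⟩ := exists_split h hE hEn hnc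
  -- the part avoiding y
  have key : ∀ Z, Z ⊆ D ∆ A → P Z → Z.Nonempty → y ∉ Z → False := by
    intro Z hZ hPZ hZn hyZ
    have hxZ : x ∉ Z := by
      intro hh
      have := hZ hh
      rw [mem_symmDiff] at this
      tauto
    have hd := avoid h hAK hDK hA.1 hD.1 hm hx hy (hZ.trans hEK) hPZ hxZ hyZ
    have hZD : Z ⊆ D := by
      intro z hz
      have := hZ hz
      rw [mem_symmDiff] at this
      rcases this with h5 | h5
      · exact h5.1
      · exact absurd h5.1 (disjoint_left.mp hd hz)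
    rcases hD.2.2 Z hZD hPZ with h5 | h5
    · rw [h5] at hZn; simp at hZn
    · rw [h5] at hxZ; exact hxZ hx.2
  by_cases hyG : y ∈ G
  · exact key G' (by rw [← hGG]; exact subset_union_right) hG' hG'n
      (fun hh => disjoint_left.mp hdis hyG hh)
  · exact key G (by rw [← hGG]; exact subset_union_left) hG hGn hyG

/-- parity of the number of circuits -/
theorem parity (h : Fam P) {K A : Finset α} (hAK : A ⊆ K) (hA : IsC P A)
    (hm : mu P (K \ A) + 2 = mu P K) :
    ((circ P K).card + (circ P (K \ A)).card) % 2 = 1 := by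
  classical
  set R := (circ P K).filter (fun D => D ≠ A ∧ (A ∩ D).Nonempty) with hR
  have h1 : circ P K = insert A (circ P (K \ A) ∪ R) := by
    ext D
    rw [mem_insert, mem_union, hR, mem_filter, mem_circ, mem_circ]
    constructor
    · rintro ⟨h1, h2⟩
      by_cases h5 : D = A
      · exact Or.inl h5
      · right
        by_cases h6 : (A ∩ D).Nonempty
        · exact Or.inr ⟨⟨h1, h2⟩, h5, h6⟩
        · left
          refine ⟨?_, h2⟩
          intro z hz
          rw [mem_sdiff]
          exact ⟨h1 hz, fun hh => h6 ⟨z, mem_inter.mpr ⟨hh, hz⟩⟩⟩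
    · rintro (rfl | ⟨h1, h2⟩ | ⟨h1, _⟩)
      · exact ⟨hAK, hA⟩
      · exact ⟨h1.trans sdiff_subset, h2⟩
      · exact h1
  have h2 : A ∉ circ P (K \ A) ∪ R := by
    rw [mem_union, hR, mem_filter, mem_circ]
    rintro (⟨h3, _⟩ | ⟨_, h3, _⟩)
    · obtain ⟨x, hx⟩ := hA.2.1
      exact (mem_sdiff.mp (h3 hx)).2 hx
    · exact h3 rfl
  have h3 : Disjoint (circ P (K \ A)) R := by
    rw [disjoint_left]
    intro D hD hD2
    rw [mem_circ] at hD
    rw [hR, mem_filter] at hD2
    obtain ⟨z, hz⟩ := hD2.2.2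
    rw [mem_inter] at hz
    exact (mem_sdiff.mp (hD.1 hz.2)).2 hz.1
  have h4 : R.card % 2 = 0 := by
    have hinv : ∀ D ∈ R, D ∆ A ∈ R := by
      intro D hD
      rw [hR, mem_filter, mem_circ] at hD ⊢
      obtain ⟨⟨d1, d2⟩, d3, z, hz⟩ := hD
      rw [mem_inter] at hz
      have hc := swap_circuit h hAK d1 hA d2 hm d3 hz
      refine ⟨⟨?_, hc⟩, ?_, ?_⟩
      · intro w hw
        rw [mem_symmDiff] at hw
        rcases hw with hw | hw
        · exact d1 hw.1
        · exact hAK hw.1
      · intro h0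
        have : z ∈ D ∆ A := by rw [h0]; exact hz.1
        rw [mem_symmDiff] at this
        tauto
      · have hex : ∃ y, y ∈ A ∧ y ∉ D := by
          by_contra hcon
          push Not at hcon
          exact d3 (d2.eq_of_subset hA hcon).symm
        obtain ⟨y, hy⟩ := hex
        exact ⟨y, mem_inter.mpr ⟨hy.1, by rw [mem_symmDiff]; exact Or.inr hy⟩⟩
    have hsum : ∑ _D ∈ R, (1 : ZMod 2) = 0 := by
      refine sum_involution (fun D _ => D ∆ A) ?_ ?_ hinv ?_
      · intro D _
        decide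
      · intro D hD _ h0
        have h5 : A = ∅ := by
          have h6 : D ∆ (D ∆ A) = D ∆ D := by rw [h0]
          rw [symmDiff_symmDiff_cancel_left, symmDiff_self] at h6
          exact h6
        exact absurd h5 (nonempty_iff_ne_empty.mp hA.2.1)
      · intro D _
        exact symmDiff_symmDiff_cancel_right _ _
    rw [sum_const, nsmul_eq_mul, mul_one] at hsum
    exact Nat.even_iff.mp ((ZMod.natCast_eq_zero_iff_even).mp hsum)
  rw [h1, card_insert_of_notMem h2, card_union_of_disjoint h3]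
  omega

end Pool.Agent.Helper53
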