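import Mathlib

/-!
# Families of finite sets closed under symmetric difference

`P` is a family of finite sets containing the empty set and closed under symmetric difference
(the even sets of a binary matroid).  A circuit is a minimal nonempty member.
-/

open Finset
open scoped symmDiff

set_option linter.unusedSectionVars false

namespace Pool.Agent.Helper53

variable {α : Type*} [DecidableEq α]

/-- `C` is a minimal nonempty member of the family `P`. -/
def IsC (P : Finset α → Prop) (C : Finset α) : Prop :=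
  P C ∧ C.Nonempty ∧ ∀ D, D ⊆ C → P D → D = ∅ ∨ D = C

/-- `P` contains the empty set and is closed under symmetric difference. -/
structure Fam (P : Finset α → Prop) : Prop where
  zero : P ∅
  add : ∀ A B, P A → P B → P (A ∆ B)

theorem Fam.sdiff {P : Finset α → Prop} (h : Fam P) {A D : Finset α} (hA : P A) (hD : P D)
    (hDA : D ⊆ A) : P (A \ D) := by
  have := h.add A D hA hD
  have e : A ∆ D = A \ D := by
    ext x; simp only [mem_symmDiff, mem_sdiff]
    constructor
    · rintro (h | h)
      · exact h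
      · exact absurd (hDA h.1) h.2
    · intro h; exact Or.inl h
  rwa [e] at this

/-- every element of an even set lies in a circuit inside the set -/
theorem exists_circuit {P : Finset α → Prop} (h : Fam P) :
    ∀ (n : ℕ) (A : Finset α), A.card ≤ n → P A → ∀ x ∈ A, ∃ C, C ⊆ A ∧ IsC P C ∧ x ∈ C := by
  intro n
  induction n with
  | zero =>
    intro A hA _ x hx
    have : A = ∅ := by simpa using hA
    simp [this] at hx
  | succ n ih =>
    intro A hA hP x hx
    by_cases hC : IsC P A
    · exact ⟨A, Subset.refl _, hC, hx⟩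
    · have hne : A.Nonempty := ⟨x, hx⟩
      have : ∃ D, D ⊆ A ∧ P D ∧ D ≠ ∅ ∧ D ≠ A := by
        by_contra hcon
        apply hC
        refine ⟨hP, hne, ?_⟩
        intro D hD hPD
        by_contra h2
        rw [not_or] at h2
        exact hcon ⟨D, hD, hPD, h2.1, h2.2⟩
      obtain ⟨D, hDA, hPD, hD0, hD1⟩ := this
      by_cases hxD : x ∈ D
      · have hlt : D.card < A.card := card_lt_card (hDA.ssubset_of_ne hD1)
        obtain ⟨C, h1, h2, h3⟩ := ih D (by omega) hPD x hxD
        exact ⟨C, h1.trans hDA, h2, h3⟩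
      · have hlt : (A \ D).card < A.card := by
          apply card_lt_card
          refine sdiff_subset.ssubset_of_ne ?_
          intro he
          obtain ⟨y, hy⟩ := nonempty_iff_ne_empty.mpr hD0
          have hyA := hDA hy
          rw [← he] at hyA
          exact (mem_sdiff.mp hyA).2 hy
        obtain ⟨C, h1, h2, h3⟩ := ih (A \ D) (by omega) (h.sdiff hP hPD hDA) x
          (mem_sdiff.mpr ⟨hx, hxD⟩)
        exact ⟨C, h1.trans sdiff_subset, h2, h3⟩

theorem Fam.circuit {P : Finset α → Prop} (h : Fam P) {A : Finset α} (hA : P A) {x : α}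
    (hx : x ∈ A) : ∃ C, C ⊆ A ∧ IsC P C ∧ x ∈ C :=
  exists_circuit h A.card A le_rfl hA x hx

/-- induction: a property of circuits closed under symmetric difference holds for even sets -/
theorem Fam.ind {P Q : Finset α → Prop} (h : Fam P) (hQ : Fam Q) :
    ∀ (n : ℕ) (A : Finset α), A.card ≤ n → P A → (∀ C, C ⊆ A → IsC P C → Q C) → Q A := by
  intro n
  induction n with
  | zero =>
    intro A hA _ _
    have : A = ∅ := by simpa using hA
    rw [this]; exact hQ.zero
  | succ n ih =>
    intro A hA hP hC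
    rcases A.eq_empty_or_nonempty with h0 | ⟨x, hx⟩
    · rw [h0]; exact hQ.zero
    · obtain ⟨C, h1, h2, h3⟩ := h.circuit hP hx
      have hPD : P (A \ C) := h.sdiff hP h2.1 h1
      have hlt : (A \ C).card < A.card := by
        apply card_lt_card
        refine sdiff_subset.ssubset_of_ne ?_
        intro he
        have hyA := h1 h3
        rw [← he] at hyA
        exact (mem_sdiff.mp hyA).2 h3
      have hQ1 : Q (A \ C) := ih (A \ C) (by omega) hPD
        (fun C' h4 h5 => hC C' (h4.trans sdiff_subset) h5)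
      have hQ2 : Q C := hC C h1 h2
      have := hQ.add _ _ hQ1 hQ2
      have e : (A \ C) ∆ C = A := by
        ext y; simp only [mem_symmDiff, mem_sdiff]
        constructor
        · rintro (h | h)
          · exact h.1.1
          · exact h1 h.1
        · intro hy
          by_cases hyC : y ∈ C
          · right; exact ⟨hyC, fun hh => hh.2 hyC⟩
          · left; exact ⟨⟨hy, hyC⟩, hyC⟩
      rwa [e] at this

/-- circuits are incomparable -/
theorem IsC.eq_of_subset {P : Finset α → Prop} {C D : Finset α} (hC : IsC P C) (hD : IsC P D)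
    (h : D ⊆ C) : D = C := by
  rcases hC.2.2 D h hD.1 with h0 | h1
  · exact absurd h0 (nonempty_iff_ne_empty.mp hD.2.1)
  · exact h1

section counts

open Classical in
/-- the circuits contained in `F` -/
noncomputable def circ (P : Finset α → Prop) (F : Finset α) : Finset (Finset α) :=
  F.powerset.filter (fun C => IsC P C)

open Classical in
/-- the even sets contained in `F` -/
noncomputable def evs (P : Finset α → Prop) (F : Finset α) : Finset (Finset α) :=
  F.powerset.filter (fun C => P C)

open Classical in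
/-- the elements of `F` that lie in a circuit contained in `F` -/
noncomputable def cyc (P : Finset α → Prop) (F : Finset α) : Finset α :=
  F.filter (fun e => ∃ C ∈ circ P F, e ∈ C)

open Classical in
/-- the circuits contained in `F` that pass through `e` -/
noncomputable def thr (P : Finset α → Prop) (F : Finset α) (e : α) : Finset (Finset α) :=
  (circ P F).filter (fun C => e ∈ C)

open Classical in
/-- the elements of `F` lying in all circuits through `e` -/
noncomputable def ser (P : Finset α → Prop) (F : Finset α) (e : α) : Finset α :=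
  F.filter (fun f => ∀ C ∈ thr P F e, f ∈ C)

/-- the binary rank of the family inside `F` -/
noncomputable def mu (P : Finset α → Prop) (F : Finset α) : ℕ := Nat.log 2 (evs P F).card

variable {P : Finset α → Prop}

theorem mem_circ {F C : Finset α} : C ∈ circ P F ↔ C ⊆ F ∧ IsC P C := by
  simp [circ]

theorem mem_evs {F C : Finset α} : C ∈ evs P F ↔ C ⊆ F ∧ P C := by
  simp [evs]

theorem mem_cyc {F : Finset α} {e : α} : e ∈ cyc P F ↔ ∃ C, C ⊆ F ∧ IsC P C ∧ e ∈ C := by
  simp only [cyc, mem_filter, mem_circ]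
  constructor
  · rintro ⟨_, C, ⟨h1, h2⟩, h3⟩; exact ⟨C, h1, h2, h3⟩
  · rintro ⟨C, h1, h2, h3⟩; exact ⟨h1 h3, C, ⟨h1, h2⟩, h3⟩

theorem mem_thr {F : Finset α} {e : α} {C : Finset α} :
    C ∈ thr P F e ↔ C ⊆ F ∧ IsC P C ∧ e ∈ C := by
  simp [thr, mem_circ, and_assoc]

theorem mem_ser {F : Finset α} {e f : α} :
    f ∈ ser P F e ↔ f ∈ F ∧ ∀ C ∈ thr P F e, f ∈ C := by
  simp [ser]

theorem self_mem_ser {F : Finset α} {e : α} (he : e ∈ F) : e ∈ ser P F e := by
  rw [mem_ser]
  exact ⟨he, fun C hC => (mem_thr.mp hC).2.2⟩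

/-- the circuits avoiding `e` are those of `F.erase e` -/
theorem card_circ_erase (F : Finset α) (e : α) :
    (circ P F).card = (circ P (F.erase e)).card + (thr P F e).card := by
  classical
  have h1 : circ P F = (circ P (F.erase e)) ∪ (thr P F e) := by
    ext C
    simp only [mem_union, mem_circ, mem_thr]
    constructor
    · rintro ⟨h1, h2⟩
      by_cases he : e ∈ C
      · right; exact ⟨h1, h2, he⟩
      · left; refine ⟨?_, h2⟩
        intro x hx
        rw [mem_erase]
        exact ⟨fun h => he (h ▸ hx), h1 hx⟩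
    · rintro (⟨h1, h2⟩ | ⟨h1, h2, _⟩)
      · exact ⟨h1.trans (erase_subset _ _), h2⟩
      · exact ⟨h1, h2⟩
  have h2 : Disjoint (circ P (F.erase e)) (thr P F e) := by
    rw [disjoint_left]
    intro C h3 h4
    rw [mem_circ] at h3
    rw [mem_thr] at h4
    have := h3.1 h4.2.2
    simp at this
  rw [h1, card_union_of_disjoint h2]

/-- if `e` lies in an even subset of `F`, deleting `e` halves the number of even sets -/
theorem card_evs_erase (h : Fam P) {F : Finset α} {e : α} (he : e ∈ cyc P F) :
    (evs P F).card = 2 * (evs P (F.erase e)).card := by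
  classical
  obtain ⟨C, hCF, hC, heC⟩ := mem_cyc.mp he
  have h1 : evs P F = (evs P (F.erase e)) ∪ (evs P (F.erase e)).image (fun X => X ∆ C) := by
    ext X
    simp only [mem_union, mem_evs, mem_image]
    constructor
    · rintro ⟨hX, hPX⟩
      by_cases hx : e ∈ X
      · right
        refine ⟨X ∆ C, ⟨?_, h.add _ _ hPX hC.1⟩, ?_⟩
        · intro y hy
          rw [mem_erase]
          refine ⟨?_, ?_⟩
          · rintro rfl
            rw [mem_symmDiff] at hy
            tauto
          · rw [mem_symmDiff] at hy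
            rcases hy with hy | hy
            · exact hX hy.1
            · exact hCF hy.1
        · exact symmDiff_symmDiff_cancel_right _ _
      · left
        refine ⟨?_, hPX⟩
        intro y hy
        rw [mem_erase]
        exact ⟨fun h' => hx (h' ▸ hy), hX hy⟩
    · rintro (⟨hX, hPX⟩ | ⟨Y, ⟨hY, hPY⟩, rfl⟩)
      · exact ⟨hX.trans (erase_subset _ _), hPX⟩
      · refine ⟨?_, h.add _ _ hPY hC.1⟩
        intro y hy
        rw [mem_symmDiff] at hy
        rcases hy with hy | hy
        · exact (erase_subset _ _) (hY hy.1)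
        · exact hCF hy.1
  have h2 : Disjoint (evs P (F.erase e)) ((evs P (F.erase e)).image (fun X => X ∆ C)) := by
    rw [disjoint_left]
    intro X h3 h4
    rw [mem_image] at h4
    obtain ⟨Y, hY, rfl⟩ := h4
    rw [mem_evs] at h3 hY
    have h5 : e ∉ Y := fun hh => by simpa using hY.1 hh
    have h6 : e ∈ Y ∆ C := by rw [mem_symmDiff]; right; exact ⟨heC, h5⟩
    have := h3.1 h6
    simp at this
  rw [h1, card_union_of_disjoint h2, card_image_of_injective]
  · ring
  · intro X Y hXY
    exact symmDiff_left_injective C hXY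

/-- if `e` lies in no circuit of `F`, deleting `e` changes nothing -/
theorem evs_erase_of_not (h : Fam P) {F : Finset α} {e : α} (he : e ∉ cyc P F) :
    evs P (F.erase e) = evs P F := by
  ext X
  rw [mem_evs, mem_evs]
  constructor
  · rintro ⟨h1, h2⟩; exact ⟨h1.trans (erase_subset _ _), h2⟩
  · rintro ⟨h1, h2⟩
    refine ⟨?_, h2⟩
    intro y hy
    rw [mem_erase]
    refine ⟨?_, h1 hy⟩
    rintro rfl
    obtain ⟨C, h3, h4, h5⟩ := h.circuit h2 hy
    exact he (mem_cyc.mpr ⟨C, h3.trans h1, h4, h5⟩)

theorem evs_of_cyc_empty (h : Fam P) {F : Finset α} (he : cyc P F = ∅) : evs P F = {∅} := by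
  ext X
  rw [mem_evs, mem_singleton]
  constructor
  · rintro ⟨h1, h2⟩
    by_contra h0
    obtain ⟨x, hx⟩ := nonempty_iff_ne_empty.mpr h0
    obtain ⟨C, h3, h4, h5⟩ := h.circuit h2 hx
    have : x ∈ cyc P F := mem_cyc.mpr ⟨C, h3.trans h1, h4, h5⟩
    rw [he] at this; simp at this
  · rintro rfl; exact ⟨empty_subset _, h.zero⟩

theorem card_evs_eq (h : Fam P) : ∀ (n : ℕ) (F : Finset α), F.card ≤ n →
    ∃ m, (evs P F).card = 2 ^ m := by
  intro n
  induction n with
  | zero =>
    intro F hF
    have : F = ∅ := by simpa using hF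
    refine ⟨0, ?_⟩
    rw [evs_of_cyc_empty h (by rw [this]; simp [cyc])]
    simp
  | succ n ih =>
    intro F hF
    rcases (cyc P F).eq_empty_or_nonempty with h0 | ⟨e, he⟩
    · exact ⟨0, by rw [evs_of_cyc_empty h h0]; simp⟩
    · have heF : e ∈ F := by
        obtain ⟨C, h1, _, h3⟩ := mem_cyc.mp he
        exact h1 h3
      have hlt : (F.erase e).card < F.card := card_erase_lt_of_mem heF
      obtain ⟨m, hm⟩ := ih (F.erase e) (by omega)
      exact ⟨m + 1, by rw [card_evs_erase h he, hm]; ring⟩

theorem card_evs (h : Fam P) (F : Finset α) : (evs P F).card = 2 ^ mu P F := by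
  obtain ⟨m, hm⟩ := card_evs_eq h F.card F le_rfl
  rw [mu, hm, Nat.log_pow (by norm_num)]

theorem mu_erase (h : Fam P) {F : Finset α} {e : α} (he : e ∈ cyc P F) :
    mu P F = mu P (F.erase e) + 1 := by
  have h1 := card_evs_erase h he
  rw [card_evs h F, card_evs h (F.erase e)] at h1
  have : (2:ℕ) ^ mu P F = 2 ^ (mu P (F.erase e) + 1) := by rw [h1]; ring
  exact Nat.pow_right_injective (le_refl 2) this

theorem mu_of_cyc_empty (h : Fam P) {F : Finset α} (he : cyc P F = ∅) : mu P F = 0 := by
  rw [mu, evs_of_cyc_empty h he]; simp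

theorem cyc_subset (F : Finset α) : cyc P F ⊆ F := by
  intro x hx
  obtain ⟨C, h1, _, h3⟩ := mem_cyc.mp hx
  exact h1 h3

/-- symmetric form of the series relation -/
theorem ser_symm (h : Fam P) {F : Finset α} {e f : α} (he : e ∈ cyc P F) (hf : f ∈ ser P F e)
    {C : Finset α} (hC : C ∈ thr P F f) : e ∈ C := by
  by_contra heC
  obtain ⟨D, hDF, hD, heD⟩ := mem_cyc.mp he
  have hfD : f ∈ D := (mem_ser.mp hf).2 D (mem_thr.mpr ⟨hDF, hD, heD⟩)
  obtain ⟨hCF, hC1, hfC⟩ := mem_thr.mp hC
  have h1 : P (D ∆ C) := h.add _ _ hD.1 hC1.1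
  have h2 : e ∈ D ∆ C := by rw [mem_symmDiff]; left; exact ⟨heD, heC⟩
  obtain ⟨D', h3, h4, h5⟩ := h.circuit h1 h2
  have hD'F : D' ⊆ F := by
    intro y hy
    have := h3 hy
    rw [mem_symmDiff] at this
    rcases this with hh | hh
    · exact hDF hh.1
    · exact hCF hh.1
  have hfD' : f ∈ D' := (mem_ser.mp hf).2 D' (mem_thr.mpr ⟨hD'F, h4, h5⟩)
  have := h3 hfD'
  rw [mem_symmDiff] at this
  tauto

/-- deleting `e` destroys exactly the series class of `e` -/
theorem cyc_erase (h : Fam P) {F : Finset α} {e : α} (he : e ∈ cyc P F) :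
    cyc P (F.erase e) = cyc P F \ ser P F e := by
  ext f
  rw [mem_sdiff]
  constructor
  · intro hf
    obtain ⟨C, h1, h2, h3⟩ := mem_cyc.mp hf
    refine ⟨mem_cyc.mpr ⟨C, h1.trans (erase_subset _ _), h2, h3⟩, ?_⟩
    intro hs
    have := ser_symm h he hs (mem_thr.mpr ⟨h1.trans (erase_subset _ _), h2, h3⟩)
    have := h1 this
    simp at this
  · rintro ⟨hf, hs⟩
    have hfF : f ∈ F := cyc_subset F hf
    have : ∃ D ∈ thr P F e, f ∉ D := by
      by_contra hcon
      push Not at hcon
      exact hs (mem_ser.mpr ⟨hfF, hcon⟩)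
    obtain ⟨D, hD, hfD⟩ := this
    obtain ⟨hDF, hD1, heD⟩ := mem_thr.mp hD
    obtain ⟨C, hCF, hC1, hfC⟩ := mem_cyc.mp hf
    by_cases heC : e ∈ C
    · have h1 : P (D ∆ C) := h.add _ _ hD1.1 hC1.1
      have h2 : f ∈ D ∆ C := by rw [mem_symmDiff]; right; exact ⟨hfC, hfD⟩
      obtain ⟨D', h3, h4, h5⟩ := h.circuit h1 h2
      refine mem_cyc.mpr ⟨D', ?_, h4, h5⟩
      intro y hy
      have h6 := h3 hy
      rw [mem_symmDiff] at h6
      rw [mem_erase]
      refine ⟨?_, ?_⟩
      · rintro rfl; tauto
      · rcases h6 with hh | hh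
        · exact hDF hh.1
        · exact hCF hh.1
    · refine mem_cyc.mpr ⟨C, ?_, hC1, hfC⟩
      intro y hy
      rw [mem_erase]
      exact ⟨fun h' => heC (h' ▸ hy), hCF hy⟩

theorem ser_subset_cyc {F : Finset α} {e : α} (he : e ∈ cyc P F) :
    ser P F e ⊆ cyc P F := by
  intro f hf
  obtain ⟨C, hCF, hC1, heC⟩ := mem_cyc.mp he
  exact mem_cyc.mpr ⟨C, hCF, hC1, (mem_ser.mp hf).2 C (mem_thr.mpr ⟨hCF, hC1, heC⟩)⟩

theorem card_cyc_erase (h : Fam P) {F : Finset α} {e : α} (he : e ∈ cyc P F) :
    (cyc P F).card = (cyc P (F.erase e)).card + (ser P F e).card := by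
  rw [cyc_erase h he]
  have := card_sdiff_add_card_eq_card (ser_subset_cyc (P := P) he)
  omega

/-- if the circuits have at least three elements, then some element `e` of `cyc` has
`#circuits through e + #series class of e ≥ 4` -/
theorem exists_good (h : Fam P) (h3 : ∀ C, IsC P C → 3 ≤ C.card) {F : Finset α}
    (hne : (cyc P F).Nonempty) :
    ∃ e ∈ cyc P F, 4 ≤ (thr P F e).card + (ser P F e).card := by
  classical
  by_contra hcon
  push Not at hcon
  -- every element has at least one circuit and at least one series element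
  have hs : ∀ e ∈ cyc P F, 1 ≤ (ser P F e).card := fun e he =>
    card_pos.mpr ⟨e, self_mem_ser (cyc_subset F he)⟩
  -- exactly two circuits through each element
  have hone : ∀ e ∈ cyc P F, (thr P F e).card ≠ 1 := by
    intro e he h1
    obtain ⟨C, hC⟩ := card_eq_one.mp h1
    have hCm : C ∈ thr P F e := by rw [hC]; simp
    obtain ⟨hCF, hC1, heC⟩ := mem_thr.mp hCm
    have hsub : C ⊆ ser P F e := by
      intro f hf
      rw [mem_ser]
      refine ⟨hCF hf, ?_⟩
      intro D hD
      rw [hC, mem_singleton] at hD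
      rwa [hD]
    have := card_le_card hsub
    have := h3 C hC1
    have := hcon e he
    omega
  have hpos : ∀ e ∈ cyc P F, 1 ≤ (thr P F e).card := by
    intro e he
    obtain ⟨C, hCF, hC1, heC⟩ := mem_cyc.mp he
    exact card_pos.mpr ⟨C, mem_thr.mpr ⟨hCF, hC1, heC⟩⟩
  have htwo : ∀ e ∈ cyc P F, (thr P F e).card = 2 ∧ (ser P F e).card = 1 := by
    intro e he
    have h1 := hs e he
    have h2 := hone e he
    have h4 := hpos e he
    have h5 := hcon e he
    omega
  -- two distinct circuits through `f` meet only in `f`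
  have hmeet : ∀ f C D, C ∈ thr P F f → D ∈ thr P F f → C ≠ D → C ∩ D ⊆ {f} := by
    intro f C D hC hD hCD
    have hfc : f ∈ cyc P F := by
      obtain ⟨h1, h2, h4⟩ := mem_thr.mp hC
      exact mem_cyc.mpr ⟨C, h1, h2, h4⟩
    obtain ⟨h1, h2⟩ := htwo f hfc
    have hpair : thr P F f = {C, D} := by
      symm
      apply eq_of_subset_of_card_le
      · intro X hX
        simp only [mem_insert, mem_singleton] at hX
        rcases hX with rfl | rfl
        · exact hC
        · exact hD
      · rw [h1, card_pair hCD]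
    have hser : ser P F f = {f} := by
      obtain ⟨g, hg⟩ := card_eq_one.mp h2
      have : f ∈ ser P F f := self_mem_ser (cyc_subset F hfc)
      rw [hg, mem_singleton] at this
      rw [hg, this]
    intro x hx
    rw [mem_inter] at hx
    rw [← hser, mem_ser]
    refine ⟨(mem_thr.mp hC).1 hx.1, ?_⟩
    intro X hX
    rw [hpair] at hX
    simp only [mem_insert, mem_singleton] at hX
    rcases hX with rfl | rfl
    · exact hx.1
    · exact hx.2
  obtain ⟨e, he⟩ := hne
  obtain ⟨D1, D2, hD12, hthr⟩ := card_eq_two.mp (htwo e he).1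
  have hD1 : D1 ∈ thr P F e := by rw [hthr]; simp
  have hD2 : D2 ∈ thr P F e := by rw [hthr]; simp
  obtain ⟨hD1F, hD1c, heD1⟩ := mem_thr.mp hD1
  obtain ⟨hD2F, hD2c, heD2⟩ := mem_thr.mp hD2
  have hP : P (D1 ∆ D2) := h.add _ _ hD1c.1 hD2c.1
  have hex : ∃ f ∈ D1, f ∉ D2 := by
    by_contra hc
    push Not at hc
    exact hD12 (hD2c.eq_of_subset hD1c hc)
  obtain ⟨f, hf1, hf2⟩ := hex
  obtain ⟨C, hCs, hCc, hfC⟩ := h.circuit hP (x := f) (by rw [mem_symmDiff]; left; exact ⟨hf1, hf2⟩)
  have heC : e ∉ C := by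
    intro hh
    have := hCs hh
    rw [mem_symmDiff] at this
    tauto
  have hCF : C ⊆ F := by
    intro y hy
    have := hCs hy
    rw [mem_symmDiff] at this
    rcases this with hh | hh
    · exact hD1F hh.1
    · exact hD2F hh.1
  have hCD1 : C ≠ D1 := fun hh => heC (hh ▸ heD1)
  have hCD2 : C ≠ D2 := fun hh => heC (hh ▸ heD2)
  have hexg : ∃ g ∈ C, g ∈ D2 := by
    by_contra hc
    push Not at hc
    apply hCD1
    apply hD1c.eq_of_subset hCc
    intro y hy
    have := hCs hy
    rw [mem_symmDiff] at this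
    have := hc y hy
    tauto
  obtain ⟨g, hgC, hg2⟩ := hexg
  have m1 : C ∩ D1 ⊆ {f} := hmeet f C D1 (mem_thr.mpr ⟨hCF, hCc, hfC⟩)
    (mem_thr.mpr ⟨hD1F, hD1c, hf1⟩) hCD1
  have m2 : C ∩ D2 ⊆ {g} := hmeet g C D2 (mem_thr.mpr ⟨hCF, hCc, hgC⟩)
    (mem_thr.mpr ⟨hD2F, hD2c, hg2⟩) hCD2
  have hsub : C ⊆ {f, g} := by
    intro y hy
    have h1 := hCs hy
    rw [mem_symmDiff] at h1
    simp only [mem_insert, mem_singleton]
    rcases h1 with hh | hh
    · left
      have := m1 (mem_inter.mpr ⟨hy, hh.1⟩)
      simpa using this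
    · right
      have := m2 (mem_inter.mpr ⟨hy, hh.1⟩)
      simpa using this
  have h4 := card_le_card hsub
  have h5 := h3 C hCc
  have h6 : ({f, g} : Finset α).card ≤ 2 := card_le_two
  omega

/-- **First inequality.**  If all circuits have at least three elements,
`4 * rank ≤ #circuits + #cyclic elements`. -/
theorem four_mu_le (h : Fam P) (h3 : ∀ C, IsC P C → 3 ≤ C.card) :
    ∀ (n : ℕ) (F : Finset α), F.card ≤ n →
      4 * mu P F ≤ (circ P F).card + (cyc P F).card := by
  intro n
  induction n with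
  | zero =>
    intro F hF
    have : F = ∅ := by simpa using hF
    rw [mu_of_cyc_empty h (by rw [this]; simp [cyc])]
    simp
  | succ n ih =>
    intro F hF
    rcases (cyc P F).eq_empty_or_nonempty with h0 | hne
    · rw [mu_of_cyc_empty h h0]; simp
    · obtain ⟨e, he, hg⟩ := exists_good h h3 hne
      have hlt : (F.erase e).card < F.card := card_erase_lt_of_mem (cyc_subset F he)
      have h1 := ih (F.erase e) (by omega)
      rw [mu_erase h he, card_circ_erase F e, card_cyc_erase h he]
      omega

end counts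

end Pool.Agent.Helper53
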