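import Pool.Agent.Helper53.Chain

/-!
# Every excess below `2 ^ L` is attained by a cubic base with at most `8 L` large vertices
-/

open Finset Function
open scoped symmDiff

set_option linter.unusedSectionVars false
set_option linter.unusedSimpArgs false

namespace Pool.Agent.Helper53

variable {V : Type*} [Fintype V] [DecidableEq V]

theorem Ch.dbl {n e t : ℕ} (h : Ch V n e t) (l : ℕ) :
    ∃ e', e' + t = e + t * 2 ^ l ∧ Ch V (n + l) e' (2 ^ l * t) := by
  induction l with
  | zero => exact ⟨e, by omega, by simpa using h⟩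
  | succ l ih =>
    obtain ⟨e', h1, h2⟩ := ih
    refine ⟨e' + 2 ^ l * t, ?_, ?_⟩
    · rw [pow_succ]; nlinarith
    · have h3 := h2.stepB
      have e1 : 2 ^ (l + 1) * t = 2 * (2 ^ l * t) := by rw [pow_succ]; ring
      rw [e1]
      exact h3

/-- every root multiplicity is attained at small cost -/
theorem Ch.horner : ∀ t : ℕ, 2 ≤ t → ∀ B, t < 2 ^ B →
    ∃ n e, n + 2 ≤ 2 * B ∧ e + 5 ≤ 3 * t ∧ Ch V n e t := by
  intro t
  induction t using Nat.strong_induction_on with
  | _ t ih =>
    intro ht B hB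
    have hB1 : 2 ≤ B := by
      by_contra hlt
      have : 2 ^ B ≤ 2 ^ 1 := Nat.pow_le_pow_right (by norm_num) (by omega)
      omega
    rcases Nat.lt_or_ge t 4 with h4 | h4
    · rcases Nat.lt_or_ge t 3 with h3 | h3
      · have : t = 2 := by omega
        subst this
        exact ⟨1, 1, by omega, by omega, Ch.start⟩
      · have : t = 3 := by omega
        subst this
        exact ⟨2, 3, by omega, by omega, Ch.start.stepA⟩
    · obtain ⟨B', rfl⟩ : ∃ B', B = B' + 1 := ⟨B - 1, by omega⟩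
      rw [pow_succ] at hB
      obtain ⟨n, e, h1, h2, h3⟩ := ih (t / 2) (by omega) (by omega) B' (by omega)
      rcases Nat.even_or_odd t with hp | hp
      · refine ⟨n + 1, e + t / 2, by omega, by omega, ?_⟩
        have e1 : 2 * (t / 2) = t := by have := Nat.even_iff.mp hp; omega
        have h5 := h3.stepB
        rw [e1] at h5
        exact h5
      · refine ⟨n + 1 + 1, e + t / 2 + 2 * (t / 2), by omega, by omega, ?_⟩
        have e1 : 2 * (t / 2) + 1 = t := by have := Nat.odd_iff.mp hp; omega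
        have h5 := h3.stepB.stepA
        rw [e1] at h5
        exact h5

/-- all excesses below `2 ^ L` are attained with at most `2 N` large vertices -/
def PP (V : Type*) [Fintype V] [DecidableEq V] (L N : ℕ) : Prop :=
  ∀ e, 1 ≤ e → e < 2 ^ L → ∃ n, n ≤ N ∧ Bs V n e

theorem PP.mono {L L' N N' : ℕ} (h : PP V L N) (hL : L' ≤ L) (hN : N ≤ N') : PP V L' N' := by
  intro e h1 h2
  have : 2 ^ L' ≤ 2 ^ L := Nat.pow_le_pow_right (by norm_num) hL
  obtain ⟨n, h3, h4⟩ := h e h1 (by omega)
  exact ⟨n, by omega, h4⟩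

/-- the main step: peel off a chain of about half of the binary length -/
theorem PP.split {l B L L' N N' N'' : ℕ} (hl : 1 ≤ l) (hL : L = B + l) (h1 : PP V L' N')
    (h2 : PP V (l + 2) N'')
    (hp : 2 ^ l + 3 * 2 ^ B ≤ 2 ^ L') (hN : 2 * B + l + N' ≤ N + 1) (hN' : N'' ≤ N) :
    PP V L N := by
  intro e he1 he2
  have hl1 : 2 ^ 1 ≤ 2 ^ l := Nat.pow_le_pow_right (by norm_num) hl
  rcases Nat.lt_or_ge e (2 * (2 ^ l + 2)) with hlt | hge
  · have h3 : 2 ^ (l + 2) = 4 * 2 ^ l := by rw [pow_add]; ring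
    obtain ⟨n, h4, h5⟩ := h2 e he1 (by omega)
    exact ⟨n, by omega, h5⟩
  · set q := 2 ^ l + 2 with hq
    have hq0 : 0 < q := by omega
    have hdm := Nat.div_add_mod e q
    have hml := Nat.mod_lt e hq0
    set t := e / q with ht
    have ht2 : 2 ≤ t := (Nat.le_div_iff_mul_le hq0).mpr (by omega)
    have htB : t < 2 ^ B := by
      rw [ht, Nat.div_lt_iff_lt_mul hq0]
      calc e < 2 ^ L := he2
        _ = 2 ^ B * 2 ^ l := by rw [hL, pow_add]
        _ ≤ 2 ^ B * q := Nat.mul_le_mul_left _ (by omega)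
    obtain ⟨n0, e0, g1, g2, g3⟩ := Ch.horner (V := V) t ht2 B htB
    obtain ⟨e1, g4, g5⟩ := g3.dbl l
    have g6 : q * t = t * 2 ^ l + 2 * t := by rw [hq]; ring
    obtain ⟨n2, g7, g8⟩ := h1 (e - e1) (by omega) (by omega)
    refine ⟨n0 + l + n2 + 1, by omega, ?_⟩
    have g9 := g5.bs.join g8
    have g10 : e1 + (e - e1) = e := by omega
    rw [g10] at g9
    exact g9

/-- the greedy step -/
theorem PP.greedy {L N : ℕ} (hL : 1 ≤ L) (h : PP V L N) : PP V (L + 1) (N + L + 1) := by
  intro e he1 he2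
  have hD : ∀ j, 1 ≤ j → Bs V j (2 ^ j - 1) := by
    intro j hj
    obtain ⟨i, rfl⟩ : ∃ i, j = i + 1 := ⟨j - 1, by omega⟩
    obtain ⟨e', h1, h2⟩ := (Ch.start (V := V)).dbl i
    have h3 : e' = 2 ^ (i + 1) - 1 := by rw [pow_succ]; omega
    rw [h3, Nat.add_comm 1 i] at h2
    exact h2.bs
  have hp : 2 ^ (L + 1) = 2 * 2 ^ L := by rw [pow_succ]; ring
  rcases Nat.lt_or_ge e (2 ^ L) with hlt | hge
  · obtain ⟨n, h1, h2⟩ := h e he1 hlt
    exact ⟨n, by omega, h2⟩
  · by_cases htop : e = 2 ^ (L + 1) - 1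
    · exact ⟨L + 1, by omega, by rw [htop]; exact hD (L + 1) (by omega)⟩
    · obtain ⟨n, h1, h2⟩ := h (e - (2 ^ L - 1)) (by omega) (by omega)
      refine ⟨L + n + 1, by omega, ?_⟩
      have h3 := (hD L hL).join h2
      have h4 : 2 ^ L - 1 + (e - (2 ^ L - 1)) = e := by omega
      rw [h4] at h3
      exact h3

theorem pp5 : PP V 5 9 := by
  intro e he1 he2
  norm_num at he2
  interval_cases e
  · exact ⟨1, by norm_num, (Ch.start).bs⟩
  · exact ⟨3, by norm_num, ((Ch.start).bs).join (Ch.start).bs⟩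
  · exact ⟨2, by norm_num, (Ch.start.stepA).bs⟩
  · exact ⟨4, by norm_num, ((Ch.start).bs).join (Ch.start.stepA).bs⟩
  · exact ⟨6, by norm_num, (((Ch.start).bs).join (Ch.start).bs).join (Ch.start.stepA).bs⟩
  · exact ⟨3, by norm_num, (Ch.start.stepA.stepA).bs⟩
  · exact ⟨3, by norm_num, (Ch.start.stepB.stepA).bs⟩
  · exact ⟨5, by norm_num, ((Ch.start).bs).join (Ch.start.stepB.stepA).bs⟩
  · exact ⟨6, by norm_num, ((Ch.start.stepA).bs).join (Ch.start.stepA.stepA).bs⟩
  · exact ⟨4, by norm_num, (Ch.start.stepA.stepA.stepA).bs⟩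
  · exact ⟨6, by norm_num, ((Ch.start).bs).join (Ch.start.stepA.stepA.stepA).bs⟩
  · exact ⟨4, by norm_num, (Ch.start.stepA.stepB.stepA).bs⟩
  · exact ⟨6, by norm_num, ((Ch.start).bs).join (Ch.start.stepA.stepB.stepA).bs⟩
  · exact ⟨7, by norm_num, ((Ch.start.stepB.stepA).bs).join (Ch.start.stepB.stepA).bs⟩
  · exact ⟨4, by norm_num, (Ch.start.stepB.stepB.stepA).bs⟩
  · exact ⟨6, by norm_num, ((Ch.start).bs).join (Ch.start.stepB.stepB.stepA).bs⟩
  · exact ⟨8, by norm_num, (((Ch.start).bs).join (Ch.start).bs).join (Ch.start.stepB.stepB.stepA).bs⟩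
  · exact ⟨5, by norm_num, (Ch.start.stepA.stepA.stepB.stepA).bs⟩
  · exact ⟨5, by norm_num, (Ch.start.stepA.stepB.stepA.stepA).bs⟩
  · exact ⟨7, by norm_num, ((Ch.start).bs).join (Ch.start.stepA.stepB.stepA.stepA).bs⟩
  · exact ⟨6, by norm_num, (Ch.start.stepA.stepA.stepA.stepA.stepA).bs⟩
  · exact ⟨5, by norm_num, (Ch.start.stepB.stepA.stepB.stepA).bs⟩
  · exact ⟨7, by norm_num, ((Ch.start).bs).join (Ch.start.stepB.stepA.stepB.stepA).bs⟩
  · exact ⟨5, by norm_num, (Ch.start.stepA.stepB.stepB.stepA).bs⟩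
  · exact ⟨6, by norm_num, (Ch.start.stepA.stepA.stepA.stepB.stepA).bs⟩
  · exact ⟨8, by norm_num, ((Ch.start).bs).join (Ch.start.stepA.stepA.stepA.stepB.stepA).bs⟩
  · exact ⟨6, by norm_num, (Ch.start.stepA.stepA.stepB.stepA.stepA).bs⟩
  · exact ⟨7, by norm_num, (Ch.start.stepA.stepA.stepA.stepA.stepA.stepA).bs⟩
  · exact ⟨9, by norm_num, ((Ch.start).bs).join (Ch.start.stepA.stepA.stepA.stepA.stepA.stepA).bs⟩
  · exact ⟨6, by norm_num, (Ch.start.stepB.stepA.stepA.stepB.stepA).bs⟩
  · exact ⟨5, by norm_num, (Ch.start.stepB.stepB.stepB.stepA).bs⟩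

theorem pp : ∀ L, 1 ≤ L → PP V L (4 * L) := by
  have p5 : PP V 5 9 := pp5
  have p6 : PP V 6 15 := PP.greedy (by norm_num) p5
  have p7 : PP V 7 22 := PP.greedy (by norm_num) p6
  have p8 : PP V 8 25 := PP.split (l := 5) (B := 3) (by norm_num) (by norm_num) p6 p7
    (by norm_num) (by norm_num) (by norm_num)
  have p9 : PP V 9 33 := PP.split (l := 6) (B := 3) (by norm_num) (by norm_num) p7 p8
    (by norm_num) (by norm_num) (by norm_num)
  have p10 : PP V 10 35 := PP.split (l := 6) (B := 4) (by norm_num) (by norm_num) p7 p8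
    (by norm_num) (by norm_num) (by norm_num)
  have p11 : PP V 11 39 := PP.split (l := 7) (B := 4) (by norm_num) (by norm_num) p8 p9
    (by norm_num) (by norm_num) (by norm_num)
  have p12 : PP V 12 41 := PP.split (l := 7) (B := 5) (by norm_num) (by norm_num) p8 p9
    (by norm_num) (by norm_num) (by norm_num)
  have p13 : PP V 13 50 := PP.split (l := 8) (B := 5) (by norm_num) (by norm_num) p9 p10
    (by norm_num) (by norm_num) (by norm_num)
  have p4 : PP V 4 7 := by
    intro e he1 he2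
    norm_num at he2
    interval_cases e
    · exact ⟨1, by norm_num, (Ch.start).bs⟩
    · exact ⟨3, by norm_num, ((Ch.start).bs).join (Ch.start).bs⟩
    · exact ⟨2, by norm_num, (Ch.start.stepA).bs⟩
    · exact ⟨4, by norm_num, ((Ch.start).bs).join (Ch.start.stepA).bs⟩
    · exact ⟨6, by norm_num, (((Ch.start).bs).join (Ch.start).bs).join (Ch.start.stepA).bs⟩
    · exact ⟨3, by norm_num, (Ch.start.stepA.stepA).bs⟩
    · exact ⟨3, by norm_num, (Ch.start.stepB.stepA).bs⟩
    · exact ⟨5, by norm_num, ((Ch.start).bs).join (Ch.start.stepB.stepA).bs⟩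
    · exact ⟨6, by norm_num, ((Ch.start.stepA).bs).join (Ch.start.stepA.stepA).bs⟩
    · exact ⟨4, by norm_num, (Ch.start.stepA.stepA.stepA).bs⟩
    · exact ⟨6, by norm_num, ((Ch.start).bs).join (Ch.start.stepA.stepA.stepA).bs⟩
    · exact ⟨4, by norm_num, (Ch.start.stepA.stepB.stepA).bs⟩
    · exact ⟨6, by norm_num, ((Ch.start).bs).join (Ch.start.stepA.stepB.stepA).bs⟩
    · exact ⟨7, by norm_num, ((Ch.start.stepB.stepA).bs).join (Ch.start.stepB.stepA).bs⟩
    · exact ⟨4, by norm_num, (Ch.start.stepB.stepB.stepA).bs⟩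
  intro L
  induction L using Nat.strong_induction_on with
  | _ L ih =>
    intro hL
    rcases Nat.lt_or_ge L 14 with hlt | hge
    · interval_cases L
      · intro e he1 he2
        norm_num at he2
        have : e = 1 := by omega
        subst this
        exact ⟨1, by norm_num, (Ch.start).bs⟩
      · exact p4.mono (by norm_num) (by norm_num)
      · exact p4.mono (by norm_num) (by norm_num)
      · exact p4.mono (by norm_num) (by norm_num)
      · exact p5.mono (by norm_num) (by norm_num)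
      · exact p6.mono (by norm_num) (by norm_num)
      · exact p7.mono (by norm_num) (by norm_num)
      · exact p8.mono (by norm_num) (by norm_num)
      · exact p9.mono (by norm_num) (by norm_num)
      · exact p10.mono (by norm_num) (by norm_num)
      · exact p11.mono (by norm_num) (by norm_num)
      · exact p12.mono (by norm_num) (by norm_num)
      · exact p13.mono (by norm_num) (by norm_num)
    · rcases Nat.even_or_odd' L with ⟨h, rfl | rfl⟩
      · have h1 := ih (h + 2) (by omega) (by omega)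
        have h2 := ih (h + 3) (by omega) (by omega)
        obtain ⟨g, rfl⟩ : ∃ g, h = g + 1 := ⟨h - 1, by omega⟩
        refine PP.split (l := g + 2) (B := g) (L' := g + 3) (N' := 4 * (g + 3))
          (N'' := 4 * (g + 4)) (by omega) (by omega) h1 h2 ?_ (by omega) (by omega)
        rw [pow_add, pow_add]; norm_num; nlinarith [Nat.zero_le (2 ^ g)]
      · have h1 := ih (h + 3) (by omega) (by omega)
        have h2 := ih (h + 4) (by omega) (by omega)
        obtain ⟨g, rfl⟩ : ∃ g, h = g + 1 := ⟨h - 1, by omega⟩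
        refine PP.split (l := g + 3) (B := g) (L' := g + 4) (N' := 4 * (g + 4))
          (N'' := 4 * (g + 5)) (by omega) (by omega) h1 h2 ?_ (by omega) (by omega)
        rw [pow_add, pow_add]; norm_num; nlinarith [Nat.zero_le (2 ^ g)]

end Pool.Agent.Helper53
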