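import Pool.Agent.Helper53.ChainE

/-!
# Bases all of whose branch vertices have degree four: all excesses in the semigroup
-/

open Finset Function
open scoped symmDiff

set_option linter.unusedSectionVars false
set_option linter.unusedSimpArgs false

namespace Pool.Agent.Helper53

variable {V : Type*} [Fintype V] [DecidableEq V]

theorem CE.dbl {v e q : ℕ} (h : CE v e q) (l : ℕ) :
    ∃ e', e' + 4 * q = e + 4 * q * 2 ^ l ∧ CE (v + l) e' (2 ^ l * q) := by
  induction l with
  | zero => exact ⟨e, by omega, by simpa using h⟩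
  | succ l ih =>
    obtain ⟨e', h1, h2⟩ := ih
    refine ⟨e' + 4 * (2 ^ l * q), ?_, ?_⟩
    · rw [pow_succ]; nlinarith
    · have h3 := h2.stepB
      have e1 : 2 ^ (l + 1) * q = 2 * (2 ^ l * q) := by rw [pow_succ]; ring
      rw [e1]
      exact h3

theorem CE.horner : ∀ q : ℕ, 1 ≤ q → ∀ B, q < 2 ^ B →
    ∃ v e, v + 1 ≤ 3 * B ∧ e + 9 ≤ 12 * q ∧ CE v e q := by
  intro q
  induction q using Nat.strong_induction_on with
  | _ q ih =>
    intro hq B hB
    have hB1 : 1 ≤ B := by
      by_contra hlt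
      have : B = 0 := by omega
      rw [this] at hB
      omega
    rcases Nat.lt_or_ge q 2 with h2 | h2
    · have : q = 1 := by omega
      subst this
      exact ⟨2, 3, by omega, by omega, CE.start⟩
    · obtain ⟨B', rfl⟩ : ∃ B', B = B' + 1 := ⟨B - 1, by omega⟩
      rw [pow_succ] at hB
      obtain ⟨v, e, h1, h2, h3⟩ := ih (q / 2) (by omega) (by omega) B' (by omega)
      rcases Nat.even_or_odd q with hp | hp
      · refine ⟨v + 1, e + 4 * (q / 2), by omega, by omega, ?_⟩
        have e1 : 2 * (q / 2) = q := by have := Nat.even_iff.mp hp; omega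
        have h5 := h3.stepB
        rw [e1] at h5
        exact h5
      · have e1 : 2 * (q / 2) + 1 = q := by have := Nat.odd_iff.mp hp; omega
        refine ⟨v + 1 + 2, e + 4 * (q / 2) + 4 * (2 * (q / 2)) + 3, by omega, by omega, ?_⟩
        have h5 := h3.stepB.stepA
        rw [e1] at h5
        exact h5

/-- all excesses of the semigroup below `2 ^ L` are attained with at most `N` vertices -/
def PE (V : Type*) [Fintype V] [DecidableEq V] (L N : ℕ) : Prop :=
  ∀ e, 1 ≤ e → e < 2 ^ L → (∃ a b, e = 3 * a + 7 * b) → ∃ v, v ≤ N ∧ BE V v e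

theorem PE.mono {L L' N N' : ℕ} (h : PE V L N) (hL : L' ≤ L) (hN : N ≤ N') : PE V L' N' := by
  intro e h1 h2 h3
  have : 2 ^ L' ≤ 2 ^ L := Nat.pow_le_pow_right (by norm_num) hL
  obtain ⟨n, h4, h5⟩ := h e h1 (by omega) h3
  exact ⟨n, by omega, h5⟩

theorem PE.split {l B L L' L'' N N' N'' : ℕ} (hL : L = B + l + 2) (h1 : PE V L' N')
    (h2 : PE V L'' N'') (hs : 4 * 2 ^ l + 20 ≤ 2 ^ L'')
    (hp : 4 * 2 ^ l + 12 * 2 ^ B + 8 ≤ 2 ^ L') (hN : 3 * B + l + N' ≤ N) (hN' : N'' ≤ N) :
    PE V L N := by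
  intro e he1 he2 he3
  rcases Nat.lt_or_ge e (4 * 2 ^ l + 20) with hlt | hge
  · obtain ⟨n, h4, h5⟩ := h2 e he1 (by omega) he3
    exact ⟨n, by omega, h5⟩
  · set Q := 4 * 2 ^ l + 8 with hQ
    have hQ0 : 0 < Q := by omega
    have hdm := Nat.div_add_mod (e - 12) Q
    have hml := Nat.mod_lt (e - 12) hQ0
    set q := (e - 12) / Q with hq
    have hq1 : 1 ≤ q := (Nat.le_div_iff_mul_le hQ0).mpr (by omega)
    have hqB : q < 2 ^ B := by
      rw [hq, Nat.div_lt_iff_lt_mul hQ0]
      calc e - 12 ≤ e := Nat.sub_le _ _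
        _ < 2 ^ L := he2
        _ = 2 ^ B * (4 * 2 ^ l) := by rw [hL, pow_add, pow_add]; ring
        _ ≤ 2 ^ B * Q := Nat.mul_le_mul_left _ (by omega)
    obtain ⟨v0, e0, g1, g2, g3⟩ := CE.horner q hq1 B hqB
    obtain ⟨e1, g4, g5⟩ := g3.dbl l
    have g6 : Q * q = 4 * q * 2 ^ l + 8 * q := by rw [hQ]; ring
    obtain ⟨v2, g7, g8⟩ := h1 (e - e1) (by omega) (by omega) (semig (by omega))
    refine ⟨v0 + l + v2 + 1, by omega, ?_⟩
    have g9 := g5.be.join g8
    have g10 : e1 + (e - e1) = e := by omega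
    rw [g10] at g9
    exact g9

theorem PE.greedy {L N : ℕ} (hL : 5 ≤ L) (h : PE V L N) : PE V (L + 1) (N + L + 1) := by
  intro e he1 he2 he3
  have hD : ∀ j, 2 ≤ j → BE V j (2 ^ j - 1) := by
    intro j hj
    obtain ⟨i, rfl⟩ : ∃ i, j = i + 2 := ⟨j - 2, by omega⟩
    obtain ⟨e', h1, h2⟩ := CE.start.dbl i
    have h4 : 2 ^ (i + 2) = 4 * 2 ^ i := by rw [pow_add]; ring
    have h3 : e' = 2 ^ (i + 2) - 1 := by omega
    rw [h3, Nat.add_comm 2 i] at h2
    exact h2.be
  obtain ⟨M, rfl⟩ : ∃ M, L = M + 1 := ⟨L - 1, by omega⟩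
  have hp : 2 ^ (M + 1 + 1) = 4 * 2 ^ M := by rw [pow_add, pow_add]; ring
  have hp2 : 2 ^ (M + 1) = 2 * 2 ^ M := by rw [pow_succ]; ring
  have hM : 2 ^ 4 ≤ 2 ^ M := Nat.pow_le_pow_right (by norm_num) (by omega)
  rcases Nat.lt_or_ge e (2 ^ (M + 1)) with hlt | hge
  · obtain ⟨n, h1, h2⟩ := h e he1 hlt he3
    exact ⟨n, by omega, h2⟩
  · by_cases htop : e = 2 ^ (M + 1 + 1) - 1
    · exact ⟨M + 1 + 1, by omega, by rw [htop]; exact hD (M + 1 + 1) (by omega)⟩
    · rcases Nat.lt_or_ge e (2 ^ (M + 1) + 11) with hl2 | hg2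
      · obtain ⟨n, h1, h2⟩ := h (e - (2 ^ M - 1)) (by omega) (by omega) (semig (by omega))
        refine ⟨M + n + 1, by omega, ?_⟩
        have h3 := (hD M (by omega)).join h2
        have h4 : 2 ^ M - 1 + (e - (2 ^ M - 1)) = e := by omega
        rw [h4] at h3
        exact h3
      · obtain ⟨n, h1, h2⟩ := h (e - (2 ^ (M + 1) - 1)) (by omega) (by omega)
          (semig (by omega))
        refine ⟨M + 1 + n + 1, by omega, ?_⟩
        have h3 := (hD (M + 1) (by omega)).join h2
        have h4 : 2 ^ (M + 1) - 1 + (e - (2 ^ (M + 1) - 1)) = e := by omega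
        rw [h4] at h3
        exact h3

theorem pe5 : PE V 5 15 := by
  rintro e he1 he2 ⟨a, b, hab⟩
  norm_num at he2
  interval_cases e
  · omega
  · omega
  · exact ⟨2, by norm_num, (CE.start).be⟩
  · omega
  · omega
  · exact ⟨5, by norm_num, ((CE.start).be).join (CE.start).be⟩
  · exact ⟨3, by norm_num, (CE.start.stepB).be⟩
  · omega
  · exact ⟨8, by norm_num, (((CE.start).be).join (CE.start).be).join (CE.start).be⟩
  · exact ⟨4, by norm_num, (CE.start.stepA).be⟩
  · omega
  · exact ⟨11, by norm_num, ((((CE.start).be).join (CE.start).be).join (CE.start).be).join (CE.start).be⟩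
  · exact ⟨7, by norm_num, ((CE.start).be).join (CE.start.stepA).be⟩
  · exact ⟨7, by norm_num, ((CE.start.stepB).be).join (CE.start.stepB).be⟩
  · exact ⟨4, by norm_num, (CE.start.stepB.stepB).be⟩
  · exact ⟨10, by norm_num, (((CE.start).be).join (CE.start).be).join (CE.start.stepA).be⟩
  · exact ⟨8, by norm_num, ((CE.start.stepA).be).join (CE.start.stepB).be⟩
  · exact ⟨5, by norm_num, (CE.start.stepA.stepB).be⟩
  · exact ⟨13, by norm_num, ((((CE.start).be).join (CE.start).be).join (CE.start).be).join (CE.start.stepA).be⟩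
  · exact ⟨9, by norm_num, ((CE.start.stepA).be).join (CE.start.stepA).be⟩
  · exact ⟨6, by norm_num, (CE.start.stepA.stepA).be⟩
  · exact ⟨8, by norm_num, ((CE.start.stepB).be).join (CE.start.stepB.stepB).be⟩
  · exact ⟨12, by norm_num, (((CE.start).be).join (CE.start.stepA).be).join (CE.start.stepA).be⟩
  · exact ⟨9, by norm_num, ((CE.start).be).join (CE.start.stepA.stepA).be⟩
  · exact ⟨9, by norm_num, ((CE.start.stepA).be).join (CE.start.stepB.stepB).be⟩
  · exact ⟨15, by norm_num, ((((CE.start).be).join (CE.start).be).join (CE.start.stepA).be).join (CE.start.stepA).be⟩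
  · exact ⟨12, by norm_num, (((CE.start).be).join (CE.start).be).join (CE.start.stepA.stepA).be⟩
  · exact ⟨10, by norm_num, ((CE.start.stepA).be).join (CE.start.stepA.stepB).be⟩
  · exact ⟨12, by norm_num, (((CE.start.stepB).be).join (CE.start.stepB).be).join (CE.start.stepB.stepB).be⟩
  · exact ⟨6, by norm_num, (CE.start.stepB.stepA.stepB).be⟩
  · exact ⟨5, by norm_num, (CE.start.stepB.stepB.stepB).be⟩

theorem pe : ∀ L, 1 ≤ L → PE V L (6 * L) := by
  have p5 : PE V 5 15 := pe5
  have p6 : PE V 6 21 := PE.greedy (by norm_num) p5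
  have p7 : PE V 7 28 := PE.greedy (by norm_num) p6
  have p8 : PE V 8 36 := PE.greedy (by norm_num) p7
  have p9 : PE V 9 45 := PE.greedy (by norm_num) p8
  have p10 : PE V 10 55 := PE.greedy (by norm_num) p9
  have p11 : PE V 11 66 := PE.greedy (by norm_num) p10
  have p13 : PE V 13 78 := PE.split (l := 7) (B := 4) (by norm_num) p10 p10 (by norm_num)
    (by norm_num) (by norm_num) (by norm_num)
  intro L
  induction L using Nat.strong_induction_on with
  | _ L ih =>
    intro hL
    by_cases h13 : L = 13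
    · subst h13
      exact p13.mono (by norm_num) (by norm_num)
    rcases Nat.lt_or_ge L 12 with hlt | hge
    · interval_cases L
      · rintro e he1 he2 ⟨a, b, hab⟩
        norm_num at he2
        have : e = 1 := by omega
        subst this
        omega
      · rintro e he1 he2 ⟨a, b, hab⟩
        norm_num at he2
        have h1 : e ≠ 1 := by rintro rfl; omega
        have h2 : e ≠ 2 := by rintro rfl; omega
        have : e = 3 := by omega
        subst this
        exact ⟨2, by norm_num, CE.start.be⟩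
      · exact p5.mono (by norm_num) (by norm_num)
      · exact p5.mono (by norm_num) (by norm_num)
      · exact p5.mono (by norm_num) (by norm_num)
      · exact p6.mono (by norm_num) (by norm_num)
      · exact p7.mono (by norm_num) (by norm_num)
      · exact p8.mono (by norm_num) (by norm_num)
      · exact p9.mono (by norm_num) (by norm_num)
      · exact p10.mono (by norm_num) (by norm_num)
      · exact p11.mono (by norm_num) (by norm_num)
    · rcases Nat.even_or_odd' L with ⟨h, rfl | rfl⟩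
      · have h1 := ih (h + 3) (by omega) (by omega)
        obtain ⟨g, rfl⟩ : ∃ g, h = g + 2 := ⟨h - 2, by omega⟩
        have hg : 2 ^ 4 ≤ 2 ^ g := Nat.pow_le_pow_right (by norm_num) (by omega)
        have e1 : 2 ^ (g + 2) = 4 * 2 ^ g := by rw [pow_add]; ring
        have e2 : 2 ^ (g + 2 + 3) = 32 * 2 ^ g := by rw [pow_add, pow_add]; ring
        exact PE.split (l := g + 2) (B := g) (by omega) h1 h1 (by omega) (by omega)
          (by omega) (by omega)
      · have h1 := ih (h + 4) (by omega) (by omega)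
        obtain ⟨g, rfl⟩ : ∃ g, h = g + 2 := ⟨h - 2, by omega⟩
        have hg : 2 ^ 4 ≤ 2 ^ g := Nat.pow_le_pow_right (by norm_num) (by omega)
        have e1 : 2 ^ (g + 3) = 8 * 2 ^ g := by rw [pow_add]; ring
        have e2 : 2 ^ (g + 2 + 4) = 64 * 2 ^ g := by rw [pow_add, pow_add]; ring
        exact PE.split (l := g + 3) (B := g) (by omega) h1 h1 (by omega) (by omega)
          (by omega) (by omega)

end Pool.Agent.Helper53
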