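import Pool.Agent.Helper53.Build

/-!
# Relabelling the vertices
-/

open Finset
open scoped symmDiff

set_option linter.unusedSectionVars false

namespace Pool.Agent.Helper53

variable {V : Type*} [Fintype V] [DecidableEq V] {W : Type*} [Fintype W] [DecidableEq W]

section

variable {S : Finset V} {f : V → W}

/-- `X` is a set of edges inside `S` -/
def Ins (S : Finset V) (X : Finset (Sym2 V)) : Prop := ∀ e ∈ X, ∀ v ∈ e, v ∈ S

theorem Ins.mono {X Y : Finset (Sym2 V)} (h : Ins S Y) (hXY : X ⊆ Y) : Ins S X :=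
  fun e he v hv => h e (hXY he) v hv

theorem map_inj_of (hf : Set.InjOn f S) {e1 e2 : Sym2 V} (h1 : ∀ v ∈ e1, v ∈ S)
    (h2 : ∀ v ∈ e2, v ∈ S) (h : e1.map f = e2.map f) : e1 = e2 := by
  induction e1 using Sym2.ind with
  | _ a b =>
    induction e2 using Sym2.ind with
    | _ x y =>
      have ha : a ∈ S := h1 a (by simp)
      have hb : b ∈ S := h1 b (by simp)
      have hx : x ∈ S := h2 x (by simp)
      have hy : y ∈ S := h2 y (by simp)
      rw [Sym2.map_mk, Sym2.map_mk, Sym2.eq_iff] at h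
      rw [Sym2.eq_iff]
      rcases h with ⟨h3, h4⟩ | ⟨h3, h4⟩
      · exact Or.inl ⟨hf ha hx h3, hf hb hy h4⟩
      · exact Or.inr ⟨hf ha hy h3, hf hb hx h4⟩

theorem image_injOn (hf : Set.InjOn f S) {X : Finset (Sym2 V)} (hX : Ins S X) :
    Set.InjOn (Sym2.map f) (X : Set (Sym2 V)) :=
  fun _ h1 _ h2 h => map_inj_of hf (hX _ h1) (hX _ h2) h

theorem mem_map_iff (hf : Set.InjOn f S) {e : Sym2 V} (he : ∀ v ∈ e, v ∈ S) {v : V} (hv : v ∈ S) :
    f v ∈ e.map f ↔ v ∈ e := by
  rw [Sym2.mem_map]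
  constructor
  · rintro ⟨a, ha, hav⟩
    have := hf (he a ha) hv hav
    exact this ▸ ha
  · intro h; exact ⟨v, h, rfl⟩

theorem dg_image (hf : Set.InjOn f S) {X : Finset (Sym2 V)} (hX : Ins S X) {v : V} (hv : v ∈ S) :
    dg (X.image (Sym2.map f)) (f v) = dg X v := by
  unfold dg
  have h1 : (X.image (Sym2.map f)).filter (fun e => f v ∈ e) =
      (X.filter (fun e => v ∈ e)).image (Sym2.map f) := by
    ext e
    simp only [mem_filter, mem_image]
    constructor
    · rintro ⟨⟨e', he', rfl⟩, h⟩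
      exact ⟨e', ⟨he', (mem_map_iff hf (hX e' he') hv).mp h⟩, rfl⟩
    · rintro ⟨e', ⟨he', h⟩, rfl⟩
      exact ⟨⟨e', he', rfl⟩, (mem_map_iff hf (hX e' he') hv).mpr h⟩
  rw [h1, card_image_of_injOn]
  exact (image_injOn hf hX).mono (by intro e he; simp at he; exact he.1)

theorem dg_image_zero {X : Finset (Sym2 V)} (hX : Ins S X) {w : W}
    (hw : ∀ v ∈ S, f v ≠ w) : dg (X.image (Sym2.map f)) w = 0 := by
  unfold dg
  rw [card_eq_zero, filter_eq_empty_iff]
  intro e he h
  rw [mem_image] at he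
  obtain ⟨e', he', rfl⟩ := he
  rw [Sym2.mem_map] at h
  obtain ⟨a, ha, haw⟩ := h
  exact hw a (hX e' he' a ha) haw

theorem diag_image (hf : Set.InjOn f S) {e : Sym2 V} (he : ∀ v ∈ e, v ∈ S) :
    (e.map f).IsDiag ↔ e.IsDiag := by
  induction e using Sym2.ind with
  | _ a b =>
    rw [Sym2.map_mk, Sym2.mk_isDiag_iff, Sym2.mk_isDiag_iff]
    exact ⟨fun h => hf (he a (by simp)) (he b (by simp)) h, fun h => by rw [h]⟩

theorem evenSet_image (hf : Set.InjOn f S) {X : Finset (Sym2 V)} (hX : Ins S X) :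
    EvenSet (X.image (Sym2.map f)) ↔ EvenSet X := by
  constructor
  · rintro ⟨h1, h2⟩
    refine ⟨?_, ?_⟩
    · intro e he hd
      exact h1 _ (mem_image_of_mem _ he) ((diag_image hf (hX e he)).mpr hd)
    · intro v
      by_cases hv : v ∈ S
      · rw [← dg_image hf hX hv]; exact h2 _
      · have : dg X v = 0 := by
          by_contra hne
          obtain ⟨e, he, hve⟩ := dg_pos.mp (Nat.pos_of_ne_zero hne)
          exact hv (hX e he v hve)
        rw [this]; exact Even.zero
  · rintro ⟨h1, h2⟩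
    refine ⟨?_, ?_⟩
    · intro e he hd
      rw [mem_image] at he
      obtain ⟨e', he', rfl⟩ := he
      exact h1 _ he' ((diag_image hf (hX e' he')).mp hd)
    · intro w
      by_cases hw : ∃ v ∈ S, f v = w
      · obtain ⟨v, hv, rfl⟩ := hw
        rw [dg_image hf hX hv]; exact h2 v
      · push Not at hw
        rw [dg_image_zero hX hw]; exact Even.zero

/-- a subset of the image is the image of a subset -/
theorem subset_image_eq {X : Finset (Sym2 V)} {Y : Finset (Sym2 W)}
    (hY : Y ⊆ X.image (Sym2.map f)) :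
    (X.filter (fun e => e.map f ∈ Y)).image (Sym2.map f) = Y := by
  ext e
  simp only [mem_image, mem_filter]
  constructor
  · rintro ⟨e', ⟨_, h2⟩, rfl⟩; exact h2
  · intro he
    have := hY he
    rw [mem_image] at this
    obtain ⟨e', he', rfl⟩ := this
    exact ⟨e', ⟨he', he⟩, rfl⟩

theorem isC_image (hf : Set.InjOn f S) {X : Finset (Sym2 V)} (hX : Ins S X) :
    IsC EvenSet (X.image (Sym2.map f)) ↔ IsC EvenSet X := by
  constructor
  · rintro ⟨h1, h2, h3⟩
    refine ⟨(evenSet_image hf hX).mp h1, image_nonempty.mp h2, ?_⟩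
    intro D hD hDe
    have h4 := h3 (D.image (Sym2.map f)) (image_subset_image hD)
      ((evenSet_image hf (hX.mono hD)).mpr hDe)
    rcases h4 with h4 | h4
    · left; exact image_eq_empty.mp h4
    · right
      apply eq_of_subset_of_card_le hD
      rw [← card_image_of_injOn (image_injOn hf hX), ← h4]
      exact card_image_le
  · rintro ⟨h1, h2, h3⟩
    refine ⟨(evenSet_image hf hX).mpr h1, h2.image _, ?_⟩
    intro D hD hDe
    rw [← subset_image_eq hD] at hDe ⊢
    have h4 := h3 _ (filter_subset _ X) ((evenSet_image hf (hX.mono (filter_subset _ X))).mp hDe)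
    rcases h4 with h4 | h4
    · left; rw [h4]; simp
    · right; rw [h4]

theorem card_circ_image (hf : Set.InjOn f S) {X : Finset (Sym2 V)} (hX : Ins S X) :
    (circ EvenSet (X.image (Sym2.map f))).card = (circ EvenSet X).card := by
  have h1 : circ EvenSet (X.image (Sym2.map f)) =
      (circ EvenSet X).image (fun Y => Y.image (Sym2.map f)) := by
    ext Y
    rw [mem_circ, mem_image]
    constructor
    · rintro ⟨h1, h2⟩
      refine ⟨X.filter (fun e => e.map f ∈ Y), ?_, subset_image_eq h1⟩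
      rw [mem_circ]
      refine ⟨filter_subset _ _, ?_⟩
      rw [← subset_image_eq h1] at h2
      exact (isC_image hf (hX.mono (filter_subset _ X))).mp h2
    · rintro ⟨Z, hZ, rfl⟩
      rw [mem_circ] at hZ
      exact ⟨image_subset_image hZ.1, (isC_image hf (hX.mono hZ.1)).mpr hZ.2⟩
  rw [h1, card_image_of_injOn]
  intro Y hY Z hZ hYZ
  rw [mem_coe, mem_circ] at hY hZ
  have key : ∀ Y Z : Finset (Sym2 V), Y ⊆ X → Z ⊆ X →
      Y.image (Sym2.map f) = Z.image (Sym2.map f) → Y ⊆ Z := by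
    intro Y Z hY hZ h e he
    have h5 : e.map f ∈ Z.image (Sym2.map f) := h ▸ mem_image_of_mem _ he
    rw [mem_image] at h5
    obtain ⟨e', he', h6⟩ := h5
    have := map_inj_of hf (hX e' (hZ he')) (hX e (hY he)) h6
    exact this ▸ he'
  exact Subset.antisymm (key Y Z hY.1 hZ.1 hYZ) (key Z Y hZ.1 hY.1 hYZ.symm)

theorem Ok.ins {F : Finset (Sym2 V)} (h : Ok S F) : Ins S F := h.sup

theorem Ok.image (hf : Set.InjOn f S) {F : Finset (Sym2 V)} (h : Ok S F) :
    Ok (S.image f) (F.image (Sym2.map f)) where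
  nd := by
    intro e he hd
    rw [mem_image] at he
    obtain ⟨e', he', rfl⟩ := he
    exact h.nd _ he' ((diag_image hf (h.sup e' he')).mp hd)
  sup := by
    intro e he v hv
    rw [mem_image] at he
    obtain ⟨e', he', rfl⟩ := he
    rw [Sym2.mem_map] at hv
    obtain ⟨a, ha, rfl⟩ := hv
    exact mem_image_of_mem _ (h.sup e' he' a ha)
  ne := h.ne.image f
  con := by
    have key : ∀ x y, (SimpleGraph.fromEdgeSet (F : Set (Sym2 V))).Reachable x y →
        (SimpleGraph.fromEdgeSet ((F.image (Sym2.map f) : Finset (Sym2 W)) : Set (Sym2 W))).Reachable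
          (f x) (f y) := by
      rintro x y ⟨w⟩
      induction w with
      | nil => exact SimpleGraph.Reachable.refl _
      | @cons a b c hadj _ ih =>
        refine SimpleGraph.Reachable.trans (SimpleGraph.Adj.reachable ?_) ih
        rw [SimpleGraph.fromEdgeSet_adj] at hadj ⊢
        refine ⟨?_, ?_⟩
        · rw [mem_coe, mem_image]
          exact ⟨s(a, b), by exact_mod_cast hadj.1, by rw [Sym2.map_mk]⟩
        · intro hab
          have h1 : s(a, b) ∈ F := by exact_mod_cast hadj.1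
          exact hadj.2 (hf (h.sup _ h1 a (by simp)) (h.sup _ h1 b (by simp)) hab)
    intro x hx y hy
    rw [mem_image] at hx hy
    obtain ⟨x', hx', rfl⟩ := hx
    obtain ⟨y', hy', rfl⟩ := hy
    exact key _ _ (h.con x' hx' y' hy')

theorem Good.image (hf : Set.InjOn f S) {d : V → ℕ} {d' : W → ℕ} {k : ℕ} (h : Good S d k)
    (hd : ∀ v ∈ S, d' (f v) = d v) : Good (S.image f) d' k := by
  obtain ⟨F, h1, h2, h3⟩ := h
  refine ⟨F.image (Sym2.map f), h1.image hf, ?_, by rw [card_circ_image hf h1.ins, h3]⟩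
  intro w hw
  rw [mem_image] at hw
  obtain ⟨v, hv, rfl⟩ := hw
  rw [dg_image hf h1.ins hv, h2 v hv, hd v hv]

end

/-- transport between two vertex sets of the same size sharing the part `A` -/
theorem exists_relabel {A O O' : Finset V} (h1 : Disjoint A O) (h2 : Disjoint A O')
    (hc : O.card = O'.card) : ∃ f : V → V, Set.InjOn f (A ∪ O : Finset V) ∧ (∀ v ∈ A, f v = v) ∧
      (A ∪ O).image f = A ∪ O' ∧ ∀ v ∈ O, f v ∈ O' := by
  classical
  have e : O ≃ O' := equivOfCardEq hc
  refine ⟨fun v => if h : v ∈ O then (e ⟨v, h⟩ : V) else v, ?_, ?_, ?_, ?_⟩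
  · intro x hx y hy hxy
    rw [mem_coe, mem_union] at hx hy
    simp only at hxy
    by_cases hxO : x ∈ O <;> by_cases hyO : y ∈ O
    · rw [dif_pos hxO, dif_pos hyO] at hxy
      have := e.injective (Subtype.ext hxy)
      simpa using this
    · rw [dif_pos hxO, dif_neg hyO] at hxy
      have hyA : y ∈ A := by tauto
      have : (e ⟨x, hxO⟩ : V) ∈ O' := (e ⟨x, hxO⟩).2
      rw [hxy] at this
      exact absurd this (fun h => disjoint_left.mp h2 hyA h)
    · rw [dif_neg hxO, dif_pos hyO] at hxy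
      have hxA : x ∈ A := by tauto
      have : (e ⟨y, hyO⟩ : V) ∈ O' := (e ⟨y, hyO⟩).2
      rw [← hxy] at this
      exact absurd this (fun h => disjoint_left.mp h2 hxA h)
    · rw [dif_neg hxO, dif_neg hyO] at hxy
      exact hxy
  · intro v hv
    have : v ∉ O := fun h => disjoint_left.mp h1 hv h
    simp [this]
  · ext w
    simp only [mem_image, mem_union]
    constructor
    · rintro ⟨v, hv, rfl⟩
      by_cases hvO : v ∈ O
      · rw [dif_pos hvO]; right; exact (e ⟨v, hvO⟩).2
      · rw [dif_neg hvO]; left; tauto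
    · rintro (hw | hw)
      · refine ⟨w, Or.inl hw, ?_⟩
        have : w ∉ O := fun h => disjoint_left.mp h1 hw h
        simp [this]
      · obtain ⟨⟨v, hv⟩, hve⟩ := e.surjective ⟨w, hw⟩
        refine ⟨v, Or.inr hv, ?_⟩
        rw [dif_pos hv, hve]
  · intro v hv
    show (if h : v ∈ O then (e ⟨v, h⟩ : V) else v) ∈ O'
    rw [dif_pos hv]; exact (e ⟨v, hv⟩).2

/-- an abstract base: degrees `c` on `A` and `m` further vertices of degree two -/
def Base (A : Finset V) (c : V → ℕ) (m k : ℕ) : Prop :=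
  ∀ (O : Finset V) (d : V → ℕ), Disjoint A O → O.card = m → (∀ v ∈ A, d v = c v) →
    (∀ v ∈ O, d v = 2) → Good (A ∪ O) d k

theorem Base.of_one {A : Finset V} {c : V → ℕ} {k : ℕ} {O : Finset V} {d : V → ℕ}
    (h : Good (A ∪ O) d k) (hdis : Disjoint A O) (hA : ∀ v ∈ A, d v = c v)
    (hO : ∀ v ∈ O, d v = 2) : Base A c O.card k := by
  intro O' d' hdis' hc hA' hO'
  obtain ⟨f, f1, f2, f3, f4⟩ := exists_relabel hdis hdis' hc.symm
  rw [← f3]
  refine h.image f1 ?_
  intro v hv
  rw [mem_union] at hv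
  rcases hv with hv | hv
  · rw [f2 v hv, hA' v hv, hA v hv]
  · rw [hO' _ (f4 v hv), hO v hv]

end Pool.Agent.Helper53
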