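import Pool.Agent.Helper53.Struct
import Pool.Agent.Helper53.Relabel

/-!
# Growing a connected graph block by block
-/

open Finset
open scoped symmDiff

set_option linter.unusedSectionVars false
set_option linter.unusedSimpArgs false

namespace Pool.Agent.Helper53

variable {V : Type*} [Fintype V] [DecidableEq V]

theorem ok_edge {v a : V} (hva : v ≠ a) : Ok {v, a} ({s(v, a)} : Finset (Sym2 V)) := by
  refine ⟨?_, ?_, ?_, ?_⟩
  · intro e he
    rw [mem_singleton] at he
    rw [he]; simpa using hva
  · intro e he w hw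
    rw [mem_singleton] at he
    rw [he, Sym2.mem_iff] at hw
    simpa using hw
  · exact ⟨v, by simp⟩
  · have h1 : (SimpleGraph.fromEdgeSet (({s(v, a)} : Finset (Sym2 V)) : Set (Sym2 V))).Reachable
        v a := reach_of_mem (by simp) hva
    intro x hx y hy
    simp only [mem_insert, mem_singleton] at hx hy
    rcases hx with rfl | rfl <;> rcases hy with rfl | rfl
    · exact SimpleGraph.Reachable.refl _
    · exact h1
    · exact h1.symm
    · exact SimpleGraph.Reachable.refl _

theorem Sep.mono {α : Type*} [DecidableEq α] {P : Finset α → Prop} {F F' U : Finset α}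
    (h : Sep P F U) (hF : F' ⊆ F) (hU : U ⊆ F') : Sep P F' U := by
  refine ⟨hU, ?_⟩
  intro C hC hCc
  rcases h.2 C (hC.trans hF) hCc with h1 | h1
  · exact Or.inl h1
  · right
    intro x hx
    exact mem_sdiff.mpr ⟨hC hx, (mem_sdiff.mp (h1 hx)).2⟩

theorem Sep.union {α : Type*} [DecidableEq α] {P : Finset α → Prop} {F U W : Finset α}
    (h : Sep P F U) (h' : Sep P F W) : Sep P F (U ∪ W) := by
  refine ⟨union_subset h.1 h'.1, ?_⟩
  intro C hC hCc
  rcases h.2 C hC hCc with h1 | h1
  · exact Or.inl (h1.trans subset_union_left)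
  · rcases h'.2 C hC hCc with h2 | h2
    · exact Or.inl (h2.trans subset_union_right)
    · right
      intro x hx
      rw [mem_sdiff, mem_union, not_or]
      exact ⟨hC hx, (mem_sdiff.mp (h1 hx)).2, (mem_sdiff.mp (h2 hx)).2⟩

/-- pieces separated by the even sets share one vertex only -/
theorem sep_inter {S T : Finset V} {F1 K F : Finset (Sym2 V)} (h1 : Ok S F1) (h2 : Ok T K)
    (hF1 : F1 ⊆ F) (hK : K ⊆ F) (hd : Disjoint F1 K) (hs : Sep EvenSet F K) {u : V}
    (hu1 : u ∈ S) (hu2 : u ∈ T) : S ∩ T = {u} := by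
  classical
  ext w
  rw [mem_inter, mem_singleton]
  constructor
  · rintro ⟨hw1, hw2⟩
    by_contra hne
    obtain ⟨Y, hY, hYo⟩ := exists_odds_of_reachable (h1.con u hu1 w hw1)
    obtain ⟨X, hX, hXo⟩ := exists_odds_of_reachable (h2.con u hu2 w hw2)
    have hZF : X ∆ Y ⊆ F := by
      intro e he
      rw [mem_symmDiff] at he
      rcases he with he | he
      · exact hK (hX he.1)
      · exact hF1 (hY he.1)
    have hnd : ∀ e ∈ X ∆ Y, ¬ e.IsDiag := by
      intro e he
      rw [mem_symmDiff] at he
      rcases he with he | he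
      · exact h2.nd e (hX he.1)
      · exact h1.nd e (hY he.1)
    have hZe : EvenSet (X ∆ Y) := by
      rw [evenSet_iff_odds hnd, odds_symmDiff, hXo, hYo, symmDiff_self]; rfl
    have h3 := hs.even_inter fam_evenSet hZF hZe
    have h4 : (X ∆ Y) ∩ K = X := by
      ext e
      rw [mem_inter, mem_symmDiff]
      constructor
      · rintro ⟨h5 | h5, h6⟩
        · exact h5.1
        · exact absurd h6 (fun h => disjoint_left.mp hd (hY h5.1) h)
      · intro he
        exact ⟨Or.inl ⟨he, fun h => disjoint_left.mp hd (hY h) (hX he)⟩, hX he⟩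
    rw [h4] at h3
    have h5 : odds X = ∅ := (evenSet_iff_odds h3.1).mp h3
    rw [hXo] at h5
    have h6 : u ∈ ({u} : Finset V) ∆ {w} := by
      rw [mem_symmDiff]; left; simp [Ne.symm hne]
    rw [h5] at h6
    simp at h6
  · rintro rfl; exact ⟨hu1, hu2⟩

/-- every connected graph is obtained from a union of blocks by adding edges and blocks -/
theorem grow {S : Finset V} {F : Finset (Sym2 V)} (hF : Ok S F)
    (Q : Finset V → Finset (Sym2 V) → Prop)
    (step : ∀ S1 F1 T K u, Ok S1 F1 → Ok T K → F1 ⊆ F → K ⊆ F → Disjoint F1 K →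
      Sep EvenSet F F1 → Sep EvenSet F K → S1 ∩ T = {u} →
      ((∃ w, u ≠ w ∧ T = {u, w} ∧ K = {s(u, w)}) ∨ (Con EvenSet K ∧ T = tch K)) →
      Q S1 F1 → Q (S1 ∪ T) (F1 ∪ K)) :
    ∀ (n : ℕ) (S1 : Finset V) (F1 : Finset (Sym2 V)), (F \ F1).card ≤ n → Ok S1 F1 → S1 ⊆ S →
      Sep EvenSet F F1 → Q S1 F1 → Q S F := by
  classical
  intro n
  induction n with
  | zero =>
    intro S1 F1 hn h1 hS hsep hQ
    have hFF : F ⊆ F1 := by
      rw [← sdiff_eq_empty_iff_subset, ← card_eq_zero]; omega
    have hFe : F = F1 := Subset.antisymm hFF hsep.1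
    have hSS : S ⊆ S1 := by
      intro y hy
      obtain ⟨x, hx⟩ := h1.ne
      obtain ⟨w⟩ := hF.con x (hS hx) y hy
      clear hy
      induction w with
      | nil => exact hx
      | @cons a b c hadj _ ih =>
        apply ih
        rw [SimpleGraph.fromEdgeSet_adj] at hadj
        have : s(a, b) ∈ F1 := by rw [← hFe]; exact_mod_cast hadj.1
        exact h1.sup _ this b (by simp)
    have hSe : S = S1 := Subset.antisymm hSS hS
    rw [hSe, hFe]; exact hQ
  | succ n ih =>
    intro S1 F1 hn h1 hS hsep hQ
    by_cases hex : ∃ f ∈ F, f ∉ F1 ∧ ∃ u ∈ S1, u ∈ f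
    · obtain ⟨f, hfF, hfF1, u, huS1, huf⟩ := hex
      by_cases hc : f ∈ cyc EvenSet F
      · -- block
        set K := blk EvenSet F f with hK
        have hKcon : Con EvenSet K := con_blk fam_evenSet hc
        have hKF : K ⊆ F := blk_subset F f
        have hKsep : Sep EvenSet F K := sep_blk fam_evenSet F f
        have hfK : f ∈ K := self_mem_blk hc
        have hdis : Disjoint F1 K := by
          rw [disjoint_left]
          intro g hg1 hgK
          obtain ⟨C, c1, c2, c3, c4⟩ := mem_blk.mp hgK
          rcases hsep.2 C c1 c2 with h5 | h5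
          · exact hfF1 (h5 c3)
          · exact (mem_sdiff.mp (h5 c4)).2 hg1
        have huT : u ∈ tch K := mem_tch.mpr (dg_pos.mpr ⟨f, hfK, huf⟩)
        have hint := sep_inter h1 hKcon.ok hsep.1 hKF hdis hKsep huS1 huT
        have hQ' := step S1 F1 (tch K) K u h1 hKcon.ok hsep.1 hKF hdis hsep hKsep hint
          (Or.inr ⟨hKcon, rfl⟩) hQ
        refine ih (S1 ∪ tch K) (F1 ∪ K) ?_ (h1.glue hKcon.ok hint) ?_ (hsep.union hKsep) hQ'
        · have : (F \ (F1 ∪ K)).card < (F \ F1).card := by
            apply card_lt_card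
            rw [ssubset_iff_of_subset (sdiff_subset_sdiff Subset.rfl subset_union_left)]
            exact ⟨f, mem_sdiff.mpr ⟨hfF, hfF1⟩, fun h =>
              (mem_sdiff.mp h).2 (mem_union_right _ hfK)⟩
          omega
        · apply union_subset hS
          intro v hv
          obtain ⟨e, he, hve⟩ := dg_pos.mp (mem_tch.mp hv)
          exact hF.sup e (hKF he) v hve
      · -- bridge
        obtain ⟨w, rfl⟩ := Sym2.mem_iff_exists.mp huf
        have huw : u ≠ w := by
          intro h
          apply hF.nd _ hfF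
          rw [h]; simp
        have hKF : ({s(u, w)} : Finset (Sym2 V)) ⊆ F := by
          intro e he; rw [mem_singleton] at he; rw [he]; exact hfF
        have hKsep : Sep EvenSet F {s(u, w)} := by
          refine ⟨hKF, ?_⟩
          intro C hC hCc
          right
          intro x hx
          rw [mem_sdiff, mem_singleton]
          refine ⟨hC hx, ?_⟩
          rintro rfl
          exact hc (mem_cyc.mpr ⟨C, hC, hCc, hx⟩)
        have hdis : Disjoint F1 ({s(u, w)} : Finset (Sym2 V)) := by
          rw [disjoint_singleton_right]; exact hfF1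
        have hint := sep_inter h1 (ok_edge huw) hsep.1 hKF hdis hKsep huS1 (by simp)
        have hQ' := step S1 F1 {u, w} {s(u, w)} u h1 (ok_edge huw) hsep.1 hKF hdis hsep hKsep hint
          (Or.inl ⟨w, huw, rfl, rfl⟩) hQ
        refine ih (S1 ∪ {u, w}) (F1 ∪ {s(u, w)}) ?_ (h1.glue (ok_edge huw) hint) ?_
          (hsep.union hKsep) hQ'
        · have : (F \ (F1 ∪ {s(u, w)})).card < (F \ F1).card := by
            apply card_lt_card
            rw [ssubset_iff_of_subset (sdiff_subset_sdiff Subset.rfl subset_union_left)]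
            exact ⟨s(u, w), mem_sdiff.mpr ⟨hfF, hfF1⟩, fun h =>
              (mem_sdiff.mp h).2 (mem_union_right _ (by simp))⟩
          omega
        · apply union_subset hS
          intro v hv
          simp only [mem_insert, mem_singleton] at hv
          rcases hv with rfl | rfl
          · exact hS huS1
          · exact hF.sup _ hfF v (by simp)
    · push Not at hex
      have hSS : S ⊆ S1 := by
        intro y hy
        obtain ⟨x, hx⟩ := h1.ne
        obtain ⟨w⟩ := hF.con x (hS hx) y hy
        clear hy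
        induction w with
        | nil => exact hx
        | @cons a b c hadj _ ih2 =>
          apply ih2
          rw [SimpleGraph.fromEdgeSet_adj] at hadj
          have h5 : s(a, b) ∈ F := by exact_mod_cast hadj.1
          by_cases h6 : s(a, b) ∈ F1
          · exact h1.sup _ h6 b (by simp)
          · exact absurd (by simp : a ∈ s(a, b)) (hex _ h5 h6 a hx)
      have hSe : S = S1 := Subset.antisymm hSS hS
      have hFe : F = F1 := by
        apply Subset.antisymm _ hsep.1
        intro e he
        by_contra h6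
        have h7 := hF.sup e he e.out.1 (Sym2.out_fst_mem e)
        exact hex e he h6 _ (hSS h7) (Sym2.out_fst_mem e)
      rw [hSe, hFe]; exact hQ

/-- the rank is additive under gluing -/
theorem mu_glue {F1 K F : Finset (Sym2 V)} (hF1 : F1 ⊆ F) (hK : K ⊆ F) (hd : Disjoint F1 K)
    (hs : Sep EvenSet F K) : mu EvenSet (F1 ∪ K) = mu EvenSet F1 + mu EvenSet K := by
  have h1 : Sep EvenSet (F1 ∪ K) K := hs.mono (union_subset hF1 hK) subset_union_right
  have h2 := h1.mu fam_evenSet
  have h3 : (F1 ∪ K) \ K = F1 := by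
    ext e
    rw [mem_sdiff, mem_union]
    constructor
    · rintro ⟨h4 | h4, h5⟩
      · exact h4
      · exact absurd h4 h5
    · intro h4; exact ⟨Or.inl h4, fun h5 => disjoint_left.mp hd h4 h5⟩
  rw [h3] at h2
  omega

theorem mu_singleton (u w : V) : mu EvenSet ({s(u, w)} : Finset (Sym2 V)) = 0 := by
  apply mu_of_cyc_empty fam_evenSet
  rw [eq_empty_iff_forall_notMem]
  intro e he
  obtain ⟨C, c1, c2, c3⟩ := mem_cyc.mp he
  have := three_le_of_circuit c2
  have h2 := card_le_card c1
  rw [card_singleton] at h2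
  omega

theorem circ_singleton (u w : V) :
    (circ EvenSet ({s(u, w)} : Finset (Sym2 V))).card = 0 := by
  rw [card_eq_zero, eq_empty_iff_forall_notMem]
  intro C hC
  rw [mem_circ] at hC
  have := three_le_of_circuit hC.2
  have h2 := card_le_card hC.1
  rw [card_singleton] at h2
  omega

/-- a block of rank one is a circuit -/
theorem Con.circuit_of_mu {K : Finset (Sym2 V)} (hK : Con EvenSet K) (h1 : mu EvenSet K = 1) :
    IsC EvenSet K := by
  obtain ⟨e, he⟩ := hK.1
  obtain ⟨C, c1, c2, c3, _⟩ := hK.2 e he e he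
  have h2 : (circ EvenSet K).card ≤ 1 := by
    have := card_circ_lt K
    rw [card_evs fam_evenSet, h1] at this; omega
  have h3 : C = K := by
    apply Subset.antisymm c1
    intro f hf
    obtain ⟨D, d1, d2, d3, _⟩ := hK.2 f hf f hf
    have h4 : D = C := by
      rw [card_le_one] at h2
      exact h2 D (mem_circ.mpr ⟨d1, d2⟩) C (mem_circ.mpr ⟨c1, c2⟩)
    rw [← h4]; exact d3
  rw [← h3]; exact c2

theorem ok_single (v : V) : Ok {v} (∅ : Finset (Sym2 V)) := by
  refine ⟨by simp, by simp, by simp, ?_⟩
  intro x hx y hy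
  rw [mem_singleton] at hx hy
  rw [hx, hy]

theorem circ_empty : (circ EvenSet (∅ : Finset (Sym2 V))).card = 0 := by
  rw [card_eq_zero, eq_empty_iff_forall_notMem]
  intro C hC
  rw [mem_circ] at hC
  have := three_le_of_circuit hC.2
  have h2 := card_le_card hC.1
  rw [card_empty] at h2
  omega

/-- if the number of circuits exceeds the rank, some block has rank at least two -/
theorem exists_big {S : Finset V} {F : Finset (Sym2 V)} (hF : Ok S F)
    (h : mu EvenSet F < (circ EvenSet F).card) :
    ∃ K, K ⊆ F ∧ Con EvenSet K ∧ Sep EvenSet F K ∧ 2 ≤ mu EvenSet K := by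
  classical
  by_contra hcon
  push Not at hcon
  obtain ⟨v0, hv0⟩ := hF.ne
  have key := grow hF (fun _ F1 => (circ EvenSet F1).card ≤ mu EvenSet F1) ?_ (F \ ∅).card {v0} ∅
    le_rfl (ok_single v0) (by simpa using hv0)
    ⟨empty_subset _, fun C hC _ => Or.inr (by simpa using hC)⟩ (by rw [circ_empty]; simp)
  · omega
  · intro S1 F1 T K u h1 h2 h3 h4 h5 h6 h7 h8 h9 hQ
    rw [card_circ_glue h1 h2 h8, mu_glue h3 h4 h5 h7]
    rcases h9 with ⟨w, hw, _, rfl⟩ | ⟨hc, _⟩
    · rw [circ_singleton u w]; omega
    · have h10 := hcon K h4 hc h7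
      have h11 := hc.mu_pos fam_evenSet
      have h12 : mu EvenSet K = 1 := by omega
      have h13 := card_circ_lt K
      rw [card_evs fam_evenSet, h12] at h13
      omega

end Pool.Agent.Helper53
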