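import Pool.Agent.Helper53.Big

/-!
# Every connected graph with more circuits than its rank has a small base
-/

open Finset Function
open scoped symmDiff

set_option linter.unusedSectionVars false
set_option linter.unusedSimpArgs false

namespace Pool.Agent.Helper53

variable {V : Type*} [Fintype V] [DecidableEq V]

theorem sum_tch (K : Finset (Sym2 V)) : ∑ v ∈ tch K, dg K v = ∑ v : V, dg K v := by
  apply sum_subset (subset_univ _)
  intro v _ hv
  rw [mem_tch] at hv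
  omega

theorem Con.sum_eq {K : Finset (Sym2 V)} (hK : Con EvenSet K) :
    ∑ v ∈ tch K, dg K v + 2 = 2 * ((tch K).card + mu EvenSet K) := by
  rw [sum_tch, sum_dg hK.nd]
  have := hK.card_eq
  omega

theorem Con.two_le_of_mem {K : Finset (Sym2 V)} (hK : Con EvenSet K) {v : V} (hv : v ∈ tch K) :
    2 ≤ dg K v := hK.two_le_dg (mem_tch.mp hv)

/-- numerical facts about a block of rank at least two -/
theorem Con.numbers {K : Finset (Sym2 V)} (hK : Con EvenSet K) (h2 : 2 ≤ mu EvenSet K) (u : V) :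
    ∃ eL, (circ EvenSet K).card = mu EvenSet K + eL ∧
      ((mu EvenSet K = 2 ∧ eL = 1 ∧ 1 ≤ ((lo (tch K) (dg K)).erase u).card) ∨
        (3 ≤ mu EvenSet K ∧ mu EvenSet K ≤ eL)) := by
  have hq := hK.quad fam_evenSet (mu EvenSet K) K rfl
  have hle := mu_le_circ fam_evenSet K.card K le_rfl
  refine ⟨(circ EvenSet K).card - mu EvenSet K, by omega, ?_⟩
  rcases Nat.lt_or_ge (mu EvenSet K) 3 with h3 | h3
  · left
    have hm : mu EvenSet K = 2 := by omega
    have hlt := card_circ_lt K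
    rw [card_evs fam_evenSet, hm] at hlt
    rw [hm] at hq
    have h4 := four_mu_le fam_evenSet (fun C hC => three_le_of_circuit hC) K.card K le_rfl
    rw [hK.cyc_eq, hm] at h4
    have hce := hK.card_eq
    have hth := (hK.theta hm).1
    have hhi : hi (tch K) (dg K) = deg3 K := by
      ext v
      simp only [hi, mem_filter, mem_tch, mem_deg3]
      have := hK.dg_le v
      omega
    have hun := hi_union_lo (T := tch K) (dL := dg K) (fun v hv => hK.two_le_of_mem hv)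
    have hc := card_union_of_disjoint (hi_lo_disjoint (tch K) (dg K))
    rw [hun, hhi, hth] at hc
    have he : (lo (tch K) (dg K)).card - 1 ≤ ((lo (tch K) (dg K)).erase u).card :=
      pred_card_le_card_erase
    refine ⟨hm, by omega, by omega⟩
  · right
    refine ⟨h3, ?_⟩
    have h5 : 4 * mu EvenSet K ≤ mu EvenSet K * (mu EvenSet K + 1) := by nlinarith
    omega

section

variable {S : Finset V} {d : V → ℕ} {μ e : ℕ} {A : Finset V} {c : V → ℕ} {m μ0 f1 f2 f3 : ℕ}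

theorem GS.big_c3 {u : V} (hc3 : ∀ v ∈ A, v ≠ u → 3 ≤ c v) (hcu : 1 ≤ c u) {T : Finset V}
    {dL : V → ℕ} (hLu : 2 ≤ dL u) : ∀ v ∈ A ∪ (hi T dL).erase u,
      3 ≤ (fun v => if v = u then c u + dL u else if v ∈ A then c v else dL v) v := by
  intro v hv
  simp only
  split_ifs with h1 h2
  · omega
  · exact hc3 v h2 h1
  · rw [mem_union] at hv
    rcases hv with hv | hv
    · exact absurd hv h2
    · rw [mem_erase, hi, mem_filter] at hv
      exact hv.2.2

/-- gluing a block of rank at least two at any vertex -/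
theorem GS.bigstep (h : GS S d μ e A c m μ0 f1 f2 f3)
    (hsum : ∑ v ∈ S, d v + 2 = 2 * (S.card + μ))
    (hd : ∀ v ∈ S, 1 ≤ d v) (hc3 : ∀ v ∈ A, 3 ≤ c v) (hm : 1 ≤ m ∨ μ0 = μ) (he : 1 ≤ e)
    (hb : μ0 ≤ 2 * e) (hb0 : m = 0 → μ0 + 1 ≤ 2 * e)
    {u : V} (hu : u ∈ S) {T : Finset V}
    {dL : V → ℕ} {μL eL : ℕ} (hST : S ∩ T = {u}) (hL : Good T dL (μL + eL))
    (h2 : ∀ v ∈ T, 2 ≤ dL v) (hs : ∑ v ∈ T, dL v + 2 = 2 * (T.card + μL))
    (hnum : (μL = 2 ∧ eL = 1 ∧ 1 ≤ ((lo T dL).erase u).card) ∨ (3 ≤ μL ∧ μL ≤ eL))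
    {d' : V → ℕ}
    (hdu : d' u = d u + dL u) (hdS : ∀ v ∈ S, v ≠ u → d' v = d v)
    (hdT : ∀ v ∈ T, v ≠ u → d' v = dL v) :
    ∃ A' c' m' μ0' g1 g2 g3, GS (S ∪ T) d' (μ + μL) (e + eL) A' c' m' μ0' g1 g2 g3 ∧
      (∀ v ∈ A', 3 ≤ c' v) ∧ (1 ≤ m' ∨ μ0' = μ + μL) ∧ μ0' ≤ 2 * (e + eL) ∧
      (m' = 0 → μ0' + 1 ≤ 2 * (e + eL)) := by
  have huT : u ∈ T := by
    have : u ∈ S ∩ T := by rw [hST]; simp
    exact (mem_inter.mp this).2
  have hLu := h2 u huT
  -- the final gluing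
  have fin : ∀ A1 c1 m1 μ1 g1 g2 g3, GS S d μ e A1 c1 m1 μ1 g1 g2 g3 → u ∈ A1 →
      (∀ v ∈ A1, v ≠ u → 3 ≤ c1 v) →
      ((1 ≤ m1 + ((lo T dL).erase u).card) ∨ μ1 = μ) → μ1 + μL ≤ 2 * (e + eL) →
      (m1 + ((lo T dL).erase u).card = 0 → μ1 + μL + 1 ≤ 2 * (e + eL)) →
      ∃ A' c' m' μ0' g1 g2 g3, GS (S ∪ T) d' (μ + μL) (e + eL) A' c' m' μ0' g1 g2 g3 ∧
      (∀ v ∈ A', 3 ≤ c' v) ∧ (1 ≤ m' ∨ μ0' = μ + μL) ∧ μ0' ≤ 2 * (e + eL) ∧
      (m' = 0 → μ0' + 1 ≤ 2 * (e + eL)) := by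
    intro A1 c1 m1 μ1 g1 g2 g3 h' hu1 hc31 hor hb1 hb2
    refine ⟨_, _, _, _, _, _, _, h'.big hu1 hST hL h2 hs hdu hdS hdT,
      GS.big_c3 hc31 (h'.c1 u hu1) hLu, ?_, hb1, hb2⟩
    rcases hor with h5 | h5
    · exact Or.inl h5
    · right; rw [h5]
  by_cases huA : u ∈ A
  · refine fin A c m μ0 _ _ _ h huA (fun v hv _ => hc3 v hv) ?_ ?_ ?_ <;> omega
  · by_cases hneed : m = 1 ∧ μ0 + 1 ≤ μ ∧ ((lo T dL).erase u).card = 0
    · obtain ⟨A1, c1, m1, μ1, k1, k2, k3, h', hc31, hm1, hμ1⟩ :=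
        h.enlarge hsum hd hc3 (by omega) hneed.2.1 (by omega)
      by_cases hu1 : u ∈ A1
      · refine fin A1 c1 m1 μ1 _ _ _ h' hu1 (fun v hv _ => hc31 v hv) ?_ ?_ ?_ <;> omega
      · have hk1 : 1 ≤ μ1 + e := by omega
        obtain ⟨A2, c2, m2, l1, l2, l3, h'', hu2, hc32, hm2, hm2'⟩ :=
          h'.mark hsum hd hc31 (Or.inl (by omega)) hk1 hu hu1
        refine fin A2 c2 m2 μ1 _ _ _ h'' hu2 hc32 ?_ ?_ ?_ <;> omega
    · obtain ⟨A2, c2, m2, l1, l2, l3, h'', hu2, hc32, hm2, hm2'⟩ :=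
        h.mark hsum hd hc3 hm (by omega) hu huA
      have hle := h.le
      refine fin A2 c2 m2 μ0 _ _ _ h'' hu2 hc32 ?_ ?_ ?_ <;> omega

end

/-- the invariant of the growth process -/
def Inv (S : Finset V) (F : Finset (Sym2 V)) : Prop :=
  ∃ e, (circ EvenSet F).card = mu EvenSet F + e ∧ 1 ≤ e ∧
    ∑ v ∈ S, dg F v + 2 = 2 * (S.card + mu EvenSet F) ∧ (∀ v ∈ S, 1 ≤ dg F v) ∧
    ∃ A c m μ0 f1 f2 f3, GS S (dg F) (mu EvenSet F) e A c m μ0 f1 f2 f3 ∧
      (∀ v ∈ A, 3 ≤ c v) ∧ (1 ≤ m ∨ μ0 = mu EvenSet F) ∧ μ0 ≤ 2 * e ∧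
      (m = 0 → μ0 + 1 ≤ 2 * e)

theorem sum_glue {S T : Finset V} {u : V} (hST : S ∩ T = {u}) {d1 d2 d : V → ℕ}
    (hdu : d u = d1 u + d2 u) (hdS : ∀ v ∈ S, v ≠ u → d v = d1 v)
    (hdT : ∀ v ∈ T, v ≠ u → d v = d2 v) :
    ∑ v ∈ S ∪ T, d v = ∑ v ∈ S, d1 v + ∑ v ∈ T, d2 v ∧ (S ∪ T).card + 1 = S.card + T.card := by
  have huST : u ∈ S ∩ T := by rw [hST]; simp
  have huS := (mem_inter.mp huST).1
  have huT := (mem_inter.mp huST).2
  constructor
  · have h1 : S ∪ T = insert u (S.erase u ∪ T.erase u) := by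
      ext v
      simp only [mem_union, mem_insert, mem_erase]
      by_cases hvu : v = u
      · subst hvu; simp [huS]
      · simp [hvu]
    have h2 : u ∉ S.erase u ∪ T.erase u := by simp
    have h3 : Disjoint (S.erase u) (T.erase u) := by
      rw [disjoint_left]
      intro v h4 h5
      have : v ∈ S ∩ T := mem_inter.mpr ⟨mem_of_mem_erase h4, mem_of_mem_erase h5⟩
      rw [hST, mem_singleton] at this
      exact (mem_erase.mp h4).1 this
    rw [h1, sum_insert h2, sum_union h3, ← add_sum_erase S d1 huS, ← add_sum_erase T d2 huT]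
    have h4 : ∑ v ∈ S.erase u, d v = ∑ v ∈ S.erase u, d1 v :=
      sum_congr rfl (fun v hv => hdS v (mem_erase.mp hv).2 (mem_erase.mp hv).1)
    have h5 : ∑ v ∈ T.erase u, d v = ∑ v ∈ T.erase u, d2 v :=
      sum_congr rfl (fun v hv => hdT v (mem_erase.mp hv).2 (mem_erase.mp hv).1)
    omega
  · have := card_union_add_card_inter S T
    rw [hST, card_singleton] at this
    exact this

theorem inv_root {K : Finset (Sym2 V)} (hK : Con EvenSet K) (h2 : 2 ≤ mu EvenSet K) :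
    Inv (tch K) K := by
  obtain ⟨v0, hv0⟩ := hK.ok.ne
  obtain ⟨eL, he, hnum⟩ := hK.numbers h2 v0
  have hcard : ((lo (tch K) (dg K)).erase v0).card ≤ (lo (tch K) (dg K)).card :=
    card_le_card (erase_subset _ _)
  refine ⟨eL, he, by omega, hK.sum_eq, ?_, hi (tch K) (dg K), dg K, (lo (tch K) (dg K)).card,
    mu EvenSet K, 0, 0, 0, ?_, ?_, Or.inr rfl, by omega, by omega⟩
  · intro v hv; have := hK.two_le_of_mem hv; omega
  · exact GS.root ⟨K, hK.ok, fun _ _ => rfl, he⟩ (fun v hv => hK.two_le_of_mem hv) hK.sum_eq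
  · intro v hv
    exact (mem_filter.mp hv).2

theorem inv_step {S1 T : Finset V} {F1 K F : Finset (Sym2 V)} {u : V} (h1 : Ok S1 F1)
    (h2 : Ok T K) (h3 : F1 ⊆ F) (h4 : K ⊆ F) (h5 : Disjoint F1 K)
    (h7 : Sep EvenSet F K) (h8 : S1 ∩ T = {u})
    (h9 : (∃ w, u ≠ w ∧ T = {u, w} ∧ K = {s(u, w)}) ∨ (Con EvenSet K ∧ T = tch K))
    (hQ : Inv S1 F1) : Inv (S1 ∪ T) (F1 ∪ K) := by
  obtain ⟨e, he, he1, hsum, hd1, A, c, m, μ0, f1, f2, f3, hGS, hc3, hm, hb, hb0⟩ := hQ
  have hmu := mu_glue h3 h4 h5 h7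
  have hcirc := card_circ_glue h1 h2 h8
  have huST : u ∈ S1 ∩ T := by rw [h8]; simp
  have huS := (mem_inter.mp huST).1
  have huT := (mem_inter.mp huST).2
  have notS : ∀ v ∈ T, v ≠ u → v ∉ S1 := by
    intro v hv hvu hvS
    have : v ∈ S1 ∩ T := mem_inter.mpr ⟨hvS, hv⟩
    rw [h8, mem_singleton] at this
    exact hvu this
  have notT : ∀ v ∈ S1, v ≠ u → v ∉ T := fun v hv hvu hvT => notS v hvT hvu hv
  have hdgu : dg (F1 ∪ K) u = dg F1 u + dg K u := dg_union h5 u
  have hdgS : ∀ v ∈ S1, v ≠ u → dg (F1 ∪ K) v = dg F1 v := by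
    intro v hv hvu
    rw [dg_union h5, h2.dg_zero (notT v hv hvu)]; omega
  have hdgT : ∀ v ∈ T, v ≠ u → dg (F1 ∪ K) v = dg K v := by
    intro v hv hvu
    rw [dg_union h5, h1.dg_zero (notS v hv hvu)]; omega
  obtain ⟨hs1, hs2⟩ := sum_glue h8 hdgu hdgS hdgT
  have hdu1 := hd1 u huS
  rcases h9 with ⟨w, huw, rfl, rfl⟩ | ⟨hc, rfl⟩
  · -- an edge
    rw [mu_singleton, Nat.add_zero] at hmu
    rw [circ_singleton, Nat.add_zero] at hcirc
    have hku : dg ({s(u, w)} : Finset (Sym2 V)) u = 1 := by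
      unfold dg; rw [filter_singleton]; simp
    have hkw : dg ({s(u, w)} : Finset (Sym2 V)) w = 1 := by
      unfold dg; rw [filter_singleton]; simp
    have hwS := notS w (by simp) huw.symm
    have hset : S1 ∪ {u, w} = S1 ∪ {w} := by
      ext v
      simp only [mem_union, mem_insert, mem_singleton]
      constructor
      · rintro (h | rfl | h)
        · exact Or.inl h
        · exact Or.inl huS
        · exact Or.inr h
      · tauto
    rw [hku] at hdgu
    have hdgw : dg (F1 ∪ {s(u, w)}) w = 1 := by rw [hdgT w (by simp) huw.symm, hkw]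
    obtain ⟨g1, g2, g3, hG⟩ := hGS.edge huS hwS hdgu hdgS hdgw hdu1
    rw [← hset] at hG
    have hsu : ∑ v ∈ ({u, w} : Finset V), dg ({s(u, w)} : Finset (Sym2 V)) v = 2 := by
      rw [sum_pair huw, hku, hkw]
    have hcu : ({u, w} : Finset V).card = 2 := card_pair huw
    refine ⟨e, by omega, he1, by rw [hmu]; omega, ?_, A, c, m, μ0, g1, g2, g3,
      by rw [hmu]; exact hG, hc3, by rw [hmu]; exact hm, hb, hb0⟩
    intro v hv
    rw [mem_union] at hv
    by_cases hvu : v = u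
    · rw [hvu, hdgu]; omega
    · rcases hv with hv | hv
      · rw [hdgS v hv hvu]; exact hd1 v hv
      · simp only [mem_insert, mem_singleton] at hv
        rcases hv with hv | rfl
        · exact absurd hv hvu
        · rw [hdgw]
  · -- a block
    have hTs := hc.sum_eq
    have hpos : ∀ v ∈ S1 ∪ tch K, 1 ≤ dg (F1 ∪ K) v := by
      intro v hv
      rw [mem_union] at hv
      by_cases hvu : v = u
      · rw [hvu, hdgu]; omega
      · rcases hv with hv | hv
        · rw [hdgS v hv hvu]; exact hd1 v hv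
        · rw [hdgT v hv hvu]; have := hc.two_le_of_mem hv; omega
    rcases Nat.lt_or_ge (mu EvenSet K) 2 with hlt | hge
    · -- a cycle
      have hmK : mu EvenSet K = 1 := by have := hc.mu_pos fam_evenSet; omega
      have hCK := hc.circuit_of_mu hmK
      have hcK : (circ EvenSet K).card = 1 := by
        have a1 := card_circ_lt K
        rw [card_evs fam_evenSet, hmK] at a1
        have a2 := mu_le_circ fam_evenSet K.card K le_rfl
        omega
      have hd2 : ∀ v ∈ tch K, dg K v = 2 := by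
        intro v hv
        rcases (circuit_props hCK).1 v with h | h
        · rw [mem_tch] at hv; omega
        · exact h
      have hBc : 2 ≤ ((tch K).erase u).card := by
        rw [card_erase_of_mem huT, card_tch_circuit hCK]
        have := three_le_of_circuit hCK
        omega
      have hBd : Disjoint S1 ((tch K).erase u) := by
        rw [disjoint_left]
        intro v hv hv'
        rw [mem_erase] at hv'
        exact notS v hv'.2 hv'.1 hv
      have hset : S1 ∪ tch K = S1 ∪ (tch K).erase u := by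
        ext v
        simp only [mem_union, mem_erase]
        constructor
        · rintro (h | h)
          · exact Or.inl h
          · by_cases hvu : v = u
            · rw [hvu]; exact Or.inl huS
            · exact Or.inr ⟨hvu, h⟩
        · tauto
      rw [hd2 u huT] at hdgu
      have hdB : ∀ v ∈ (tch K).erase u, dg (F1 ∪ K) v = 2 := by
        intro v hv
        rw [mem_erase] at hv
        rw [hdgT v hv.2 hv.1, hd2 v hv.2]
      rw [hmK] at hmu
      rw [hcK] at hcirc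
      rw [hmK] at hTs
      rcases Nat.eq_zero_or_pos m with hm0 | hmpos
      · subst hm0
        have hμ : μ0 = mu EvenSet F1 := by omega
        rw [hμ] at hGS hb hb0
        obtain ⟨A', c', m', μ0', g1, g2, g3, hG, hc3', hm', hμ'⟩ :=
          hGS.cycle_fix hsum hc3 (by omega) huS hBd hBc hdgu hdgS hdB hdu1
        rw [← hset] at hG
        refine ⟨e, by omega, he1, by rw [hmu]; omega, hpos, A', c', m', μ0', g1, g2, g3,
          by rw [hmu]; exact hG, hc3', Or.inl hm', ?_, by omega⟩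
        have := hb0 rfl
        omega
      · have hG := hGS.cycle huS hBd hBc hdgu hdgS hdB hdu1
        rw [← hset] at hG
        exact ⟨e, by omega, he1, by rw [hmu]; omega, hpos, A, c, m, μ0, _, _, _,
          by rw [hmu]; exact hG, hc3, Or.inl hmpos, hb, hb0⟩
    · -- a big block
      obtain ⟨eL, heL, hnum⟩ := hc.numbers hge u
      obtain ⟨A', c', m', μ0', g1, g2, g3, hG, hc3', hm', hb', hb0'⟩ :=
        hGS.bigstep hsum hd1 hc3 hm he1 hb hb0 huS h8 ⟨K, hc.ok, fun _ _ => rfl, heL⟩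
          (fun v hv => hc.two_le_of_mem hv) hTs hnum hdgu hdgS hdgT
      refine ⟨e + eL, by omega, by omega, by rw [hmu]; omega, hpos, A', c', m', μ0', g1, g2, g3,
        by rw [hmu]; exact hG, hc3', by rw [hmu]; exact hm', hb', hb0'⟩

/-- the base of a connected graph -/
theorem exists_state {S : Finset V} {F : Finset (Sym2 V)} (hF : Ok S F)
    (h : mu EvenSet F < (circ EvenSet F).card) : Inv S F := by
  obtain ⟨K, hKF, hKc, hKs, hK2⟩ := exists_big hF h
  refine grow hF Inv ?_ (F \ K).card (tch K) K le_rfl hKc.ok ?_ hKs (inv_root hKc hK2)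
  · intro S1 F1 T K' u h1 h2 h3 h4 h5 _ h7 h8 h9 hQ
    exact inv_step h1 h2 h3 h4 h5 h7 h8 h9 hQ
  · intro v hv
    obtain ⟨e, he, hve⟩ := dg_pos.mp (mem_tch.mp hv)
    exact hF.sup e (hKF he) v hve

end Pool.Agent.Helper53
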