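import Pool.Agent.Helper53.State

/-!
# Making a vertex a member of the base; enlarging the base
-/

open Finset Function
open scoped symmDiff

set_option linter.unusedSectionVars false
set_option linter.unusedSimpArgs false

namespace Pool.Agent.Helper53

variable {V : Type*} [Fintype V] [DecidableEq V]

/-- indicator of odd `n ≥ 3` -/
def j3 (n : ℕ) : ℕ := if 3 ≤ n ∧ n % 2 = 1 then 1 else 0

section

variable {S : Finset V} {d : V → ℕ} {μ e : ℕ} {A : Finset V} {c : V → ℕ} {m μ0 f1 f2 f3 : ℕ}

theorem sum_io_eq {O : Finset V} (hd : ∀ v ∈ O, 1 ≤ d v) :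
    ∑ v ∈ O, io (d v) = ∑ v ∈ O, i1 (d v) + ∑ v ∈ O, j3 (d v) := by
  rw [← sum_add_distrib]
  refine sum_congr rfl ?_
  intro v hv
  have := hd v hv
  unfold io i1 j3
  split_ifs <;> omega

theorem sum_d_eq {O : Finset V} (hd : ∀ v ∈ O, 1 ≤ d v) :
    ∑ v ∈ O, d v + ∑ v ∈ O, i1 (d v) = 2 * O.card + ∑ v ∈ O, (d v - 2) := by
  have : 2 * O.card = ∑ v ∈ O, 2 := by rw [sum_const]; simp [mul_comm]
  rw [this, ← sum_add_distrib, ← sum_add_distrib]
  refine sum_congr rfl ?_
  intro v hv
  have := hd v hv
  unfold i1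
  split_ifs <;> omega

theorem sum_io_le (O : Finset V) : ∑ v ∈ O, io (d v) ≤ O.card := by
  have : O.card = ∑ v ∈ O, 1 := by rw [sum_const]; simp
  rw [this]
  refine sum_le_sum ?_
  intro v _
  unfold io; omega

theorem sum_i1_le (O : Finset V) : ∑ v ∈ O, i1 (d v) ≤ O.card := by
  have : O.card = ∑ v ∈ O, 1 := by rw [sum_const]; simp
  rw [this]
  refine sum_le_sum ?_
  intro v _
  unfold i1; split_ifs <;> omega

theorem sum_i1_lt {O : Finset V} {w : V} (hw : w ∈ O) (hdw : 2 ≤ d w) :
    ∑ v ∈ O, i1 (d v) + 1 ≤ O.card := by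
  have h1 := sum_erase_one hw d i1
  have h2 := sum_i1_le (d := d) (O.erase w)
  have h3 := card_erase_add_one hw
  have h4 : i1 (d w) = 0 := by unfold i1; split_ifs <;> omega
  omega

theorem sum_io_lt {O : Finset V} {w : V} (hw : w ∈ O) (hdw : d w % 2 = 0) :
    ∑ v ∈ O, io (d v) + 1 ≤ O.card := by
  have h1 := sum_erase_one hw d io
  have h2 := sum_io_le (d := d) (O.erase w)
  have h3 := card_erase_add_one hw
  have h4 : io (d w) = 0 := hdw
  omega

theorem le_sum_of_mem {O : Finset V} {w : V} (hw : w ∈ O) (f : V → ℕ) : f w ≤ ∑ v ∈ O, f v :=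
  single_le_sum (f := f) (fun _ _ => Nat.zero_le _) hw

/-- a vertex of the state can be moved into the base -/
theorem GS.mark (h : GS S d μ e A c m μ0 f1 f2 f3) (hsum : ∑ v ∈ S, d v + 2 = 2 * (S.card + μ))
    (hd : ∀ v ∈ S, 1 ≤ d v) (hc3 : ∀ v ∈ A, 3 ≤ c v) (hm : 1 ≤ m ∨ μ0 = μ) (hk : 1 ≤ μ0 + e)
    {u : V} (hu : u ∈ S) (huA : u ∉ A) :
    ∃ A' c' m' g1 g2 g3, GS S d μ e A' c' m' μ0 g1 g2 g3 ∧ u ∈ A' ∧
      (∀ v ∈ A', v ≠ u → 3 ≤ c' v) ∧ m ≤ m' + 1 ∧ m' ≤ m := by
  have huO : u ∈ S \ A := mem_sdiff.mpr ⟨hu, huA⟩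
  have hdO : ∀ v ∈ S \ A, 1 ≤ d v := fun v hv => hd v (mem_sdiff.mp hv).1
  have hM1 := h.M1
  have hM2 := h.M2
  have hM3 := h.M3
  have hle := h.le
  have hsr := h.sum hsum
  have hpar := h.par hsum
  have hq := sum_io_eq hdO
  have ht := sum_d_eq hdO
  have hioN := sum_io_le (d := d) (S \ A)
  have hN : 1 ≤ (S \ A).card := card_pos.mpr ⟨u, huO⟩
  have hdu := hd u hu
  -- final facts about c
  have fin1 : ∀ a ∈ A, ∀ v ∈ insert u A, v ≠ u →
      3 ≤ update (update c u 1) a (c a + 1) v := by
    intro a ha v hv hvu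
    have hvA : v ∈ A := by rw [mem_insert] at hv; tauto
    by_cases hva : v = a
    · rw [hva]; simp; have := hc3 a ha; omega
    · rw [update_of_ne hva, update_of_ne hvu]; exact hc3 v hvA
  have fin2 : ∀ w, w ∉ A → w ≠ u → ∀ v ∈ insert u (insert w A), v ≠ u →
      3 ≤ update (update (update c w 2) u 1) w (update c w 2 w + 1) v := by
    intro w hwA hwu v hv hvu
    by_cases hva : v = w
    · rw [hva]; simp
    · have hvA : v ∈ A := by simp only [mem_insert] at hv; tauto
      rw [update_of_ne hva, update_of_ne hvu, update_of_ne hva]; exact hc3 v hvA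
  have fin3 : ∀ v ∈ insert u A, v ≠ u → 3 ≤ update c u 2 v := by
    intro v hv hvu
    have hvA : v ∈ A := by rw [mem_insert] at hv; tauto
    rw [update_of_ne hvu]; exact hc3 v hvA
  rcases Nat.lt_or_ge (d u) 2 with hx | hx
  · -- d u = 1
    have hdu1 : d u = 1 := by omega
    have hi1u : i1 (d u) = 1 := by rw [hdu1]; rfl
    have hiou : io (d u) = 1 := by rw [hdu1]; rfl
    have ho1 : 1 ≤ ∑ v ∈ S \ A, io (d v) := by
      have := le_sum_of_mem huO (fun v => io (d v))
      omega
    have hi11 : 1 ≤ ∑ v ∈ S \ A, i1 (d v) := by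
      have := le_sum_of_mem huO (fun v => i1 (d v))
      omega
    by_cases hσ : ∃ a ∈ A, (d a - c a) % 2 = 1
    · obtain ⟨a, ha, hodd⟩ := hσ
      have := h.op1 (g1 := f1) (g2 := f2) (g3 := f3) ha (by omega) hu huA hdu (by omega)
        (by omega) (by omega)
      exact ⟨_, _, m, _, _, _, this, mem_insert_self _ _, fin1 a ha, by omega, le_rfl⟩
    · have hσ0 : ∑ v ∈ A, (d v - c v) % 2 = 0 := by
        refine sum_eq_zero ?_
        intro x hx
        by_contra hne
        exact hσ ⟨x, hx, by omega⟩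
      -- step through a slot vertex
      have through : ∀ w ∈ S \ A, 3 ≤ d w → d w % 2 = 1 →
          ∀ m1 k1 k2, GS S d μ e A c (m1 + 1) μ0 k1 k2 f3 → m ≤ m1 + 1 → m1 ≤ m → 
          ∃ A' c' m' g1 g2 g3, GS S d μ e A' c' m' μ0 g1 g2 g3 ∧ u ∈ A' ∧
            (∀ v ∈ A', v ≠ u → 3 ≤ c' v) ∧ m ≤ m' + 1 ∧ m' ≤ m := by
        intro w hw hdw hwo m1 k1 k2 h' hm1 hm1'
        have hwS := (mem_sdiff.mp hw).1
        have hwA := (mem_sdiff.mp hw).2
        have hwu : w ≠ u := by rintro rfl; omega
        have hio : io (d w) = 1 := hwo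
        have h2 := h'.op2 (g3 := f3 - 2) hwS hwA (by omega) (by omega)
        have h3 := h2.op1 (a := w) (u := u) (g1 := k1) (g2 := k2) (g3 := f3 - 2)
          (mem_insert_self _ _) (by simp; omega) hu
          (by rw [mem_insert, not_or]; exact ⟨hwu.symm, huA⟩) hdu (by omega)
          (by simp; omega) (by simp; omega)
        exact ⟨_, _, m1, _, _, _, h3, mem_insert_self _ _, fin2 w hwA hwu, by omega, by omega⟩
      by_cases hs : ∃ a ∈ A, c a + 1 ≤ d a
      · obtain ⟨a, ha, hca⟩ := hs
        have hr : (d a - c a) % 2 = 0 := by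
          by_contra hne
          exact hσ ⟨a, ha, by omega⟩
        by_cases hf2 : 2 ≤ f2
        · have := h.op1 (g1 := f1) (g2 := f2 - 2) (g3 := f3 - 2) ha hca hu huA hdu (by omega)
            (by omega) (by omega)
          exact ⟨_, _, m, _, _, _, this, mem_insert_self _ _, fin1 a ha, by omega, le_rfl⟩
        · have hq1 : 1 ≤ ∑ v ∈ S \ A, j3 (d v) := by omega
          obtain ⟨w, hw, hw1⟩ := exists_of_sum_pos hq1
          have hw2 : 3 ≤ d w ∧ d w % 2 = 1 := by
            unfold j3 at hw1; split_ifs at hw1 with h5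
            · exact h5
            · omega
          obtain ⟨m1, rfl⟩ : ∃ m1, m = m1 + 1 := ⟨m - 1, by omega⟩
          exact through w hw hw2.1 hw2.2 m1 f1 f2 h (by omega) (by omega)
      · have hs0 : ∑ v ∈ A, (d v - c v) = 0 := by
          refine sum_eq_zero ?_
          intro x hx
          by_contra hne
          exact hs ⟨x, hx, by omega⟩
        have ht1 : 1 ≤ ∑ v ∈ S \ A, (d v - 2) := by omega
        by_cases hodd : ∃ w ∈ S \ A, 3 ≤ d w ∧ d w % 2 = 1
        · obtain ⟨w, hw, hdw, hwo⟩ := hodd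
          by_cases hm1 : 1 ≤ m
          · obtain ⟨m1, rfl⟩ : ∃ m1, m = m1 + 1 := ⟨m - 1, by omega⟩
            exact through w hw hdw hwo m1 f1 f2 h (by omega) (by omega)
          · have hm0 : m = 0 := by omega
            subst hm0
            have h6 := sum_i1_lt hw (by omega : 2 ≤ d w)
            have h4 := h.op4 (g1 := f1 - 1) (g2 := f2 - 2) hk (by omega) (by omega)
            exact through w hw hdw hwo 0 _ _ h4 (by omega) (by omega)
        · obtain ⟨w, hw, hw1⟩ := exists_of_sum_pos ht1
          have hdw : 3 ≤ d w := by omega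
          have hwe : d w % 2 = 0 := by
            by_contra hne
            exact hodd ⟨w, hw, hdw, by omega⟩
          have hq0 : ∑ v ∈ S \ A, j3 (d v) = 0 := by
            refine sum_eq_zero ?_
            intro x hx
            unfold j3
            split_ifs with h5
            · exact absurd ⟨x, hx, h5⟩ hodd
            · rfl
          have hwS := (mem_sdiff.mp hw).1
          have hwA := (mem_sdiff.mp hw).2
          have hwu : w ≠ u := by rintro rfl; omega
          have hio : io (d w) = 0 := hwe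
          have key : ∀ m1 k1 k2, GS S d μ e A c (m1 + 1) μ0 k1 k2 f3 → m ≤ m1 + 1 → m1 ≤ m →
              2 ≤ k2 →
              ∃ A' c' m' g1 g2 g3, GS S d μ e A' c' m' μ0 g1 g2 g3 ∧ u ∈ A' ∧
                (∀ v ∈ A', v ≠ u → 3 ≤ c' v) ∧ m ≤ m' + 1 ∧ m' ≤ m := by
            intro m1 k1 k2 h' hm1 hm1' hk2
            have h2 := h'.op2 (g3 := f3) hwS hwA (by omega) (by omega)
            have h3 := h2.op1 (a := w) (u := u) (g1 := k1) (g2 := k2 - 2) (g3 := f3 - 2)
              (mem_insert_self _ _) (by simp; omega) hu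
              (by rw [mem_insert, not_or]; exact ⟨hwu.symm, huA⟩) hdu (by omega)
              (by simp; omega) (by simp; omega)
            exact ⟨_, _, m1, _, _, _, h3, mem_insert_self _ _, fin2 w hwA hwu, by omega, by omega⟩
          by_cases hm1 : 1 ≤ m
          · obtain ⟨m1, rfl⟩ : ∃ m1, m = m1 + 1 := ⟨m - 1, by omega⟩
            exact key m1 f1 f2 h (by omega) (by omega) (by omega)
          · have hm0 : m = 0 := by omega
            subst hm0
            have h6 := sum_i1_lt hw (by omega : 2 ≤ d w)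
            have h4 := h.op4 (g1 := f1 - 1) (g2 := f2 - 2) hk (by omega) (by omega)
            exact key 0 _ _ h4 (by omega) (by omega) (by omega)
  · -- d u ≥ 2
    have hi1u : i1 (d u) = 0 := by unfold i1; split_ifs <;> omega
    have h6 := sum_i1_lt huO hx
    have useslot : ∀ m1 k1 k2, GS S d μ e A c (m1 + 1) μ0 k1 k2 f3 → m ≤ m1 + 1 → m1 ≤ m →
        2 * io (d u) ≤ f3 → 
        ∃ A' c' m' g1 g2 g3, GS S d μ e A' c' m' μ0 g1 g2 g3 ∧ u ∈ A' ∧
          (∀ v ∈ A', v ≠ u → 3 ≤ c' v) ∧ m ≤ m' + 1 ∧ m' ≤ m := by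
      intro m1 k1 k2 h' hm1 hm1' hf3
      have h2 := h'.op2 (g3 := f3 - 2 * io (d u)) hu huA hx (by omega)
      exact ⟨_, _, m1, _, _, _, h2, mem_insert_self _ _, fin3, by omega, by omega⟩
    by_cases hcase : 2 * io (d u) ≤ f3
    · by_cases hm1 : 1 ≤ m
      · obtain ⟨m1, rfl⟩ : ∃ m1, m = m1 + 1 := ⟨m - 1, by omega⟩
        exact useslot m1 f1 f2 h (by omega) (by omega) hcase
      · have hm0 : m = 0 := by omega
        subst hm0
        have hf22 : 2 ≤ f2 := by
          rcases Nat.mod_two_eq_zero_or_one (d u) with h7 | h7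
          · have := sum_io_lt huO h7
            omega
          · have : io (d u) = 1 := h7
            omega
        have h4 := h.op4 (g1 := f1 - 1) (g2 := f2 - 2) hk (by omega) (by omega)
        exact useslot 0 _ _ h4 (by omega) (by omega) hcase
    · have hio1 : io (d u) = 1 := by unfold io at hcase ⊢; omega
      have hj : 1 ≤ ∑ v ∈ S \ A, j3 (d v) := by
        have h8 := le_sum_of_mem huO (fun v => j3 (d v))
        have : j3 (d u) = 1 := by
          unfold j3; unfold io at hio1
          rw [if_pos (by omega)]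
        omega
      have hσ1 : 1 ≤ ∑ v ∈ A, (d v - c v) % 2 := by omega
      obtain ⟨a, ha, ha1⟩ := exists_of_sum_pos hσ1
      have := h.op1 (g1 := f1 - 1) (g2 := f2) (g3 := f3) ha (by omega) hu huA hdu (by omega)
        (by omega) (by omega)
      exact ⟨_, _, m, _, _, _, this, mem_insert_self _ _, fin1 a ha, by omega, le_rfl⟩

/-- the base can be enlarged when a cycle is left outside -/
theorem GS.enlarge (h : GS S d μ e A c m μ0 f1 f2 f3)
    (hsum : ∑ v ∈ S, d v + 2 = 2 * (S.card + μ))
    (hd : ∀ v ∈ S, 1 ≤ d v) (hc3 : ∀ v ∈ A, 3 ≤ c v) (hm : 1 ≤ m) (hδ : μ0 + 1 ≤ μ)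
    (hk : 1 ≤ μ0 + e) :
    ∃ A' c' m' μ0' g1 g2 g3, GS S d μ e A' c' m' μ0' g1 g2 g3 ∧
      (∀ v ∈ A', 3 ≤ c' v) ∧ m + 1 ≤ m' ∧ μ0' ≤ μ0 + 1 := by
  have hdO : ∀ v ∈ S \ A, 1 ≤ d v := fun v hv => hd v (mem_sdiff.mp hv).1
  have hM1 := h.M1
  have hM2 := h.M2
  have hM3 := h.M3
  have hle := h.le
  have hsr := h.sum hsum
  have hpar := h.par hsum
  have hq := sum_io_eq hdO
  have ht := sum_d_eq hdO
  have hioN := sum_io_le (d := d) (S \ A)
  by_cases hE1 : ∃ a ∈ A, c a + 2 ≤ d a
  · obtain ⟨a, ha, hca⟩ := hE1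
    have := h.op3 ha hca hδ
    refine ⟨_, _, m + 2, _, _, _, _, this, ?_, by omega, le_rfl⟩
    intro v hv
    by_cases hva : v = a
    · rw [hva]; simp; have := hc3 a ha; omega
    · rw [update_of_ne hva]; exact hc3 v hv
  · have hs : ∑ v ∈ A, (d v - c v) = ∑ v ∈ A, (d v - c v) % 2 := by
      refine sum_congr rfl ?_
      intro x hx
      have : ¬ (c x + 2 ≤ d x) := fun hh => hE1 ⟨x, hx, hh⟩
      omega
    by_cases hf1 : f1 = 0
    · have hex : ∃ w ∈ S \ A, 4 ≤ d w := by
        by_contra hcon
        push Not at hcon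
        have htq : ∑ v ∈ S \ A, (d v - 2) = ∑ v ∈ S \ A, j3 (d v) := by
          refine sum_congr rfl ?_
          intro x hx
          have h5 := hcon x hx
          have h6 := hdO x hx
          unfold j3; split_ifs <;> omega
        omega
      obtain ⟨w, hw, hdw⟩ := hex
      have hwS := (mem_sdiff.mp hw).1
      have hwA := (mem_sdiff.mp hw).2
      have hio3 : 2 * io (d w) ≤ f3 := by
        rcases Nat.mod_two_eq_zero_or_one (d w) with h7 | h7
        · have : io (d w) = 0 := h7
          omega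
        · have h8 := le_sum_of_mem hw (fun v => j3 (d v))
          have h9 : j3 (d w) = 1 := by unfold j3; rw [if_pos (by omega)]
          have : io (d w) = 1 := h7
          omega
      obtain ⟨m1, rfl⟩ : ∃ m1, m = m1 + 1 := ⟨m - 1, by omega⟩
      have h2 := h.op2 (g3 := f3 - 2 * io (d w)) hwS hwA (by omega) (by omega)
      have h3 := h2.op3 (a := w) (mem_insert_self _ _) (by simp; omega) hδ
      refine ⟨_, _, m1 + 2, _, _, _, _, h3, ?_, by omega, le_rfl⟩
      intro v hv
      by_cases hvw : v = w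
      · rw [hvw]; simp
      · have hvA : v ∈ A := by simp only [mem_insert] at hv; tauto
        rw [update_of_ne hvw, update_of_ne hvw]; exact hc3 v hvA
    · by_cases hf2 : 2 ≤ f2
      · have h4 := h.op4 (g1 := f1 - 1) (g2 := f2 - 2) hk (by omega) (by omega)
        exact ⟨_, _, m + 1, _, _, _, _, h4, hc3, le_rfl, by omega⟩
      · have hq1 : 1 ≤ ∑ v ∈ S \ A, j3 (d v) := by omega
        by_cases hσ : ∃ a ∈ A, (d a - c a) % 2 = 1
        · obtain ⟨a, ha, hodd⟩ := hσ
          obtain ⟨w, hw, hw1⟩ := exists_of_sum_pos hq1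
          have hw2 : 3 ≤ d w ∧ d w % 2 = 1 := by
            unfold j3 at hw1; split_ifs at hw1 with h5
            · exact h5
            · omega
          have hwS := (mem_sdiff.mp hw).1
          have hwA := (mem_sdiff.mp hw).2
          have haw : a ≠ w := by rintro rfl; exact hwA ha
          have hio : io (d w) = 1 := hw2.2
          have hi1 : i1 (d w) = 0 := by unfold i1; split_ifs <;> omega
          have h2 := h.op1 (a := a) (u := w) (g1 := f1 - 1) (g2 := f2) (g3 := f3) ha (by omega)
            hwS hwA (by omega) (by omega) (by omega) (by omega)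
          have h3 := h2.op3 (a := w) (mem_insert_self _ _)
            (by rw [update_of_ne haw.symm]; simp; omega) hδ
          refine ⟨_, _, m + 2, _, _, _, _, h3, ?_, by omega, le_rfl⟩
          intro v hv
          by_cases hvw : v = w
          · rw [hvw, update_self, update_of_ne haw.symm, update_self]
          · have hvA : v ∈ A := by simp only [mem_insert] at hv; tauto
            rw [update_of_ne hvw]
            by_cases hva : v = a
            · rw [hva]; simp; have := hc3 a ha; omega
            · rw [update_of_ne hva, update_of_ne hvw]; exact hc3 v hvA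
        · have hσ0 : ∑ v ∈ A, (d v - c v) % 2 = 0 := by
            refine sum_eq_zero ?_
            intro x hx
            by_contra hne
            exact hσ ⟨x, hx, by omega⟩
          have hq2 : 2 ≤ ∑ v ∈ S \ A, j3 (d v) := by omega
          have hcf : 1 < ((S \ A).filter (fun v => 3 ≤ d v ∧ d v % 2 = 1)).card := by
            rw [card_filter]
            exact hq2
          obtain ⟨w, hw, w', hw', hww⟩ := one_lt_card.mp hcf
          rw [mem_filter] at hw hw'
          have hwS := (mem_sdiff.mp hw.1).1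
          have hwA := (mem_sdiff.mp hw.1).2
          have hwS' := (mem_sdiff.mp hw'.1).1
          have hwA' := (mem_sdiff.mp hw'.1).2
          have hio : io (d w) = 1 := hw.2.2
          have hio' : io (d w') = 1 := hw'.2.2
          have hi1' : i1 (d w') = 0 := by unfold i1; split_ifs <;> omega
          obtain ⟨m1, rfl⟩ : ∃ m1, m = m1 + 1 := ⟨m - 1, by omega⟩
          have h2 := h.op2 (g3 := f3 - 2) hwS hwA (by omega) (by omega)
          have h3 := h2.op1 (a := w) (u := w') (g1 := f1 - 1) (g2 := f2) (g3 := f3 - 2)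
            (mem_insert_self _ _) (by simp; omega) hwS'
            (by rw [mem_insert, not_or]; exact ⟨hww.symm, hwA'⟩) (by omega) (by omega)
            (by simp; omega) (by simp; omega)
          have h4 := h3.op3 (a := w') (mem_insert_self _ _)
            (by rw [update_of_ne hww.symm]; simp; omega) hδ
          refine ⟨_, _, m1 + 2, _, _, _, _, h4, ?_, by omega, le_rfl⟩
          intro v hv
          by_cases hvw' : v = w'
          · rw [hvw']; simp [hww.symm]
          · rw [update_of_ne hvw']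
            by_cases hvw : v = w
            · rw [hvw]; simp
            · have hvA : v ∈ A := by simp only [mem_insert] at hv; tauto
              rw [update_of_ne hvw, update_of_ne hvw', update_of_ne hvw]; exact hc3 v hvA

end

end Pool.Agent.Helper53
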