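import Pool.Agent.Helper53.Suff

/-!
# Master sufficiency theorem

A base core with prescribed large degrees `c` on a set `A` (all other degrees two) extends to all
degree functions satisfying three inequalities.
-/

open Finset Function
open scoped symmDiff

set_option linter.unusedSectionVars false
set_option linter.unusedSimpArgs false

namespace Pool.Agent.Helper53

variable {V : Type*} [Fintype V] [DecidableEq V]

theorem sum_update_not_mem {A : Finset V} {v : V} (hv : v ∉ A) (d : V → ℕ) (t : ℕ)
    (f : V → ℕ → ℕ) : ∑ x ∈ A, f x (update d v t x) = ∑ x ∈ A, f x (d x) := by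
  refine sum_congr rfl ?_
  intro x hx
  rw [update_of_ne]
  rintro rfl
  exact hv hx

theorem sum_update_mem {A : Finset V} {v : V} (hv : v ∈ A) (d : V → ℕ) (t : ℕ)
    (f : V → ℕ → ℕ) :
    ∑ x ∈ A, f x (update d v t x) + f v (d v) = ∑ x ∈ A, f x (d x) + f v t := by
  rw [← add_sum_erase A (fun x => f x (update d v t x)) hv,
    ← add_sum_erase A (fun x => f x (d x)) hv]
  have : ∑ x ∈ A.erase v, f x (update d v t x) = ∑ x ∈ A.erase v, f x (d x) := by
    refine sum_congr rfl ?_
    intro x hx
    rw [update_of_ne (mem_erase.mp hx).1]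
  rw [this]
  simp
  ring

theorem sum_erase_one {O : Finset V} {a : V} (ha : a ∈ O) (d : V → ℕ) (f : ℕ → ℕ) :
    ∑ x ∈ O.erase a, f (d x) + f (d a) = ∑ x ∈ O, f (d x) := by
  have h2 := add_sum_erase O (fun x => f (d x)) ha
  omega

theorem erase_union_left {A O : Finset V} {a : V} (ha : a ∉ A) :
    (A ∪ O).erase a = A ∪ O.erase a := by
  ext x
  simp only [mem_erase, mem_union]
  constructor
  · rintro ⟨h1, h2 | h2⟩
    · exact Or.inl h2
    · exact Or.inr ⟨h1, h2⟩
  · rintro (h | ⟨h1, h2⟩)
    · exact ⟨fun h' => ha (h' ▸ h), Or.inl h⟩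
    · exact ⟨h1, Or.inr h2⟩

theorem master (A : Finset V) (c : V → ℕ) (k0 m0 μ0 : ℕ) (hc : ∀ v ∈ A, 3 ≤ c v)
    (hcs : ∑ v ∈ A, c v + 2 = 2 * (A.card + μ0))
    (hbase : ∀ (O : Finset V) (d : V → ℕ), Disjoint A O → (∀ v ∈ A, d v = c v) →
      (∀ v ∈ O, d v = 2) → m0 ≤ O.card → Good (A ∪ O) d k0) :
    ∀ (n : ℕ) (O : Finset V) (d : V → ℕ) (μ : ℕ), O.card = n → Disjoint A O →
    (∀ v ∈ A, c v ≤ d v) → (∀ v ∈ O, 1 ≤ d v) →
    ∑ v ∈ A, d v + ∑ v ∈ O, d v + 2 = 2 * (A.card + n + μ) → μ0 ≤ μ → (1 ≤ m0 ∨ μ = μ0) →
    ∑ v ∈ O, i1 (d v) + 2 * μ + m0 ≤ n + 2 * μ0 →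
    ∑ v ∈ A, (d v - c v) % 2 + ∑ v ∈ O, io (d v) + 4 * μ + 2 * m0 ≤ 2 * n + 4 * μ0 →
    ∑ v ∈ A, (d v - c v) % 2 ≤ ∑ v ∈ O, io (d v) → Good (A ∪ O) d (k0 + (μ - μ0)) := by
  intro n
  induction n using Nat.strong_induction_on with
  | _ n ih =>
  intro O d μ hO hdis hcd h1 hsum hμ0 hm0 hM1 hM2 hM3
  have hDA : ∑ v ∈ A, d v = ∑ v ∈ A, c v + ∑ v ∈ A, (d v - c v) := by
    rw [← sum_add_distrib]
    refine sum_congr rfl ?_
    intro x hx
    have := hcd x hx
    omega
  have hTA : ∃ w, ∑ v ∈ A, (d v - c v) = ∑ v ∈ A, (d v - c v) % 2 + 2 * w := by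
    refine ⟨∑ x ∈ A, (d x - c x) / 2, ?_⟩
    rw [mul_sum, ← sum_add_distrib]
    refine sum_congr rfl ?_
    intro x _
    omega
  have hTO : ∃ w, ∑ v ∈ O, d v = ∑ v ∈ O, io (d v) + 2 * w := by
    refine ⟨∑ x ∈ O, d x / 2, ?_⟩
    rw [mul_sum, ← sum_add_distrib]
    refine sum_congr rfl ?_
    intro x _
    unfold io; omega
  obtain ⟨w1, hw1⟩ := hTA
  obtain ⟨w2, hw2⟩ := hTO
  have notA : ∀ x ∈ O, x ∉ A := fun x hx hxA => disjoint_left.mp hdis hxA hx
  rcases Nat.eq_zero_or_pos (∑ x ∈ O, i1 (d x)) with hs1 | hs1
  · -- no leaves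
    have h2 : ∀ v ∈ O, 2 ≤ d v := by
      intro v hv
      have := (sum_eq_zero_iff.mp hs1) v hv
      have h5 := h1 v hv
      unfold i1 at this
      split_ifs at this
      omega
    have hA1 : ∑ x ∈ O, d x + ∑ x ∈ O, io (d x) ≥ 2 * n + 2 * ∑ x ∈ O, i3 (d x) := by
      have : 2 * n = ∑ x ∈ O, 2 := by rw [sum_const, hO]; simp [mul_comm]
      rw [this, mul_sum, ← sum_add_distrib, ← sum_add_distrib]
      refine sum_le_sum ?_
      intro x hx
      have := h2 x hx
      unfold i3 io; split_ifs <;> omega
    have hB : ∑ x ∈ O, i2 (d x) + ∑ x ∈ O, i3 (d x) = n := by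
      have : n = ∑ x ∈ O, 1 := by rw [sum_const, hO]; simp
      rw [this, ← sum_add_distrib]
      refine sum_congr rfl ?_
      intro x hx
      have := h2 x hx
      unfold i3 i2; split_ifs <;> omega
    have c2 : (O.filter (fun v => d v = 2)).card = ∑ x ∈ O, i2 (d x) := by
      rw [card_filter_eq_sum d (fun m => m = 2)]; rfl
    have hn2 : ∑ x ∈ O, i2 (d x) ≤ n := by omega
    by_cases hcase : (∃ v ∈ A, c v + 2 ≤ d v) ∨ (∃ v ∈ O, 3 ≤ d v)
    · -- peel a triangle
      have hμ1 : μ0 + 1 ≤ μ := by
        rcases hcase with ⟨v, hv, hdv⟩ | ⟨v, hv, hdv⟩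
        · have h5 : 2 ≤ ∑ v ∈ A, (d v - c v) := by
            have := single_le_sum (f := fun x => d x - c x) (fun _ _ => Nat.zero_le _) hv
            omega
          have h6 : ∑ x ∈ O, d x ≥ 2 * n := by
            have : 2 * n = ∑ x ∈ O, 2 := by rw [sum_const, hO]; simp [mul_comm]
            rw [this]; exact sum_le_sum h2
          omega
        · have h6 : 1 ≤ ∑ x ∈ O, i3 (d x) := by
            have := single_le_sum (f := fun x => i3 (d x)) (fun _ _ => Nat.zero_le _) hv
            have f6 : i3 (d v) = 1 := by unfold i3; split_ifs <;> omega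
            omega
          have h7 : ∑ x ∈ O, d x ≥ 2 * n + ∑ x ∈ O, i3 (d x) := by
            have : 2 * n = ∑ x ∈ O, 2 := by rw [sum_const, hO]; simp [mul_comm]
            rw [this, ← sum_add_distrib]
            refine sum_le_sum ?_
            intro x hx
            have := h2 x hx
            unfold i3; split_ifs <;> omega
          omega
      have h22 : 1 < (O.filter (fun v => d v = 2)).card := by rw [c2]; omega
      obtain ⟨a, ha, b, hb, hab⟩ := one_lt_card.mp h22
      rw [mem_filter] at ha hb
      have haA := notA a ha.1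
      have hbA := notA b hb.1
      have hcard : ((O.erase a).erase b).card = n - 2 := by
        rw [card_erase_of_mem (mem_erase.mpr ⟨hab.symm, hb.1⟩), card_erase_of_mem ha.1]; omega
      have hset : ((A ∪ O).erase a).erase b = A ∪ (O.erase a).erase b := by
        rw [erase_union_left haA, erase_union_left hbA]
      have hdis' : Disjoint A ((O.erase a).erase b) :=
        hdis.mono_right ((erase_subset _ _).trans (erase_subset _ _))
      have g1 := sum_erase_one (O := O) ha.1 d i1
      have g1' := sum_erase_one (O := O.erase a) (mem_erase.mpr ⟨hab.symm, hb.1⟩) d i1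
      have g2 := sum_erase_one (O := O) ha.1 d io
      have g2' := sum_erase_one (O := O.erase a) (mem_erase.mpr ⟨hab.symm, hb.1⟩) d io
      have g3 := sum_erase_one (O := O) ha.1 d id
      have g3' := sum_erase_one (O := O.erase a) (mem_erase.mpr ⟨hab.symm, hb.1⟩) d id
      rw [ha.2] at g1 g2 g3
      rw [hb.2] at g1' g2' g3'
      simp only [id] at g3 g3'
      have f1 : i1 2 = 0 := rfl
      have f3 : io 2 = 0 := rfl
      have hn2' : 2 ≤ n := by
        have := card_le_card (filter_subset (fun v => d v = 2) O)
        omega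
      rcases hcase with ⟨v, hv, hdv⟩ | ⟨v, hv, hdv⟩
      · -- v in A
        have hvO : v ∉ O := fun h => notA v h hv
        have hvO' : v ∉ (O.erase a).erase b := fun h =>
          hvO (mem_of_mem_erase (mem_of_mem_erase h))
        have hva : v ≠ a := by rintro rfl; exact hvO ha.1
        have hvb : v ≠ b := by rintro rfl; exact hvO hb.1
        have e1 := sum_update_not_mem hvO' d (d v - 2) (fun _ => i1)
        have e2 := sum_update_not_mem hvO' d (d v - 2) (fun _ => io)
        have e3 := sum_update_not_mem hvO' d (d v - 2) (fun _ => id)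
        have e4 := sum_update_mem hv d (d v - 2) (fun x y => (y - c x) % 2)
        have e5 := sum_update_mem hv d (d v - 2) (fun _ => id)
        simp only [id] at e3 e5
        have f4 : (d v - 2 - c v) % 2 = (d v - c v) % 2 := by omega
        have h3v := hc v hv
        have := ih (n - 2) (by omega) ((O.erase a).erase b) (update d v (d v - 2)) (μ - 1) hcard
          hdis'
          (by
            intro x hx
            by_cases hxv : x = v
            · rw [hxv]; simp; omega
            · rw [update_of_ne hxv]; exact hcd x hx)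
          (by
            intro x hx
            by_cases hxv : x = v
            · rw [hxv]; simp; omega
            · rw [update_of_ne hxv]; exact h1 x (mem_of_mem_erase (mem_of_mem_erase hx)))
          (by omega) (by omega) (by omega) (by omega) (by omega) (by omega)
        have h7 := peel_tri (S := A ∪ O) (mem_union_right _ ha.1) (mem_union_right _ hb.1)
          (mem_union_left _ hv) hva hvb hab ha.2 hb.2 (by omega) (by rw [hset]; exact this)
        have e8 : k0 + (μ - 1 - μ0) + 1 = k0 + (μ - μ0) := by omega
        rwa [e8] at h7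
      · -- v in O
        have hvA := notA v hv
        have hva : v ≠ a := by rintro rfl; omega
        have hvb : v ≠ b := by rintro rfl; omega
        have hvO' : v ∈ (O.erase a).erase b := mem_erase.mpr ⟨hvb, mem_erase.mpr ⟨hva, hv⟩⟩
        have e1 := sum_update_mem hvO' d (d v - 2) (fun _ => i1)
        have e2 := sum_update_mem hvO' d (d v - 2) (fun _ => io)
        have e3 := sum_update_mem hvO' d (d v - 2) (fun _ => id)
        have e4 := sum_update_not_mem hvA d (d v - 2) (fun x y => (y - c x) % 2)
        have e5 := sum_update_not_mem hvA d (d v - 2) (fun _ => id)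
        simp only [id] at e3 e5
        have f4 : i1 (d v) = 0 := by unfold i1; split_ifs <;> omega
        have f5 : i1 (d v - 2) ≤ 1 := by unfold i1; split_ifs <;> omega
        have f6 : io (d v - 2) = io (d v) := by unfold io; omega
        have f7 : i1 (d v - 2) = 1 → 1 ≤ ∑ x ∈ O, io (d x) := by
          intro h
          have h9 : d v = 3 := by unfold i1 at h; split_ifs at h <;> omega
          have := single_le_sum (f := fun x => io (d x)) (fun _ _ => Nat.zero_le _) hv
          have f10 : io (d v) = 1 := by rw [h9]; rfl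
          omega
        have := ih (n - 2) (by omega) ((O.erase a).erase b) (update d v (d v - 2)) (μ - 1) hcard
          hdis'
          (by
            intro x hx
            have hxv : x ≠ v := by rintro rfl; exact hvA hx
            rw [update_of_ne hxv]; exact hcd x hx)
          (by
            intro x hx
            by_cases hxv : x = v
            · rw [hxv]; simp; omega
            · rw [update_of_ne hxv]; exact h1 x (mem_of_mem_erase (mem_of_mem_erase hx)))
          (by omega) (by omega) (by omega)
          (by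
            rcases Nat.eq_zero_or_pos (i1 (d v - 2)) with h | h
            · omega
            · have := f7 (by omega); omega)
          (by omega) (by omega)
        have h7 := peel_tri (S := A ∪ O) (mem_union_right _ ha.1) (mem_union_right _ hb.1)
          (mem_union_right _ hv) hva hvb hab ha.2 hb.2 (by omega) (by rw [hset]; exact this)
        have e8 : k0 + (μ - 1 - μ0) + 1 = k0 + (μ - μ0) := by omega
        rwa [e8] at h7
    · -- base
      rw [not_or] at hcase
      obtain ⟨hcA, hcO⟩ := hcase
      have hO2 : ∀ v ∈ O, d v = 2 := by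
        intro v hv
        have := h2 v hv
        by_contra hne
        exact hcO ⟨v, hv, by omega⟩
      have hTO0 : ∑ v ∈ O, io (d v) = 0 := by
        refine sum_eq_zero ?_
        intro x hx
        rw [hO2 x hx]; rfl
      have hTA0 : ∑ v ∈ A, (d v - c v) % 2 = 0 := by omega
      have hAc : ∀ v ∈ A, d v = c v := by
        intro v hv
        have h5 := (sum_eq_zero_iff.mp hTA0) v hv
        have h6 := hcd v hv
        by_contra hne
        exact hcA ⟨v, hv, by omega⟩
      have hDA0 : ∑ v ∈ A, (d v - c v) = 0 := by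
        refine sum_eq_zero ?_
        intro x hx
        rw [hAc x hx]; simp
      have hOd : ∑ v ∈ O, d v = 2 * n := by
        rw [sum_congr rfl hO2, sum_const, hO]; simp [mul_comm]
      have hμμ : μ = μ0 := by omega
      rw [hμμ, Nat.sub_self, Nat.add_zero]
      exact hbase O d hdis hAc hO2 (by omega)
  · -- there is a leaf
    obtain ⟨a, ha, ha1⟩ := exists_of_sum_pos (S := O) (f := fun x => i1 (d x)) hs1
    have hda : d a = 1 := by
      unfold i1 at ha1; split_ifs at ha1 with h
      · exact h
      · omega
    have haA := notA a ha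
    have hcard : (O.erase a).card = n - 1 := by rw [card_erase_of_mem ha, hO]
    have hn1 : 1 ≤ n := by rw [← hO]; exact card_pos.mpr ⟨a, ha⟩
    have hdis' : Disjoint A (O.erase a) := hdis.mono_right (erase_subset _ _)
    have g1 := sum_erase_one (O := O) ha d i1
    have g2 := sum_erase_one (O := O) ha d io
    have g3 := sum_erase_one (O := O) ha d id
    rw [hda] at g1 g2 g3
    simp only [id] at g3
    have f1 : i1 1 = 1 := rfl
    have f3 : io 1 = 1 := rfl
    -- generic step for a vertex of A
    have stepA : ∀ v ∈ A, c v + 1 ≤ d v →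
        ((d v - c v) % 2 = 1 ∨ (∑ x ∈ A, (d x - c x) % 2 + ∑ x ∈ O, io (d x) + 4 * μ + 2 * m0 + 2
          ≤ 2 * n + 4 * μ0 ∧ ∑ x ∈ A, (d x - c x) % 2 + 2 ≤ ∑ x ∈ O, io (d x))) →
        Good (A ∪ O) d (k0 + (μ - μ0)) := by
      intro v hv hdv hor
      have hvO : v ∉ O := fun h => notA v h hv
      have hvO' : v ∉ O.erase a := fun h => hvO (mem_of_mem_erase h)
      have hva : v ≠ a := by rintro rfl; exact hvO ha
      have e1 := sum_update_not_mem hvO' d (d v - 1) (fun _ => i1)
      have e2 := sum_update_not_mem hvO' d (d v - 1) (fun _ => io)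
      have e3 := sum_update_not_mem hvO' d (d v - 1) (fun _ => id)
      have e4 := sum_update_mem hv d (d v - 1) (fun x y => (y - c x) % 2)
      have e5 := sum_update_mem hv d (d v - 1) (fun _ => id)
      simp only [id] at e3 e5
      have h3v := hc v hv
      have := ih (n - 1) (by omega) (O.erase a) (update d v (d v - 1)) μ hcard hdis'
        (by
          intro x hx
          by_cases hxv : x = v
          · rw [hxv]; simp; omega
          · rw [update_of_ne hxv]; exact hcd x hx)
        (by
          intro x hx
          by_cases hxv : x = v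
          · rw [hxv]; simp; omega
          · rw [update_of_ne hxv]; exact h1 x (mem_of_mem_erase hx))
        (by omega) hμ0 hm0 (by omega) (by omega) (by omega)
      exact peel_leaf (S := A ∪ O) (mem_union_right _ ha) (mem_union_left _ hv) hva hda (by omega)
        (by rw [erase_union_left haA]; exact this)
    -- generic step for a vertex of O
    have stepO : ∀ v ∈ O, v ≠ a → 3 ≤ d v →
        ((d v % 2 = 1 ∧ ∑ x ∈ A, (d x - c x) % 2 + 2 ≤ ∑ x ∈ O, io (d x)) ∨
          (d v % 2 = 0 ∧ ∑ x ∈ A, (d x - c x) % 2 + ∑ x ∈ O, io (d x) + 4 * μ + 2 * m0 + 2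
          ≤ 2 * n + 4 * μ0)) →
        Good (A ∪ O) d (k0 + (μ - μ0)) := by
      intro v hv hva hdv hor
      have hvA := notA v hv
      have hvO' : v ∈ O.erase a := mem_erase.mpr ⟨hva, hv⟩
      have e1 := sum_update_mem hvO' d (d v - 1) (fun _ => i1)
      have e2 := sum_update_mem hvO' d (d v - 1) (fun _ => io)
      have e3 := sum_update_mem hvO' d (d v - 1) (fun _ => id)
      have e4 := sum_update_not_mem hvA d (d v - 1) (fun x y => (y - c x) % 2)
      have e5 := sum_update_not_mem hvA d (d v - 1) (fun _ => id)
      simp only [id] at e3 e5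
      have f4 : i1 (d v) = 0 := by unfold i1; split_ifs <;> omega
      have f5 : i1 (d v - 1) = 0 := by unfold i1; split_ifs <;> omega
      have f6 : io (d v) = d v % 2 := rfl
      have f7 : io (d v - 1) = (d v - 1) % 2 := rfl
      have := ih (n - 1) (by omega) (O.erase a) (update d v (d v - 1)) μ hcard hdis'
        (by
          intro x hx
          have hxv : x ≠ v := by rintro rfl; exact hvA hx
          rw [update_of_ne hxv]; exact hcd x hx)
        (by
          intro x hx
          by_cases hxv : x = v
          · rw [hxv]; simp; omega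
          · rw [update_of_ne hxv]; exact h1 x (mem_of_mem_erase hx))
        (by omega) hμ0 hm0 (by omega) (by omega) (by omega)
      exact peel_leaf (S := A ∪ O) (mem_union_right _ ha) (mem_union_right _ hv) hva hda (by omega)
        (by rw [erase_union_left haA]; exact this)
    by_cases hTA1 : ∃ v ∈ A, (d v - c v) % 2 = 1
    · obtain ⟨v, hv, hv1⟩ := hTA1
      exact stepA v hv (by omega) (Or.inl hv1)
    · have hTA0 : ∑ v ∈ A, (d v - c v) % 2 = 0 := by
        refine sum_eq_zero ?_
        intro x hx
        by_contra hne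
        exact hTA1 ⟨x, hx, by omega⟩
      have hpar : ∃ w, ∑ v ∈ O, io (d v) = 2 * w := ⟨n + μ - μ0 - w1 - w2, by omega⟩
      have hio1 : ∑ v ∈ O, i1 (d v) ≤ ∑ v ∈ O, io (d v) := by
        refine sum_le_sum ?_
        intro x _
        unfold i1 io; split_ifs with h
        · rw [h]
        · omega
      obtain ⟨w3, hw3⟩ := hpar
      by_cases hOo : ∃ v ∈ O, v ≠ a ∧ 3 ≤ d v ∧ d v % 2 = 1
      · obtain ⟨v, hv, hva, hdv, hvo⟩ := hOo
        exact stepO v hv hva hdv (Or.inl ⟨hvo, by omega⟩)
      · have hio : ∑ v ∈ O, io (d v) = ∑ v ∈ O, i1 (d v) := by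
          refine sum_congr rfl ?_
          intro x hx
          by_cases hxa : x = a
          · rw [hxa, hda]; rfl
          · have h5 := h1 x hx
            unfold i1 io
            by_cases h6 : 3 ≤ d x
            · have : d x % 2 ≠ 1 := fun h => hOo ⟨x, hx, hxa, h6, h⟩
              split_ifs <;> omega
            · split_ifs <;> omega
        by_cases hOe : ∃ v ∈ O, 3 ≤ d v
        · obtain ⟨v, hv, hdv⟩ := hOe
          have hva : v ≠ a := by rintro rfl; omega
          have hve : d v % 2 = 0 := by
            by_contra hne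
            exact hOo ⟨v, hv, hva, hdv, by omega⟩
          exact stepO v hv hva hdv (Or.inr ⟨hve, by omega⟩)
        · -- then some vertex of A has room
          have hOle : ∑ v ∈ O, d v + ∑ v ∈ O, i1 (d v) = 2 * n := by
            have : 2 * n = ∑ x ∈ O, 2 := by rw [sum_const, hO]; simp [mul_comm]
            rw [this, ← sum_add_distrib]
            refine sum_congr rfl ?_
            intro x hx
            have h5 := h1 x hx
            have h6 : ¬ 3 ≤ d x := fun h => hOe ⟨x, hx, h⟩
            unfold i1; split_ifs <;> omega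
          have hpos : 1 ≤ ∑ v ∈ A, (d v - c v) := by omega
          obtain ⟨v, hv, hv1⟩ := exists_of_sum_pos (S := A) (f := fun x => d x - c x) hpos
          exact stepA v hv (by omega) (Or.inr ⟨by omega, by omega⟩)

end Pool.Agent.Helper53
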