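import Pool.Agent.Helper53.Walks

/-!
# Necessary conditions for a graph with exactly `k` cycles
-/

open Finset
open scoped symmDiff

set_option linter.unusedSectionVars false

namespace Pool.Agent.Helper53

variable {V : Type*} [Fintype V] [DecidableEq V]

theorem ncard_neighborSet (G : SimpleGraph V) {F : Finset (Sym2 V)}
    (hF : ∀ e, e ∈ F ↔ e ∈ G.edgeSet) (v : V) : (G.neighborSet v).ncard = dg F v := by
  rw [dg_eq_card_nb, ← Set.ncard_coe_finset]
  congr 1
  ext y
  simp [hF]

theorem not_diag_of_edge (G : SimpleGraph V) {F : Finset (Sym2 V)}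
    (hF : ∀ e, e ∈ F ↔ e ∈ G.edgeSet) : ∀ e ∈ F, ¬ e.IsDiag :=
  fun _ he => G.not_isDiag_of_mem_edgeSet ((hF _).mp he)

/-- two adjacent vertices of degree one make up the whole connected graph -/
theorem card_le_two_of_adj_leaves {G : SimpleGraph V} (hG : G.Connected) {u v : V}
    (huv : G.Adj u v) (hu : (G.neighborSet u).ncard = 1) (hv : (G.neighborSet v).ncard = 1) :
    Fintype.card V ≤ 2 := by
  classical
  obtain ⟨u', hu'⟩ := Set.ncard_eq_one.mp hu
  obtain ⟨v', hv'⟩ := Set.ncard_eq_one.mp hv
  have h1 : ∀ y, G.Adj u y → y = v := by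
    intro y hy
    have e1 : y ∈ G.neighborSet u := hy
    have e2 : v ∈ G.neighborSet u := huv
    rw [hu', Set.mem_singleton_iff] at e1 e2
    rw [e1, e2]
  have h2 : ∀ y, G.Adj v y → y = u := by
    intro y hy
    have e1 : y ∈ G.neighborSet v := hy
    have e2 : u ∈ G.neighborSet v := huv.symm
    rw [hv', Set.mem_singleton_iff] at e1 e2
    rw [e1, e2]
  have h3 : ∀ (a b : V) (q : G.Walk a b), a = u ∨ a = v → b = u ∨ b = v := by
    intro a b q
    induction q with
    | nil => exact id
    | cons hadj _ ih =>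
      intro ha
      apply ih
      rcases ha with rfl | rfl
      · right; exact h1 _ hadj
      · left; exact h2 _ hadj
  have h4 : (univ : Finset V) ⊆ {u, v} := by
    intro w _
    obtain ⟨q⟩ := hG.preconnected u w
    have := h3 u w q (Or.inl rfl)
    simpa using this
  calc Fintype.card V = (univ : Finset V).card := rfl
    _ ≤ ({u, v} : Finset V).card := card_le_card h4
    _ ≤ 2 := card_le_two

/-- the number of vertices of degree one is at most the number of bridges -/
theorem leaves_le {G : SimpleGraph V} (hG : G.Connected) (hp : 3 ≤ Fintype.card V)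
    {F : Finset (Sym2 V)} (hF : ∀ e, e ∈ F ↔ e ∈ G.edgeSet) :
    (univ.filter (fun v => (G.neighborSet v).ncard = 1)).card + (cyc EvenSet F).card ≤ F.card := by
  classical
  set L := univ.filter (fun v => (G.neighborSet v).ncard = 1) with hL
  set B := F \ cyc EvenSet F with hB
  have h1 : (cyc EvenSet F).card + B.card = F.card := by
    rw [hB, add_comm]; exact card_sdiff_add_card_eq_card (cyc_subset F)
  have h2 : ∀ v ∈ L, dg B v = 1 := by
    intro v hv
    rw [hL, mem_filter, ncard_neighborSet G hF] at hv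
    have h3 := dg_sdiff (cyc_subset (P := EvenSet) F) v
    have h4 : dg (cyc EvenSet F) v = 0 := by
      by_contra hne
      have h5 : 0 < dg (cyc EvenSet F) v := Nat.pos_of_ne_zero hne
      have h6 : 2 ≤ dg (cyc EvenSet F) v := by
        apply two_le_dg_of_circuits _ h5
        intro f hf
        obtain ⟨C, c1, c2, c3⟩ := mem_cyc.mp hf
        refine ⟨C, ?_, c2, c3⟩
        intro g hg
        exact mem_cyc.mpr ⟨C, c1, c2, hg⟩
      have h7 := dg_mono (cyc_subset (P := EvenSet) F) v
      omega
    have := hv.2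
    rw [← hB] at h3
    omega
  have h3 : L.card = ∑ v ∈ L, dg B v := by
    rw [sum_congr rfl h2]; simp
  have h4 : ∑ v ∈ L, dg B v = ∑ e ∈ B, (L.filter (fun v => v ∈ e)).card := by
    have : ∀ v ∈ L, dg B v = ∑ e ∈ B, (if v ∈ e then 1 else 0) := by
      intro v _
      unfold dg
      rw [card_filter]
    rw [sum_congr rfl this, sum_comm]
    refine sum_congr rfl ?_
    intro e _
    rw [card_filter]
  have h5 : ∀ e ∈ B, (L.filter (fun v => v ∈ e)).card ≤ 1 := by
    intro e he
    by_contra hgt
    push Not at hgt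
    obtain ⟨a, ha, b, hb, hab⟩ := one_lt_card.mp hgt
    rw [mem_filter, hL, mem_filter] at ha hb
    have heF : e ∈ F := (mem_sdiff.mp he).1
    have hee : e = s(a, b) := (Sym2.mem_and_mem_iff hab).mp ⟨ha.2, hb.2⟩
    have hadj : G.Adj a b := by
      have := (hF e).mp heF
      rwa [hee, SimpleGraph.mem_edgeSet] at this
    have := card_le_two_of_adj_leaves hG hadj ha.1.2 hb.1.2
    omega
  have h6 : ∑ e ∈ B, (L.filter (fun v => v ∈ e)).card ≤ B.card := by
    calc ∑ e ∈ B, (L.filter (fun v => v ∈ e)).card ≤ ∑ e ∈ B, 1 := sum_le_sum h5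
      _ = B.card := by simp
  omega

/-- the number of odd vertices is at most that of the cyclic part plus twice the bridges -/
theorem odds_le {F : Finset (Sym2 V)} (hd : ∀ e ∈ F, ¬ e.IsDiag) :
    (odds F).card + 2 * (cyc EvenSet F).card ≤ (odds (cyc EvenSet F)).card + 2 * F.card := by
  classical
  set B := F \ cyc EvenSet F with hB
  have h1 : (cyc EvenSet F).card + B.card = F.card := by
    rw [hB, add_comm]; exact card_sdiff_add_card_eq_card (cyc_subset F)
  have h2 : odds F ⊆ odds (cyc EvenSet F) ∪ odds B := by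
    intro v hv
    rw [mem_union, mem_odds, mem_odds]
    rw [mem_odds, dg_sdiff (cyc_subset (P := EvenSet) F) v] at hv
    by_contra hcon
    rw [not_or, Nat.not_odd_iff_even, Nat.not_odd_iff_even] at hcon
    exact (Nat.not_odd_iff_even.mpr (hcon.2.add hcon.1)) hv
  have h3 := (card_le_card h2).trans (card_union_le _ _)
  have h4 : (odds B).card ≤ 2 * B.card := by
    rw [← sum_dg (X := B) (fun e he => hd e (mem_sdiff.mp he).1)]
    unfold odds
    rw [card_filter]
    refine sum_le_sum ?_
    intro v _
    split_ifs with h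
    · exact h.pos
    · exact Nat.zero_le _
  omega

/-- the rank is at least `m - p + 1` -/
theorem mu_ge {F : Finset (Sym2 V)} (hd : ∀ e ∈ F, ¬ e.IsDiag) (hne : F.Nonempty) :
    F.card + 1 ≤ mu EvenSet F + Fintype.card V := by
  obtain ⟨e, he⟩ := hne
  have htne : (tch F).Nonempty := by
    obtain ⟨v, hv⟩ : ∃ v, v ∈ e := ⟨e.out.1, Sym2.out_fst_mem e⟩
    exact ⟨v, mem_tch.mpr (dg_pos.mpr ⟨e, he, hv⟩)⟩
  have h1 := card_le_mu_add hd htne
  have h2 : (tch F).card ≤ Fintype.card V := card_le_univ _
  omega

/-- **Necessary conditions.**  A connected graph on `p ≥ 3` vertices with `p - 1 + μ` edges and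
exactly `k` cycles has at most `p - 1 + k - 3 μ` vertices of degree one and at most
`2 (p - 1) + 4 k - 8 μ` vertices of odd degree. -/
theorem necessary (G : SimpleGraph V) (hG : G.Connected) (hp : 3 ≤ Fintype.card V)
    {μ k : ℕ} (hsum : ∑ v, (G.neighborSet v).ncard + 2 = 2 * (Fintype.card V + μ))
    (hk : (cycleSets G).ncard = k) :
    (univ.filter (fun v => (G.neighborSet v).ncard = 1)).card + 3 * μ + 1 ≤ Fintype.card V + k ∧
    (univ.filter (fun v => Odd (G.neighborSet v).ncard)).card + 8 * μ + 2
      ≤ 2 * Fintype.card V + 4 * k ∧ μ ≤ k := by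
  classical
  set F := G.edgeFinset with hFdef
  have hF : ∀ e, e ∈ F ↔ e ∈ G.edgeSet := fun e => by simp [hFdef]
  have hd := not_diag_of_edge G hF
  have hdeg : ∀ v, (G.neighborSet v).ncard = dg F v := ncard_neighborSet G hF
  have hs : ∑ v, (G.neighborSet v).ncard = 2 * F.card := by
    rw [← sum_dg hd]
    exact sum_congr rfl (fun v _ => hdeg v)
  have hFne : F.Nonempty := by
    rw [← card_pos]; omega
  have h1 := mu_ge hd hFne
  have h2 := four_mu_le fam_evenSet (fun C hC => three_le_of_circuit hC) F.card F le_rfl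
  have h3 := odds_cyc_le F.card F le_rfl hd
  have h4 := leaves_le hG hp hF
  have h5 := odds_le hd
  have h6 : univ.filter (fun v => Odd (G.neighborSet v).ncard) = odds F := by
    ext v
    rw [mem_filter, mem_odds, hdeg v]
    simp
  rw [h6]
  rw [ncard_cycleSets G hF] at hk
  have h7 : (cyc EvenSet F).card ≤ F.card := card_le_card (cyc_subset F)
  refine ⟨by omega, by omega, by omega⟩

end Pool.Agent.Helper53
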