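import Pool.Agent.Helper53.Transfer

/-!
# Ears over a root edge
-/

open Finset Function
open scoped symmDiff

set_option linter.unusedSectionVars false
set_option linter.unusedSimpArgs false

namespace Pool.Agent.Helper53

variable {V : Type*} [Fintype V] [DecidableEq V]

/-- the three edges of a triangle -/
abbrev tri3 (x y z : V) : Finset (Sym2 V) := {s(x, y), s(x, z), s(y, z)}

theorem isC_tri3 {x y z : V} (hxy : x ≠ y) (hxz : x ≠ z) (hyz : y ≠ z) :
    IsC EvenSet (tri3 x y z) := by
  have he := evenSet_triangle hxy hxz hyz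
  have hc : (tri3 x y z).card ≤ 3 := card_le_three
  refine ⟨he, ⟨s(x, y), by simp⟩, ?_⟩
  intro D hD hDe
  rcases D.eq_empty_or_nonempty with h | ⟨e, he'⟩
  · exact Or.inl h
  · right
    obtain ⟨C, c1, c2, _⟩ := fam_evenSet.circuit hDe he'
    have h3 := three_le_of_circuit c2
    have h4 := card_le_card c1
    exact eq_of_subset_of_card_le hD (by omega)

section ear

variable {F : Finset (Sym2 V)} {x y z : V}

/-- edges of the extended graph at the new vertex -/
theorem ear_at (hz : dg F z = 0) {f : Sym2 V} (hf : f ∈ F ∪ {s(x, z), s(y, z)}) (hzf : z ∈ f) :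
    f = s(x, z) ∨ f = s(y, z) := by
  rw [mem_union] at hf
  rcases hf with hf | hf
  · exfalso
    have := dg_pos.mpr ⟨f, hf, hzf⟩
    omega
  · simpa using hf

theorem ear_iff (hz : dg F z = 0) {D : Finset (Sym2 V)}
    (hD : D ⊆ F ∪ {s(x, z), s(y, z)}) (hDe : EvenSet D) : s(x, z) ∈ D ↔ s(y, z) ∈ D := by
  constructor
  · intro h
    by_contra hn
    refine no_pendant hDe (e := s(x, z)) (v := z) (by simp) ?_ h
    intro f hf hzf
    rcases ear_at hz (hD hf) hzf with h1 | h1
    · exact h1
    · rw [h1] at hf; exact absurd hf hn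
  · intro h
    by_contra hn
    refine no_pendant hDe (e := s(y, z)) (v := z) (by simp) ?_ h
    intro f hf hzf
    rcases ear_at hz (hD hf) hzf with h1 | h1
    · rw [h1] at hf; exact absurd hf hn
    · exact h1

theorem ear_notin (hz : dg F z = 0) (w : V) : s(w, z) ∉ F := by
  intro h
  have := dg_pos.mpr ⟨_, h, (by simp : z ∈ s(w, z))⟩
  omega

theorem ear_mem_symm (hz : dg F z = 0) {C : Finset (Sym2 V)} (hC : C ⊆ F) (hxC : s(x, y) ∈ C)
    (e : Sym2 V) :
    e ∈ C ∆ tri3 x y z ↔ (e ∈ C ∧ e ≠ s(x, y)) ∨ e = s(x, z) ∨ e = s(y, z) := by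
  have n1 : s(x, z) ∉ C := fun h => ear_notin hz x (hC h)
  have n2 : s(y, z) ∉ C := fun h => ear_notin hz y (hC h)
  simp only [mem_symmDiff, mem_insert, mem_singleton, not_or]
  constructor
  · rintro (⟨h1, h2, _, _⟩ | ⟨h1 | h1 | h1, h2⟩)
    · exact Or.inl ⟨h1, h2⟩
    · rw [h1] at h2; exact absurd hxC h2
    · exact Or.inr (Or.inl h1)
    · exact Or.inr (Or.inr h1)
  · rintro (⟨h1, h2⟩ | h1 | h1)
    · left
      exact ⟨h1, h2, fun h => n1 (h ▸ h1), fun h => n2 (h ▸ h1)⟩
    · right; rw [h1]; exact ⟨Or.inr (Or.inl rfl), n1⟩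
    · right; rw [h1]; exact ⟨Or.inr (Or.inr rfl), n2⟩

theorem ear_circuit (hxy : x ≠ y) (hxz : x ≠ z) (hyz : y ≠ z)
    (hz : dg F z = 0) {C : Finset (Sym2 V)} (hC : C ∈ thr EvenSet F s(x, y)) :
    C ∆ tri3 x y z ∈ thr EvenSet (F ∪ {s(x, z), s(y, z)}) s(x, z) := by
  obtain ⟨c1, c2, c3⟩ := mem_thr.mp hC
  have hm := ear_mem_symm hz c1 c3
  have hTe := evenSet_triangle hxy hxz hyz
  rw [mem_thr]
  refine ⟨?_, ⟨fam_evenSet.add _ _ c2.1 hTe, ⟨s(x, z), (hm _).mpr (Or.inr (Or.inl rfl))⟩, ?_⟩,
    (hm _).mpr (Or.inr (Or.inl rfl))⟩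
  · intro e he
    rw [mem_union]
    rcases (hm e).mp he with h | h | h
    · exact Or.inl (c1 h.1)
    · right; rw [h]; simp
    · right; rw [h]; simp
  · intro E hE hEe
    have hEF : E ⊆ F ∪ {s(x, z), s(y, z)} := by
      intro e he
      rw [mem_union]
      rcases (hm e).mp (hE he) with h | h | h
      · exact Or.inl (c1 h.1)
      · right; rw [h]; simp
      · right; rw [h]; simp
    have hiff := ear_iff hz hEF hEe
    have hxyE : s(x, y) ∉ E := by
      intro h
      rcases (hm _).mp (hE h) with h1 | h1 | h1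
      · exact h1.2 rfl
      · rw [Sym2.congr_right] at h1; exact hyz h1
      · rw [Sym2.eq_swap, Sym2.congr_right] at h1; exact hxz h1
    by_cases hP : s(x, z) ∈ E
    · right
      have hP2 := hiff.mp hP
      have h1 : E ∆ tri3 x y z ⊆ C := by
        intro e he
        simp only [mem_symmDiff, mem_insert, mem_singleton, not_or] at he
        rcases he with ⟨h1, h2, h3, h4⟩ | ⟨h1 | h1 | h1, h2⟩
        · rcases (hm e).mp (hE h1) with h | h | h
          · exact h.1
          · exact absurd h h3
          · exact absurd h h4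
        · rw [h1]; exact c3
        · rw [h1] at h2; exact absurd hP h2
        · rw [h1] at h2; exact absurd hP2 h2
      rcases c2.2.2 _ h1 (fam_evenSet.add _ _ hEe hTe) with h2 | h2
      · exfalso
        have h3 : E = tri3 x y z := symmDiff_eq_bot.mp h2
        rw [h3] at hxyE
        exact hxyE (by simp)
      · rw [← h2, symmDiff_symmDiff_cancel_right]
    · left
      have hP2 : s(y, z) ∉ E := fun h => hP (hiff.mpr h)
      have h1 : E ⊆ C := by
        intro e he
        rcases (hm e).mp (hE he) with h | h | h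
        · exact h.1
        · rw [h] at he; exact absurd he hP
        · rw [h] at he; exact absurd he hP2
      rcases c2.2.2 _ h1 hEe with h2 | h2
      · exact h2
      · rw [h2] at hxyE; exact absurd c3 hxyE

theorem ear_circuit' (hxy : x ≠ y) (hxz : x ≠ z) (hyz : y ≠ z) (hF : s(x, y) ∈ F)
    (hz : dg F z = 0) {D : Finset (Sym2 V)}
    (hD : D ∈ thr EvenSet (F ∪ {s(x, z), s(y, z)}) s(x, z)) (hDT : D ≠ tri3 x y z) :
    D ∆ tri3 x y z ∈ thr EvenSet F s(x, y) := by
  obtain ⟨d1, d2, d3⟩ := mem_thr.mp hD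
  have hTe := evenSet_triangle hxy hxz hyz
  have hT := isC_tri3 hxy hxz hyz
  have hiff := ear_iff hz d1 d2.1
  have d4 := hiff.mp d3
  have hxyD : s(x, y) ∉ D := by
    intro h
    apply hDT
    symm
    apply d2.eq_of_subset hT
    intro e he
    simp only [mem_insert, mem_singleton] at he
    rcases he with rfl | rfl | rfl
    · exact h
    · exact d3
    · exact d4
  have hm : ∀ e, e ∈ D ∆ tri3 x y z ↔ (e ∈ D ∧ e ≠ s(x, z) ∧ e ≠ s(y, z)) ∨ e = s(x, y) := by
    intro e
    simp only [mem_symmDiff, mem_insert, mem_singleton, not_or]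
    constructor
    · rintro (⟨h1, h2, h3, h4⟩ | ⟨h1 | h1 | h1, h2⟩)
      · exact Or.inl ⟨h1, h3, h4⟩
      · exact Or.inr h1
      · rw [h1] at h2; exact absurd d3 h2
      · rw [h1] at h2; exact absurd d4 h2
    · rintro (⟨h1, h2, h3⟩ | h1)
      · left; exact ⟨h1, fun h => hxyD (h ▸ h1), h2, h3⟩
      · right; rw [h1]; exact ⟨Or.inl rfl, hxyD⟩
  have hsub : D ∆ tri3 x y z ⊆ F := by
    intro e he
    rcases (hm e).mp he with h | h
    · have := d1 h.1
      rw [mem_union] at this
      rcases this with h5 | h5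
      · exact h5
      · simp only [mem_insert, mem_singleton] at h5
        rcases h5 with h5 | h5
        · exact absurd h5 h.2.1
        · exact absurd h5 h.2.2
    · rw [h]; exact hF
  rw [mem_thr]
  refine ⟨hsub, ⟨fam_evenSet.add _ _ d2.1 hTe, ⟨s(x, y), (hm _).mpr (Or.inr rfl)⟩, ?_⟩,
    (hm _).mpr (Or.inr rfl)⟩
  intro E hE hEe
  have hEF : E ⊆ F := hE.trans hsub
  by_cases hP : s(x, y) ∈ E
  · right
    have hmE := ear_mem_symm hz hEF hP
    have h1 : E ∆ tri3 x y z ⊆ D := by
      intro e he
      rcases (hmE e).mp he with h | h | h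
      · rcases (hm e).mp (hE h.1) with h5 | h5
        · exact h5.1
        · exact absurd h5 h.2
      · rw [h]; exact d3
      · rw [h]; exact d4
    rcases d2.2.2 _ h1 (fam_evenSet.add _ _ hEe hTe) with h2 | h2
    · exfalso
      have h3 : s(x, z) ∈ E ∆ tri3 x y z := (hmE _).mpr (Or.inr (Or.inl rfl))
      rw [h2] at h3; simp at h3
    · rw [← h2, symmDiff_symmDiff_cancel_right]
  · left
    have h1 : E ⊆ D := by
      intro e he
      rcases (hm e).mp (hE he) with h | h
      · exact h.1
      · rw [h] at he; exact absurd he hP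
    rcases d2.2.2 _ h1 hEe with h2 | h2
    · exact h2
    · exfalso
      have h3 : s(x, z) ∈ E := by rw [h2]; exact d3
      exact ear_notin hz x (hEF h3)

theorem thr_ear (hxy : x ≠ y) (hxz : x ≠ z) (hyz : y ≠ z) (hF : s(x, y) ∈ F)
    (hz : dg F z = 0) :
    (thr EvenSet (F ∪ {s(x, z), s(y, z)}) s(x, z)).card = (thr EvenSet F s(x, y)).card + 1 := by
  classical
  have hT := isC_tri3 hxy hxz hyz
  have h1 : thr EvenSet (F ∪ {s(x, z), s(y, z)}) s(x, z) =
      insert (tri3 x y z) ((thr EvenSet F s(x, y)).image (fun C => C ∆ tri3 x y z)) := by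
    ext D
    rw [mem_insert, mem_image]
    constructor
    · intro hD
      by_cases hDT : D = tri3 x y z
      · exact Or.inl hDT
      · right
        exact ⟨_, ear_circuit' hxy hxz hyz hF hz hD hDT, symmDiff_symmDiff_cancel_right _ _⟩
    · rintro (rfl | ⟨C, hC, rfl⟩)
      · rw [mem_thr]
        refine ⟨?_, hT, by simp⟩
        intro e he
        simp only [mem_insert, mem_singleton] at he
        rcases he with rfl | rfl | rfl
        · exact mem_union_left _ hF
        · simp
        · simp
      · exact ear_circuit hxy hxz hyz hz hC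
  rw [h1, card_insert_of_notMem, card_image_of_injective _ (symmDiff_left_injective _)]
  intro h
  rw [mem_image] at h
  obtain ⟨C, hC, h2⟩ := h
  have h3 : C = ∅ := by
    have := congrArg (fun D => D ∆ tri3 x y z) h2
    simp only [symmDiff_symmDiff_cancel_right, symmDiff_self] at this
    exact this
  rw [h3] at hC
  have := (mem_thr.mp hC).2.2
  simp at this

theorem circ_ear (hxy : x ≠ y) (hxz : x ≠ z) (hyz : y ≠ z) (hF : s(x, y) ∈ F)
    (hz : dg F z = 0) :
    (circ EvenSet (F ∪ {s(x, z), s(y, z)})).card =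
      (circ EvenSet F).card + (thr EvenSet F s(x, y)).card + 1 := by
  classical
  have h1 := card_circ_erase (P := EvenSet) (F ∪ {s(x, z), s(y, z)}) s(x, z)
  have h2 := thr_ear hxy hxz hyz hF hz
  have h3 : circ EvenSet ((F ∪ {s(x, z), s(y, z)}).erase s(x, z)) = circ EvenSet F := by
    ext C
    rw [mem_circ, mem_circ]
    constructor
    · rintro ⟨c1, c2⟩
      refine ⟨?_, c2⟩
      have hsub : C ⊆ F ∪ {s(x, z), s(y, z)} := c1.trans (erase_subset _ _)
      have hn1 : s(x, z) ∉ C := fun h => (mem_erase.mp (c1 h)).1 rfl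
      have hn2 : s(y, z) ∉ C := fun h => hn1 ((ear_iff hz hsub c2.1).mpr h)
      intro e he
      have := hsub he
      simp only [mem_union, mem_insert, mem_singleton] at this
      rcases this with h | h | h
      · exact h
      · rw [h] at he; exact absurd he hn1
      · rw [h] at he; exact absurd he hn2
    · rintro ⟨c1, c2⟩
      refine ⟨?_, c2⟩
      intro e he
      rw [mem_erase]
      exact ⟨fun h => ear_notin hz x (c1 (h ▸ he)), mem_union_left _ (c1 he)⟩
  rw [h3] at h1
  omega

/-- circuits through a series mate of the root edge double -/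
theorem thr_mate (hxy : x ≠ y) (hxz : x ≠ z) (hyz : y ≠ z) (hF : s(x, y) ∈ F)
    (hz : dg F z = 0) {g : Sym2 V} (hg : g ∈ F) (hgx : g ≠ s(x, y))
    (hser : ∀ C, C ⊆ F → IsC EvenSet C → (g ∈ C ↔ s(x, y) ∈ C)) :
    (thr EvenSet (F ∪ {s(x, z), s(y, z)}) g).card = 2 * (thr EvenSet F s(x, y)).card := by
  classical
  have h1 : thr EvenSet (F ∪ {s(x, z), s(y, z)}) g =
      thr EvenSet F s(x, y) ∪ (thr EvenSet F s(x, y)).image (fun C => C ∆ tri3 x y z) := by
    ext D
    rw [mem_union, mem_image]
    constructor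
    · intro hD
      obtain ⟨d1, d2, d3⟩ := mem_thr.mp hD
      by_cases hP : s(x, z) ∈ D
      · right
        have hDT : D ≠ tri3 x y z := by
          rintro rfl
          simp only [mem_insert, mem_singleton] at d3
          rcases d3 with h | h | h
          · exact hgx h
          · exact ear_notin hz x (h ▸ hg)
          · exact ear_notin hz y (h ▸ hg)
        have h5 := ear_circuit' hxy hxz hyz hF hz (mem_thr.mpr ⟨d1, d2, hP⟩) hDT
        exact ⟨_, h5, symmDiff_symmDiff_cancel_right _ _⟩
      · left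
        have hP2 : s(y, z) ∉ D := fun h => hP ((ear_iff hz d1 d2.1).mpr h)
        have hDF : D ⊆ F := by
          intro e he
          have := d1 he
          simp only [mem_union, mem_insert, mem_singleton] at this
          rcases this with h | h | h
          · exact h
          · rw [h] at he; exact absurd he hP
          · rw [h] at he; exact absurd he hP2
        exact mem_thr.mpr ⟨hDF, d2, (hser D hDF d2).mp d3⟩
    · rintro (hD | ⟨C, hC, rfl⟩)
      · obtain ⟨d1, d2, d3⟩ := mem_thr.mp hD
        exact mem_thr.mpr ⟨d1.trans subset_union_left, d2, (hser D d1 d2).mpr d3⟩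
      · obtain ⟨d1, d2, d3⟩ := mem_thr.mp (ear_circuit hxy hxz hyz hz hC)
        obtain ⟨c1, c2, c3⟩ := mem_thr.mp hC
        refine mem_thr.mpr ⟨d1, d2, ?_⟩
        rw [ear_mem_symm hz c1 c3]
        exact Or.inl ⟨(hser C c1 c2).mpr c3, hgx⟩
  rw [h1, card_union_of_disjoint, card_image_of_injective _ (symmDiff_left_injective _)]
  · ring
  · rw [disjoint_left]
    intro D hD hD2
    rw [mem_image] at hD2
    obtain ⟨C, hC, rfl⟩ := hD2
    have h2 := (mem_thr.mp (ear_circuit hxy hxz hyz hz hC)).2.2
    exact ear_notin hz x ((mem_thr.mp hD).1 h2)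

/-- the root edge itself -/
theorem thr_root (hxy : x ≠ y) (hxz : x ≠ z) (hyz : y ≠ z) (hF : s(x, y) ∈ F)
    (hz : dg F z = 0) :
    (thr EvenSet (F ∪ {s(x, z), s(y, z)}) s(x, y)).card = (thr EvenSet F s(x, y)).card + 1 := by
  classical
  have hT := isC_tri3 hxy hxz hyz
  have h1 : thr EvenSet (F ∪ {s(x, z), s(y, z)}) s(x, y) =
      insert (tri3 x y z) (thr EvenSet F s(x, y)) := by
    ext D
    rw [mem_insert]
    constructor
    · intro hD
      obtain ⟨d1, d2, d3⟩ := mem_thr.mp hD
      by_cases hP : s(x, z) ∈ D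
      · left
        have hP2 := (ear_iff hz d1 d2.1).mp hP
        symm
        apply d2.eq_of_subset hT
        intro e he
        simp only [mem_insert, mem_singleton] at he
        rcases he with rfl | rfl | rfl
        · exact d3
        · exact hP
        · exact hP2
      · right
        have hP2 : s(y, z) ∉ D := fun h => hP ((ear_iff hz d1 d2.1).mpr h)
        have hDF : D ⊆ F := by
          intro e he
          have := d1 he
          simp only [mem_union, mem_insert, mem_singleton] at this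
          rcases this with h | h | h
          · exact h
          · rw [h] at he; exact absurd he hP
          · rw [h] at he; exact absurd he hP2
        exact mem_thr.mpr ⟨hDF, d2, d3⟩
    · rintro (rfl | hD)
      · rw [mem_thr]
        refine ⟨?_, hT, by simp⟩
        intro e he
        simp only [mem_insert, mem_singleton] at he
        rcases he with rfl | rfl | rfl
        · exact mem_union_left _ hF
        · simp
        · simp
      · obtain ⟨d1, d2, d3⟩ := mem_thr.mp hD
        exact mem_thr.mpr ⟨d1.trans subset_union_left, d2, d3⟩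
  rw [h1, card_insert_of_notMem]
  intro h
  have := (mem_thr.mp h).1 (show s(x, z) ∈ tri3 x y z by simp)
  exact ear_notin hz x this

/-- subdividing the root edge keeps the number of circuits through it -/
theorem thr_subdiv (hxy : x ≠ y) (hxz : x ≠ z) (hyz : y ≠ z) (hF : s(x, y) ∈ F)
    (hz : dg F z = 0) :
    (thr EvenSet (F.erase s(x, y) ∪ {s(x, z), s(y, z)}) s(x, z)).card =
      (thr EvenSet F s(x, y)).card := by
  classical
  have hT := isC_tri3 hxy hxz hyz
  have h1 := thr_ear hxy hxz hyz hF hz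
  have hTm : tri3 x y z ∈ thr EvenSet (F ∪ {s(x, z), s(y, z)}) s(x, z) := by
    rw [mem_thr]
    refine ⟨?_, hT, by simp⟩
    intro e he
    simp only [mem_insert, mem_singleton] at he
    rcases he with rfl | rfl | rfl
    · exact mem_union_left _ hF
    · simp
    · simp
  have h2 : thr EvenSet (F.erase s(x, y) ∪ {s(x, z), s(y, z)}) s(x, z) =
      (thr EvenSet (F ∪ {s(x, z), s(y, z)}) s(x, z)).erase (tri3 x y z) := by
    ext D
    rw [mem_erase, mem_thr, mem_thr]
    constructor
    · rintro ⟨d1, d2, d3⟩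
      refine ⟨?_, ?_, d2, d3⟩
      · rintro rfl
        have := d1 (show s(x, y) ∈ tri3 x y z by simp)
        simp only [mem_union, mem_erase, mem_insert, mem_singleton] at this
        rcases this with h | h | h
        · exact h.1 rfl
        · rw [Sym2.congr_right] at h; exact hyz h
        · rw [Sym2.eq_swap, Sym2.congr_right] at h; exact hxz h
      · exact d1.trans (union_subset_union_left (erase_subset _ _))
    · rintro ⟨hne, d1, d2, d3⟩
      refine ⟨?_, d2, d3⟩
      intro e he
      have h5 := d1 he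
      rw [mem_union] at h5 ⊢
      rcases h5 with h5 | h5
      · left
        rw [mem_erase]
        refine ⟨?_, h5⟩
        rintro rfl
        apply hne
        symm
        apply d2.eq_of_subset hT
        intro f hf
        simp only [mem_insert, mem_singleton] at hf
        rcases hf with rfl | rfl | rfl
        · exact he
        · exact d3
        · exact (ear_iff hz d1 d2.1).mp d3
      · exact Or.inr h5
  rw [h2, card_erase_of_mem hTm, h1]
  rfl

end ear

/-- `S` carries a connected graph with degrees `d`, exactly `K` circuits, and the edge `ab` which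
lies in exactly `t` circuits -/
def Net (S : Finset V) (d : V → ℕ) (K t : ℕ) (a b : V) : Prop :=
  ∃ F : Finset (Sym2 V), Ok S F ∧ (∀ v ∈ S, dg F v = d v) ∧ (circ EvenSet F).card = K ∧
    s(a, b) ∈ F ∧ (thr EvenSet F s(a, b)).card = t

theorem Net.symm {S : Finset V} {d : V → ℕ} {K t : ℕ} {a b : V} (h : Net S d K t a b) :
    Net S d K t b a := by
  obtain ⟨F, h1, h2, h3, h4, h5⟩ := h
  exact ⟨F, h1, h2, h3, by rw [Sym2.eq_swap]; exact h4, by rw [Sym2.eq_swap]; exact h5⟩

theorem Net.good {S : Finset V} {d : V → ℕ} {K t : ℕ} {a b : V} (h : Net S d K t a b) :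
    Good S d K := by
  obtain ⟨F, h1, h2, h3, _, _⟩ := h
  exact ⟨F, h1, h2, h3⟩

theorem Net.mem {S : Finset V} {d : V → ℕ} {K t : ℕ} {a b : V} (h : Net S d K t a b) :
    a ∈ S ∧ b ∈ S ∧ a ≠ b := by
  obtain ⟨F, h1, _, _, h4, _⟩ := h
  refine ⟨h1.sup _ h4 a (by simp), h1.sup _ h4 b (by simp), ?_⟩
  rintro rfl
  exact h1.nd _ h4 (by simp)

theorem dg_pair {x y z : V} (hxy : x ≠ y) (w : V) :
    dg ({s(x, z), s(y, z)} : Finset (Sym2 V)) w =
      (if w ∈ s(x, z) then 1 else 0) + (if w ∈ s(y, z) then 1 else 0) := by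
  have e3 : s(x, z) ≠ s(y, z) := by
    intro h
    rw [Sym2.eq_iff] at h
    rcases h with h | h
    · exact hxy h.1
    · exact hxy (h.1.trans h.2)
  unfold dg
  rw [card_filter, sum_pair e3]

theorem ok_ear {S : Finset V} {F : Finset (Sym2 V)} (h : Ok S F) {a b z : V}
    (ha : a ∈ S) (hb : b ∈ S) (hz : z ∉ S) : Ok (insert z S) (F ∪ {s(a, z), s(b, z)}) := by
  have haz : a ≠ z := by rintro rfl; exact hz ha
  have hbz : b ≠ z := by rintro rfl; exact hz hb
  refine ⟨?_, ?_, ⟨z, mem_insert_self _ _⟩, ?_⟩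
  · intro e he
    simp only [mem_union, mem_insert, mem_singleton] at he
    rcases he with he | rfl | rfl
    · exact h.nd e he
    · simpa using haz
    · simpa using hbz
  · intro e he w hw
    simp only [mem_union, mem_insert, mem_singleton] at he
    rcases he with he | rfl | rfl
    · exact mem_insert_of_mem (h.sup e he w hw)
    · rw [Sym2.mem_iff] at hw
      rcases hw with rfl | rfl
      · exact mem_insert_of_mem ha
      · exact mem_insert_self _ _
    · rw [Sym2.mem_iff] at hw
      rcases hw with rfl | rfl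
      · exact mem_insert_of_mem hb
      · exact mem_insert_self _ _
  · have m1 : SimpleGraph.fromEdgeSet (F : Set (Sym2 V)) ≤
        SimpleGraph.fromEdgeSet ((F ∪ {s(a, z), s(b, z)} : Finset (Sym2 V)) : Set (Sym2 V)) :=
      gr_mono subset_union_left
    have r1 : (SimpleGraph.fromEdgeSet
        ((F ∪ {s(a, z), s(b, z)} : Finset (Sym2 V)) : Set (Sym2 V))).Reachable a z :=
      reach_of_mem (by simp) haz
    have key : ∀ x ∈ insert z S, (SimpleGraph.fromEdgeSet
        ((F ∪ {s(a, z), s(b, z)} : Finset (Sym2 V)) : Set (Sym2 V))).Reachable x a := by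
      intro x hx
      rw [mem_insert] at hx
      rcases hx with rfl | hx
      · exact r1.symm
      · exact (h.con x hx a ha).mono m1
    intro x hx y hy
    exact (key x hx).trans (key y hy).symm

theorem ear_deg {S : Finset V} {F : Finset (Sym2 V)} (h : Ok S F) {a b z : V}
    (ha : a ∈ S) (hb : b ∈ S) (hab : a ≠ b) (hz : z ∉ S) {d d' : V → ℕ}
    (hd : ∀ v ∈ S, dg F v = d v) (h1 : d' z = 2) (h2 : d' a = d a + 1) (h3 : d' b = d b + 1)
    (h4 : ∀ v ∈ S, v ≠ a → v ≠ b → d' v = d v) :
    ∀ v ∈ insert z S, dg (F ∪ {s(a, z), s(b, z)}) v = d' v := by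
  have haz : a ≠ z := by rintro rfl; exact hz ha
  have hbz : b ≠ z := by rintro rfl; exact hz hb
  have hz0 := h.dg_zero hz
  have hdis : Disjoint F ({s(a, z), s(b, z)} : Finset (Sym2 V)) := by
    rw [disjoint_left]
    intro e he he'
    simp only [mem_insert, mem_singleton] at he'
    rcases he' with rfl | rfl
    · exact ear_notin hz0 a he
    · exact ear_notin hz0 b he
  intro v hv
  rw [dg_union hdis, dg_pair hab]
  rw [mem_insert] at hv
  rcases hv with rfl | hv
  · rw [hz0, h1]; simp
  · rw [hd v hv]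
    have hvz : v ≠ z := by rintro rfl; exact hz hv
    simp only [Sym2.mem_iff, hvz, or_false]
    by_cases hva : v = a
    · subst hva; simp [hab, h2]
    · by_cases hvb : v = b
      · subst hvb; simp [hab.symm, h3]
      · simp [hva, hvb, h4 v hv hva hvb]

theorem Net.earA {S : Finset V} {d d' : V → ℕ} {K t : ℕ} {a b z : V} (h : Net S d K t a b)
    (hz : z ∉ S) (h1 : d' z = 2) (h2 : d' a = d a + 1) (h3 : d' b = d b + 1)
    (h4 : ∀ v ∈ S, v ≠ a → v ≠ b → d' v = d v) : Net (insert z S) d' (K + t + 1) (t + 1) a z := by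
  obtain ⟨ha, hb, hab⟩ := h.mem
  obtain ⟨F, g1, g2, g3, g4, g5⟩ := h
  have haz : a ≠ z := by rintro rfl; exact hz ha
  have hbz : b ≠ z := by rintro rfl; exact hz hb
  have hz0 := g1.dg_zero hz
  exact ⟨F ∪ {s(a, z), s(b, z)}, ok_ear g1 ha hb hz, ear_deg g1 ha hb hab hz g2 h1 h2 h3 h4,
    by rw [circ_ear hab haz hbz g4 hz0, g3, g5], by simp,
    by rw [thr_ear hab haz hbz g4 hz0, g5]⟩

theorem Net.earC {S : Finset V} {d d' : V → ℕ} {K t : ℕ} {a b z : V} (h : Net S d K t a b)
    (hz : z ∉ S) (h1 : d' z = 2) (h2 : d' a = d a + 1) (h3 : d' b = d b + 1)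
    (h4 : ∀ v ∈ S, v ≠ a → v ≠ b → d' v = d v) : Net (insert z S) d' (K + t + 1) (t + 1) a b := by
  obtain ⟨ha, hb, hab⟩ := h.mem
  obtain ⟨F, g1, g2, g3, g4, g5⟩ := h
  have haz : a ≠ z := by rintro rfl; exact hz ha
  have hbz : b ≠ z := by rintro rfl; exact hz hb
  have hz0 := g1.dg_zero hz
  exact ⟨F ∪ {s(a, z), s(b, z)}, ok_ear g1 ha hb hz, ear_deg g1 ha hb hab hz g2 h1 h2 h3 h4,
    by rw [circ_ear hab haz hbz g4 hz0, g3, g5], mem_union_left _ g4,
    by rw [thr_root hab haz hbz g4 hz0, g5]⟩

theorem Net.earB {S : Finset V} {d d' : V → ℕ} {K t : ℕ} {a b z : V} (h : Net S d K t a b)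
    (hda : d a = 2) (hz : z ∉ S) (h1 : d' z = 2) (h2 : d' a = d a + 1) (h3 : d' b = d b + 1)
    (h4 : ∀ v ∈ S, v ≠ a → v ≠ b → d' v = d v) :
    ∃ a', Net (insert z S) d' (K + t + 1) (2 * t) a' a := by
  obtain ⟨ha, hb, hab⟩ := h.mem
  obtain ⟨F, g1, g2, g3, g4, g5⟩ := h
  have haz : a ≠ z := by rintro rfl; exact hz ha
  have hbz : b ≠ z := by rintro rfl; exact hz hb
  have hz0 := g1.dg_zero hz
  have hda2 : dg F a = 2 := by rw [g2 a ha, hda]
  -- the other edge at a
  have hex : ∃ a', a' ≠ b ∧ s(a', a) ∈ F := by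
    obtain ⟨x, y, hxy, _, _, hx, hy⟩ := exists_nbrs g1 hda2
    by_cases hxb : x = b
    · exact ⟨y, fun h => hxy (hxb.trans h.symm), hy⟩
    · exact ⟨x, hxb, hx⟩
  obtain ⟨a', ha'b, ha'F⟩ := hex
  have hstar := star_eq ha'F (by rw [Sym2.eq_swap]; exact g4 : s(b, a) ∈ F) ha'b hda2
  have hne : s(a', a) ≠ s(a, b) := by
    intro h
    rw [Sym2.eq_swap, Sym2.congr_right] at h
    exact ha'b h
  have hser : ∀ C, C ⊆ F → IsC EvenSet C → (s(a', a) ∈ C ↔ s(a, b) ∈ C) := by
    intro C hC hCc
    have hat : ∀ f ∈ C, a ∈ f → f = s(a', a) ∨ f = s(a, b) := by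
      intro f hf haf
      have : f ∈ F.filter (fun e => a ∈ e) := mem_filter.mpr ⟨hC hf, haf⟩
      rw [hstar] at this
      simp only [mem_insert, mem_singleton] at this
      rcases this with h | h
      · exact Or.inl h
      · right; rw [h, Sym2.eq_swap]
    constructor
    · intro h
      by_contra hn
      refine no_pendant hCc.1 (e := s(a', a)) (v := a) (by simp) ?_ h
      intro f hf haf
      rcases hat f hf haf with h1 | h1
      · exact h1
      · rw [h1] at hf; exact absurd hf hn
    · intro h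
      by_contra hn
      refine no_pendant hCc.1 (e := s(a, b)) (v := a) (by simp) ?_ h
      intro f hf haf
      rcases hat f hf haf with h1 | h1
      · rw [h1] at hf; exact absurd hf hn
      · exact h1
  exact ⟨a', F ∪ {s(a, z), s(b, z)}, ok_ear g1 ha hb hz,
    ear_deg g1 ha hb hab hz g2 h1 h2 h3 h4,
    by rw [circ_ear hab haz hbz g4 hz0, g3, g5], mem_union_left _ ha'F,
    by rw [thr_mate hab haz hbz g4 hz0 ha'F hne hser, g5]⟩

/-- subdividing the root -/
theorem Net.sub {S : Finset V} {d d' : V → ℕ} {K t : ℕ} {a b z : V} (h : Net S d K t a b)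
    (hz : z ∉ S) (h1 : d' z = 2) (h2 : ∀ v ∈ S, d' v = d v) :
    Net (insert z S) d' K t a z := by
  obtain ⟨ha, hb, hab⟩ := h.mem
  obtain ⟨F, g1, g2, g3, g4, g5⟩ := h
  have haz : a ≠ z := by rintro rfl; exact hz ha
  have hbz : b ≠ z := by rintro rfl; exact hz hb
  have hz0 := g1.dg_zero hz
  have hzF : ∀ e ∈ F, z ∉ e := by
    intro e he hze
    have := dg_pos.mpr ⟨e, he, hze⟩
    omega
  have e3 : s(a, z) ≠ s(b, z) := by simp [hbz, hab, haz]
  have n1 : s(a, z) ∉ F := ear_notin hz0 a
  have n2 : s(b, z) ∉ F := ear_notin hz0 b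
  have mF' : ∀ e, e ∈ (F.erase s(a, b) ∪ {s(a, z), s(b, z)} : Finset (Sym2 V)) ↔
      (e ≠ s(a, b) ∧ e ∈ F) ∨ e = s(a, z) ∨ e = s(b, z) := by
    intro e; simp only [mem_union, mem_erase, mem_insert, mem_singleton]
  have hdis : Disjoint (F.erase s(a, b)) ({s(a, z), s(b, z)} : Finset (Sym2 V)) := by
    rw [disjoint_left]
    intro e h1 h2
    have h3 := (mem_erase.mp h1).2
    simp only [mem_insert, mem_singleton] at h2
    rcases h2 with rfl | rfl
    · exact n1 h3
    · exact n2 h3
  have hdg0 : ∀ w, dg F w = dg (F.erase s(a, b)) w + dg ({s(a, b)} : Finset (Sym2 V)) w := by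
    intro w
    rw [← dg_union]
    · congr 1
      rw [union_comm, ← insert_eq, insert_erase g4]
    · rw [disjoint_singleton_right]; simp
  refine ⟨F.erase s(a, b) ∪ {s(a, z), s(b, z)}, ⟨?_, ?_, ⟨z, mem_insert_self _ _⟩, ?_⟩, ?_, ?_,
    by simp, by rw [thr_subdiv hab haz hbz g4 hz0, g5]⟩
  · intro e he
    rcases (mF' e).mp he with h1 | h1 | h1
    · exact g1.nd e h1.2
    · rw [h1]; simpa
    · rw [h1]; simpa
  · intro e he w hw
    rcases (mF' e).mp he with h1 | h1 | h1
    · exact mem_insert_of_mem (g1.sup e h1.2 w hw)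
    · rw [h1, Sym2.mem_iff] at hw
      rcases hw with rfl | rfl
      · exact mem_insert_of_mem ha
      · exact mem_insert_self _ _
    · rw [h1, Sym2.mem_iff] at hw
      rcases hw with rfl | rfl
      · exact mem_insert_of_mem hb
      · exact mem_insert_self _ _
  · set F' : Finset (Sym2 V) := F.erase s(a, b) ∪ {s(a, z), s(b, z)} with hF'
    have r1 : (SimpleGraph.fromEdgeSet (F' : Set (Sym2 V))).Reachable a z :=
      reach_of_mem ((mF' _).mpr (Or.inr (Or.inl rfl))) haz
    have r2 : (SimpleGraph.fromEdgeSet (F' : Set (Sym2 V))).Reachable b z :=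
      reach_of_mem ((mF' _).mpr (Or.inr (Or.inr rfl))) hbz
    have step : ∀ p q, (SimpleGraph.fromEdgeSet (F : Set (Sym2 V))).Adj p q →
        (SimpleGraph.fromEdgeSet (F' : Set (Sym2 V))).Reachable p q := by
      intro p q hpq
      rw [SimpleGraph.fromEdgeSet_adj] at hpq
      have hpqF : s(p, q) ∈ F := by exact_mod_cast hpq.1
      by_cases h1 : s(p, q) = s(a, b)
      · rw [Sym2.eq_iff] at h1
        rcases h1 with ⟨rfl, rfl⟩ | ⟨rfl, rfl⟩
        · exact r1.trans r2.symm
        · exact r2.trans r1.symm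
      · exact reach_of_mem ((mF' _).mpr (Or.inl ⟨h1, hpqF⟩)) hpq.2
    have lift : ∀ p q, (SimpleGraph.fromEdgeSet (F : Set (Sym2 V))).Reachable p q →
        (SimpleGraph.fromEdgeSet (F' : Set (Sym2 V))).Reachable p q := by
      intro p q hpq
      obtain ⟨w⟩ := hpq
      induction w with
      | nil => exact SimpleGraph.Reachable.refl _
      | cons hadj _ ih => exact (step _ _ hadj).trans ih
    have key : ∀ p ∈ insert z S,
        (SimpleGraph.fromEdgeSet (F' : Set (Sym2 V))).Reachable p a := by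
      intro p hp
      rw [mem_insert] at hp
      rcases hp with rfl | hp
      · exact r1.symm
      · exact lift _ _ (g1.con p hp a ha)
    intro p hp q hq
    exact (key p hp).trans (key q hq).symm
  · intro w hw
    rw [dg_union hdis, dg_pair hab]
    rw [mem_insert] at hw
    have hsing : ∀ w, dg ({s(a, b)} : Finset (Sym2 V)) w = (if w ∈ s(a, b) then 1 else 0) := by
      intro w
      unfold dg
      rw [card_filter, sum_singleton]
    rcases hw with rfl | hw
    · have h0 := hdg0 w
      rw [h1]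
      have h1 : dg (F.erase s(a, b)) w = 0 := by omega
      rw [h1]; simp
    · rw [h2 w hw, ← g2 w hw, hdg0 w, hsing]
      have hwz : w ≠ z := by rintro rfl; exact hz hw
      simp only [Sym2.mem_iff, hwz, or_false]
      by_cases h1 : w = a
      · subst h1; simp [hab]
      · by_cases h2 : w = b
        · subst h2; simp [hab.symm]
        · simp [h1, h2]
  · rw [card_circ_subdiv hab g4 hz0, g3]

/-- a triangle with any root edge -/
theorem net_triangle {a b z : V} (hab : a ≠ b) (haz : a ≠ z) (hbz : b ≠ z) (d : V → ℕ)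
    (ha : d a = 2) (hb : d b = 2) (hz : d z = 2) : Net {a, b, z} d 1 1 a b := by
  obtain ⟨F, h1, h2, h3⟩ := good_triangle hab haz hbz d ha hb hz
  have hFc : F.card = 3 := by
    have h4 := h1.sum_dg
    rw [sum_congr rfl h2] at h4
    have h5 : ∑ v ∈ ({a, b, z} : Finset V), d v = 6 := by
      rw [sum_insert (by simp [hab, haz]), sum_insert (by simp [hbz]), sum_singleton, ha, hb, hz]
      norm_num
    rw [h5] at h4
    omega
  have hsub : F ⊆ tri3 a b z := by
    intro e he
    have hnd := h1.nd e he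
    have hsup := h1.sup e he
    induction e using Sym2.ind with
    | _ p q =>
      have hp := hsup p (by simp)
      have hq := hsup q (by simp)
      have hpq : p ≠ q := by simpa using hnd
      simp only [mem_insert, mem_singleton] at hp hq ⊢
      rcases hp with rfl | rfl | rfl <;> rcases hq with rfl | rfl | rfl
      · exact absurd rfl hpq
      · exact Or.inl rfl
      · exact Or.inr (Or.inl rfl)
      · exact Or.inl Sym2.eq_swap
      · exact absurd rfl hpq
      · exact Or.inr (Or.inr rfl)
      · exact Or.inr (Or.inl Sym2.eq_swap)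
      · exact Or.inr (Or.inr Sym2.eq_swap)
      · exact absurd rfl hpq
  have hc : (tri3 a b z).card ≤ 3 := card_le_three
  have hFT : F = tri3 a b z := eq_of_subset_of_card_le hsub (by omega)
  refine ⟨F, h1, h2, h3, by rw [hFT]; simp, ?_⟩
  have h6 : thr EvenSet F s(a, b) = {tri3 a b z} := by
    ext D
    rw [mem_thr, mem_singleton]
    constructor
    · rintro ⟨d1, d2, _⟩
      rw [hFT] at d1
      exact (isC_tri3 hab haz hbz).eq_of_subset d2 d1
    · rintro rfl
      exact ⟨by rw [hFT], isC_tri3 hab haz hbz, by simp⟩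
  rw [h6, card_singleton]

end Pool.Agent.Helper53
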