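import Pool.Agent.Helper53.Sub

/-!
# Peeling operations and base cases
-/

open Finset Function
open scoped symmDiff

set_option linter.unusedSectionVars false
set_option linter.unusedSimpArgs false

namespace Pool.Agent.Helper53

variable {V : Type*} [Fintype V] [DecidableEq V]

/-- remove a leaf -/
theorem peel_leaf {S : Finset V} {d : V → ℕ} {k : ℕ} {v a : V} (ha : a ∈ S) (hv : v ∈ S)
    (hva : v ≠ a) (hda : d a = 1) (hdv : 2 ≤ d v)
    (h : Good (S.erase a) (update d v (d v - 1)) k) : Good S d k := by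
  have hS : S = S.erase a ∪ {v, a} := by
    ext x
    simp only [mem_union, mem_erase, mem_insert, mem_singleton]
    constructor
    · intro hx
      by_cases hxa : x = a
      · right; right; exact hxa
      · left; exact ⟨hxa, hx⟩
    · rintro (hx | rfl | rfl)
      · exact hx.2
      · exact hv
      · exact ha
  rw [hS]
  have := Good.glue h (good_edge hva (update (update (fun _ => 0) v 1) a 1) (by simp [hva])
    (by simp)) (v := v) (d := d) ?_ ?_ ?_ ?_
  · simpa using this
  · ext x
    simp only [mem_inter, mem_erase, mem_insert, mem_singleton]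
    constructor
    · rintro ⟨h1, h2 | h2⟩
      · exact h2
      · exact absurd h2 h1.1
    · rintro rfl; exact ⟨⟨hva, hv⟩, Or.inl rfl⟩
  · simp [hva]; omega
  · intro w _ hwv
    rw [update_of_ne hwv]
  · intro w hw hwv
    simp only [mem_insert, mem_singleton] at hw
    rcases hw with rfl | rfl
    · exact absurd rfl hwv
    · simp [hda]

/-- remove a pendant triangle -/
theorem peel_tri {S : Finset V} {d : V → ℕ} {k : ℕ} {v a b : V} (ha : a ∈ S) (hb : b ∈ S)
    (hv : v ∈ S) (hva : v ≠ a) (hvb : v ≠ b) (hab : a ≠ b) (hda : d a = 2) (hdb : d b = 2)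
    (hdv : 2 ≤ d v)
    (h : Good ((S.erase a).erase b) (update d v (d v - 2)) k) : Good S d (k + 1) := by
  have hS : S = (S.erase a).erase b ∪ {v, a, b} := by
    ext x
    simp only [mem_union, mem_erase, mem_insert, mem_singleton]
    constructor
    · intro hx
      by_cases hxa : x = a
      · right; right; left; exact hxa
      · by_cases hxb : x = b
        · right; right; right; exact hxb
        · left; exact ⟨hxb, hxa, hx⟩
    · rintro (hx | rfl | rfl | rfl)
      · exact hx.2.2
      · exact hv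
      · exact ha
      · exact hb
  rw [hS]
  have := Good.glue h (good_triangle hva hvb hab (fun _ => 2) rfl rfl rfl) (v := v) (d := d)
    ?_ ?_ ?_ ?_
  · exact this
  · ext x
    simp only [mem_inter, mem_erase, mem_insert, mem_singleton]
    constructor
    · rintro ⟨h1, h2 | h2 | h2⟩
      · exact h2
      · exact absurd h2 h1.2.1
      · exact absurd h2 h1.1
    · rintro rfl; exact ⟨⟨hvb, hva, hv⟩, Or.inl rfl⟩
  · simp; omega
  · intro w _ hwv
    rw [update_of_ne hwv]
  · intro w hw hwv
    simp only [mem_insert, mem_singleton] at hw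
    rcases hw with rfl | rfl | rfl
    · exact absurd rfl hwv
    · exact hda
    · exact hdb

/-- remove a pendant diamond attached at a vertex of degree two of the diamond -/
theorem peel_dia {S : Finset V} {d : V → ℕ} {k : ℕ} {v a b c : V} (ha : a ∈ S) (hb : b ∈ S)
    (hc : c ∈ S) (hv : v ∈ S) (hva : v ≠ a) (hvb : v ≠ b) (hvc : v ≠ c) (hab : a ≠ b)
    (hac : a ≠ c) (hbc : b ≠ c) (hda : d a = 3) (hdb : d b = 3) (hdc : d c = 2)
    (hdv : 2 ≤ d v)
    (h : Good (((S.erase a).erase b).erase c) (update d v (d v - 2)) k) : Good S d (k + 3) := by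
  have hS : S = ((S.erase a).erase b).erase c ∪ {v, a, b, c} := by
    ext x
    simp only [mem_union, mem_erase, mem_insert, mem_singleton]
    constructor
    · intro hx
      by_cases hxa : x = a
      · right; right; left; exact hxa
      · by_cases hxb : x = b
        · right; right; right; left; exact hxb
        · by_cases hxc : x = c
          · right; right; right; right; exact hxc
          · left; exact ⟨hxc, hxb, hxa, hx⟩
    · rintro (hx | rfl | rfl | rfl | rfl)
      · exact hx.2.2.2
      · exact hv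
      · exact ha
      · exact hb
      · exact hc
  rw [hS]
  have := Good.glue h (good_diamond hva hvb hvc hab hac hbc
    (update (update (fun _ => 2) a 3) b 3) ?_ ?_ ?_ ?_) (v := v) (d := d) ?_ ?_ ?_ ?_
  · exact this
  · simp [hva, hvb]
  · simp [hab]
  · simp
  · simp [hac.symm, hbc.symm]
  · ext x
    simp only [mem_inter, mem_erase, mem_insert, mem_singleton]
    constructor
    · rintro ⟨h1, h2 | h2 | h2 | h2⟩
      · exact h2
      · exact absurd h2 h1.2.2.1
      · exact absurd h2 h1.2.1
      · exact absurd h2 h1.1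
    · rintro rfl; exact ⟨⟨hvc, hvb, hva, hv⟩, Or.inl rfl⟩
  · simp [hva, hvb]; omega
  · intro w _ hwv
    rw [update_of_ne hwv]
  · intro w hw hwv
    simp only [mem_insert, mem_singleton] at hw
    rcases hw with rfl | rfl | rfl | rfl
    · exact absurd rfl hwv
    · simp [hab, hda]
    · simp [hdb]
    · simp [hac.symm, hbc.symm, hdc]

/-- undo a subdivision -/
theorem peel_sub {S : Finset V} {d : V → ℕ} {k : ℕ} {a : V} (ha : a ∈ S) (hda : d a = 2)
    (hk : 1 ≤ k) (h : Good (S.erase a) d k) : Good S d k := by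
  have := h.subdivide hk (z := a) (d' := d) (by simp) (fun _ _ => rfl) hda
  rwa [insert_erase ha] at this

/-- cycles of all lengths -/
theorem good_cycle (d : V → ℕ) : ∀ (n : ℕ) (S : Finset V), S.card = n + 3 →
    (∀ v ∈ S, d v = 2) → Good S d 1 := by
  intro n
  induction n with
  | zero =>
    intro S hS hd
    obtain ⟨x, y, z, hxy, hxz, hyz, rfl⟩ := card_eq_three.mp hS
    exact good_triangle hxy hxz hyz d (hd x (by simp)) (hd y (by simp)) (hd z (by simp))
  | succ n ih =>
    intro S hS hd
    have hne : S.Nonempty := by rw [← card_pos]; omega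
    obtain ⟨a, ha⟩ := hne
    apply peel_sub ha (hd a ha) le_rfl
    apply ih
    · rw [card_erase_of_mem ha]; omega
    · intro v hv; exact hd v (mem_of_mem_erase hv)

/-- theta graphs -/
theorem good_theta (d : V → ℕ) {a b : V} (hab : a ≠ b) (hda : d a = 3) (hdb : d b = 3) :
    ∀ (n : ℕ) (S : Finset V), S.card = n + 4 → a ∈ S → b ∈ S →
    (∀ v ∈ S, v ≠ a → v ≠ b → d v = 2) → Good S d 3 := by
  intro n
  induction n with
  | zero =>
    intro S hS ha hb hd
    have hb' : b ∈ S.erase a := mem_erase.mpr ⟨hab.symm, hb⟩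
    have h1 : ((S.erase a).erase b).card = 2 := by
      rw [card_erase_of_mem hb', card_erase_of_mem ha]; omega
    obtain ⟨x, y, hxy, hxy'⟩ := card_eq_two.mp h1
    have hx : x ∈ (S.erase a).erase b := by rw [hxy']; simp
    have hy : y ∈ (S.erase a).erase b := by rw [hxy']; simp
    rw [mem_erase, mem_erase] at hx hy
    have hS' : S = {x, a, b, y} := by
      ext z
      constructor
      · intro hz
        by_cases h2 : z = a
        · simp [h2]
        · by_cases h3 : z = b
          · simp [h3]
          · have : z ∈ (S.erase a).erase b := mem_erase.mpr ⟨h3, mem_erase.mpr ⟨h2, hz⟩⟩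
            rw [hxy'] at this
            simp only [mem_insert, mem_singleton] at this ⊢
            tauto
      · intro hz
        simp only [mem_insert, mem_singleton] at hz
        rcases hz with rfl | rfl | rfl | rfl
        · exact hx.2.2
        · exact ha
        · exact hb
        · exact hy.2.2
    rw [hS']
    exact good_diamond hx.2.1 hx.1 hxy hab (Ne.symm hy.2.1) (Ne.symm hy.1) d
      (hd x hx.2.2 hx.2.1 hx.1) hda hdb (hd y hy.2.2 hy.2.1 hy.1)
  | succ n ih =>
    intro S hS ha hb hd
    have hb' : b ∈ S.erase a := mem_erase.mpr ⟨hab.symm, hb⟩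
    have h1 : 0 < ((S.erase a).erase b).card := by
      rw [card_erase_of_mem hb', card_erase_of_mem ha]; omega
    obtain ⟨c, hc⟩ := card_pos.mp h1
    rw [mem_erase, mem_erase] at hc
    apply peel_sub hc.2.2 (hd c hc.2.2 hc.2.1 hc.1) (by norm_num)
    apply ih
    · rw [card_erase_of_mem hc.2.2]; omega
    · exact mem_erase.mpr ⟨Ne.symm hc.2.1, ha⟩
    · exact mem_erase.mpr ⟨Ne.symm hc.1, hb⟩
    · intro v hv h2 h3; exact hd v (mem_of_mem_erase hv) h2 h3

section sums

theorem sum_update_add {S : Finset V} {v : V} (hv : v ∈ S) (d : V → ℕ) (t : ℕ) (f : ℕ → ℕ) :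
    ∑ x ∈ S, f (update d v t x) + f (d v) = ∑ x ∈ S, f (d x) + f t := by
  rw [← add_sum_erase S (fun x => f (update d v t x)) hv,
    ← add_sum_erase S (fun x => f (d x)) hv]
  have : ∑ x ∈ S.erase v, f (update d v t x) = ∑ x ∈ S.erase v, f (d x) := by
    refine sum_congr rfl ?_
    intro x hx
    rw [update_of_ne (mem_erase.mp hx).1]
  rw [this]
  simp
  ring

theorem sum_erase1 {S : Finset V} {v a : V} (ha : a ∈ S) (hv : v ∈ S) (hva : v ≠ a) (d : V → ℕ)
    (t : ℕ) (f : ℕ → ℕ) :
    ∑ x ∈ S.erase a, f (update d v t x) + f (d a) + f (d v) = ∑ x ∈ S, f (d x) + f t := by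
  have h1 := sum_update_add (S := S.erase a) (mem_erase.mpr ⟨hva, hv⟩) d t f
  have h2 := add_sum_erase S (fun x => f (d x)) ha
  omega

theorem sum_erase2 {S : Finset V} {v a b : V} (ha : a ∈ S) (hb : b ∈ S) (hv : v ∈ S)
    (hva : v ≠ a) (hvb : v ≠ b) (hab : a ≠ b) (d : V → ℕ) (t : ℕ) (f : ℕ → ℕ) :
    ∑ x ∈ (S.erase a).erase b, f (update d v t x) + f (d a) + f (d b) + f (d v)
      = ∑ x ∈ S, f (d x) + f t := by
  have h1 := sum_erase1 (S := S.erase a) (mem_erase.mpr ⟨hab.symm, hb⟩)
    (mem_erase.mpr ⟨hva, hv⟩) hvb d t f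
  have h2 := add_sum_erase S (fun x => f (d x)) ha
  omega

theorem sum_erase3 {S : Finset V} {v a b c : V} (ha : a ∈ S) (hb : b ∈ S) (hc : c ∈ S)
    (hv : v ∈ S) (hva : v ≠ a) (hvb : v ≠ b) (hvc : v ≠ c) (hab : a ≠ b) (hac : a ≠ c)
    (hbc : b ≠ c) (d : V → ℕ) (t : ℕ) (f : ℕ → ℕ) :
    ∑ x ∈ ((S.erase a).erase b).erase c, f (update d v t x) + f (d a) + f (d b) + f (d c)
      + f (d v) = ∑ x ∈ S, f (d x) + f t := by
  have h1 := sum_erase2 (S := S.erase a) (mem_erase.mpr ⟨hab.symm, hb⟩)
    (mem_erase.mpr ⟨hac.symm, hc⟩) (mem_erase.mpr ⟨hva, hv⟩) hvb hvc hbc d t f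
  have h2 := add_sum_erase S (fun x => f (d x)) ha
  omega

end sums

end Pool.Agent.Helper53
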