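import Pool.Agent.Helper53.Build

/-!
# Pieces: edge, triangle, diamond, and subdivision
-/

open Finset
open scoped symmDiff

set_option linter.unusedSectionVars false
set_option linter.unusedSimpArgs false

namespace Pool.Agent.Helper53

variable {V : Type*} [Fintype V] [DecidableEq V]

/-- an even set has no pendant edge -/
theorem no_pendant {X : Finset (Sym2 V)} (hX : EvenSet X) {e : Sym2 V} {v : V} (hv : v ∈ e)
    (h : ∀ f ∈ X, v ∈ f → f = e) : e ∉ X := by
  intro he
  have h1 : X.filter (fun f => v ∈ f) = {e} := by
    ext f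
    rw [mem_filter, mem_singleton]
    constructor
    · rintro ⟨h1, h2⟩; exact h f h1 h2
    · rintro rfl; exact ⟨he, hv⟩
  have h2 := hX.2 v
  unfold dg at h2
  rw [h1] at h2
  simp at h2

theorem card_evs_le {F K : Finset (Sym2 V)} (h : ∀ X, X ⊆ F \ K → EvenSet X → X = ∅) :
    (evs EvenSet F).card ≤ 2 ^ K.card := by
  rw [← card_powerset]
  apply card_le_card_of_injOn (fun X => X ∩ K)
  · intro X _
    rw [mem_coe, mem_powerset]
    exact inter_subset_right
  · intro X hX Y hY hXY
    rw [mem_coe, mem_evs] at hX hY
    have h1 : X ∆ Y = ∅ := by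
      apply h _ _ (fam_evenSet.add _ _ hX.2 hY.2)
      intro e he
      have h2 : (e ∈ X ∩ K) ↔ (e ∈ Y ∩ K) := by
        have : X ∩ K = Y ∩ K := hXY
        rw [this]
      rw [mem_inter, mem_inter] at h2
      rw [mem_symmDiff] at he
      rw [mem_sdiff]
      have := @hX.1 e
      have := @hY.1 e
      tauto
    exact symmDiff_eq_bot.mp h1

theorem card_circ_lt (F : Finset (Sym2 V)) :
    (circ EvenSet F).card + 1 ≤ (evs EvenSet F).card := by
  classical
  have h1 : circ EvenSet F ⊆ (evs EvenSet F).erase ∅ := by
    intro X hX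
    rw [mem_circ] at hX
    rw [mem_erase, mem_evs]
    exact ⟨nonempty_iff_ne_empty.mp hX.2.2.1, hX.1, hX.2.1⟩
  have h2 : ∅ ∈ evs EvenSet F := mem_evs.mpr ⟨empty_subset _, fam_evenSet.zero⟩
  have h3 := card_le_card h1
  have h4 := card_erase_add_one h2
  omega

theorem Ok.card_le {S : Finset V} {F : Finset (Sym2 V)} (h : Ok S F) (hne : F.Nonempty) :
    F.card + 1 ≤ mu EvenSet F + S.card := by
  obtain ⟨e, he⟩ := hne
  have htne : (tch F).Nonempty := by
    obtain ⟨v, hv⟩ : ∃ v, v ∈ e := ⟨e.out.1, Sym2.out_fst_mem e⟩
    exact ⟨v, mem_tch.mpr (dg_pos.mpr ⟨e, he, hv⟩)⟩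
  have h1 := card_le_mu_add h.nd htne
  have h2 : tch F ⊆ S := by
    intro v hv
    obtain ⟨f, hf, hvf⟩ := dg_pos.mp (mem_tch.mp hv)
    exact h.sup f hf v hvf
  have := card_le_card h2
  omega

/-- exact count of circuits from bounds -/
theorem card_circ_eq {S : Finset V} {F K : Finset (Sym2 V)} (h : Ok S F) (hne : F.Nonempty)
    (hK : ∀ X, X ⊆ F \ K → EvenSet X → X = ∅) {k : ℕ}
    (h1 : 4 * (F.card + 1 - S.card) = k + F.card) (h2 : 2 ^ K.card = k + 1) :
    (circ EvenSet F).card = k := by
  have h3 := h.card_le hne
  have h4 := four_mu_le fam_evenSet (fun C hC => three_le_of_circuit hC) F.card F le_rfl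
  have h5 : (cyc EvenSet F).card ≤ F.card := card_le_card (cyc_subset F)
  have h6 := card_circ_lt F
  have h7 := card_evs_le hK
  omega

theorem reach_of_mem {F : Finset (Sym2 V)} {x y : V} (h : s(x, y) ∈ F) (hne : x ≠ y) :
    (SimpleGraph.fromEdgeSet (F : Set (Sym2 V))).Reachable x y := by
  apply SimpleGraph.Adj.reachable
  rw [SimpleGraph.fromEdgeSet_adj]
  exact ⟨by exact_mod_cast h, hne⟩

theorem good_edge {v a : V} (hva : v ≠ a) (d : V → ℕ) (hv : d v = 1) (ha : d a = 1) :
    Good {v, a} d 0 := by
  have hok : Ok {v, a} ({s(v, a)} : Finset (Sym2 V)) := by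
    refine ⟨?_, ?_, ?_, ?_⟩
    · intro e he
      rw [mem_singleton] at he
      rw [he]; simpa using hva
    · intro e he w hw
      rw [mem_singleton] at he
      rw [he] at hw
      simpa using hw
    · exact ⟨v, by simp⟩
    · have h1 := reach_of_mem (F := ({s(v, a)} : Finset (Sym2 V))) (x := v) (y := a)
        (by simp) hva
      intro x hx y hy
      simp only [mem_insert, mem_singleton] at hx hy
      rcases hx with rfl | rfl <;> rcases hy with rfl | rfl
      · exact SimpleGraph.Reachable.refl _
      · exact h1
      · exact h1.symm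
      · exact SimpleGraph.Reachable.refl _
  refine ⟨{s(v, a)}, hok, ?_, ?_⟩
  · intro w hw
    simp only [mem_insert, mem_singleton] at hw
    unfold dg
    rcases hw with rfl | rfl
    · rw [hv]; simp [filter_singleton]
    · rw [ha]; simp [filter_singleton]
  · rw [card_eq_zero]
    ext X
    rw [mem_circ]
    constructor
    · rintro ⟨h1, h2⟩
      obtain ⟨e, he⟩ := h2.2.1
      have h3 := h1 he
      rw [mem_singleton] at h3
      subst h3
      exfalso
      refine no_pendant h2.1 (v := v) (by simp) ?_ he
      intro f hf _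
      have := h1 hf
      rwa [mem_singleton] at this
    · intro h; simp at h

theorem good_triangle {v a b : V} (hva : v ≠ a) (hvb : v ≠ b) (hab : a ≠ b) (d : V → ℕ)
    (hv : d v = 2) (ha : d a = 2) (hb : d b = 2) : Good {v, a, b} d 1 := by
  set F : Finset (Sym2 V) := {s(v, a), s(v, b), s(a, b)} with hF
  have e1 : s(v, a) ≠ s(v, b) := by
    intro h; rw [Sym2.congr_right] at h; exact hab h
  have e2 : s(v, a) ≠ s(a, b) := by
    intro h
    rw [Sym2.eq_swap, Sym2.congr_right] at h; exact hvb h
  have e3 : s(v, b) ≠ s(a, b) := by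
    intro h
    rw [Sym2.congr_left] at h; exact hva h
  have hcard : F.card = 3 := by
    rw [hF, card_insert_of_notMem, card_pair e3]
    simp [e1, e2]
  have hok : Ok {v, a, b} F := by
    refine ⟨?_, ?_, ?_, ?_⟩
    · intro e he
      rw [hF] at he
      simp only [mem_insert, mem_singleton] at he
      rcases he with rfl | rfl | rfl <;> simpa
    · intro e he w hw
      rw [hF] at he
      simp only [mem_insert, mem_singleton] at he
      rcases he with rfl | rfl | rfl <;> simp at hw <;> rcases hw with rfl | rfl <;> simp
    · exact ⟨v, by simp⟩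
    · have h1 : (SimpleGraph.fromEdgeSet (F : Set (Sym2 V))).Reachable v a :=
        reach_of_mem (by rw [hF]; simp) hva
      have h2 : (SimpleGraph.fromEdgeSet (F : Set (Sym2 V))).Reachable v b :=
        reach_of_mem (by rw [hF]; simp) hvb
      have key : ∀ x ∈ ({v, a, b} : Finset V),
          (SimpleGraph.fromEdgeSet (F : Set (Sym2 V))).Reachable v x := by
        intro x hx
        simp only [mem_insert, mem_singleton] at hx
        rcases hx with rfl | rfl | rfl
        · exact SimpleGraph.Reachable.refl _
        · exact h1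
        · exact h2
      intro x hx y hy
      exact (key x hx).symm.trans (key y hy)
  have hScard : ({v, a, b} : Finset V).card = 3 := by
    rw [card_insert_of_notMem, card_pair hab]
    simp [hva, hvb]
  refine ⟨F, hok, ?_, ?_⟩
  · intro w hw
    simp only [mem_insert, mem_singleton] at hw
    unfold dg
    rcases hw with rfl | rfl | rfl
    · rw [hv, hF]
      simp [filter_insert, filter_singleton, hva, hvb, e1]
    · rw [ha, hF]
      simp [filter_insert, filter_singleton, hva.symm, hab, e2]
    · rw [hb, hF]
      simp [filter_insert, filter_singleton, hvb.symm, hab.symm, e3]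
  · refine card_circ_eq (K := {s(v, a)}) hok ⟨s(v, a), by rw [hF]; simp⟩ ?_ ?_ ?_
    · intro X hX hXe
      have hX' : ∀ f ∈ X, f = s(v, b) ∨ f = s(a, b) := by
        intro f hf
        have := hX hf
        rw [mem_sdiff, hF] at this
        simp only [mem_insert, mem_singleton] at this
        tauto
      have n1 : s(v, b) ∉ X := by
        apply no_pendant hXe (v := v) (by simp)
        intro f hf hvf
        rcases hX' f hf with rfl | rfl
        · rfl
        · simp [hva, hvb] at hvf
      have n2 : s(a, b) ∉ X := by
        apply no_pendant hXe (v := a) (by simp)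
        intro f hf hvf
        rcases hX' f hf with rfl | rfl
        · simp [hva.symm, hab] at hvf
        · rfl
      rw [eq_empty_iff_forall_notMem]
      intro f hf
      rcases hX' f hf with rfl | rfl
      · exact n1 hf
      · exact n2 hf
    · rw [hcard, hScard]
    · simp

theorem good_diamond {v a b c : V} (hva : v ≠ a) (hvb : v ≠ b) (hvc : v ≠ c) (hab : a ≠ b)
    (hac : a ≠ c) (hbc : b ≠ c) (d : V → ℕ) (hv : d v = 2) (ha : d a = 3) (hb : d b = 3)
    (hc : d c = 2) : Good {v, a, b, c} d 3 := by
  set F : Finset (Sym2 V) := {s(v, a), s(v, b), s(a, b), s(a, c), s(b, c)} with hF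
  have e1 : s(v, a) ≠ s(v, b) := by simp [hab, hva, hvb, hvc, hac, hbc, hva.symm]
  have e2 : s(v, a) ≠ s(a, b) := by
    simp [hab, hva, hvb, hvc, hac, hbc]
  have e3 : s(v, a) ≠ s(a, c) := by
    simp [hab, hva, hvb, hvc, hac, hbc]
  have e4 : s(v, a) ≠ s(b, c) := by
    simp [hab, hva, hvb, hvc, hac, hbc]
  have e5 : s(v, b) ≠ s(a, b) := by
    simp [hab, hva, hvb, hvc, hac, hbc]
  have e6 : s(v, b) ≠ s(a, c) := by
    simp [hab, hva, hvb, hvc, hac, hbc]
  have e7 : s(v, b) ≠ s(b, c) := by
    simp [hab, hva, hvb, hvc, hac, hbc]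
  have e8 : s(a, b) ≠ s(a, c) := by
    simp [hab, hva, hvb, hvc, hac, hbc]
  have e9 : s(a, b) ≠ s(b, c) := by
    simp [hab, hva, hvb, hvc, hac, hbc]
  have e10 : s(a, c) ≠ s(b, c) := by
    simp [hab, hva, hvb, hvc, hac, hbc]
  have hcard : F.card = 5 := by
    rw [hF, card_insert_of_notMem, card_insert_of_notMem, card_insert_of_notMem, card_pair e10]
    · simp only [mem_insert, mem_singleton, not_or]; exact ⟨e8, e9⟩
    · simp only [mem_insert, mem_singleton, not_or]; exact ⟨e5, e6, e7⟩
    · simp only [mem_insert, mem_singleton, not_or]; exact ⟨e1, e2, e3, e4⟩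
  have hok : Ok {v, a, b, c} F := by
    refine ⟨?_, ?_, ?_, ?_⟩
    · intro e he
      rw [hF] at he
      simp only [mem_insert, mem_singleton] at he
      rcases he with rfl | rfl | rfl | rfl | rfl <;> simpa
    · intro e he w hw
      rw [hF] at he
      simp only [mem_insert, mem_singleton] at he
      rcases he with rfl | rfl | rfl | rfl | rfl <;> simp at hw <;> rcases hw with rfl | rfl <;>
        simp
    · exact ⟨v, by simp⟩
    · have h1 : (SimpleGraph.fromEdgeSet (F : Set (Sym2 V))).Reachable v a :=
        reach_of_mem (by rw [hF]; simp) hva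
      have h2 : (SimpleGraph.fromEdgeSet (F : Set (Sym2 V))).Reachable v b :=
        reach_of_mem (by rw [hF]; simp) hvb
      have h3 : (SimpleGraph.fromEdgeSet (F : Set (Sym2 V))).Reachable a c :=
        reach_of_mem (by rw [hF]; simp) hac
      have key : ∀ x ∈ ({v, a, b, c} : Finset V),
          (SimpleGraph.fromEdgeSet (F : Set (Sym2 V))).Reachable v x := by
        intro x hx
        simp only [mem_insert, mem_singleton] at hx
        rcases hx with rfl | rfl | rfl | rfl
        · exact SimpleGraph.Reachable.refl _
        · exact h1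
        · exact h2
        · exact h1.trans h3
      intro x hx y hy
      exact (key x hx).symm.trans (key y hy)
  have hScard : ({v, a, b, c} : Finset V).card = 4 := by
    rw [card_insert_of_notMem, card_insert_of_notMem, card_pair hbc]
    · simp [hab, hac]
    · simp [hva, hvb, hvc]
  refine ⟨F, hok, ?_, ?_⟩
  · intro w hw
    simp only [mem_insert, mem_singleton] at hw
    rcases hw with rfl | rfl | rfl | rfl
    · have : F.filter (fun e => w ∈ e) = {s(w, a), s(w, b)} := by
        rw [hF]
        simp [filter_insert, filter_singleton, hva, hvb, hvc]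
      unfold dg
      rw [this, hv, card_pair e1]
    · have : F.filter (fun e => w ∈ e) = {s(v, w), s(w, b), s(w, c)} := by
        rw [hF]
        simp [filter_insert, filter_singleton, hva.symm, hab, hac]
      unfold dg
      rw [this, ha, card_insert_of_notMem, card_pair e8]
      simp only [mem_insert, mem_singleton, not_or]; exact ⟨e2, e3⟩
    · have : F.filter (fun e => w ∈ e) = {s(v, w), s(a, w), s(w, c)} := by
        rw [hF]
        simp [filter_insert, filter_singleton, hvb.symm, hab.symm, hbc]
      unfold dg
      rw [this, hb, card_insert_of_notMem, card_pair e9]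
      simp only [mem_insert, mem_singleton, not_or]; exact ⟨e5, e7⟩
    · have : F.filter (fun e => w ∈ e) = {s(a, w), s(b, w)} := by
        rw [hF]
        simp [filter_insert, filter_singleton, hvc.symm, hac.symm, hbc.symm]
      unfold dg
      rw [this, hc, card_pair e10]
  · refine card_circ_eq (K := {s(v, a), s(a, c)}) hok ⟨s(v, a), by rw [hF]; simp⟩ ?_ ?_ ?_
    · intro X hX hXe
      have hX' : ∀ f ∈ X, f = s(v, b) ∨ f = s(a, b) ∨ f = s(b, c) := by
        intro f hf
        have := hX hf
        rw [mem_sdiff, hF] at this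
        simp only [mem_insert, mem_singleton] at this
        tauto
      have n1 : s(v, b) ∉ X := by
        apply no_pendant hXe (v := v) (by simp)
        intro f hf hvf
        rcases hX' f hf with rfl | rfl | rfl
        · rfl
        · simp [hva, hvb] at hvf
        · simp [hvb, hvc] at hvf
      have n2 : s(a, b) ∉ X := by
        apply no_pendant hXe (v := a) (by simp)
        intro f hf hvf
        rcases hX' f hf with rfl | rfl | rfl
        · simp [hva.symm, hab] at hvf
        · rfl
        · simp [hab, hac] at hvf
      have n3 : s(b, c) ∉ X := by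
        apply no_pendant hXe (v := c) (by simp)
        intro f hf hvf
        rcases hX' f hf with rfl | rfl | rfl
        · simp [hvc.symm, hbc.symm] at hvf
        · simp [hac.symm, hbc.symm] at hvf
        · rfl
      rw [eq_empty_iff_forall_notMem]
      intro f hf
      rcases hX' f hf with rfl | rfl | rfl
      · exact n1 hf
      · exact n2 hf
      · exact n3 hf
    · rw [hcard, hScard]
    · rw [card_pair e3]; norm_num

end Pool.Agent.Helper53
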