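import Pool.Agent.Helper53.Exp

/-!
# Sequences with many large and many odd terms
-/

open Finset Function
open scoped symmDiff

set_option linter.unusedSectionVars false
set_option linter.unusedSimpArgs false

namespace Pool.Agent.Helper53

variable {V : Type*} [Fintype V] [DecidableEq V]

theorem good_of_bs {d : V → ℕ} {μ e n : ℕ} (hB : Bs V n e) (hd : ∀ v, 1 ≤ d v)
    (hsum : ∑ v, d v + 2 = 2 * (Fintype.card V + μ)) (hμ : n + 1 ≤ μ)
    (hh : 2 * n ≤ ∑ v, i3 (d v)) (ho : 2 * n ≤ ∑ v, io (d v))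
    (h1 : ∑ v, i1 (d v) + 2 * μ + n ≤ Fintype.card V + 1)
    (h2 : ∑ v, io (d v) + 4 * μ ≤ 2 * Fintype.card V + 2) : Good univ d (μ + e) := by
  have hq := sum_io_eq (O := univ) (fun v _ => hd v)
  obtain ⟨B, hBb, hBc, hBo⟩ := choose_odd (big3 d) d (n := 2 * n) (by rw [card_big3]; exact hh)
  rw [sum_big3] at hBo
  have hsp : ∑ v ∈ B, (d v - 3) % 2 + ∑ v ∈ B, io (d v) = 2 * n := by
    rw [← sum_add_distrib, ← hBc, card_eq_sum_ones]
    refine sum_congr rfl ?_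
    intro v hv
    have := mem_big3.mp (hBb hv)
    unfold io; omega
  refine good_of_nums (A := B) (c := fun _ => 3) (m := n + 1) (μ0 := n + 1) hd hsum ?_ ?_ hμ
    (Or.inl (by omega)) (hB B _ hBc (fun _ _ => rfl)) ?_ ?_ ?_
  · intro v hv
    exact ⟨le_rfl, mem_big3.mp (hBb hv)⟩
  · rw [sum_const, hBc, smul_eq_mul]; omega
  · omega
  · omega
  · omega

theorem good_rich {d : V → ℕ} {μ k L : ℕ} (hL : 1 ≤ L) (hd : ∀ v, 1 ≤ d v)
    (hsum : ∑ v, d v + 2 = 2 * (Fintype.card V + μ)) (hμ : 4 * L + 1 ≤ μ)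
    (hh : 8 * L ≤ ∑ v, i3 (d v)) (ho : 8 * L ≤ ∑ v, io (d v))
    (h1 : ∑ v, i1 (d v) + 2 * μ + 4 * L ≤ Fintype.card V + 1)
    (h2 : ∑ v, io (d v) + 4 * μ + 2 ≤ 2 * Fintype.card V) (hk : μ ≤ k)
    (hk2 : k < μ + 2 ^ L) : Good univ d k := by
  obtain ⟨e, rfl⟩ : ∃ e, k = μ + e := ⟨k - μ, by omega⟩
  rcases Nat.eq_zero_or_pos e with rfl | he
  · exact suff_zero hd hsum (by omega) (by omega) (by omega)
  · obtain ⟨n, hn, hB⟩ := pp (V := V) L hL e he (by omega)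
    exact good_of_bs hB hd hsum (by omega) (by omega) (by omega) (by omega) (by omega)

end Pool.Agent.Helper53
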