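import Pool.Agent.Helper53.SmallInv

/-!
# Complete characterisation when there are few more cycles than the cyclomatic number
-/

open Finset Function
open scoped symmDiff

set_option linter.unusedSectionVars false
set_option linter.unusedSimpArgs false

namespace Pool.Agent.Helper53

variable {V : Type*} [Fintype V] [DecidableEq V]

theorem small_iff (k : ℕ) (hk : 1 ≤ k) (d : V → ℕ)
    (h : k ≤ 8 ∨ 2 * (Fintype.card V + k) ≤ ∑ v, d v + 6) :
    Rz d k ↔ (∀ v, 1 ≤ d v) ∧ ∃ μ, 1 ≤ μ ∧ μ ≤ k ∧
      ∑ v, d v + 2 = 2 * (Fintype.card V + μ) ∧ Cnd d μ (k - μ) := by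
  classical
  constructor
  · intro hr
    have hg := good_of_rz hr
    obtain ⟨F, hok, hdF, hkF⟩ := hg
    have hdF' : ∀ v, dg F v = d v := fun v => hdF v (mem_univ v)
    have hdFe : dg F = d := funext hdF'
    have hcne : (circ EvenSet F).Nonempty := by rw [← card_pos]; omega
    obtain ⟨C, hC⟩ := hcne
    rw [mem_circ] at hC
    have hFne : F.Nonempty := hC.2.2.1.mono hC.1
    have hcard := hok.card_eq hFne
    rw [card_univ] at hcard
    have hsum := hok.sum_dg
    rw [hdFe] at hsum
    have hle := mu_le_circ fam_evenSet F.card F le_rfl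
    have hlt := card_circ_lt F
    rw [card_evs fam_evenSet] at hlt
    have hμ1 : 1 ≤ mu EvenSet F := by
      by_contra h0
      have : mu EvenSet F = 0 := by omega
      rw [this] at hlt
      omega
    have hsum' : ∑ v, d v + 2 = 2 * (Fintype.card V + mu EvenSet F) := by omega
    refine ⟨fun v => by rw [← hdF' v]; exact hok.tch_univ hFne v, mu EvenSet F, hμ1, by omega,
      hsum', ?_⟩
    rcases Nat.lt_or_ge (mu EvenSet F) k with hlt2 | hge
    · obtain ⟨e, he, _, _, hT⟩ := exists_typ hok (by omega)
      have hek : k - mu EvenSet F = e := by omega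
      rw [hek]
      have := cnd_of_typ (F := F) (e := e) (by omega) hT (by omega)
      rwa [hdFe] at this
    · have hμk : mu EvenSet F = k := by omega
      have hcardV : 3 ≤ Fintype.card V := by
        have h8 := three_le_of_circuit hC.2
        rw [← card_tch_circuit hC.2] at h8
        exact h8.trans (card_le_univ _)
      obtain ⟨G, hG, hkG, hdG⟩ := hr
      have hs : ∑ v, (G.neighborSet v).ncard + 2 = 2 * (Fintype.card V + mu EvenSet F) := by
        rw [← hsum']
        congr 1
        exact sum_congr rfl (fun v _ => hdG v)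
      have hn := necessary G hG hcardV hs hkG
      simp only [hdG] at hn
      have c1 : (univ.filter (fun i => d i = 1)).card = ∑ x, i1 (d x) := by
        rw [card_filter]; rfl
      have co : (univ.filter (fun i => Odd (d i))).card = ∑ x, io (d x) := by
        rw [card_filter]
        refine sum_congr rfl ?_
        intro x _
        unfold io
        rcases Nat.even_or_odd (d x) with h | h
        · rw [if_neg (Nat.not_odd_iff_even.mpr h), Nat.even_iff.mp h]
        · rw [if_pos h, Nat.odd_iff.mp h]
      rw [c1, co] at hn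
      left
      refine ⟨by omega, by omega, by omega⟩
  · rintro ⟨hd, μ, hμ1, hμk, hsum, hC⟩
    apply rz_of_good
    obtain ⟨e, he⟩ : ∃ e, k = μ + e := ⟨k - μ, by omega⟩
    subst he
    rw [Nat.add_sub_cancel_left] at hC
    unfold Cnd at hC
    rcases hC with ⟨rfl, a1, a2⟩ | ⟨rfl, a1, a2, a3, a4, a5⟩ |
      ⟨rfl, a1, a2, a3, a4, a5, a6, a7⟩ | ⟨rfl, a1, a2, a3, a4⟩ |
      ⟨rfl, a1, a2, a3, a4, a5, a6⟩
    · exact suff_zero hd hsum hμ1 a1 a2
    · exact suff_one hd hsum a1 a2 a3 a4 a5
    · exact suff_two hd hsum a1 a2 a3 a4 a5 a6 a7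
    · exact suff_three hd hsum a1 a2 a3 a4
    · have hm : μ = 3 ∨ μ = 4 := by
        clear a6
        omega
      exact suff_exc4 hd hsum hm a2 a3 a4 a5 a6

end Pool.Agent.Helper53
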