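import Pool.Agent.Helper53.ExpE
import Pool.Agent.Helper53.Rich
import Pool.Agent.Helper53.Small

/-!
# Sequences with many large terms, without any parity hypothesis
-/

open Finset Function
open scoped symmDiff

set_option linter.unusedSectionVars false
set_option linter.unusedSimpArgs false

namespace Pool.Agent.Helper53

variable {V : Type*} [Fintype V] [DecidableEq V]

/-- the even terms which are at least four -/
def big4 (d : V → ℕ) : Finset V := univ.filter (fun v => 3 ≤ d v ∧ d v % 2 = 0)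

theorem mem_big4 {d : V → ℕ} {v : V} : v ∈ big4 d ↔ 3 ≤ d v ∧ d v % 2 = 0 := by simp [big4]

theorem card_big4 (d : V → ℕ) : (big4 d).card = ∑ v, i4 (d v) := by
  unfold big4; rw [card_filter]; rfl

theorem good_of_be {d : V → ℕ} {μ e v : ℕ} (hB : BE V v e) (hd : ∀ v, 1 ≤ d v)
    (hsum : ∑ v, d v + 2 = 2 * (Fintype.card V + μ)) (hμ : v + 1 ≤ μ)
    (hh : v ≤ ∑ v, i4 (d v))
    (h1 : ∑ v, i1 (d v) + 2 * μ ≤ Fintype.card V + 1)
    (h2 : ∑ v, io (d v) + 4 * μ ≤ 2 * Fintype.card V + 2) : Good univ d (μ + e) := by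
  rw [← card_big4] at hh
  obtain ⟨A, hA, hAc⟩ := exists_subset_card_eq hh
  have hs1 : ∑ u ∈ A, (d u - 4) % 2 = 0 := by
    refine sum_eq_zero ?_
    intro u hu
    have := mem_big4.mp (hA hu)
    omega
  have hs2 : ∑ u ∈ A, io (d u) = 0 := by
    refine sum_eq_zero ?_
    intro u hu
    have := mem_big4.mp (hA hu)
    unfold io; omega
  refine good_of_nums (A := A) (c := fun _ => 4) (m := v + 1) (μ0 := v + 1) hd hsum ?_ ?_ hμ
    (Or.inl (by omega)) (hB A _ hAc (fun _ _ => rfl)) ?_ ?_ ?_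
  · intro u hu
    have := mem_big4.mp (hA hu)
    exact ⟨by norm_num, by omega⟩
  · rw [sum_const, hAc, smul_eq_mul]; omega
  · omega
  · rw [hs1, hs2]; omega
  · rw [hs1, hs2]; omega

theorem good_of_bo {d : V → ℕ} {μ e a : ℕ} (hB : BO V a e) (ha : 2 ≤ a) (hd : ∀ v, 1 ≤ d v)
    (hsum : ∑ v, d v + 2 = 2 * (Fintype.card V + μ)) (hμ : a ≤ μ)
    (hh : a ≤ ∑ v, i4 (d v)) (ho : 2 ≤ ∑ v, io (d v))
    (h1 : ∑ v, i1 (d v) + 2 * μ ≤ Fintype.card V)
    (h2 : ∑ v, io (d v) + 4 * μ + 2 ≤ 2 * Fintype.card V) : Good univ d (μ + e) := by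
  rw [← card_big4] at hh
  obtain ⟨A, hA, hAc⟩ := exists_subset_card_eq hh
  obtain ⟨B, hB', hBc⟩ := exists_subset_card_eq (show 2 ≤ A.card by omega)
  obtain ⟨x, y, hxy, rfl⟩ := card_eq_two.mp hBc
  have hx := hB' (by simp : x ∈ ({x, y} : Finset V))
  have hy := hB' (by simp : y ∈ ({x, y} : Finset V))
  set c : V → ℕ := fun u => if u = x ∨ u = y then 3 else 4 with hc
  have hcx : c x = 3 := by simp [hc]
  have hcy : c y = 3 := by simp [hc]
  have hcu : ∀ u, u ≠ x → u ≠ y → c u = 4 := by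
    intro u h1 h2; simp [hc, h1, h2]
  have hy' : y ∈ A.erase x := mem_erase.mpr ⟨hxy.symm, hy⟩
  have hcard : ((A.erase x).erase y).card + 2 = a := by
    rw [card_erase_of_mem hy', card_erase_of_mem hx]; omega
  have split : ∀ f : V → ℕ, ∑ u ∈ A, f u = f x + (f y + ∑ u ∈ (A.erase x).erase y, f u) := by
    intro f
    rw [add_sum_erase _ f hy', add_sum_erase _ f hx]
  have inr : ∀ u ∈ (A.erase x).erase y, u ≠ x ∧ u ≠ y ∧ u ∈ A := by
    intro u hu
    rw [mem_erase, mem_erase] at hu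
    exact ⟨hu.2.1, hu.1, hu.2.2⟩
  have px := mem_big4.mp (hA hx)
  have py := mem_big4.mp (hA hy)
  have hs0 : ∑ u ∈ A, c u + 2 = 4 * a := by
    rw [split, hcx, hcy, sum_congr rfl (fun u hu => hcu u (inr u hu).1 (inr u hu).2.1),
      sum_const, smul_eq_mul]
    omega
  have hs1 : ∑ u ∈ A, (d u - c u) % 2 = 2 := by
    rw [split, hcx, hcy]
    have h0 : ∑ u ∈ (A.erase x).erase y, (d u - c u) % 2 = 0 := by
      refine sum_eq_zero ?_
      intro u hu
      have := mem_big4.mp (hA (inr u hu).2.2)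
      rw [hcu u (inr u hu).1 (inr u hu).2.1]
      omega
    rw [h0]; omega
  have hs2 : ∑ u ∈ A, io (d u) = 0 := by
    refine sum_eq_zero ?_
    intro u hu
    have := mem_big4.mp (hA hu)
    unfold io; omega
  refine good_of_nums (A := A) (c := c) (m := a) (μ0 := a) hd hsum ?_ ?_ hμ
    (Or.inl (by omega)) (hB A c hAc ⟨x, hx, y, hy, hxy, hcx, hcy, fun u _ => hcu u⟩) ?_ ?_ ?_
  · intro u hu
    have := mem_big4.mp (hA hu)
    rw [hc]
    simp only
    split_ifs <;> omega
  · rw [hAc]; omega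
  · omega
  · rw [hs1, hs2]; omega
  · rw [hs1, hs2]; omega

theorem good_rich2 {d : V → ℕ} {μ k L : ℕ} (hL : 1 ≤ L) (hd : ∀ v, 1 ≤ d v)
    (hsum : ∑ v, d v + 2 = 2 * (Fintype.card V + μ)) (hμ : 6 * L + 1 ≤ μ)
    (hh : 14 * L ≤ ∑ v, i3 (d v))
    (h1 : ∑ v, i1 (d v) + 2 * μ + 4 * L ≤ Fintype.card V + 1)
    (h2 : ∑ v, io (d v) + 4 * μ + 2 ≤ 2 * Fintype.card V) (hk : μ ≤ k)
    (hk2 : k < μ + 2 ^ L) (hev : (∀ v, d v % 2 = 0) → ∃ a b, k = μ + (3 * a + 7 * b)) :
    Good univ d k := by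
  obtain ⟨e, rfl⟩ : ∃ e, k = μ + e := ⟨k - μ, by omega⟩
  rcases Nat.eq_zero_or_pos e with rfl | he
  · exact suff_zero hd hsum (by omega) (by omega) (by omega)
  · rcases Nat.lt_or_ge (∑ v, io (d v)) (8 * L) with hlt | hge
    · have hq := sum_io_eq (O := univ) (fun v _ => hd v)
      have hi := sum_i3_eq (d := d)
      have hpar := par_no hsum
      by_cases hS : ∃ a b, e = 3 * a + 7 * b
      · obtain ⟨v, hv, hB⟩ := pe (V := V) L hL e he (by omega) hS
        exact good_of_be hB hd hsum (by omega) (by omega) (by omega) (by omega)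
      · have hno : 1 ≤ ∑ v, io (d v) := by
          by_contra h0
          have h00 : ∑ v, io (d v) = 0 := by omega
          apply hS
          obtain ⟨a, b, hab⟩ := hev (fun v => sum_eq_zero_iff.mp h00 v (mem_univ v))
          exact ⟨a, b, by omega⟩
        have he12 : e < 12 := by
          by_contra h12
          exact hS (semig (by omega))
        have key : ∃ a, 2 ≤ a ∧ a ≤ 7 ∧ BO V a e := by
          interval_cases e
          · exact ⟨2, by norm_num, by norm_num, BO.dia⟩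
          · exact ⟨4, by norm_num, by norm_num, BO.dia2⟩
          · exact absurd ⟨1, 0, by norm_num⟩ hS
          · exact ⟨5, by norm_num, by norm_num, BO.dia.join le_rfl CE.start.be⟩
          · exact ⟨7, by norm_num, by norm_num, BO.dia2.join (by norm_num) CE.start.be⟩
          · exact absurd ⟨2, 0, by norm_num⟩ hS
          · exact absurd ⟨0, 1, by norm_num⟩ hS
          · exact ⟨6, by norm_num, by norm_num, BO.dia.join le_rfl CE.start.stepB.be⟩
          · exact absurd ⟨3, 0, by norm_num⟩ hS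
          · exact absurd ⟨1, 1, by norm_num⟩ hS
          · exact ⟨7, by norm_num, by norm_num, BO.dia.join le_rfl CE.start.stepA.be⟩
        obtain ⟨a, ha2, ha7, hB⟩ := key
        exact good_of_bo hB ha2 hd hsum (by omega) (by omega) (by omega) (by omega) (by omega)
    · exact good_rich hL hd hsum (by omega) (by omega) hge h1 h2 (by omega) hk2

/-- necessity for sequences all of whose terms are even -/
theorem even_excess {k μ : ℕ} {d : V → ℕ} (hr : Rz d k)
    (hsum : ∑ v, d v + 2 = 2 * (Fintype.card V + μ)) (hk : 1 ≤ k)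
    (hev : ∀ v, d v % 2 = 0) : ∃ a b, k = μ + (3 * a + 7 * b) := by
  classical
  obtain ⟨F, hok, hdF, hkF⟩ := good_of_rz hr
  have hdF' : ∀ v, dg F v = d v := fun v => hdF v (mem_univ v)
  have hdFe : dg F = d := funext hdF'
  have hcne : (circ EvenSet F).Nonempty := by rw [← card_pos]; omega
  obtain ⟨C, hC⟩ := hcne
  rw [mem_circ] at hC
  have hFne : F.Nonempty := hC.2.2.1.mono hC.1
  have hcard := hok.card_eq hFne
  rw [card_univ] at hcard
  have hs := hok.sum_dg
  rw [hdFe] at hs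
  have hEv : EvenSet F := by
    refine ⟨hok.nd, ?_⟩
    intro v
    rw [hdF' v]
    exact Nat.even_iff.mpr (hev v)
  obtain ⟨a, b, hab⟩ := euler fam_evenSet F.card F le_rfl hEv
  exact ⟨a, b, by omega⟩

/-- **Rich sequences.** -/
theorem rich_iff {d : V → ℕ} {μ L : ℕ} (hL : 1 ≤ L) (hd : ∀ v, 1 ≤ d v)
    (hsum : ∑ v, d v + 2 = 2 * (Fintype.card V + μ)) (hμ : 6 * L < μ)
    (hh : 14 * L ≤ ∑ v, i3 (d v))
    (h1 : ∑ v, i1 (d v) + 2 * μ + 4 * L ≤ Fintype.card V + 1)
    (h2 : ∑ v, io (d v) + 4 * μ + 2 ≤ 2 * Fintype.card V) {k : ℕ} (hk : k < μ + 2 ^ L) :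
    Rz d k ↔ μ ≤ k ∧ ((∀ v, d v % 2 = 0) → ∃ a b, k = μ + (3 * a + 7 * b)) := by
  constructor
  · intro hr
    have hμk : μ ≤ k := by
      obtain ⟨G, hG, hkG, hdeg⟩ := hr
      have hs : ∑ v, (G.neighborSet v).ncard + 2 = 2 * (Fintype.card V + μ) := by
        rw [← hsum]
        congr 1
        exact sum_congr rfl (fun v _ => hdeg v)
      exact (necessary G hG (by omega) hs (k := k) hkG).2.2
    exact ⟨hμk, even_excess hr hsum (by omega)⟩
  · rintro ⟨hμk, hev⟩
    exact rz_of_good (good_rich2 hL hd hsum (by omega) hh h1 h2 hμk hk hev)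

end Pool.Agent.Helper53
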