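import Pool.Agent.Helper53.SmallNec

/-!
# Growth with explicit base types
-/

open Finset Function
open scoped symmDiff

set_option linter.unusedSectionVars false
set_option linter.unusedSimpArgs false

namespace Pool.Agent.Helper53

variable {V : Type*} [Fintype V] [DecidableEq V]

/-- data common to all gluing steps -/
structure Glu (S1 T : Finset V) (F1 K : Finset (Sym2 V)) (u : V) : Prop where
  o1 : Ok S1 F1
  o2 : Ok T K
  dis : Disjoint F1 K
  int : S1 ∩ T = {u}
  mu : mu EvenSet (F1 ∪ K) = mu EvenSet F1 + mu EvenSet K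

section

variable {S1 T : Finset V} {F1 K : Finset (Sym2 V)} {u : V}

theorem Glu.uS (h : Glu S1 T F1 K u) : u ∈ S1 := by
  have : u ∈ S1 ∩ T := by rw [h.int]; simp
  exact (mem_inter.mp this).1

theorem Glu.uT (h : Glu S1 T F1 K u) : u ∈ T := by
  have : u ∈ S1 ∩ T := by rw [h.int]; simp
  exact (mem_inter.mp this).2

theorem Glu.notS (h : Glu S1 T F1 K u) : ∀ v ∈ T, v ≠ u → v ∉ S1 := by
  intro v hv hvu hvS
  have : v ∈ S1 ∩ T := mem_inter.mpr ⟨hvS, hv⟩
  rw [h.int, mem_singleton] at this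
  exact hvu this

theorem Glu.du (h : Glu S1 T F1 K u) : dg (F1 ∪ K) u = dg F1 u + dg K u := dg_union h.dis u

theorem Glu.dS (h : Glu S1 T F1 K u) : ∀ v ∈ S1, v ≠ u → dg (F1 ∪ K) v = dg F1 v := by
  intro v hv hvu
  rw [dg_union h.dis, h.o2.dg_zero (fun hvT => h.notS v hvT hvu hv)]; omega

theorem Glu.dT (h : Glu S1 T F1 K u) : ∀ v ∈ T, v ≠ u → dg (F1 ∪ K) v = dg K v := by
  intro v hv hvu
  rw [dg_union h.dis, h.o1.dg_zero (h.notS v hv hvu)]; omega

end

theorem ST.edge {P : Finset V → (V → ℕ) → ℕ → ℕ → Prop} {S1 : Finset V} {F1 : Finset (Sym2 V)}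
    {u w : V} {e : ℕ} (h : ST P S1 F1 e) (hg : Glu S1 {u, w} F1 {s(u, w)} u) (huw : u ≠ w)
    (hd : ∀ v ∈ S1, 1 ≤ dg F1 v) : ST P (S1 ∪ {u, w}) (F1 ∪ {s(u, w)}) e := by
  obtain ⟨A, c, m, μ0, f1, f2, f3, hG, hP⟩ := h
  have hwS := hg.notS w (by simp) huw.symm
  have hset : S1 ∪ {u, w} = S1 ∪ {w} := by
    ext v
    simp only [mem_union, mem_insert, mem_singleton]
    constructor
    · rintro (h | rfl | h)
      · exact Or.inl h
      · exact Or.inl hg.uS
      · exact Or.inr h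
    · tauto
  have hku : dg ({s(u, w)} : Finset (Sym2 V)) u = 1 := by
    unfold dg; rw [filter_singleton]; simp
  have hkw : dg ({s(u, w)} : Finset (Sym2 V)) w = 1 := by
    unfold dg; rw [filter_singleton]; simp
  have hdgu := hg.du
  rw [hku] at hdgu
  obtain ⟨g1, g2, g3, hG'⟩ := hG.edge hg.uS hwS hdgu hg.dS
    (by rw [hg.dT w (by simp) huw.symm, hkw]) (hd u hg.uS)
  rw [← hset] at hG'
  have hmu := hg.mu
  rw [mu_singleton, Nat.add_zero] at hmu
  exact ⟨A, c, m, μ0, g1, g2, g3, by rw [hmu]; exact hG', hP⟩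

/-- the facts about a cycle block -/
theorem cyc_facts {S1 : Finset V} {F1 K : Finset (Sym2 V)} {u : V}
    (hg : Glu S1 (tch K) F1 K u) (hc : Con EvenSet K) (hm : mu EvenSet K = 1) :
    2 ≤ ((tch K).erase u).card ∧ Disjoint S1 ((tch K).erase u) ∧
    S1 ∪ tch K = S1 ∪ (tch K).erase u ∧ dg (F1 ∪ K) u = dg F1 u + 2 ∧
    (∀ v ∈ (tch K).erase u, dg (F1 ∪ K) v = 2) := by
  have hCK := hc.circuit_of_mu hm
  have hd2 : ∀ v ∈ tch K, dg K v = 2 := by
    intro v hv
    rcases (circuit_props hCK).1 v with h | h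
    · rw [mem_tch] at hv; omega
    · exact h
  refine ⟨?_, ?_, ?_, ?_, ?_⟩
  · rw [card_erase_of_mem hg.uT, card_tch_circuit hCK]
    have := three_le_of_circuit hCK
    omega
  · rw [disjoint_left]
    intro v hv hv'
    rw [mem_erase] at hv'
    exact hg.notS v hv'.2 hv'.1 hv
  · ext v
    simp only [mem_union, mem_erase]
    constructor
    · rintro (h | h)
      · exact Or.inl h
      · by_cases hvu : v = u
        · rw [hvu]; exact Or.inl hg.uS
        · exact Or.inr ⟨hvu, h⟩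
    · tauto
  · rw [hg.du, hd2 u hg.uT]
  · intro v hv
    rw [mem_erase] at hv
    rw [hg.dT v hv.2 hv.1, hd2 v hv.2]

theorem ST.cycle {P : Finset V → (V → ℕ) → ℕ → ℕ → Prop} {S1 : Finset V}
    {F1 K : Finset (Sym2 V)} {u : V} {e : ℕ} (h : ST P S1 F1 e) (hg : Glu S1 (tch K) F1 K u)
    (hc : Con EvenSet K) (hm : mu EvenSet K = 1)
    (hd : ∀ v ∈ S1, 1 ≤ dg F1 v) : ST P (S1 ∪ tch K) (F1 ∪ K) e := by
  obtain ⟨A, c, m, μ0, f1, f2, f3, hG, hP⟩ := h
  obtain ⟨b1, b2, b3, b4, b5⟩ := cyc_facts hg hc hm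
  have hG' := hG.cycle hg.uS b2 b1 b4 hg.dS b5 (hd u hg.uS)
  rw [← b3] at hG'
  have hmu := hg.mu
  rw [hm] at hmu
  exact ⟨A, c, m, μ0, _, _, _, by rw [hmu]; exact hG', hP⟩

/-- gluing a cycle to a subdivision of `K₄` with trees -/
theorem ST.cycle4 {S1 : Finset V} {F1 K : Finset (Sym2 V)} {u : V}
    (h : ST P4a S1 F1 4) (hg : Glu S1 (tch K) F1 K u) (hmu3 : mu EvenSet F1 = 3)
    (hc : Con EvenSet K) (hm : mu EvenSet K = 1)
    (hsum : ∑ v ∈ S1, dg F1 v + 2 = 2 * (S1.card + mu EvenSet F1))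
    (hd : ∀ v ∈ S1, 1 ≤ dg F1 v) : ST P4b (S1 ∪ tch K) (F1 ∪ K) 4 := by
  obtain ⟨A, c, m, μ0, f1, f2, f3, hG, hμ, hAc, hc3⟩ := h
  obtain ⟨b1, b2, b3, b4, b5⟩ := cyc_facts hg hc hm
  have hG' := hG.cycle hg.uS b2 b1 b4 hg.dS b5 (hd u hg.uS)
  rw [← b3] at hG'
  have hmu := hg.mu
  rw [hm] at hmu
  have huS := hg.uS
  have hdu := hd u huS
  have hdt := b4
  have hdS := hg.dS
  have huU : u ∈ S1 ∪ tch K := mem_union_left _ huS
  rw [← hmu] at hG'
  have hk : 1 ≤ μ0 + 4 := by omega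
  rcases Nat.eq_zero_or_pos m with hm0 | hmpos
  · subst hm0
    by_cases huA : u ∈ A
    · have hcd := hG.cd u huA
      have h3 := hG'.op3 huA (by omega) (by omega)
      refine ⟨_, _, 2, _, _, _, _, h3, Or.inr (Or.inl ⟨by omega, hAc, le_rfl, u, huA, ?_, ?_⟩)⟩
      · simp [hc3 u huA]
      · intro v hv hvu
        rw [update_of_ne hvu]; exact hc3 v hv
    · have huO : u ∈ S1 \ A := mem_sdiff.mpr ⟨huS, huA⟩
      have hM1 := hG.M1
      have hM2 := hG.M2
      have hM3 := hG.M3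
      rw [if_neg huA] at hG'
      have hf1 : 1 ≤ f1 + (((tch K).erase u).card - 2) + i1 (dg F1 u) := by
        by_cases hx : dg F1 u = 1
        · have : i1 (dg F1 u) = 1 := by rw [hx]; rfl
          omega
        · have := sum_i1_lt huO (by omega : 2 ≤ dg F1 u)
          omega
      by_cases hf2 : 2 ≤ f2 + 2 * (((tch K).erase u).card - 2)
      · have h4 := hG'.op4 (g1 := f1 + (((tch K).erase u).card - 2) + i1 (dg F1 u) - 1)
          (g2 := f2 + 2 * (((tch K).erase u).card - 2) - 2) hk (by omega) (by omega)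
        exact ⟨_, _, 1, _, _, _, _, h4, Or.inl ⟨hμ, hAc, hc3, le_rfl⟩⟩
      · have hioN := sum_io_le (d := dg F1) (S1 \ A)
        have hpar := hG.par hsum
        have hN : 1 ≤ (S1 \ A).card := card_pos.mpr ⟨u, huO⟩
        have hall : ∑ v ∈ S1 \ A, io (dg F1 v) = (S1 \ A).card := by omega
        have hodd : dg F1 u % 2 = 1 := by
          by_contra hne
          have := sum_io_lt huO (by omega : dg F1 u % 2 = 0)
          omega
        have hσ : 1 ≤ ∑ v ∈ A, (dg F1 v - c v) % 2 := by omega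
        obtain ⟨a, ha, ha1⟩ := exists_of_sum_pos hσ
        have hau : a ≠ u := by rintro rfl; exact huA ha
        have hda : dg (F1 ∪ K) a = dg F1 a := hdS a (hG.sub ha) hau
        have f4 : i1 (dg (F1 ∪ K) u) = 0 := by rw [hdt]; unfold i1; split_ifs <;> omega
        have f5 : io (dg (F1 ∪ K) u) = 1 := by rw [hdt]; unfold io; omega
        have h2 := hG'.op1 (a := a) (u := u)
          (g1 := f1 + (((tch K).erase u).card - 2) + i1 (dg F1 u) - 1)
          (g2 := f2 + 2 * (((tch K).erase u).card - 2)) (g3 := f3) ha (by omega) huU huA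
          (by omega) (by omega) (by rw [hda, f5]; omega) (by rw [hda]; omega)
        have h3 := h2.op3 (a := u) (mem_insert_self _ _)
          (by rw [update_of_ne hau.symm, update_self]; omega) (by omega)
        refine ⟨_, _, 2, _, _, _, _, h3, Or.inr (Or.inr ⟨by omega, ?_, ?_, le_rfl, ?_⟩)⟩
        · rw [card_insert_of_notMem huA, hAc]
        · rw [sum_insert huA]
          have e4 := sum_update_mem ha (update c u 1) (c a + 1) (fun _ y => y % 2)
          have e5 := sum_update_not_mem huA c 1 (fun _ y => y % 2)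
          have e6 := sum_mod_three hc3
          have e7 : ∑ x ∈ A, update (update (update c u 1) a (c a + 1)) u
              (update (update c u 1) a (c a + 1) u + 2) x % 2 =
              ∑ x ∈ A, update (update c u 1) a (c a + 1) x % 2 := by
            refine sum_congr rfl ?_
            intro x hx
            have : x ≠ u := by rintro rfl; exact huA hx
            rw [update_of_ne this]
          rw [e7, update_self, update_of_ne hau.symm, update_self]
          rw [update_of_ne hau] at e4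
          have := hc3 a ha
          omega
        · intro v hv
          by_cases hvu : v = u
          · rw [hvu, update_self, update_of_ne hau.symm, update_self]
          · have hvA : v ∈ A := by simp only [mem_insert] at hv; tauto
            rw [update_of_ne hvu]
            by_cases hva : v = a
            · rw [hva]; simp; have := hc3 a ha; omega
            · rw [update_of_ne hva, update_of_ne hvu, hc3 v hvA]
  · exact ⟨A, c, m, μ0, _, _, _, hG', Or.inl ⟨hμ, hAc, hc3, hmpos⟩⟩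

/-- facts about a theta block -/
theorem theta_facts {K : Finset (Sym2 V)} (hc : Con EvenSet K) (hm : mu EvenSet K = 2) :
    (hi (tch K) (dg K)).card = 2 ∧ (∀ v ∈ hi (tch K) (dg K), dg K v = 3) ∧
    2 ≤ (lo (tch K) (dg K)).card ∧ (circ EvenSet K).card = 3 := by
  have hq := hc.quad fam_evenSet (mu EvenSet K) K rfl
  have hlt := card_circ_lt K
  rw [card_evs fam_evenSet, hm] at hlt
  rw [hm] at hq
  have h4 := four_mu_le fam_evenSet (fun C hC => three_le_of_circuit hC) K.card K le_rfl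
  rw [hc.cyc_eq, hm] at h4
  have hce := hc.card_eq
  have hth := (hc.theta hm).1
  have hhi : hi (tch K) (dg K) = deg3 K := by
    ext v
    simp only [hi, mem_filter, mem_tch, mem_deg3]
    have := hc.dg_le v
    omega
  have hun := hi_union_lo (T := tch K) (dL := dg K) (fun v hv => hc.two_le_of_mem hv)
  have hcu := card_union_of_disjoint (hi_lo_disjoint (tch K) (dg K))
  rw [hun, hhi, hth] at hcu
  refine ⟨by rw [hhi, hth], ?_, by omega, by omega⟩
  intro v hv
  rw [hhi, mem_deg3] at hv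
  exact hv

theorem ST.theta {S1 : Finset V} {F1 K : Finset (Sym2 V)} {u : V}
    (h : ST P1 S1 F1 1) (hg : Glu S1 (tch K) F1 K u)
    (hc : Con EvenSet K) (hm : mu EvenSet K = 2)
    (hsum : ∑ v ∈ S1, dg F1 v + 2 = 2 * (S1.card + mu EvenSet F1))
    (hd : ∀ v ∈ S1, 1 ≤ dg F1 v) : ST P2 (S1 ∪ tch K) (F1 ∪ K) 2 := by
  obtain ⟨A, c, m, μ0, f1, f2, f3, hG, hAc, hc3, hm2, hμ⟩ := h
  subst hμ
  obtain ⟨t1, t2, t3, t4⟩ := theta_facts hc hm
  have hmu := hg.mu
  have hLu2 : 2 ≤ dg K u := hc.two_le_of_mem hg.uT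
  have hLu3 : dg K u ≤ 3 := by have := hc.dg_le u; omega
  have hL : Good (tch K) (dg K) (mu EvenSet K + 1) :=
    ⟨K, hc.ok, fun _ _ => rfl, by rw [t4, hm]⟩
  have hTs := hc.sum_eq
  -- numbers of the block at u
  have hnum : (dg K u = 3 ∧ ((hi (tch K) (dg K)).erase u).card = 1 ∧
      2 ≤ ((lo (tch K) (dg K)).erase u).card) ∨
      (dg K u = 2 ∧ ((hi (tch K) (dg K)).erase u).card = 2 ∧
      1 ≤ ((lo (tch K) (dg K)).erase u).card) := by
    rcases Nat.lt_or_ge (dg K u) 3 with hlt | hge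
    · right
      have hu2 : dg K u = 2 := by omega
      have hn : u ∉ hi (tch K) (dg K) := by
        intro hh; rw [hi, mem_filter] at hh; omega
      refine ⟨hu2, by rw [erase_eq_of_notMem hn, t1], ?_⟩
      have : (lo (tch K) (dg K)).card - 1 ≤ ((lo (tch K) (dg K)).erase u).card :=
        pred_card_le_card_erase
      omega
    · left
      have hu3 : dg K u = 3 := by omega
      have hin : u ∈ hi (tch K) (dg K) := by
        rw [hi, mem_filter]; exact ⟨hg.uT, hge⟩
      have hn : u ∉ lo (tch K) (dg K) := by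
        intro hh; rw [lo, mem_filter] at hh; omega
      refine ⟨hu3, by rw [card_erase_of_mem hin, t1], by rw [erase_eq_of_notMem hn]; exact t3⟩
  -- the final gluing
  have fin : ∀ A1 c1 m1 g1 g2 g3, GS S1 (dg F1) (mu EvenSet F1) 1 A1 c1 m1 2 g1 g2 g3 → u ∈ A1 →
      (∀ v ∈ A1, v ≠ u → 3 ≤ c1 v) →
      ((A1.card = 2 ∧ ∑ v ∈ A1, c1 v % 2 = 2 ∧ c1 u = 3 ∧ 2 ≤ m1) ∨
       (A1.card = 3 ∧ ∑ v ∈ A1, c1 v % 2 = 2 ∧ c1 u = 1 ∧ 2 ≤ m1) ∨
       (A1.card = 4 ∧ ∑ v ∈ A1, c1 v % 2 = 4 ∧ c1 u = 1 ∧ 1 ≤ m1) ∨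
       (A1.card = 3 ∧ ∑ v ∈ A1, c1 v % 2 = 2 ∧ c1 u = 2 ∧ 1 ≤ m1)) →
      ST P2 (S1 ∪ tch K) (F1 ∪ K) 2 := by
    intro A1 c1 m1 g1 g2 g3 h' hu1 hc31 hor
    have hb := h'.big hu1 hg.int hL (fun v hv => hc.two_le_of_mem hv) hTs hg.du hg.dS hg.dT
    obtain ⟨n1, n2⟩ := h'.big_num hu1 hg.int t2
    rw [← hmu] at hb
    have h3 := GS.big_c3 (T := tch K) (dL := dg K) hc31 (h'.c1 u hu1) hLu2
    refine ⟨_, _, _, _, _, _, _, hb, by rw [hm], h3, ?_⟩
    rw [n1]
    beta_reduce
    generalize ∑ v ∈ A1 ∪ (hi (tch K) (dg K)).erase u,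
      (if v = u then c1 u + dg K u else if v ∈ A1 then c1 v else dg K v) % 2 = X at n2 ⊢
    rcases hor with ⟨o1, o2, o3, o4⟩ | ⟨o1, o2, o3, o4⟩ | ⟨o1, o2, o3, o4⟩ | ⟨o1, o2, o3, o4⟩ <;>
      rcases hnum with ⟨k1, k2, k3⟩ | ⟨k1, k2, k3⟩ <;> rw [o3, k1] at n2
    · right; right
      refine ⟨by omega, by omega, by omega, by omega, u, mem_union_left _ hu1, ?_⟩
      simp [o3, k1]
    · left
      refine ⟨by omega, by omega, by omega, by omega⟩
    · right; left
      refine ⟨by omega, by omega, by omega, by omega⟩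
    · left
      refine ⟨by omega, by omega, by omega, by omega⟩
    · left
      refine ⟨by omega, by omega, by omega, by omega⟩
    · left
      refine ⟨by omega, by omega, by omega, by omega⟩
    · left
      refine ⟨by omega, by omega, by omega, by omega⟩
    · left
      refine ⟨by omega, by omega, by omega, by omega⟩
  by_cases huA : u ∈ A
  · refine fin A c m _ _ _ hG huA (fun v hv _ => by rw [hc3 v hv])
      (Or.inl ⟨hAc, by rw [sum_mod_three hc3, hAc], hc3 u huA, hm2⟩)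
  · obtain ⟨A', c', m', g1, g2, g3, h', hu', hc3', hcase⟩ :=
      hG.mark3 hsum hd hc3 (by omega) hg.uS huA
    refine fin A' c' m' g1 g2 g3 h' hu' hc3' ?_
    rw [hAc] at hcase
    rcases hcase with ⟨q1, q2, q3, q4⟩ | ⟨q1, q2, q3, q4⟩ | ⟨q1, q2, q3, q4⟩
    · right; left; exact ⟨q1, q2, q3, by omega⟩
    · right; right; left; exact ⟨q1, q2, q3, by omega⟩
    · right; right; right; exact ⟨q1, q2, q3, by omega⟩

end Pool.Agent.Helper53
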