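import Pool.Agent.Helper53.SmallGrow

/-!
# The growth invariant for small excess
-/

open Finset Function
open scoped symmDiff

set_option linter.unusedSectionVars false
set_option linter.unusedSimpArgs false

namespace Pool.Agent.Helper53

variable {V : Type*} [Fintype V] [DecidableEq V]

/-- the types of bases of small excess -/
def Typ (S : Finset V) (F : Finset (Sym2 V)) (e : ℕ) : Prop :=
  (e = 1 ∧ ST P1 S F 1) ∨ (e = 2 ∧ ST P2 S F 2) ∨
  (e = 3 ∧ 3 ≤ mu EvenSet F ∧ (ST P3 S F 3 ∨ 6 ≤ mu EvenSet F)) ∨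
  (e = 4 ∧ ((mu EvenSet F = 3 ∧ ST P4a S F 4) ∨ (mu EvenSet F = 4 ∧ ST P4b S F 4) ∨
    5 ≤ mu EvenSet F)) ∨ 5 ≤ e

/-- the invariant of the growth process -/
def Inv2 (S : Finset V) (F : Finset (Sym2 V)) : Prop :=
  ∃ e, (circ EvenSet F).card = mu EvenSet F + e ∧
    ∑ v ∈ S, dg F v + 2 = 2 * (S.card + mu EvenSet F) ∧ (∀ v ∈ S, 1 ≤ dg F v) ∧ Typ S F e

/-- numbers of a block -/
theorem Con.lo_card {K : Finset (Sym2 V)} (hK : Con EvenSet K) :
    (hi (tch K) (dg K)).card + (lo (tch K) (dg K)).card = (tch K).card := by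
  have hun := hi_union_lo (T := tch K) (dL := dg K) (fun v hv => hK.two_le_of_mem hv)
  have hc := card_union_of_disjoint (hi_lo_disjoint (tch K) (dg K))
  rw [hun] at hc
  omega

theorem Con.root {K : Finset (Sym2 V)} (hK : Con EvenSet K) {e : ℕ}
    (he : (circ EvenSet K).card = mu EvenSet K + e) :
    GS (tch K) (dg K) (mu EvenSet K) e (hi (tch K) (dg K)) (dg K) (lo (tch K) (dg K)).card
      (mu EvenSet K) 0 0 0 :=
  GS.root ⟨K, hK.ok, fun _ _ => rfl, he⟩ (fun v hv => hK.two_le_of_mem hv) hK.sum_eq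

theorem inv2_root {K : Finset (Sym2 V)} (hK : Con EvenSet K) (h2 : 2 ≤ mu EvenSet K) :
    Inv2 (tch K) K := by
  classical
  have hq := hK.quad fam_evenSet (mu EvenSet K) K rfl
  have hle := mu_le_circ fam_evenSet K.card K le_rfl
  obtain ⟨e, he⟩ : ∃ e, (circ EvenSet K).card = mu EvenSet K + e :=
    ⟨(circ EvenSet K).card - mu EvenSet K, by omega⟩
  refine ⟨e, he, hK.sum_eq, fun _ hv => by have := hK.two_le_of_mem hv; omega, ?_⟩
  have hroot := hK.root he
  have hlc := hK.lo_card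
  have hce := hK.card_eq
  have hcle : ∀ v ∈ hi (tch K) (dg K), 3 ≤ dg K v := fun v hv => (mem_filter.mp hv).2
  rcases Nat.lt_or_ge (mu EvenSet K) 3 with h3 | h3
  · have hm : mu EvenSet K = 2 := by omega
    obtain ⟨t1, t2, t3, t4⟩ := theta_facts hK hm
    have he1 : e = 1 := by omega
    subst he1
    exact Or.inl ⟨rfl, _, _, _, _, _, _, _, hroot, t1, t2, t3, hm⟩
  · rcases Nat.lt_or_ge (mu EvenSet K) 4 with h4 | h4
    · have hm : mu EvenSet K = 3 := by omega
      have hlt := card_circ_lt K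
      rw [card_evs fam_evenSet, hm] at hlt
      rw [hm] at hq
      have hth := (hK.three hm).1
      have hd4 : ∀ v, dg K v ≤ 4 := fun v => by have := hK.dg_le v; omega
      have hhi : hi (tch K) (dg K) = deg3 K ∪ deg4 K := by
        ext v
        simp only [hi, mem_filter, mem_tch, mem_union, mem_deg3, mem_deg4]
        have := hd4 v
        omega
      have hdis : Disjoint (deg3 K) (deg4 K) := by
        rw [disjoint_left]
        intro v h1 h2
        rw [mem_deg3] at h1; rw [mem_deg4] at h2; omega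
      have hcu := card_union_of_disjoint hdis
      have hodd : ∑ v ∈ hi (tch K) (dg K), dg K v % 2 = (deg3 K).card := by
        rw [hhi, sum_union hdis]
        have e1 : ∑ v ∈ deg3 K, dg K v % 2 = (deg3 K).card :=
          sum_mod_three (fun v hv => mem_deg3.mp hv)
        have e2 : ∑ v ∈ deg4 K, dg K v % 2 = 0 := by
          refine sum_eq_zero ?_
          intro v hv
          have := mem_deg4.mp hv
          omega
        omega
      have h67 : (circ EvenSet K).card = 6 ∨ (circ EvenSet K).card = 7 := by omega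
      rcases h67 with h6 | h7
      · have he3 : e = 3 := by omega
        subst he3
        have hse := hK.seven_edges hm h6
        rw [hhi] at hlc hodd
        rw [hhi] at hcle
        right; right; left
        refine ⟨rfl, by omega, Or.inl ⟨_, _, _, _, _, _, _, hroot, hm, ?_⟩⟩
        rw [hhi]
        have hcases : ((deg4 K).card = 2 ∧ (deg3 K).card = 0) ∨
            ((deg4 K).card = 1 ∧ (deg3 K).card = 2) ∨
            ((deg4 K).card = 0 ∧ (deg3 K).card = 4) := by omega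
        rcases hcases with ⟨k1, k2⟩ | ⟨k1, k2⟩ | ⟨k1, k2⟩
        · left
          refine ⟨by omega, ?_, by omega⟩
          intro v hv
          rw [mem_union, mem_deg4] at hv
          rcases hv with hv | hv
          · rw [card_eq_zero] at k2; rw [k2] at hv; simp at hv
          · exact hv
        · right; left
          obtain ⟨u, hu⟩ := card_eq_one.mp k1
          have hu' : u ∈ deg4 K := by rw [hu]; simp
          exact ⟨by omega, by omega, ⟨u, mem_union_right _ hu', mem_deg4.mp hu'⟩, hcle,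
            by omega⟩
        · right; right
          have h8 := hK.eight hm h6 k1
          refine ⟨by omega, ?_, by omega⟩
          intro v hv
          rw [mem_union, mem_deg3] at hv
          rcases hv with hv | hv
          · exact hv
          · rw [card_eq_zero] at k1; rw [k1] at hv; simp at hv
      · have he4 : e = 4 := by omega
        subst he4
        have k1 := hK.seven hm h7
        right; right; right; left
        refine ⟨rfl, Or.inl ⟨hm, _, _, _, _, _, _, _, hroot, hm, ?_, ?_⟩⟩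
        · rw [hhi]; omega
        · intro v hv
          rw [hhi, mem_union, mem_deg3] at hv
          rcases hv with hv | hv
          · exact hv
          · rw [card_eq_zero] at k1; rw [k1] at hv; simp at hv
    · right; right; right; right
      have h5 : 4 * (mu EvenSet K + 1) ≤ mu EvenSet K * (mu EvenSet K + 1) :=
        Nat.mul_le_mul_right _ h4
      have h6 : 5 * mu EvenSet K ≤ mu EvenSet K * (mu EvenSet K + 1) ∨
          mu EvenSet K = 4 := by
        rcases Nat.lt_or_ge (mu EvenSet K) 5 with h | h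
        · right; omega
        · left; nlinarith
      rcases Nat.lt_or_ge (mu EvenSet K) 5 with h | h
      · have : mu EvenSet K = 4 := by omega
        rw [this] at hq he
        omega
      · have h7 : 6 * mu EvenSet K ≤ mu EvenSet K * (mu EvenSet K + 1) := by nlinarith
        omega

theorem ST.mu_le {P : Finset V → (V → ℕ) → ℕ → ℕ → Prop} {S : Finset V}
    {F : Finset (Sym2 V)} {e n : ℕ} (h : ST P S F e)
    (hP : ∀ A c m μ0, P A c m μ0 → μ0 = n) : n ≤ mu EvenSet F := by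
  obtain ⟨A, c, m, μ0, f1, f2, f3, hG, hh⟩ := h
  have := hG.le
  have := hP _ _ _ _ hh
  omega

theorem inv2_step {S1 T : Finset V} {F1 K F : Finset (Sym2 V)} {u : V} (h1 : Ok S1 F1)
    (h2 : Ok T K) (h3 : F1 ⊆ F) (h4 : K ⊆ F) (h5 : Disjoint F1 K)
    (h7 : Sep EvenSet F K) (h8 : S1 ∩ T = {u})
    (h9 : (∃ w, u ≠ w ∧ T = {u, w} ∧ K = {s(u, w)}) ∨ (Con EvenSet K ∧ T = tch K))
    (hQ : Inv2 S1 F1) : Inv2 (S1 ∪ T) (F1 ∪ K) := by
  obtain ⟨e, he, hsum, hd1, hT⟩ := hQ
  have hmu := mu_glue h3 h4 h5 h7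
  have hg : Glu S1 T F1 K u := ⟨h1, h2, h5, h8, hmu⟩
  have hcirc := card_circ_glue h1 h2 h8
  obtain ⟨hs1, hs2⟩ := sum_glue h8 hg.du hg.dS hg.dT
  have hdu1 := hd1 u hg.uS
  have hdgu := hg.du
  rcases h9 with ⟨w, huw, rfl, rfl⟩ | ⟨hc, rfl⟩
  · -- an edge
    rw [mu_singleton, Nat.add_zero] at hmu
    rw [circ_singleton, Nat.add_zero] at hcirc
    have hku : dg ({s(u, w)} : Finset (Sym2 V)) u = 1 := by
      unfold dg; rw [filter_singleton]; simp
    have hkw : dg ({s(u, w)} : Finset (Sym2 V)) w = 1 := by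
      unfold dg; rw [filter_singleton]; simp
    rw [hku] at hdgu
    have hdgw : dg (F1 ∪ {s(u, w)}) w = 1 := by rw [hg.dT w (by simp) huw.symm, hkw]
    have hsu : ∑ v ∈ ({u, w} : Finset V), dg ({s(u, w)} : Finset (Sym2 V)) v = 2 := by
      rw [sum_pair huw, hku, hkw]
    have hcu : ({u, w} : Finset V).card = 2 := card_pair huw
    refine ⟨e, by omega, by rw [hmu]; omega, ?_, ?_⟩
    · intro v hv
      rw [mem_union] at hv
      by_cases hvu : v = u
      · rw [hvu, hdgu]; omega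
      · rcases hv with hv | hv
        · rw [hg.dS v hv hvu]; exact hd1 v hv
        · simp only [mem_insert, mem_singleton] at hv
          rcases hv with hv | rfl
          · exact absurd hv hvu
          · rw [hdgw]
    · unfold Typ at hT ⊢
      rw [hmu]
      rcases hT with ⟨r1, r2⟩ | ⟨r1, r2⟩ | ⟨r1, r2, r3⟩ | ⟨r1, r2⟩ | r1
      · exact Or.inl ⟨r1, r2.edge hg huw hd1⟩
      · exact Or.inr (Or.inl ⟨r1, r2.edge hg huw hd1⟩)
      · refine Or.inr (Or.inr (Or.inl ⟨r1, r2, ?_⟩))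
        rcases r3 with r3 | r3
        · exact Or.inl (r3.edge hg huw hd1)
        · exact Or.inr r3
      · refine Or.inr (Or.inr (Or.inr (Or.inl ⟨r1, ?_⟩)))
        rcases r2 with ⟨r2, r3⟩ | ⟨r2, r3⟩ | r2
        · exact Or.inl ⟨r2, r3.edge hg huw hd1⟩
        · exact Or.inr (Or.inl ⟨r2, r3.edge hg huw hd1⟩)
        · exact Or.inr (Or.inr r2)
      · exact Or.inr (Or.inr (Or.inr (Or.inr r1)))
  · -- a block
    have hTs := hc.sum_eq
    have hpos : ∀ v ∈ S1 ∪ tch K, 1 ≤ dg (F1 ∪ K) v := by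
      intro v hv
      rw [mem_union] at hv
      by_cases hvu : v = u
      · rw [hvu, hdgu]; omega
      · rcases hv with hv | hv
        · rw [hg.dS v hv hvu]; exact hd1 v hv
        · rw [hg.dT v hv hvu]; have := hc.two_le_of_mem hv; omega
    have hmk1 := hc.mu_pos fam_evenSet
    have hq := hc.quad fam_evenSet (mu EvenSet K) K rfl
    have hleK := mu_le_circ fam_evenSet K.card K le_rfl
    have hmuF : Typ S1 F1 e → (1 ≤ e ∧ 2 ≤ mu EvenSet F1 ∧ (e = 2 → 4 ≤ mu EvenSet F1)) ∨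
        5 ≤ e := by
      intro hT
      unfold Typ at hT
      rcases hT with ⟨r1, r2⟩ | ⟨r1, r2⟩ | ⟨r1, r2, r3⟩ | ⟨r1, r2⟩ | r1
      · have := r2.mu_le (n := 2) (fun _ _ _ _ h => h.2.2.2)
        left; omega
      · have := r2.mu_le (n := 4) (fun _ _ _ _ h => h.1)
        left; omega
      · left; omega
      · left; omega
      · right; exact r1
    rcases Nat.lt_or_ge (mu EvenSet K) 2 with hlt | hge
    · -- a cycle
      have hmK : mu EvenSet K = 1 := by omega
      have hcK : (circ EvenSet K).card = 1 := by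
        have a1 := card_circ_lt K
        rw [card_evs fam_evenSet, hmK] at a1
        omega
      rw [hmK] at hmu
      rw [hcK] at hcirc
      rw [hmK] at hTs
      refine ⟨e, by omega, by rw [hmu]; omega, hpos, ?_⟩
      unfold Typ at hT ⊢
      rw [hmu]
      rcases hT with ⟨r1, r2⟩ | ⟨r1, r2⟩ | ⟨r1, r2, r3⟩ | ⟨r1, r2⟩ | r1
      · exact Or.inl ⟨r1, r2.cycle hg hc hmK hd1⟩
      · exact Or.inr (Or.inl ⟨r1, r2.cycle hg hc hmK hd1⟩)
      · refine Or.inr (Or.inr (Or.inl ⟨r1, by omega, ?_⟩))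
        rcases r3 with r3 | r3
        · exact Or.inl (r3.cycle hg hc hmK hd1)
        · exact Or.inr (by omega)
      · refine Or.inr (Or.inr (Or.inr (Or.inl ⟨r1, ?_⟩)))
        rcases r2 with ⟨r2, r3⟩ | ⟨r2, r3⟩ | r2
        · exact Or.inr (Or.inl ⟨by omega, r3.cycle4 hg r2 hc hmK hsum hd1⟩)
        · exact Or.inr (Or.inr (by omega))
        · exact Or.inr (Or.inr (by omega))
      · exact Or.inr (Or.inr (Or.inr (Or.inr r1)))
    · rcases Nat.lt_or_ge (mu EvenSet K) 3 with h3' | h3'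
      · -- a theta
        have hmK : mu EvenSet K = 2 := by omega
        obtain ⟨t1, t2, t3, t4⟩ := theta_facts hc hmK
        rw [hmK] at hmu
        rw [t4] at hcirc
        rw [hmK] at hTs
        refine ⟨e + 1, by omega, by rw [hmu]; omega, hpos, ?_⟩
        have hm0 := hmuF hT
        unfold Typ at hT ⊢
        rw [hmu]
        rcases hT with ⟨r1, r2⟩ | ⟨r1, r2⟩ | ⟨r1, r2, r3⟩ | ⟨r1, r2⟩ | r1
        · exact Or.inr (Or.inl ⟨by omega, r2.theta hg hc hmK hsum hd1⟩)
        · exact Or.inr (Or.inr (Or.inl ⟨by omega, by omega, Or.inr (by omega)⟩))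
        · exact Or.inr (Or.inr (Or.inr (Or.inl ⟨by omega, Or.inr (Or.inr (by omega))⟩)))
        · exact Or.inr (Or.inr (Or.inr (Or.inr (by omega))))
        · exact Or.inr (Or.inr (Or.inr (Or.inr (by omega))))
      · -- rank at least three
        have hq4 : 4 * mu EvenSet K ≤ mu EvenSet K * (mu EvenSet K + 1) := by nlinarith
        obtain ⟨eL, heL⟩ : ∃ e, (circ EvenSet K).card = mu EvenSet K + e :=
          ⟨(circ EvenSet K).card - mu EvenSet K, by omega⟩
        refine ⟨e + eL, by omega, by rw [hmu]; omega, hpos, ?_⟩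
        have hm0 := hmuF hT
        unfold Typ
        rw [hmu]
        rcases hm0 with ⟨m1, m2, m3⟩ | m1
        · rcases Nat.lt_or_ge (e + eL) 5 with hlt | hge5
          · exact Or.inr (Or.inr (Or.inr (Or.inl ⟨by omega, Or.inr (Or.inr (by omega))⟩)))
          · exact Or.inr (Or.inr (Or.inr (Or.inr hge5)))
        · exact Or.inr (Or.inr (Or.inr (Or.inr (by omega))))

theorem exists_typ {S : Finset V} {F : Finset (Sym2 V)} (hF : Ok S F)
    (h : mu EvenSet F < (circ EvenSet F).card) : Inv2 S F := by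
  obtain ⟨K, hKF, hKc, hKs, hK2⟩ := exists_big hF h
  refine grow hF Inv2 ?_ (F \ K).card (tch K) K le_rfl hKc.ok ?_ hKs (inv2_root hKc hK2)
  · intro S1 F1 T K' u h1 h2 h3 h4 h5 _ h7 h8 h9 hQ
    exact inv2_step h1 h2 h3 h4 h5 h7 h8 h9 hQ
  · intro v hv
    obtain ⟨e, he, hve⟩ := dg_pos.mp (mem_tch.mp hv)
    exact hF.sup e (hKF he) v hve

section

variable {d : V → ℕ} {μ e : ℕ} {A : Finset V} {c : V → ℕ} {m μ0 f1 f2 f3 : ℕ}

/-- the numerical consequences of a state -/
theorem GS.final (h : GS univ d μ e A c m μ0 f1 f2 f3) (hc3 : ∀ v ∈ A, 3 ≤ c v) :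
    A.card ≤ ∑ v, i3 (d v) ∧ ∑ v, i1 (d v) + 2 * μ + m + A.card ≤ Fintype.card V + 2 * μ0 ∧
    ∑ v ∈ A, c v % 2 ≤ ∑ v, io (d v) ∧
    ∑ v, io (d v) + 4 * μ + 2 * m + 2 * A.card ≤
      2 * Fintype.card V + 4 * μ0 + ∑ v ∈ A, c v % 2 ∧
    (∀ u ∈ A, c u % 2 = 0 → (d u - c u) % 2 = 1 →
      ∑ v ∈ A, c v % 2 + 2 ≤ ∑ v, io (d v)) ∧
    (∀ u ∈ A, c u % 2 = 1 → (d u - c u) % 2 = 1 →
      ∑ v, io (d v) + 4 * μ + 2 * m + 2 * A.card + 2 ≤
      2 * Fintype.card V + 4 * μ0 + ∑ v ∈ A, c v % 2) := by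
  have hcA := card_sdiff_univ A
  have h1 := h.M1
  have h2 := h.M2
  have h3 := h.M3
  have s1 : ∑ v ∈ univ \ A, i1 (d v) + ∑ v ∈ A, i1 (d v) = ∑ v, i1 (d v) :=
    sum_sdiff (subset_univ A)
  have s2 : ∑ v ∈ univ \ A, io (d v) + ∑ v ∈ A, io (d v) = ∑ v, io (d v) :=
    sum_sdiff (subset_univ A)
  have z1 : ∑ v ∈ A, i1 (d v) = 0 := by
    refine sum_eq_zero ?_
    intro v hv
    have := hc3 v hv
    have := h.cd v hv
    unfold i1; split_ifs <;> omega
  have hA3 : A.card ≤ ∑ v, i3 (d v) := by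
    rw [← card_big3]
    refine card_le_card ?_
    intro v hv
    rw [mem_big3]
    exact (hc3 v hv).trans (h.cd v hv)
  -- pointwise comparison
  have p1 : ∀ v ∈ A, c v % 2 ≤ io (d v) + (d v - c v) % 2 := by
    intro v hv
    have := h.cd v hv
    unfold io; omega
  have p2 : ∀ v ∈ A, io (d v) ≤ c v % 2 + (d v - c v) % 2 := by
    intro v hv
    have := h.cd v hv
    unfold io; omega
  have q1 : ∑ v ∈ A, c v % 2 ≤ ∑ v ∈ A, io (d v) + ∑ v ∈ A, (d v - c v) % 2 := by
    rw [← sum_add_distrib]; exact sum_le_sum p1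
  have q2 : ∑ v ∈ A, io (d v) ≤ ∑ v ∈ A, c v % 2 + ∑ v ∈ A, (d v - c v) % 2 := by
    rw [← sum_add_distrib]; exact sum_le_sum p2
  refine ⟨hA3, by omega, by omega, by omega, ?_, ?_⟩
  · intro u hu hcu hdu
    have q3 : ∑ v ∈ A, c v % 2 + 2 ≤ ∑ v ∈ A, io (d v) + ∑ v ∈ A, (d v - c v) % 2 := by
      rw [← sum_add_distrib, ← add_sum_erase A _ hu, ← add_sum_erase A (fun v => io (d v) +
        (d v - c v) % 2) hu]
      have hr : ∑ v ∈ A.erase u, c v % 2 ≤ ∑ v ∈ A.erase u, (io (d v) + (d v - c v) % 2) :=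
        sum_le_sum (fun v hv => p1 v (mem_of_mem_erase hv))
      have hio : io (d u) = 1 := by
        have := h.cd u hu
        unfold io; omega
      omega
    omega
  · intro u hu hcu hdu
    have q3 : ∑ v ∈ A, io (d v) + 2 ≤ ∑ v ∈ A, c v % 2 + ∑ v ∈ A, (d v - c v) % 2 := by
      rw [← sum_add_distrib, ← add_sum_erase A _ hu, ← add_sum_erase A (fun v => c v % 2 +
        (d v - c v) % 2) hu]
      have hr : ∑ v ∈ A.erase u, io (d v) ≤ ∑ v ∈ A.erase u, (c v % 2 + (d v - c v) % 2) :=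
        sum_le_sum (fun v hv => p2 v (mem_of_mem_erase hv))
      have hio : io (d u) = 0 := by
        have := h.cd u hu
        unfold io; omega
      omega
    omega

end

/-- the explicit conditions, in terms of the numbers of ones, odd terms and large terms -/
def Cnd (d : V → ℕ) (μ e : ℕ) : Prop :=
  (e = 0 ∧ ∑ v, i1 (d v) + 2 * μ + 1 ≤ Fintype.card V ∧
    ∑ v, io (d v) + 4 * μ + 2 ≤ 2 * Fintype.card V) ∨
  (e = 1 ∧ 2 ≤ μ ∧ 2 ≤ ∑ v, i3 (d v) ∧ 2 ≤ ∑ v, io (d v) ∧
    ∑ v, i1 (d v) + 2 * μ ≤ Fintype.card V ∧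
    ∑ v, io (d v) + 4 * μ ≤ 2 * Fintype.card V + 2) ∨
  (e = 2 ∧ 4 ≤ μ ∧ 3 ≤ ∑ v, i3 (d v) ∧ 2 ≤ ∑ v, io (d v) ∧
    ∑ v, i1 (d v) + 2 * μ ≤ Fintype.card V + 1 ∧
    ∑ v, io (d v) + 4 * μ ≤ 2 * Fintype.card V + 6 ∧
    (4 ≤ ∑ v, i3 (d v) ∨ ∃ v, 6 ≤ d v) ∧
    (4 ≤ ∑ v, io (d v) ∨ (∃ v, 6 ≤ d v ∧ d v % 2 = 0) ∨
      (4 ≤ ∑ v, i3 (d v) ∧ ∑ v, i1 (d v) + 2 * μ ≤ Fintype.card V))) ∨
  (e = 3 ∧ 3 ≤ μ ∧ ∑ v, i1 (d v) + 2 * μ ≤ Fintype.card V + 1 ∧
    ∑ v, io (d v) + 4 * μ ≤ 2 * Fintype.card V + 4 ∧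
    ((3 ≤ ∑ v, i3 (d v) ∧ (∃ v, 4 ≤ d v) ∧ 2 ≤ ∑ v, io (d v)) ∨
      ((∃ u v, u ≠ v ∧ 4 ≤ d u ∧ 4 ≤ d v) ∧ ∑ v, io (d v) + 4 * μ ≤ 2 * Fintype.card V + 2 ∧
        ¬ (∑ v, i3 (d v) = 2 ∧ ∑ v, i1 (d v) = 0 ∧ 1 ≤ ∑ v, io (d v))) ∨
      (4 ≤ ∑ v, i3 (d v) ∧ 4 ≤ ∑ v, io (d v) ∧
        ∑ v, i1 (d v) + 2 * μ ≤ Fintype.card V))) ∨
  (e = 4 ∧ 3 ≤ μ ∧ 4 ≤ ∑ v, i3 (d v) ∧ 4 ≤ ∑ v, io (d v) ∧
    ∑ v, i1 (d v) + 2 * μ ≤ Fintype.card V + 2 ∧
    ∑ v, io (d v) + 4 * μ ≤ 2 * Fintype.card V + 8 ∧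
    (μ = 4 → (∑ v, i1 (d v) + 2 * μ < Fintype.card V + 2 ∨ ∃ v, 5 ≤ d v) ∧
      (∑ v, io (d v) + 4 * μ < 2 * Fintype.card V + 8 ∨ ∃ v, 5 ≤ d v ∧ d v % 2 = 1)))

theorem cnd_of_typ {F : Finset (Sym2 V)} {e : ℕ} (he : e ≤ 2 ∨ mu EvenSet F + e ≤ 8)
    (h : Typ univ F e) (hlt : mu EvenSet F + e + 1 ≤ 2 ^ mu EvenSet F) :
    Cnd (dg F) (mu EvenSet F) e := by
  unfold Typ at h
  unfold Cnd
  rcases h with ⟨r1, r2⟩ | ⟨r1, r2⟩ | ⟨r1, r2, r3⟩ | ⟨r1, r2⟩ | r1
  · obtain ⟨A, c, m, μ0, f1, f2, f3, hG, hAc, hc3, hm2, hμ⟩ := r2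
    have hle := hG.le
    obtain ⟨n1, n2, n3, n4, n5, n6⟩ := hG.final (fun v hv => by rw [hc3 v hv])
    rw [sum_mod_three hc3] at n3 n4
    right; left
    refine ⟨r1, by omega, by omega, by omega, by omega, by omega⟩
  · obtain ⟨A, c, m, μ0, f1, f2, f3, hG, hμ, hc3, hor⟩ := r2
    have hle := hG.le
    obtain ⟨n1, n2, n3, n4, n5, n6⟩ := hG.final hc3
    right; right; left
    rcases hor with ⟨o1, o2, o3, o4⟩ | ⟨o1, o2, o3, o4⟩ | ⟨o1, o2, o3, o4, u, hu, hcu⟩
    · exact ⟨r1, by omega, by omega, by omega, by omega, by omega, Or.inl (by omega),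
        Or.inl (by omega)⟩
    · exact ⟨r1, by omega, by omega, by omega, by omega, by omega, Or.inl (by omega),
        Or.inr (Or.inr (by omega))⟩
    · have hcd := hG.cd u hu
      refine ⟨r1, by omega, by omega, by omega, by omega, by omega, Or.inr ⟨u, by omega⟩, ?_⟩
      by_cases hpar : dg F u % 2 = 0
      · exact Or.inr (Or.inl ⟨u, by omega, hpar⟩)
      · have := n5 u hu (by omega) (by omega)
        exact Or.inl (by omega)
  · rcases r3 with r3 | r3
    · obtain ⟨A, c, m, μ0, f1, f2, f3, hG, hμ, hor⟩ := r3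
      have hle := hG.le
      right; right; right; left
      rcases hor with ⟨o1, o2, o3⟩ | ⟨o1, o2, ⟨u, hu, hcu⟩, o3, o4⟩ | ⟨o1, o2, o3⟩
      · obtain ⟨n1, n2, n3, n4, n5, n6⟩ := hG.final (fun v hv => by rw [o2 v hv]; omega)
        have hz : ∑ v ∈ A, c v % 2 = 0 := by
          refine sum_eq_zero ?_
          intro v hv
          have := o2 v hv
          omega
        rw [hz] at n3 n4
        refine ⟨r1, by omega, by omega, by omega, Or.inr (Or.inl ⟨?_, by omega, ?_⟩)⟩
        · obtain ⟨a, b, hab, rfl⟩ := card_eq_two.mp o1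
          have ha := hG.cd a (by simp)
          have hb := hG.cd b (by simp)
          rw [o2 a (by simp)] at ha
          rw [o2 b (by simp)] at hb
          exact ⟨a, b, hab, ha, hb⟩
        · rintro ⟨w1, w2, w3⟩
          have hAb : A = big3 (dg F) := by
            refine eq_of_subset_of_card_le ?_ (by rw [card_big3]; omega)
            intro v hv
            have h8 := hG.cd v hv
            rw [o2 v hv] at h8
            rw [mem_big3]; omega
          have hout : ∑ v ∈ univ \ A, io (dg F v) = 0 := by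
            refine sum_eq_zero ?_
            intro v hv
            rw [mem_sdiff, hAb, mem_big3] at hv
            have h8 := sum_eq_zero_iff.mp w2 v (mem_univ v)
            unfold i1 at h8
            unfold io
            split_ifs at h8 with h9
            omega
          have hM3 := hG.M3
          rw [hout] at hM3
          have hs0 : ∑ v ∈ A, (dg F v - c v) % 2 = 0 := by omega
          have s2 : ∑ v ∈ univ \ A, io (dg F v) + ∑ v ∈ A, io (dg F v) = ∑ v, io (dg F v) :=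
            sum_sdiff (subset_univ A)
          have hin : ∑ v ∈ A, io (dg F v) = 0 := by
            refine sum_eq_zero ?_
            intro v hv
            have h8 := sum_eq_zero_iff.mp hs0 v hv
            have h9 := hG.cd v hv
            have h10 := o2 v hv
            unfold io; omega
          omega
      · obtain ⟨n1, n2, n3, n4, n5, n6⟩ := hG.final o3
        have hcd := hG.cd u hu
        refine ⟨r1, by omega, by omega, by omega, Or.inl ⟨by omega, ⟨u, by omega⟩, by omega⟩⟩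
      · obtain ⟨n1, n2, n3, n4, n5, n6⟩ := hG.final (fun v hv => by rw [o2 v hv])
        rw [sum_mod_three o2] at n3 n4
        refine ⟨r1, by omega, by omega, by omega, Or.inr (Or.inr ⟨by omega, by omega, by omega⟩)⟩
    · omega
  · right; right; right; right
    rcases r2 with ⟨r2, A, c, m, μ0, f1, f2, f3, hG, hμ, hAc, hc3⟩ |
      ⟨r2, A, c, m, μ0, f1, f2, f3, hG, hor⟩ | r2
    · obtain ⟨n1, n2, n3, n4, n5, n6⟩ := hG.final (fun v hv => by rw [hc3 v hv])
      rw [sum_mod_three hc3] at n3 n4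
      refine ⟨r1, by omega, by omega, by omega, by omega, by omega, ?_⟩
      intro h; omega
    · rcases hor with ⟨o1, o2, o3, o4⟩ | ⟨o1, o2, o3, u, hu, hcu, o4⟩ | ⟨o1, o2, o3, o4, o5⟩
      · obtain ⟨n1, n2, n3, n4, n5, n6⟩ := hG.final (fun v hv => by rw [o3 v hv])
        rw [sum_mod_three o3] at n3 n4
        exact ⟨r1, by omega, by omega, by omega, by omega, by omega,
          fun _ => ⟨Or.inl (by omega), Or.inl (by omega)⟩⟩
      · have hodd : ∀ v ∈ A, c v % 2 = 1 := by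
          intro v hv
          by_cases hvu : v = u
          · rw [hvu, hcu]
          · rw [o4 v hv hvu]
        have hs : ∑ v ∈ A, c v % 2 = 4 := by
          rw [sum_congr rfl hodd, sum_const, o2]; rfl
        obtain ⟨n1, n2, n3, n4, n5, n6⟩ := hG.final (fun v hv => by
          by_cases hvu : v = u
          · rw [hvu, hcu]; omega
          · rw [o4 v hv hvu])
        have hcd := hG.cd u hu
        rw [hs] at n3 n4
        refine ⟨r1, by omega, by omega, by omega, by omega, by omega,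
          fun _ => ⟨Or.inr ⟨u, by omega⟩, ?_⟩⟩
        by_cases hpar : dg F u % 2 = 1
        · exact Or.inr ⟨u, by omega, hpar⟩
        · have := n6 u hu (by omega) (by omega)
          rw [hs] at this
          exact Or.inl (by omega)
      · obtain ⟨n1, n2, n3, n4, n5, n6⟩ := hG.final o5
        exact ⟨r1, by omega, by omega, by omega, by omega, by omega,
          fun _ => ⟨Or.inl (by omega), Or.inl (by omega)⟩⟩
    · omega
  · exfalso
    rcases Nat.lt_or_ge (mu EvenSet F) 4 with h4 | h4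
    · have h5 : 2 ^ mu EvenSet F ≤ 2 ^ 3 := Nat.pow_le_pow_right (by norm_num) (by omega)
      have h6 : mu EvenSet F = 3 ∨ mu EvenSet F ≤ 2 := by omega
      rcases h6 with h6 | h6
      · omega
      · have h7 : 2 ^ mu EvenSet F ≤ 2 ^ 2 := Nat.pow_le_pow_right (by norm_num) (by omega)
        omega
    · omega

end Pool.Agent.Helper53
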