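import Pool.Agent.Helper53.SmallSuff

/-!
# Necessary conditions for small excess
-/

open Finset Function
open scoped symmDiff

set_option linter.unusedSectionVars false
set_option linter.unusedSimpArgs false

namespace Pool.Agent.Helper53

variable {V : Type*} [Fintype V] [DecidableEq V]

section

variable {S : Finset V} {d : V → ℕ} {μ e : ℕ} {A : Finset V} {c : V → ℕ} {m μ0 f1 f2 f3 : ℕ}

theorem sum_mod_three (hc : ∀ v ∈ A, c v = 3) : ∑ v ∈ A, c v % 2 = A.card := by
  rw [sum_congr rfl (fun v hv => by rw [hc v hv] : ∀ v ∈ A, c v % 2 = 3 % 2), sum_const]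
  simp

/-- marking a vertex when all base degrees are three and there is a slot -/
theorem GS.mark3 (h : GS S d μ e A c m μ0 f1 f2 f3) (hsum : ∑ v ∈ S, d v + 2 = 2 * (S.card + μ))
    (hd : ∀ v ∈ S, 1 ≤ d v) (hc : ∀ v ∈ A, c v = 3) (hm : 1 ≤ m)
    {u : V} (hu : u ∈ S) (huA : u ∉ A) :
    ∃ A' c' m' g1 g2 g3, GS S d μ e A' c' m' μ0 g1 g2 g3 ∧ u ∈ A' ∧
      (∀ v ∈ A', v ≠ u → 3 ≤ c' v) ∧
      ((A'.card = A.card + 1 ∧ ∑ v ∈ A', c' v % 2 = A.card ∧ c' u = 1 ∧ m' = m) ∨
       (A'.card = A.card + 2 ∧ ∑ v ∈ A', c' v % 2 = A.card + 2 ∧ c' u = 1 ∧ m' + 1 = m) ∨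
       (A'.card = A.card + 1 ∧ ∑ v ∈ A', c' v % 2 = A.card ∧ c' u = 2 ∧ m' + 1 = m)) := by
  have huO : u ∈ S \ A := mem_sdiff.mpr ⟨hu, huA⟩
  have hdO : ∀ v ∈ S \ A, 1 ≤ d v := fun v hv => hd v (mem_sdiff.mp hv).1
  have hM1 := h.M1
  have hM2 := h.M2
  have hM3 := h.M3
  have hle := h.le
  have hsr := h.sum hsum
  have hpar := h.par hsum
  have hq := sum_io_eq hdO
  have ht := sum_d_eq hdO
  have hioN := sum_io_le (d := d) (S \ A)
  have hN : 1 ≤ (S \ A).card := card_pos.mpr ⟨u, huO⟩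
  have hdu := hd u hu
  have hodd := sum_mod_three hc
  -- final facts about c
  have fin1 : ∀ a ∈ A, (∀ v ∈ insert u A, v ≠ u →
      3 ≤ update (update c u 1) a (c a + 1) v) ∧ (insert u A).card = A.card + 1 ∧
      ∑ v ∈ insert u A, update (update c u 1) a (c a + 1) v % 2 = A.card ∧
      update (update c u 1) a (c a + 1) u = 1 := by
    intro a ha
    have hau : a ≠ u := by rintro rfl; exact huA ha
    have e8 : update (update c u 1) a (c a + 1) u = 1 := by
      rw [update_of_ne hau.symm]; simp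
    refine ⟨?_, card_insert_of_notMem huA, ?_, e8⟩
    · intro v hv hvu
      have hvA : v ∈ A := by rw [mem_insert] at hv; tauto
      by_cases hva : v = a
      · rw [hva]; simp; have := hc a ha; omega
      · rw [update_of_ne hva, update_of_ne hvu, hc v hvA]
    · rw [sum_insert huA, e8]
      have e4 := sum_update_mem ha (update c u 1) (c a + 1) (fun _ y => y % 2)
      have e5 := sum_update_not_mem huA c 1 (fun _ y => y % 2)
      rw [update_of_ne hau] at e4
      have := hc a ha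
      omega
  have fin2 : ∀ w, w ∉ A → w ≠ u → (∀ v ∈ insert u (insert w A), v ≠ u →
      3 ≤ update (update (update c w 2) u 1) w (update c w 2 w + 1) v) ∧
      (insert u (insert w A)).card = A.card + 2 ∧
      ∑ v ∈ insert u (insert w A),
        update (update (update c w 2) u 1) w (update c w 2 w + 1) v % 2 = A.card + 2 ∧
      update (update (update c w 2) u 1) w (update c w 2 w + 1) u = 1 := by
    intro w hwA hwu
    have hu1 : u ∉ insert w A := by rw [mem_insert, not_or]; exact ⟨hwu.symm, huA⟩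
    have e8 : update (update (update c w 2) u 1) w (update c w 2 w + 1) u = 1 := by
      rw [update_of_ne hwu.symm]; simp
    refine ⟨?_, ?_, ?_, e8⟩
    · intro v hv hvu
      by_cases hva : v = w
      · rw [hva]; simp
      · have hvA : v ∈ A := by simp only [mem_insert] at hv; tauto
        rw [update_of_ne hva, update_of_ne hvu, update_of_ne hva, hc v hvA]
    · rw [card_insert_of_notMem hu1, card_insert_of_notMem hwA]
    · rw [sum_insert hu1, sum_insert hwA, e8]
      have e9 : ∑ x ∈ A, update (update (update c w 2) u 1) w (update c w 2 w + 1) x % 2 =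
          ∑ x ∈ A, c x % 2 := by
        refine sum_congr rfl ?_
        intro x hx
        have hxw : x ≠ w := by rintro rfl; exact hwA hx
        have hxu : x ≠ u := by rintro rfl; exact huA hx
        rw [update_of_ne hxw, update_of_ne hxu, update_of_ne hxw]
      rw [e9, hodd]
      simp
      omega
  have fin3 : (∀ v ∈ insert u A, v ≠ u → 3 ≤ update c u 2 v) ∧
      (insert u A).card = A.card + 1 ∧ ∑ v ∈ insert u A, update c u 2 v % 2 = A.card ∧
      update c u 2 u = 2 := by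
    refine ⟨?_, card_insert_of_notMem huA, ?_, by simp⟩
    · intro v hv hvu
      have hvA : v ∈ A := by rw [mem_insert] at hv; tauto
      rw [update_of_ne hvu, hc v hvA]
    · rw [sum_insert huA]
      have e5 := sum_update_not_mem huA c 2 (fun _ y => y % 2)
      rw [e5, hodd]
      simp
  obtain ⟨m1, rfl⟩ : ∃ m1, m = m1 + 1 := ⟨m - 1, by omega⟩
  rcases Nat.lt_or_ge (d u) 2 with hx | hx
  · -- d u = 1
    have hdu1 : d u = 1 := by omega
    have hi1u : i1 (d u) = 1 := by rw [hdu1]; rfl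
    have hiou : io (d u) = 1 := by rw [hdu1]; rfl
    have ho1 : 1 ≤ ∑ v ∈ S \ A, io (d v) := by
      have := le_sum_of_mem huO (fun v => io (d v))
      omega
    have hi11 : 1 ≤ ∑ v ∈ S \ A, i1 (d v) := by
      have := le_sum_of_mem huO (fun v => i1 (d v))
      omega
    by_cases hσ : ∃ a ∈ A, (d a - c a) % 2 = 1
    · obtain ⟨a, ha, hodd⟩ := hσ
      have := h.op1 (g1 := f1) (g2 := f2) (g3 := f3) ha (by omega) hu huA hdu (by omega)
        (by omega) (by omega)
      obtain ⟨q1, q2, q3, q4⟩ := fin1 a ha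
      exact ⟨_, _, m1 + 1, _, _, _, this, mem_insert_self _ _, q1, Or.inl ⟨q2, q3, q4, rfl⟩⟩
    · have hσ0 : ∑ v ∈ A, (d v - c v) % 2 = 0 := by
        refine sum_eq_zero ?_
        intro x hx
        by_contra hne
        exact hσ ⟨x, hx, by omega⟩
      -- step through a slot vertex
      have through : ∀ w ∈ S \ A, 3 ≤ d w → d w % 2 = 1 →
          ∃ A' c' m' g1 g2 g3, GS S d μ e A' c' m' μ0 g1 g2 g3 ∧ u ∈ A' ∧
            (∀ v ∈ A', v ≠ u → 3 ≤ c' v) ∧
            ((A'.card = A.card + 1 ∧ ∑ v ∈ A', c' v % 2 = A.card ∧ c' u = 1 ∧ m' = m1 + 1) ∨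
            (A'.card = A.card + 2 ∧ ∑ v ∈ A', c' v % 2 = A.card + 2 ∧ c' u = 1 ∧
              m' + 1 = m1 + 1) ∨
            (A'.card = A.card + 1 ∧ ∑ v ∈ A', c' v % 2 = A.card ∧ c' u = 2 ∧
              m' + 1 = m1 + 1)) := by
        intro w hw hdw hwo
        have hwS := (mem_sdiff.mp hw).1
        have hwA := (mem_sdiff.mp hw).2
        have hwu : w ≠ u := by rintro rfl; omega
        have hio : io (d w) = 1 := hwo
        have h2 := h.op2 (g3 := f3 - 2) hwS hwA (by omega) (by omega)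
        have h3 := h2.op1 (a := w) (u := u) (g1 := f1) (g2 := f2) (g3 := f3 - 2)
          (mem_insert_self _ _) (by simp; omega) hu
          (by rw [mem_insert, not_or]; exact ⟨hwu.symm, huA⟩) hdu (by omega)
          (by simp; omega) (by simp; omega)
        obtain ⟨q1, q2, q3, q4⟩ := fin2 w hwA hwu
        exact ⟨_, _, m1, _, _, _, h3, mem_insert_self _ _, q1,
          Or.inr (Or.inl ⟨q2, q3, q4, rfl⟩)⟩
      by_cases hs : ∃ a ∈ A, c a + 1 ≤ d a
      · obtain ⟨a, ha, hca⟩ := hs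
        have hr : (d a - c a) % 2 = 0 := by
          by_contra hne
          exact hσ ⟨a, ha, by omega⟩
        by_cases hf2 : 2 ≤ f2
        · have := h.op1 (g1 := f1) (g2 := f2 - 2) (g3 := f3 - 2) ha hca hu huA hdu (by omega)
            (by omega) (by omega)
          obtain ⟨q1, q2, q3, q4⟩ := fin1 a ha
          exact ⟨_, _, m1 + 1, _, _, _, this, mem_insert_self _ _, q1,
            Or.inl ⟨q2, q3, q4, rfl⟩⟩
        · have hq1 : 1 ≤ ∑ v ∈ S \ A, j3 (d v) := by omega
          obtain ⟨w, hw, hw1⟩ := exists_of_sum_pos hq1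
          have hw2 : 3 ≤ d w ∧ d w % 2 = 1 := by
            unfold j3 at hw1; split_ifs at hw1 with h5
            · exact h5
            · omega
          exact through w hw hw2.1 hw2.2
      · have hs0 : ∑ v ∈ A, (d v - c v) = 0 := by
          refine sum_eq_zero ?_
          intro x hx
          by_contra hne
          exact hs ⟨x, hx, by omega⟩
        have ht1 : 1 ≤ ∑ v ∈ S \ A, (d v - 2) := by omega
        by_cases hodd : ∃ w ∈ S \ A, 3 ≤ d w ∧ d w % 2 = 1
        · obtain ⟨w, hw, hdw, hwo⟩ := hodd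
          exact through w hw hdw hwo
        · obtain ⟨w, hw, hw1⟩ := exists_of_sum_pos ht1
          have hdw : 3 ≤ d w := by omega
          have hwe : d w % 2 = 0 := by
            by_contra hne
            exact hodd ⟨w, hw, hdw, by omega⟩
          have hq0 : ∑ v ∈ S \ A, j3 (d v) = 0 := by
            refine sum_eq_zero ?_
            intro x hx
            unfold j3
            split_ifs with h5
            · exact absurd ⟨x, hx, h5⟩ hodd
            · rfl
          have hwS := (mem_sdiff.mp hw).1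
          have hwA := (mem_sdiff.mp hw).2
          have hwu : w ≠ u := by rintro rfl; omega
          have hio : io (d w) = 0 := hwe
          have h2 := h.op2 (g3 := f3) hwS hwA (by omega) (by omega)
          have h3 := h2.op1 (a := w) (u := u) (g1 := f1) (g2 := f2 - 2) (g3 := f3 - 2)
            (mem_insert_self _ _) (by simp; omega) hu
            (by rw [mem_insert, not_or]; exact ⟨hwu.symm, huA⟩) hdu (by omega)
            (by simp; omega) (by simp; omega)
          obtain ⟨q1, q2, q3, q4⟩ := fin2 w hwA hwu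
          exact ⟨_, _, m1, _, _, _, h3, mem_insert_self _ _, q1,
            Or.inr (Or.inl ⟨q2, q3, q4, rfl⟩)⟩
  · -- d u ≥ 2
    have hi1u : i1 (d u) = 0 := by unfold i1; split_ifs <;> omega
    by_cases hcase : 2 * io (d u) ≤ f3
    · have h2 := h.op2 (g3 := f3 - 2 * io (d u)) hu huA hx (by omega)
      obtain ⟨q1, q2, q3, q4⟩ := fin3
      exact ⟨_, _, m1, _, _, _, h2, mem_insert_self _ _, q1,
        Or.inr (Or.inr ⟨q2, q3, q4, rfl⟩)⟩
    · have hio1 : io (d u) = 1 := by unfold io at hcase ⊢; omega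
      have hj : 1 ≤ ∑ v ∈ S \ A, j3 (d v) := by
        have h8 := le_sum_of_mem huO (fun v => j3 (d v))
        have : j3 (d u) = 1 := by
          unfold j3; unfold io at hio1
          rw [if_pos (by omega)]
        omega
      have hσ1 : 1 ≤ ∑ v ∈ A, (d v - c v) % 2 := by omega
      obtain ⟨a, ha, ha1⟩ := exists_of_sum_pos hσ1
      have := h.op1 (g1 := f1 - 1) (g2 := f2) (g3 := f3) ha (by omega) hu huA hdu (by omega)
        (by omega) (by omega)
      obtain ⟨q1, q2, q3, q4⟩ := fin1 a ha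
      exact ⟨_, _, m1 + 1, _, _, _, this, mem_insert_self _ _, q1, Or.inl ⟨q2, q3, q4, rfl⟩⟩

/-- numbers of the new base after gluing a block all of whose large degrees are three -/
theorem GS.big_num (h : GS S d μ e A c m μ0 f1 f2 f3) {u : V} (huA : u ∈ A) {T : Finset V}
    {dL : V → ℕ} (hST : S ∩ T = {u}) (h3 : ∀ v ∈ hi T dL, dL v = 3) :
    (A ∪ (hi T dL).erase u).card = A.card + ((hi T dL).erase u).card ∧
    ∑ v ∈ A ∪ (hi T dL).erase u,
      (if v = u then c u + dL u else if v ∈ A then c v else dL v) % 2 + c u % 2 =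
      ∑ v ∈ A, c v % 2 + (c u + dL u) % 2 + ((hi T dL).erase u).card := by
  have hdis : Disjoint A ((hi T dL).erase u) := by
    rw [disjoint_left]
    intro v hv hv'
    rw [mem_erase, hi, mem_filter] at hv'
    have : v ∈ S ∩ T := mem_inter.mpr ⟨h.sub hv, hv'.2.1⟩
    rw [hST, mem_singleton] at this
    exact hv'.1 this
  refine ⟨card_union_of_disjoint hdis, ?_⟩
  rw [sum_union hdis]
  have e1 : ∑ v ∈ (hi T dL).erase u,
      (if v = u then c u + dL u else if v ∈ A then c v else dL v) % 2 =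
      ((hi T dL).erase u).card := by
    have : ∀ v ∈ (hi T dL).erase u,
        (if v = u then c u + dL u else if v ∈ A then c v else dL v) % 2 = 1 := by
      intro v hv
      have hv1 := (mem_erase.mp hv).1
      have hv2 : v ∉ A := fun hh => disjoint_left.mp hdis hh hv
      rw [if_neg hv1, if_neg hv2, h3 v (mem_erase.mp hv).2]
    rw [sum_congr rfl this, sum_const]; simp
  have e2 : ∑ v ∈ A, (if v = u then c u + dL u else if v ∈ A then c v else dL v) % 2 + c u % 2 =
      ∑ v ∈ A, c v % 2 + (c u + dL u) % 2 := by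
    rw [← add_sum_erase A _ huA, ← add_sum_erase A (fun v => c v % 2) huA, if_pos rfl]
    have : ∑ v ∈ A.erase u, (if v = u then c u + dL u else if v ∈ A then c v else dL v) % 2 =
        ∑ v ∈ A.erase u, c v % 2 := by
      refine sum_congr rfl ?_
      intro v hv
      rw [if_neg (mem_erase.mp hv).1, if_pos (mem_erase.mp hv).2]
    rw [this]; ring
  omega

end

/-- there is a state whose base has the property `P` -/
def ST (P : Finset V → (V → ℕ) → ℕ → ℕ → Prop) (S : Finset V) (F : Finset (Sym2 V)) (e : ℕ) :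
    Prop :=
  ∃ A c m μ0 f1 f2 f3, GS S (dg F) (mu EvenSet F) e A c m μ0 f1 f2 f3 ∧ P A c m μ0

def P1 (A : Finset V) (c : V → ℕ) (m μ0 : ℕ) : Prop :=
  A.card = 2 ∧ (∀ v ∈ A, c v = 3) ∧ 2 ≤ m ∧ μ0 = 2

def P2 (A : Finset V) (c : V → ℕ) (m μ0 : ℕ) : Prop :=
  μ0 = 4 ∧ (∀ v ∈ A, 3 ≤ c v) ∧
  ((4 ≤ ∑ v ∈ A, c v % 2 ∧ 4 ≤ A.card ∧ 7 ≤ m + A.card ∧
      ∑ v ∈ A, c v % 2 + 10 ≤ 2 * m + 2 * A.card) ∨
   (2 ≤ ∑ v ∈ A, c v % 2 ∧ 4 ≤ A.card ∧ 8 ≤ m + A.card ∧
      ∑ v ∈ A, c v % 2 + 10 ≤ 2 * m + 2 * A.card) ∨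
   (2 ≤ ∑ v ∈ A, c v % 2 ∧ 3 ≤ A.card ∧ 7 ≤ m + A.card ∧
      ∑ v ∈ A, c v % 2 + 10 ≤ 2 * m + 2 * A.card ∧ ∃ u ∈ A, c u = 6))

def P3 (A : Finset V) (c : V → ℕ) (m μ0 : ℕ) : Prop :=
  μ0 = 3 ∧ ((A.card = 2 ∧ (∀ v ∈ A, c v = 4) ∧ 3 ≤ m) ∨
   (A.card = 3 ∧ ∑ v ∈ A, c v % 2 = 2 ∧ (∃ u ∈ A, c u = 4) ∧ (∀ v ∈ A, 3 ≤ c v) ∧ 2 ≤ m) ∨
   (A.card = 4 ∧ (∀ v ∈ A, c v = 3) ∧ 2 ≤ m))

def P4a (A : Finset V) (c : V → ℕ) (_m μ0 : ℕ) : Prop :=
  μ0 = 3 ∧ A.card = 4 ∧ (∀ v ∈ A, c v = 3)

def P4b (A : Finset V) (c : V → ℕ) (m μ0 : ℕ) : Prop :=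
  (μ0 = 3 ∧ A.card = 4 ∧ (∀ v ∈ A, c v = 3) ∧ 1 ≤ m) ∨
  (μ0 = 4 ∧ A.card = 4 ∧ 2 ≤ m ∧ ∃ u ∈ A, c u = 5 ∧ ∀ v ∈ A, v ≠ u → c v = 3) ∨
  (μ0 = 4 ∧ A.card = 5 ∧ ∑ v ∈ A, c v % 2 = 4 ∧ 2 ≤ m ∧ ∀ v ∈ A, 3 ≤ c v)

end Pool.Agent.Helper53
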