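import Pool.Agent.Helper53.Bases

/-!
# Sufficient conditions for small excess
-/

open Finset Function
open scoped symmDiff

set_option linter.unusedSectionVars false
set_option linter.unusedSimpArgs false

namespace Pool.Agent.Helper53

variable {V : Type*} [Fintype V] [DecidableEq V]

theorem good_of_nums {d : V → ℕ} {μ e : ℕ} (hd : ∀ v, 1 ≤ d v)
    (hsum : ∑ v, d v + 2 = 2 * (Fintype.card V + μ)) {A : Finset V} {c : V → ℕ} {m μ0 : ℕ}
    (hA : ∀ v ∈ A, 3 ≤ c v ∧ c v ≤ d v) (hcs : ∑ v ∈ A, c v + 2 = 2 * (A.card + μ0))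
    (hμ : μ0 ≤ μ) (hm : 1 ≤ m ∨ μ0 = μ) (hbase : Base A c m (μ0 + e))
    (h1 : ∑ v, i1 (d v) + 2 * μ + m + A.card ≤ Fintype.card V + 2 * μ0)
    (h2 : ∑ v ∈ A, (d v - c v) % 2 + ∑ v, io (d v) + 4 * μ + 2 * m + 2 * A.card ≤
      2 * Fintype.card V + 4 * μ0 + ∑ v ∈ A, io (d v))
    (h3 : ∑ v ∈ A, (d v - c v) % 2 + ∑ v ∈ A, io (d v) ≤ ∑ v, io (d v)) :
    Good univ d (μ + e) := by
  have e1 := card_ones A d (fun v hv => (hA v hv).1.trans (hA v hv).2)
  have e2 := card_odd_filter A d c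
  have e3 := card_out_odd A d
  have s1 : ∑ v ∈ univ \ A, i1 (d v) + ∑ v ∈ A, i1 (d v) = ∑ v, i1 (d v) :=
    sum_sdiff (subset_univ A)
  have s2 : ∑ v ∈ univ \ A, io (d v) + ∑ v ∈ A, io (d v) = ∑ v, io (d v) :=
    sum_sdiff (subset_univ A)
  refine good_of_fits (A := A) (c := c) (m := m) (μ0 := μ0) hd hsum
    ⟨hA, hcs, hμ, hm, ?_, ?_, ?_⟩ hbase <;> omega

theorem choose_odd (H : Finset V) (d : V → ℕ) {n : ℕ} (hn : n ≤ H.card) :
    ∃ B, B ⊆ H ∧ B.card = n ∧ ∑ v ∈ B, io (d v) = min n (∑ v ∈ H, io (d v)) := by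
  classical
  have hq : ∀ X : Finset V, (X.filter (fun v => d v % 2 = 1)).card = ∑ v ∈ X, io (d v) := by
    intro X
    rw [card_filter]
    refine sum_congr rfl ?_
    intro v _
    unfold io
    split_ifs <;> omega
  rcases Nat.lt_or_ge (∑ v ∈ H, io (d v)) n with h | h
  · obtain ⟨B, h1, h2, h3⟩ := exists_subsuperset_card_eq
      (filter_subset (fun v => d v % 2 = 1) H) (by rw [hq]; omega) hn
    refine ⟨B, h2, h3, ?_⟩
    have h4 : B.filter (fun v => d v % 2 = 1) = H.filter (fun v => d v % 2 = 1) := by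
      ext v
      simp only [mem_filter]
      constructor
      · rintro ⟨h5, h6⟩; exact ⟨h2 h5, h6⟩
      · rintro ⟨h5, h6⟩; exact ⟨h1 (mem_filter.mpr ⟨h5, h6⟩), h6⟩
    rw [← hq B, h4, hq H]
    omega
  · obtain ⟨B, h1, h2⟩ := exists_subset_card_eq (by rw [hq]; exact h :
      n ≤ (H.filter (fun v => d v % 2 = 1)).card)
    refine ⟨B, h1.trans (filter_subset _ _), h2, ?_⟩
    have h3 : ∑ v ∈ B, io (d v) = ∑ _v ∈ B, 1 :=
      sum_congr rfl (fun v hv => (mem_filter.mp (h1 hv)).2)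
    rw [h3, sum_const, h2, smul_eq_mul]
    omega

/-- the vertices of degree at least three -/
def big3 (d : V → ℕ) : Finset V := univ.filter (fun v => 3 ≤ d v)

theorem mem_big3 {d : V → ℕ} {v : V} : v ∈ big3 d ↔ 3 ≤ d v := by simp [big3]

theorem card_big3 (d : V → ℕ) : (big3 d).card = ∑ v, i3 (d v) := by
  unfold big3; rw [card_filter]; rfl

theorem sum_big3 (d : V → ℕ) : ∑ v ∈ big3 d, io (d v) = ∑ v, j3 (d v) := by
  unfold big3
  rw [sum_filter]
  refine sum_congr rfl ?_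
  intro v _
  unfold io j3
  split_ifs <;> omega

section

variable {d : V → ℕ} {μ : ℕ}

theorem io_cases (n : ℕ) : io n = 0 ∨ io n = 1 := by unfold io; omega

/-- excess one -/
theorem suff_one (hd : ∀ v, 1 ≤ d v) (hsum : ∑ v, d v + 2 = 2 * (Fintype.card V + μ))
    (hμ : 2 ≤ μ) (hh : 2 ≤ ∑ v, i3 (d v)) (ho : 2 ≤ ∑ v, io (d v))
    (h1 : ∑ v, i1 (d v) + 2 * μ ≤ Fintype.card V)
    (h2 : ∑ v, io (d v) + 4 * μ ≤ 2 * Fintype.card V + 2) : Good univ d (μ + 1) := by
  have hq := sum_io_eq (O := univ) (fun v _ => hd v)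
  obtain ⟨B, hB, hBc, hBo⟩ := choose_odd (big3 d) d (n := 2) (by rw [card_big3]; exact hh)
  rw [sum_big3] at hBo
  obtain ⟨a, b, hab, rfl⟩ := card_eq_two.mp hBc
  have ha := mem_big3.mp (hB (by simp : a ∈ ({a, b} : Finset V)))
  have hb := mem_big3.mp (hB (by simp : b ∈ ({a, b} : Finset V)))
  rw [sum_pair hab] at hBo
  have ia : io (d a) = d a % 2 := rfl
  have ib : io (d b) = d b % 2 := rfl
  refine good_of_nums (A := {a, b}) (c := fun _ => 3) (m := 2) (μ0 := 2) hd hsum ?_ ?_ hμ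
    (Or.inl (by omega)) (base_dia hab rfl rfl) ?_ ?_ ?_
  · intro v hv
    simp only [mem_insert, mem_singleton] at hv
    rcases hv with rfl | rfl
    · exact ⟨le_rfl, ha⟩
    · exact ⟨le_rfl, hb⟩
  · rw [sum_pair hab, hBc]
  · rw [hBc]; omega
  · rw [sum_pair hab, sum_pair hab, hBc]; omega
  · rw [sum_pair hab, sum_pair hab]; omega

theorem sum_three {a b x : V} (hab : a ≠ b) (hax : a ≠ x) (hbx : b ≠ x) (f : V → ℕ) :
    ∑ v ∈ ({a, b, x} : Finset V), f v = f a + f b + f x := by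
  rw [sum_insert (by simp [hab, hax]), sum_pair hbx]; ring

theorem card_three {a b x : V} (hab : a ≠ b) (hax : a ≠ x) (hbx : b ≠ x) :
    ({a, b, x} : Finset V).card = 3 := by
  rw [card_insert_of_notMem (by simp [hab, hax]), card_pair hbx]

theorem sum_four {a b x y : V} (hab : a ≠ b) (hax : a ≠ x) (hay : a ≠ y) (hbx : b ≠ x)
    (hby : b ≠ y) (hxy : x ≠ y) (f : V → ℕ) :
    ∑ v ∈ ({a, b, x, y} : Finset V), f v = f a + f b + f x + f y := by
  rw [sum_insert (by simp [hab, hax, hay]), sum_three hbx hby hxy]; ring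

theorem card_four {a b x y : V} (hab : a ≠ b) (hax : a ≠ x) (hay : a ≠ y) (hbx : b ≠ x)
    (hby : b ≠ y) (hxy : x ≠ y) : ({a, b, x, y} : Finset V).card = 4 := by
  rw [card_insert_of_notMem (by simp [hab, hax, hay]), card_three hbx hby hxy]

/-- choose `n` further large vertices, preferring odd ones -/
theorem choose_rest (d : V → ℕ) {u : V} (hu : 3 ≤ d u) {n : ℕ} (hn : n + 1 ≤ ∑ v, i3 (d v)) :
    ∃ B, B ⊆ (big3 d).erase u ∧ B.card = n ∧
      ∑ v ∈ B, io (d v) = min n (∑ v, j3 (d v) - io (d u)) := by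
  have huB : u ∈ big3 d := mem_big3.mpr hu
  have h1 := card_erase_add_one huB
  rw [card_big3] at h1
  have h2 := sum_erase_one huB d io
  rw [sum_big3] at h2
  obtain ⟨B, hB, hBc, hBo⟩ := choose_odd ((big3 d).erase u) d (n := n) (by omega)
  exact ⟨B, hB, hBc, by omega⟩

/-- excess two, a vertex of degree at least six -/
theorem suff_T1 (hd : ∀ v, 1 ≤ d v) (hsum : ∑ v, d v + 2 = 2 * (Fintype.card V + μ))
    (hμ : 4 ≤ μ) (hh : 3 ≤ ∑ v, i3 (d v)) {u : V} (hu : 6 ≤ d u)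
    (ho : 2 + 2 * io (d u) ≤ ∑ v, io (d v))
    (h1 : ∑ v, i1 (d v) + 2 * μ ≤ Fintype.card V + 1)
    (h2 : ∑ v, io (d v) + 4 * μ ≤ 2 * Fintype.card V + 4) : Good univ d (μ + 2) := by
  have hq := sum_io_eq (O := univ) (fun v _ => hd v)
  obtain ⟨B, hB, hBc, hBo⟩ := choose_rest d (u := u) (by omega) (n := 2) (by omega)
  obtain ⟨x, y, hxy, rfl⟩ := card_eq_two.mp hBc
  have hx := mem_erase.mp (hB (by simp : x ∈ ({x, y} : Finset V)))
  have hy := mem_erase.mp (hB (by simp : y ∈ ({x, y} : Finset V)))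
  have hx3 := mem_big3.mp hx.2
  have hy3 := mem_big3.mp hy.2
  rw [sum_pair hxy] at hBo
  have ia : io (d u) = d u % 2 := rfl
  have ib : io (d x) = d x % 2 := rfl
  have ic : io (d y) = d y % 2 := rfl
  have hux := hx.1.symm
  have huy := hy.1.symm
  set c : V → ℕ := fun v => if v = u then 6 else 3 with hc
  have cu : c u = 6 := by simp [hc]
  have cx : c x = 3 := by simp [hc, hx.1]
  have cy : c y = 3 := by simp [hc, hy.1]
  refine good_of_nums (A := {u, x, y}) (c := c) (m := 4) (μ0 := 4) hd hsum ?_ ?_ hμ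
    (Or.inl (by omega)) (base_T1 hux huy hxy cu cx cy) ?_ ?_ ?_
  · intro v hv
    simp only [mem_insert, mem_singleton] at hv
    rcases hv with rfl | rfl | rfl
    · rw [cu]; omega
    · rw [cx]; omega
    · rw [cy]; omega
  · rw [sum_three hux huy hxy, card_three hux huy hxy, cu, cx, cy]
  · rw [card_three hux huy hxy]; omega
  · rw [sum_three hux huy hxy, sum_three hux huy hxy, card_three hux huy hxy, cu, cx, cy]
    omega
  · rw [sum_three hux huy hxy, sum_three hux huy hxy, cu, cx, cy]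
    omega

theorem par_no (hsum : ∑ v, d v + 2 = 2 * (Fintype.card V + μ)) :
    (∑ v, io (d v)) % 2 = 0 := by
  have hpar : ∃ w, ∑ x, d x = ∑ x, io (d x) + 2 * w := by
    refine ⟨∑ x, d x / 2, ?_⟩
    rw [mul_sum, ← sum_add_distrib]
    refine sum_congr rfl ?_
    intro x _
    unfold io; omega
  obtain ⟨w, hw⟩ := hpar
  omega

theorem sum_i3_eq : ∑ v, i3 (d v) = ∑ v, j3 (d v) + ∑ v, i4 (d v) := by
  rw [← sum_add_distrib]
  refine sum_congr rfl ?_
  intro x _
  unfold i3 j3 i4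
  split_ifs <;> omega

/-- excess two, two diamonds joined by an edge -/
theorem suff_T4 (hd : ∀ v, 1 ≤ d v) (hsum : ∑ v, d v + 2 = 2 * (Fintype.card V + μ))
    (hμ : 4 ≤ μ) (hh : 4 ≤ ∑ v, i3 (d v))
    (ho : ∑ v, io (d v) = 2)
    (h1 : ∑ v, i1 (d v) + 2 * μ ≤ Fintype.card V) : Good univ d (μ + 2) := by
  have hq := sum_io_eq (O := univ) (fun v _ => hd v)
  obtain ⟨B, hB, hBc, hBo⟩ := choose_odd (big3 d) d (n := 2) (by rw [card_big3]; omega)
  rw [sum_big3] at hBo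
  have hrest := card_sdiff_add_card_eq_card hB
  rw [card_big3] at hrest
  have hrs : ∑ v ∈ big3 d \ B, io (d v) + ∑ v ∈ B, io (d v) = ∑ v ∈ big3 d, io (d v) :=
    sum_sdiff hB
  rw [sum_big3] at hrs
  have hr0 : ∑ v ∈ big3 d \ B, io (d v) = 0 := by omega
  have h2 : 1 < (big3 d \ B).card := by omega
  obtain ⟨u, hu, v, hv, huv⟩ := one_lt_card.mp h2
  have hu0 := sum_eq_zero_iff.mp hr0 u hu
  have hv0 := sum_eq_zero_iff.mp hr0 v hv
  rw [mem_sdiff] at hu hv
  have hu3 := mem_big3.mp hu.1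
  have hv3 := mem_big3.mp hv.1
  obtain ⟨x, y, hxy, rfl⟩ := card_eq_two.mp hBc
  have hx3 := mem_big3.mp (hB (by simp : x ∈ ({x, y} : Finset V)))
  have hy3 := mem_big3.mp (hB (by simp : y ∈ ({x, y} : Finset V)))
  rw [sum_pair hxy] at hBo
  have hux : u ≠ x := by rintro rfl; exact hu.2 (by simp)
  have huy : u ≠ y := by rintro rfl; exact hu.2 (by simp)
  have hvx : v ≠ x := by rintro rfl; exact hv.2 (by simp)
  have hvy : v ≠ y := by rintro rfl; exact hv.2 (by simp)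
  have ia : io (d u) = d u % 2 := rfl
  have ia' : io (d v) = d v % 2 := rfl
  have ib : io (d x) = d x % 2 := rfl
  have ic : io (d y) = d y % 2 := rfl
  set c : V → ℕ := fun w => if w = u ∨ w = v then 4 else 3 with hc
  have cu : c u = 4 := by simp [hc]
  have cv : c v = 4 := by simp [hc]
  have cx : c x = 3 := by simp [hc, hux.symm, hvx.symm]
  have cy : c y = 3 := by simp [hc, huy.symm, hvy.symm]
  refine good_of_nums (A := {u, v, x, y}) (c := c) (m := 4) (μ0 := 4) hd hsum ?_ ?_ hμ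
    (Or.inl (by omega)) (base_T4 huv hux huy hvx hvy hxy cu cv cx cy) ?_ ?_ ?_
  · intro w hw
    simp only [mem_insert, mem_singleton] at hw
    rcases hw with rfl | rfl | rfl | rfl
    · rw [cu]; omega
    · rw [cv]; omega
    · rw [cx]; omega
    · rw [cy]; omega
  · rw [sum_four huv hux huy hvx hvy hxy, card_four huv hux huy hvx hvy hxy, cu, cv, cx, cy]
  · rw [card_four huv hux huy hvx hvy hxy]; omega
  · rw [sum_four huv hux huy hvx hvy hxy, sum_four huv hux huy hvx hvy hxy,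
      card_four huv hux huy hvx hvy hxy, cu, cv, cx, cy]
    omega
  · rw [sum_four huv hux huy hvx hvy hxy, sum_four huv hux huy hvx hvy hxy, cu, cv, cx, cy]
    omega

/-- excess two -/
theorem suff_two (hd : ∀ v, 1 ≤ d v) (hsum : ∑ v, d v + 2 = 2 * (Fintype.card V + μ))
    (hμ : 4 ≤ μ) (hh : 3 ≤ ∑ v, i3 (d v)) (ho : 2 ≤ ∑ v, io (d v))
    (h1 : ∑ v, i1 (d v) + 2 * μ ≤ Fintype.card V + 1)
    (h2 : ∑ v, io (d v) + 4 * μ ≤ 2 * Fintype.card V + 6)
    (h3 : 4 ≤ ∑ v, i3 (d v) ∨ ∃ v, 6 ≤ d v)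
    (h4 : 4 ≤ ∑ v, io (d v) ∨ (∃ v, 6 ≤ d v ∧ d v % 2 = 0) ∨
      (4 ≤ ∑ v, i3 (d v) ∧ ∑ v, i1 (d v) + 2 * μ ≤ Fintype.card V)) :
    Good univ d (μ + 2) := by
  have hq := sum_io_eq (O := univ) (fun v _ => hd v)
  have hpar := par_no hsum
  have hi := sum_i3_eq (d := d)
  by_cases hA : 4 ≤ ∑ v, i3 (d v) ∧ 4 ≤ ∑ v, io (d v)
  · exact suff (Fintype.card V) univ d μ 2 card_univ (fun v _ => hd v) hsum (by omega) (by omega)
      (by omega) (by omega) (by omega) (by omega)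
  · by_cases hB : ∃ v, 6 ≤ d v ∧ d v % 2 = 0
    · obtain ⟨u, hu, hue⟩ := hB
      have hio : io (d u) = 0 := hue
      have hi4 : 1 ≤ ∑ v, i4 (d v) := by
        have h5 := le_sum_of_mem (mem_univ u) (fun v => i4 (d v))
        have h6 : i4 (d u) = 1 := by unfold i4; rw [if_pos (by omega)]
        omega
      exact suff_T1 hd hsum hμ hh hu (by omega) h1 (by omega)
    · by_cases hh4 : 4 ≤ ∑ v, i3 (d v)
      · exact suff_T4 hd hsum hμ hh4 (by omega) (by
          rcases h4 with h | h | h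
          · omega
          · exact absurd h hB
          · exact h.2)
      · have hex : ∃ v, 6 ≤ d v := by
          rcases h3 with h | h
          · omega
          · exact h
        obtain ⟨u, hu⟩ := hex
        have hno : 4 ≤ ∑ v, io (d v) := by
          rcases h4 with h | h | h
          · exact h
          · exact absurd h hB
          · omega
        have hio := io_cases (d u)
        exact suff_T1 hd hsum hμ hh hu (by omega) h1 (by omega)

/-- excess three, three large vertices, one of degree at least four -/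
theorem suff_Q2 (hd : ∀ v, 1 ≤ d v) (hsum : ∑ v, d v + 2 = 2 * (Fintype.card V + μ))
    (hμ : 3 ≤ μ) (hh : 3 ≤ ∑ v, i3 (d v)) {u : V} (hu : 4 ≤ d u)
    (ho : 2 + 2 * io (d u) ≤ ∑ v, io (d v))
    (hu2 : io (d u) = 1 → 3 ≤ ∑ v, j3 (d v))
    (h1 : ∑ v, i1 (d v) + 2 * μ ≤ Fintype.card V + 1)
    (h2 : ∑ v, io (d v) + 4 * μ ≤ 2 * Fintype.card V + 4) : Good univ d (μ + 3) := by
  have hq := sum_io_eq (O := univ) (fun v _ => hd v)
  obtain ⟨B, hB, hBc, hBo⟩ := choose_rest d (u := u) (by omega) (n := 2) (by omega)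
  obtain ⟨x, y, hxy, rfl⟩ := card_eq_two.mp hBc
  have hx := mem_erase.mp (hB (by simp : x ∈ ({x, y} : Finset V)))
  have hy := mem_erase.mp (hB (by simp : y ∈ ({x, y} : Finset V)))
  have hx3 := mem_big3.mp hx.2
  have hy3 := mem_big3.mp hy.2
  rw [sum_pair hxy] at hBo
  have ia : io (d u) = d u % 2 := rfl
  have ib : io (d x) = d x % 2 := rfl
  have ic : io (d y) = d y % 2 := rfl
  have hux := hx.1.symm
  have huy := hy.1.symm
  set c : V → ℕ := fun v => if v = u then 4 else 3 with hc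
  have cu : c u = 4 := by simp [hc]
  have cx : c x = 3 := by simp [hc, hx.1]
  have cy : c y = 3 := by simp [hc, hy.1]
  refine good_of_nums (A := {u, x, y}) (c := c) (m := 2) (μ0 := 3) hd hsum ?_ ?_ hμ
    (Or.inl (by omega)) (base_Q2 hux huy hxy cu cx cy) ?_ ?_ ?_
  · intro v hv
    simp only [mem_insert, mem_singleton] at hv
    rcases hv with rfl | rfl | rfl
    · rw [cu]; omega
    · rw [cx]; omega
    · rw [cy]; omega
  · rw [sum_three hux huy hxy, card_three hux huy hxy, cu, cx, cy]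
  · rw [card_three hux huy hxy]; omega
  · rw [sum_three hux huy hxy, sum_three hux huy hxy, card_three hux huy hxy, cu, cx, cy]
    omega
  · rw [sum_three hux huy hxy, sum_three hux huy hxy, cu, cx, cy]
    omega

theorem suff_Q1 (hd : ∀ v, 1 ≤ d v) (hsum : ∑ v, d v + 2 = 2 * (Fintype.card V + μ))
    (hμ : 3 ≤ μ) {u v : V} (huv : u ≠ v) (hu : 4 ≤ d u) (hv : 4 ≤ d v)
    (ho : 2 * (io (d u) + io (d v)) ≤ ∑ v, io (d v))
    (h1 : ∑ v, i1 (d v) + 2 * μ ≤ Fintype.card V + 1)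
    (h2 : ∑ v, io (d v) + 4 * μ ≤ 2 * Fintype.card V + 2) : Good univ d (μ + 3) := by
  have ia : io (d u) = d u % 2 := rfl
  have ib : io (d v) = d v % 2 := rfl
  refine good_of_nums (A := {u, v}) (c := fun _ => 4) (m := 3) (μ0 := 3) hd hsum ?_ ?_ hμ
    (Or.inl (by omega)) (base_Q1 huv rfl rfl) ?_ ?_ ?_
  · intro w hw
    simp only [mem_insert, mem_singleton] at hw
    rcases hw with rfl | rfl
    · exact ⟨by omega, hu⟩
    · exact ⟨by omega, hv⟩
  · rw [sum_pair huv, card_pair huv]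
  · rw [card_pair huv]; omega
  · rw [sum_pair huv, sum_pair huv, card_pair huv]; omega
  · rw [sum_pair huv, sum_pair huv]; omega

/-- choosing four large vertices, preferring odd ones -/
theorem choose_four (d : V → ℕ) (hh : 4 ≤ ∑ v, i3 (d v)) :
    ∃ a b x y, a ≠ b ∧ a ≠ x ∧ a ≠ y ∧ b ≠ x ∧ b ≠ y ∧ x ≠ y ∧ 3 ≤ d a ∧ 3 ≤ d b ∧ 3 ≤ d x ∧
      3 ≤ d y ∧ io (d a) + io (d b) + io (d x) + io (d y) = min 4 (∑ v, j3 (d v)) := by
  classical
  obtain ⟨B, hB, hBc, hBo⟩ := choose_odd (big3 d) d (n := 4) (by rw [card_big3]; exact hh)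
  rw [sum_big3] at hBo
  obtain ⟨a, B', haB', rfl, hB'c⟩ := card_eq_succ.mp hBc
  obtain ⟨b, x, y, hbx, hby, hxy, rfl⟩ := card_eq_three.mp hB'c
  simp only [mem_insert, mem_singleton, not_or] at haB'
  have ha := mem_big3.mp (hB (by simp : a ∈ insert a ({b, x, y} : Finset V)))
  have hb := mem_big3.mp (hB (by simp : b ∈ insert a ({b, x, y} : Finset V)))
  have hx := mem_big3.mp (hB (by simp : x ∈ insert a ({b, x, y} : Finset V)))
  have hy := mem_big3.mp (hB (by simp : y ∈ insert a ({b, x, y} : Finset V)))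
  rw [sum_four haB'.1 haB'.2.1 haB'.2.2 hbx hby hxy] at hBo
  exact ⟨a, b, x, y, haB'.1, haB'.2.1, haB'.2.2, hbx, hby, hxy, ha, hb, hx, hy, hBo⟩

/-- four large vertices with base degree three -/
theorem suff_four (hd : ∀ v, 1 ≤ d v) (hsum : ∑ v, d v + 2 = 2 * (Fintype.card V + μ))
    (hμ : 3 ≤ μ) (hh : 4 ≤ ∑ v, i3 (d v)) (ho : 4 ≤ ∑ v, io (d v)) {m e : ℕ}
    (hm : 1 ≤ m ∨ 3 = μ)
    (hbase : ∀ a b x y : V, a ≠ b → a ≠ x → a ≠ y → b ≠ x → b ≠ y → x ≠ y →
      Base {a, b, x, y} (fun _ => 3) m (3 + e))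
    (h1 : ∑ v, i1 (d v) + 2 * μ + m ≤ Fintype.card V + 2)
    (h2 : ∑ v, io (d v) + 4 * μ + 2 * m ≤ 2 * Fintype.card V + 8) : Good univ d (μ + e) := by
  have hq := sum_io_eq (O := univ) (fun v _ => hd v)
  obtain ⟨a, b, x, y, hab, hax, hay, hbx, hby, hxy, ha, hb, hx, hy, hz⟩ := choose_four d hh
  have ia : io (d a) = d a % 2 := rfl
  have ib : io (d b) = d b % 2 := rfl
  have ix : io (d x) = d x % 2 := rfl
  have iy : io (d y) = d y % 2 := rfl
  refine good_of_nums (A := {a, b, x, y}) (c := fun _ => 3) (m := m) (μ0 := 3) hd hsum ?_ ?_ hμ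
    hm (hbase a b x y hab hax hay hbx hby hxy) ?_ ?_ ?_
  · intro w hw
    simp only [mem_insert, mem_singleton] at hw
    rcases hw with rfl | rfl | rfl | rfl
    · exact ⟨le_rfl, ha⟩
    · exact ⟨le_rfl, hb⟩
    · exact ⟨le_rfl, hx⟩
    · exact ⟨le_rfl, hy⟩
  · rw [sum_four hab hax hay hbx hby hxy, card_four hab hax hay hbx hby hxy]
  · rw [card_four hab hax hay hbx hby hxy]; omega
  · rw [sum_four hab hax hay hbx hby hxy, sum_four hab hax hay hbx hby hxy,
      card_four hab hax hay hbx hby hxy]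
    omega
  · rw [sum_four hab hax hay hbx hby hxy, sum_four hab hax hay hbx hby hxy]
    omega

/-- excess three -/
theorem suff_three (hd : ∀ v, 1 ≤ d v) (hsum : ∑ v, d v + 2 = 2 * (Fintype.card V + μ))
    (hμ : 3 ≤ μ)
    (h1 : ∑ v, i1 (d v) + 2 * μ ≤ Fintype.card V + 1)
    (h2 : ∑ v, io (d v) + 4 * μ ≤ 2 * Fintype.card V + 4)
    (h3 : (3 ≤ ∑ v, i3 (d v) ∧ (∃ v, 4 ≤ d v) ∧ 2 ≤ ∑ v, io (d v)) ∨
      ((∃ u v, u ≠ v ∧ 4 ≤ d u ∧ 4 ≤ d v) ∧ ∑ v, io (d v) + 4 * μ ≤ 2 * Fintype.card V + 2 ∧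
        ¬ (∑ v, i3 (d v) = 2 ∧ ∑ v, i1 (d v) = 0 ∧ 1 ≤ ∑ v, io (d v))) ∨
      (4 ≤ ∑ v, i3 (d v) ∧ 4 ≤ ∑ v, io (d v) ∧
        ∑ v, i1 (d v) + 2 * μ ≤ Fintype.card V)) :
    Good univ d (μ + 3) := by
  have hq := sum_io_eq (O := univ) (fun v _ => hd v)
  have hpar := par_no hsum
  have hi := sum_i3_eq (d := d)
  have caseI : 3 ≤ ∑ v, i3 (d v) → (∃ v, 4 ≤ d v) → 2 ≤ ∑ v, io (d v) →
      Good univ d (μ + 3) := by
    rintro hh ⟨u, hu⟩ ho
    by_cases hE : ∃ v, 4 ≤ d v ∧ d v % 2 = 0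
    · obtain ⟨v, hv, hve⟩ := hE
      have hio : io (d v) = 0 := hve
      exact suff_Q2 hd hsum hμ hh hv (by omega) (by omega) h1 h2
    · have hi4 : ∑ v, i4 (d v) = 0 := by
        refine sum_eq_zero ?_
        intro v _
        unfold i4
        split_ifs with h
        · exact absurd ⟨v, by omega, h.2⟩ hE
        · rfl
      have hio := io_cases (d u)
      exact suff_Q2 hd hsum hμ hh hu (by omega) (by omega) h1 h2
  rcases h3 with ⟨a1, a2, a3⟩ | ⟨⟨u, v, huv, hu, hv⟩, b2, b3⟩ | ⟨c1, c2, c3⟩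
  · exact caseI a1 a2 a3
  · by_cases hcase : 3 ≤ ∑ v, i3 (d v) ∧ 2 ≤ ∑ v, io (d v)
    · exact caseI hcase.1 ⟨u, hu⟩ hcase.2
    · have hu3 : u ∈ big3 d := mem_big3.mpr (by omega)
      have hv3 : v ∈ big3 d := mem_big3.mpr (by omega)
      by_cases hno : ∑ v, io (d v) = 0
      · have hu0 := sum_eq_zero_iff.mp hno u (mem_univ u)
        have hv0 := sum_eq_zero_iff.mp hno v (mem_univ v)
        exact suff_Q1 hd hsum hμ huv hu hv (by omega) h1 b2
      · have hsub : ({u, v} : Finset V) ⊆ big3 d := by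
          intro w hw
          simp only [mem_insert, mem_singleton] at hw
          rcases hw with rfl | rfl
          · exact hu3
          · exact hv3
        have hcb := card_le_card hsub
        rw [card_pair huv, card_big3] at hcb
        have heq : ({u, v} : Finset V) = big3 d :=
          eq_of_subset_of_card_le hsub (by rw [card_pair huv, card_big3]; omega)
        have hs := sum_big3 d
        rw [← heq, sum_pair huv] at hs
        have iu := io_cases (d u)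
        have iv := io_cases (d v)
        exact suff_Q1 hd hsum hμ huv hu hv (by omega) h1 b2
  · refine suff_four hd hsum hμ c1 c2 (m := 2) (e := 3) (Or.inl (by omega)) ?_ (by omega)
      (by omega)
    intro a b x y hab hax hay hbx hby hxy
    exact base_Q3 hab hax hay hbx hby hxy rfl rfl rfl rfl

/-- excess four with a vertex of degree at least five -/
theorem suff_K5 (hd : ∀ v, 1 ≤ d v) (hsum : ∑ v, d v + 2 = 2 * (Fintype.card V + μ))
    (hμ : 4 ≤ μ) (hh : 4 ≤ ∑ v, i3 (d v)) {u : V} (hu : 5 ≤ d u)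
    (ho : 4 ≤ ∑ v, io (d v))
    (h1 : ∑ v, i1 (d v) + 2 * μ ≤ Fintype.card V + 2)
    (h2 : ∑ v, io (d v) + 4 * μ + 2 * (1 - io (d u)) ≤ 2 * Fintype.card V + 8) :
    Good univ d (μ + 4) := by
  have hq := sum_io_eq (O := univ) (fun v _ => hd v)
  obtain ⟨B, hB, hBc, hBo⟩ := choose_rest d (u := u) (by omega) (n := 3) (by omega)
  obtain ⟨b, x, y, hbx, hby, hxy, rfl⟩ := card_eq_three.mp hBc
  have hb := mem_erase.mp (hB (by simp : b ∈ ({b, x, y} : Finset V)))
  have hx := mem_erase.mp (hB (by simp : x ∈ ({b, x, y} : Finset V)))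
  have hy := mem_erase.mp (hB (by simp : y ∈ ({b, x, y} : Finset V)))
  have hb3 := mem_big3.mp hb.2
  have hx3 := mem_big3.mp hx.2
  have hy3 := mem_big3.mp hy.2
  rw [sum_three hbx hby hxy] at hBo
  have ia : io (d u) = d u % 2 := rfl
  have ib' : io (d b) = d b % 2 := rfl
  have ib : io (d x) = d x % 2 := rfl
  have ic : io (d y) = d y % 2 := rfl
  have hub := hb.1.symm
  have hux := hx.1.symm
  have huy := hy.1.symm
  set c : V → ℕ := fun v => if v = u then 5 else 3 with hc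
  have cu : c u = 5 := by simp [hc]
  have cb : c b = 3 := by simp [hc, hb.1]
  have cx : c x = 3 := by simp [hc, hx.1]
  have cy : c y = 3 := by simp [hc, hy.1]
  refine good_of_nums (A := {u, b, x, y}) (c := c) (m := 2) (μ0 := 4) hd hsum ?_ ?_ hμ
    (Or.inl (by omega)) (base_K5 hub hux huy hbx hby hxy cu cb cx cy) ?_ ?_ ?_
  · intro v hv
    simp only [mem_insert, mem_singleton] at hv
    rcases hv with rfl | rfl | rfl | rfl
    · rw [cu]; omega
    · rw [cb]; omega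
    · rw [cx]; omega
    · rw [cy]; omega
  · rw [sum_four hub hux huy hbx hby hxy, card_four hub hux huy hbx hby hxy, cu, cb, cx, cy]
  · rw [card_four hub hux huy hbx hby hxy]; omega
  · rw [sum_four hub hux huy hbx hby hxy, sum_four hub hux huy hbx hby hxy,
      card_four hub hux huy hbx hby hxy, cu, cb, cx, cy]
    omega
  · rw [sum_four hub hux huy hbx hby hxy, sum_four hub hux huy hbx hby hxy, cu, cb, cx, cy]
    omega

/-- excess four, rank three or four -/
theorem suff_exc4 (hd : ∀ v, 1 ≤ d v) (hsum : ∑ v, d v + 2 = 2 * (Fintype.card V + μ))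
    (hμ : μ = 3 ∨ μ = 4) (hh : 4 ≤ ∑ v, i3 (d v)) (ho : 4 ≤ ∑ v, io (d v))
    (h1 : ∑ v, i1 (d v) + 2 * μ ≤ Fintype.card V + 2)
    (h2 : ∑ v, io (d v) + 4 * μ ≤ 2 * Fintype.card V + 8)
    (h3 : μ = 4 → (∑ v, i1 (d v) + 2 * μ < Fintype.card V + 2 ∨ ∃ v, 5 ≤ d v) ∧
      (∑ v, io (d v) + 4 * μ < 2 * Fintype.card V + 8 ∨ ∃ v, 5 ≤ d v ∧ d v % 2 = 1)) :
    Good univ d (μ + 4) := by
  have hpar := par_no hsum
  rcases hμ with hμ | hμ
  · refine suff_four hd hsum (by omega) hh ho (m := 0) (e := 4) (Or.inr hμ.symm) ?_ (by omega)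
      (by omega)
    intro a b x y hab hax hay hbx hby hxy
    exact base_K4 hab hax hay hbx hby hxy rfl rfl rfl rfl
  · obtain ⟨h4, h5⟩ := h3 hμ
    by_cases hα : ∑ v, i1 (d v) + 2 * μ ≤ Fintype.card V + 1 ∧
        ∑ v, io (d v) + 4 * μ ≤ 2 * Fintype.card V + 6
    · refine suff_four hd hsum (by omega) hh ho (m := 1) (e := 4) (Or.inl le_rfl) ?_ (by omega)
        (by omega)
      intro a b x y hab hax hay hbx hby hxy
      exact (base_K4 hab hax hay hbx hby hxy (c := fun _ => 3) rfl rfl rfl rfl).subd (by omega)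
    · by_cases hodd : ∃ v, 5 ≤ d v ∧ d v % 2 = 1
      · obtain ⟨u, hu, huo⟩ := hodd
        have hio : io (d u) = 1 := huo
        exact suff_K5 hd hsum (by omega) hh hu ho h1 (by omega)
      · have h6 : ∑ v, io (d v) + 4 * μ < 2 * Fintype.card V + 8 := by
          rcases h5 with h | h
          · exact h
          · exact absurd h hodd
        have h7 : ∃ v, 5 ≤ d v := by
          rcases h4 with h | h
          · omega
          · exact h
        obtain ⟨u, hu⟩ := h7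
        exact suff_K5 hd hsum (by omega) hh hu ho h1 (by omega)

/-- excess zero -/
theorem suff_zero (hd : ∀ v, 1 ≤ d v) (hsum : ∑ v, d v + 2 = 2 * (Fintype.card V + μ))
    (hμ : 1 ≤ μ) (h1 : ∑ v, i1 (d v) + 2 * μ + 1 ≤ Fintype.card V)
    (h2 : ∑ v, io (d v) + 4 * μ + 2 ≤ 2 * Fintype.card V) : Good univ d (μ + 0) :=
  suff (Fintype.card V) univ d μ 0 card_univ (fun v _ => hd v) hsum hμ (by omega)
    (by omega) (by omega) (by omega) (by omega)

end

end Pool.Agent.Helper53
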