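import Pool.Agent.Helper53.Ev

/-!
# The circuits through an element span its block
-/

open Finset
open scoped symmDiff

set_option linter.unusedSectionVars false

namespace Pool.Agent.Helper53

variable {α : Type*} [DecidableEq α]

theorem card_symmDiff_add (A B : Finset α) :
    (A ∆ B).card + 2 * (A ∩ B).card = A.card + B.card := by
  have h1 : (A ∆ B).card = (A \ B).card + (B \ A).card := by
    rw [symmDiff_def, sup_eq_union, card_union_of_disjoint]
    exact disjoint_sdiff_sdiff
  have h2 := card_sdiff_add_card_inter A B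
  have h3 := card_sdiff_add_card_inter B A
  rw [inter_comm B A] at h3
  omega

theorem odd_card_symmDiff (A B : Finset α) :
    Odd (A ∆ B).card ↔ ¬ (Odd A.card ↔ Odd B.card) := by
  have h := card_symmDiff_add A B
  rcases Nat.even_or_odd A.card with ha | ha <;> rcases Nat.even_or_odd B.card with hb | hb <;>
  rcases Nat.even_or_odd (A ∆ B).card with hc | hc <;>
  simp only [Nat.even_iff, Nat.odd_iff] at * <;> omega

theorem even_card_symmDiff (A B : Finset α) :
    Even (A ∆ B).card ↔ (Even A.card ↔ Even B.card) := by
  have h := card_symmDiff_add A B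
  rcases Nat.even_or_odd A.card with ha | ha <;> rcases Nat.even_or_odd B.card with hb | hb <;>
  rcases Nat.even_or_odd (A ∆ B).card with hc | hc <;>
  simp only [Nat.even_iff, Nat.odd_iff] at * <;> omega

open Classical in
/-- the sum modulo two of a finite family of finite sets -/
noncomputable def xsum (A : Finset (Finset α)) : Finset α :=
  (A.biUnion id).filter (fun x => Odd (A.filter (fun C => x ∈ C)).card)

open Classical in
theorem mem_xsum {A : Finset (Finset α)} {x : α} :
    x ∈ xsum A ↔ Odd (A.filter (fun C => x ∈ C)).card := by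
  simp only [xsum, mem_filter, mem_biUnion, id]
  constructor
  · exact fun h => h.2
  · intro h
    refine ⟨?_, h⟩
    have : (A.filter (fun C => x ∈ C)).Nonempty := by
      rw [nonempty_iff_ne_empty]
      intro h0
      rw [h0] at h
      simp at h
    obtain ⟨C, hC⟩ := this
    rw [mem_filter] at hC
    exact ⟨C, hC.1, hC.2⟩

theorem xsum_symmDiff (A B : Finset (Finset α)) : xsum (A ∆ B) = xsum A ∆ xsum B := by
  classical
  ext x
  rw [mem_symmDiff, mem_xsum, mem_xsum, mem_xsum]
  have : (A ∆ B).filter (fun C => x ∈ C) =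
      (A.filter (fun C => x ∈ C)) ∆ (B.filter (fun C => x ∈ C)) := by
    ext C
    simp only [mem_filter, mem_symmDiff]
    tauto
  rw [this, odd_card_symmDiff]
  tauto

theorem xsum_singleton (C : Finset α) : xsum {C} = C := by
  classical
  ext x
  rw [mem_xsum]
  by_cases h : x ∈ C
  · simp [filter_singleton, h]
  · simp [filter_singleton, h]

theorem xsum_empty : xsum (∅ : Finset (Finset α)) = ∅ := by
  classical
  ext x
  rw [mem_xsum]
  simp

theorem xsum_subset (A : Finset (Finset α)) : xsum A ⊆ A.biUnion id := by
  classical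
  unfold xsum
  exact filter_subset _ _

/-- the span of a finite family -/
def InSpan (D : Finset (Finset α)) (X : Finset α) : Prop := ∃ A, A ⊆ D ∧ xsum A = X

theorem fam_inSpan (D : Finset (Finset α)) : Fam (InSpan D) where
  zero := ⟨∅, empty_subset _, xsum_empty⟩
  add := by
    rintro A B ⟨A', hA, rfl⟩ ⟨B', hB, rfl⟩
    refine ⟨A' ∆ B', ?_, xsum_symmDiff _ _⟩
    intro x hx
    rw [mem_symmDiff] at hx
    rcases hx with hx | hx
    · exact hA hx.1
    · exact hB hx.1

variable {P : Finset α → Prop}

/-- a circuit meeting a circuit through `e` is a sum of circuits through `e` -/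
theorem circuit_inSpan (h : Fam P) {F : Finset α} {e : α} :
    ∀ (n : ℕ) (C D : Finset α), (C ∪ D).card ≤ n → C ⊆ F → IsC P C → D ∈ thr P F e →
      (C ∩ D).Nonempty → InSpan (thr P F e) C := by
  intro n
  induction n with
  | zero =>
    intro C D hn _ _ hD _
    have : C ∪ D = ∅ := by simpa using hn
    have h2 : D = ∅ := by
      apply subset_empty.mp
      rw [← this]; exact subset_union_right
    have := (mem_thr.mp hD).2.2
    rw [h2] at this; simp at this
  | succ n ih =>
    intro C D hn hCF hC hD hCD
    by_cases heC : e ∈ C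
    · refine ⟨{C}, ?_, xsum_singleton C⟩
      rw [singleton_subset_iff]
      exact mem_thr.mpr ⟨hCF, hC, heC⟩
    · obtain ⟨hDF, hDc, heD⟩ := mem_thr.mp hD
      have hX : P (D ∆ C) := h.add _ _ hDc.1 hC.1
      have heX : e ∈ D ∆ C := by rw [mem_symmDiff]; left; exact ⟨heD, heC⟩
      obtain ⟨D', hD's, hD'c, heD'⟩ := h.circuit hX heX
      have hXF : D ∆ C ⊆ F := by
        intro y hy
        rw [mem_symmDiff] at hy
        rcases hy with hy | hy
        · exact hDF hy.1
        · exact hCF hy.1
      have hD'F : D' ⊆ F := hD's.trans hXF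
      -- D' meets C \ D
      have hmeet : ∃ z ∈ D', z ∈ C ∧ z ∉ D := by
        by_contra hcon
        push Not at hcon
        have hsub : D' ⊆ D := by
          intro y hy
          have := hD's hy
          rw [mem_symmDiff] at this
          rcases this with hh | hh
          · exact hh.1
          · exact hcon y hy hh.1
        have heq : D' = D := hDc.eq_of_subset hD'c hsub
        obtain ⟨z, hz⟩ := hCD
        rw [mem_inter] at hz
        have hz2 : z ∈ D' := by rw [heq]; exact hz.2
        have := hD's hz2
        rw [mem_symmDiff] at this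
        tauto
      obtain ⟨z, hzD', hzC, hzD⟩ := hmeet
      have hY : P ((D ∆ C) \ D') := h.sdiff hX hD'c.1 hD's
      have hYs : InSpan (thr P F e) ((D ∆ C) \ D') := by
        refine h.ind (fam_inSpan _) _ _ le_rfl hY ?_
        intro C' hC's hC'c
        have hC'F : C' ⊆ F := hC's.trans (sdiff_subset.trans hXF)
        have hC'D : (C' ∩ D).Nonempty := by
          rw [nonempty_iff_ne_empty]
          intro h0
          have hsub : C' ⊆ C := by
            intro y hy
            have h1 := hC's hy
            rw [mem_sdiff, mem_symmDiff] at h1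
            rcases h1.1 with hh | hh
            · exfalso
              have : y ∈ C' ∩ D := mem_inter.mpr ⟨hy, hh.1⟩
              rw [h0] at this; simp at this
            · exact hh.1
          have heq : C' = C := hC.eq_of_subset hC'c hsub
          obtain ⟨w, hw⟩ := hCD
          rw [← heq, h0] at hw
          simp at hw
        refine ih C' D ?_ hC'F hC'c hD hC'D
        have hlt : (C' ∪ D).card < (C ∪ D).card := by
          apply card_lt_card
          rw [ssubset_iff_of_subset]
          · refine ⟨z, mem_union_left _ hzC, ?_⟩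
            rw [mem_union]
            rintro (hz | hz)
            · have := hC's hz
              rw [mem_sdiff] at this
              exact this.2 hzD'
            · exact hzD hz
          · intro y hy
            rw [mem_union] at hy ⊢
            rcases hy with hy | hy
            · have h1 := hC's hy
              rw [mem_sdiff, mem_symmDiff] at h1
              rcases h1.1 with hh | hh
              · right; exact hh.1
              · left; exact hh.1
            · right; exact hy
        omega
      have hDs : InSpan (thr P F e) D :=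
        ⟨{D}, by rw [singleton_subset_iff]; exact hD, xsum_singleton D⟩
      have hD's2 : InSpan (thr P F e) D' :=
        ⟨{D'}, by rw [singleton_subset_iff]; exact mem_thr.mpr ⟨hD'F, hD'c, heD'⟩,
          xsum_singleton D'⟩
      have key := (fam_inSpan (thr P F e)).add _ _ ((fam_inSpan (thr P F e)).add _ _ hDs hD's2) hYs
      have e1 : (D ∆ D') ∆ ((D ∆ C) \ D') = C := by
        ext y
        have hh := @hD's y
        simp only [mem_symmDiff, mem_sdiff] at *
        tauto
      rwa [e1] at key

open Classical in
/-- the union of the circuits of `F` through `e` (the block of `e`) -/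
noncomputable def blk (P : Finset α → Prop) (F : Finset α) (e : α) : Finset α :=
  (thr P F e).biUnion id

theorem mem_blk {F : Finset α} {e f : α} :
    f ∈ blk P F e ↔ ∃ C, C ⊆ F ∧ IsC P C ∧ e ∈ C ∧ f ∈ C := by
  simp only [blk, mem_biUnion, mem_thr, id]
  constructor
  · rintro ⟨C, ⟨h1, h2, h3⟩, h4⟩; exact ⟨C, h1, h2, h3, h4⟩
  · rintro ⟨C, h1, h2, h3, h4⟩; exact ⟨C, ⟨h1, h2, h3⟩, h4⟩

theorem blk_subset_cyc (F : Finset α) (e : α) : blk P F e ⊆ cyc P F := by
  intro f hf
  obtain ⟨C, h1, h2, _, h4⟩ := mem_blk.mp hf
  exact mem_cyc.mpr ⟨C, h1, h2, h4⟩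

theorem blk_subset (F : Finset α) (e : α) : blk P F e ⊆ F :=
  (blk_subset_cyc F e).trans (cyc_subset F)

theorem thr_subset_blk {F : Finset α} {e : α} {C : Finset α} (hC : C ∈ thr P F e) :
    C ⊆ blk P F e := by
  intro f hf
  obtain ⟨h1, h2, h3⟩ := mem_thr.mp hC
  exact mem_blk.mpr ⟨C, h1, h2, h3, hf⟩

/-- a circuit meeting the block of `e` lies inside it -/
theorem circuit_subset_blk (h : Fam P) {F : Finset α} {e f : α} {C : Finset α} (hCF : C ⊆ F)
    (hC : IsC P C) (hf : f ∈ C) (hfb : f ∈ blk P F e) : C ⊆ blk P F e := by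
  obtain ⟨D, h1, h2, h3, h4⟩ := mem_blk.mp hfb
  obtain ⟨A, hA, hx⟩ := circuit_inSpan h (F := F) (e := e) _ C D le_rfl hCF hC
    (mem_thr.mpr ⟨h1, h2, h3⟩) ⟨f, mem_inter.mpr ⟨hf, h4⟩⟩
  rw [← hx]
  refine (xsum_subset A).trans ?_
  intro y hy
  rw [mem_biUnion] at hy
  obtain ⟨X, hX, hy⟩ := hy
  exact thr_subset_blk (hA hX) hy

/-- the rank of the block of `e` is at most the number of circuits through `e` -/
theorem mu_blk_le (h : Fam P) {F : Finset α} {e : α} :
    mu P (blk P F e) ≤ (thr P F e).card := by
  classical
  have h1 : evs P (blk P F e) ⊆ (thr P F e).powerset.image xsum := by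
    intro X hX
    obtain ⟨hXs, hXP⟩ := mem_evs.mp hX
    have : InSpan (thr P F e) X := by
      refine h.ind (fam_inSpan _) _ _ le_rfl hXP ?_
      intro C hC hCc
      obtain ⟨f, hf⟩ := hCc.2.1
      obtain ⟨D, d1, d2, d3, d4⟩ := mem_blk.mp (hXs (hC hf))
      exact circuit_inSpan h _ C D le_rfl (hC.trans (hXs.trans (blk_subset F e))) hCc
        (mem_thr.mpr ⟨d1, d2, d3⟩) ⟨f, mem_inter.mpr ⟨hf, d4⟩⟩
    obtain ⟨A, hA, hx⟩ := this
    rw [mem_image]
    exact ⟨A, mem_powerset.mpr hA, hx⟩
  have h2 := (card_le_card h1).trans card_image_le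
  rw [card_evs h, card_powerset] at h2
  exact (Nat.pow_le_pow_iff_right (by norm_num)).mp h2

end Pool.Agent.Helper53
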