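import Pool.Agent.Helper53.Master
import Pool.Agent.Helper53.Relabel

/-!
# States: a base inside a degree function, with slack parameters
-/

open Finset Function
open scoped symmDiff

set_option linter.unusedSectionVars false
set_option linter.unusedSimpArgs false

namespace Pool.Agent.Helper53

variable {V : Type*} [Fintype V] [DecidableEq V]

theorem Base.congr {A : Finset V} {c c' : V → ℕ} {m k : ℕ} (h : Base A c m k)
    (hc : ∀ v ∈ A, c' v = c v) : Base A c' m k := by
  intro O d h1 h2 h3 h4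
  exact h O d h1 h2 (fun v hv => by rw [h3 v hv, hc v hv]) h4

/-- attach a new pendant vertex -/
theorem Base.pend {A : Finset V} {c : V → ℕ} {m k : ℕ} (h : Base A c m k) {a u : V} (ha : a ∈ A)
    (hu : u ∉ A) (hca : 1 ≤ c a) :
    Base (insert u A) (update (update c u 1) a (c a + 1)) m k := by
  intro O d h1 h2 h3 h4
  have hau : a ≠ u := by rintro rfl; exact hu ha
  rw [disjoint_insert_left] at h1
  have hda : d a = c a + 1 := by rw [h3 a (mem_insert_of_mem ha)]; simp
  have hdu : d u = 1 := by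
    rw [h3 u (mem_insert_self u A), update_of_ne hau.symm]; simp
  have hset : (insert u A ∪ O).erase u = A ∪ O := by
    ext x
    simp only [mem_erase, mem_union, mem_insert]
    constructor
    · rintro ⟨h5, (h6 | h6) | h6⟩
      · exact absurd h6 h5
      · exact Or.inl h6
      · exact Or.inr h6
    · rintro (h6 | h6)
      · exact ⟨fun hh => hu (hh ▸ h6), Or.inl (Or.inr h6)⟩
      · exact ⟨fun hh => h1.1 (hh ▸ h6), Or.inr h6⟩
  refine peel_leaf (v := a) (a := u) (by simp) (by simp [ha]) hau hdu (by omega) ?_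
  rw [hset]
  refine h O _ h1.2 h2 ?_ ?_
  · intro v hv
    have hvu : v ≠ u := by rintro rfl; exact hu hv
    by_cases hva : v = a
    · rw [hva]; simp [hda]
    · rw [update_of_ne hva, h3 v (mem_insert_of_mem hv), update_of_ne hva, update_of_ne hvu]
  · intro v hv
    have hva : v ≠ a := by rintro rfl; exact disjoint_left.mp h1.2 ha hv
    rw [update_of_ne hva, h4 v hv]

/-- name one of the vertices of degree two -/
theorem Base.slot {A : Finset V} {c : V → ℕ} {m k : ℕ} (h : Base A c (m + 1) k) {w : V}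
    (hw : w ∉ A) : Base (insert w A) (update c w 2) m k := by
  intro O d h1 h2 h3 h4
  rw [disjoint_insert_left] at h1
  have hset : insert w A ∪ O = A ∪ insert w O := by
    ext x; simp only [mem_union, mem_insert]; tauto
  rw [hset]
  refine h (insert w O) d ?_ ?_ ?_ ?_
  · rw [disjoint_insert_right]; exact ⟨hw, h1.2⟩
  · rw [card_insert_of_notMem h1.1, h2]
  · intro v hv
    have hvw : v ≠ w := by rintro rfl; exact hw hv
    rw [h3 v (mem_insert_of_mem hv), update_of_ne hvw]
  · intro v hv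
    rw [mem_insert] at hv
    rcases hv with rfl | hv
    · rw [h3 v (mem_insert_self v A)]; simp
    · exact h4 v hv

/-- attach a triangle -/
theorem Base.tri {A : Finset V} {c : V → ℕ} {m k : ℕ} (h : Base A c m k) {a : V} (ha : a ∈ A) :
    Base A (update c a (c a + 2)) (m + 2) (k + 1) := by
  intro O d h1 h2 h3 h4
  have h22 : 1 < O.card := by omega
  obtain ⟨x, hx, y, hy, hxy⟩ := one_lt_card.mp h22
  have hxA : x ∉ A := fun hh => disjoint_left.mp h1 hh hx
  have hyA : y ∉ A := fun hh => disjoint_left.mp h1 hh hy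
  have hax : a ≠ x := by rintro rfl; exact hxA ha
  have hay : a ≠ y := by rintro rfl; exact hyA ha
  have hda : d a = c a + 2 := by rw [h3 a ha]; simp
  have hset : ((A ∪ O).erase x).erase y = A ∪ (O.erase x).erase y := by
    rw [erase_union_left hxA, erase_union_left hyA]
  refine peel_tri (v := a) (mem_union_right _ hx) (mem_union_right _ hy) (mem_union_left _ ha)
    hax hay hxy (h4 x hx) (h4 y hy) (by omega) ?_
  rw [hset]
  refine h _ _ (h1.mono_right ((erase_subset _ _).trans (erase_subset _ _))) ?_ ?_ ?_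
  · rw [card_erase_of_mem (mem_erase.mpr ⟨hxy.symm, hy⟩), card_erase_of_mem hx]; omega
  · intro v hv
    by_cases hva : v = a
    · rw [hva]; simp [hda]
    · rw [update_of_ne hva, h3 v hv, update_of_ne hva]
  · intro v hv
    have hvO : v ∈ O := mem_of_mem_erase (mem_of_mem_erase hv)
    have hva : v ≠ a := by rintro rfl; exact disjoint_left.mp h1 ha hvO
    rw [update_of_ne hva, h4 v hvO]

/-- subdivide an edge -/
theorem Base.subd {A : Finset V} {c : V → ℕ} {m k : ℕ} (h : Base A c m k) (hk : 1 ≤ k) :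
    Base A c (m + 1) k := by
  intro O d h1 h2 h3 h4
  have : O.Nonempty := by rw [← card_pos]; omega
  obtain ⟨x, hx⟩ := this
  have hxA : x ∉ A := fun hh => disjoint_left.mp h1 hh hx
  refine peel_sub (a := x) (mem_union_right _ hx) (h4 x hx) hk ?_
  rw [erase_union_left hxA]
  refine h _ _ (h1.mono_right (erase_subset _ _)) ?_ h3 (fun v hv => h4 v (mem_of_mem_erase hv))
  rw [card_erase_of_mem hx]; omega

theorem Base.subd_le {A : Finset V} {c : V → ℕ} {k : ℕ} (hk : 1 ≤ k) {m m' : ℕ} (hmm : m ≤ m')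
    (h : Base A c m k) : Base A c m' k := by
  induction m', hmm using Nat.le_induction with
  | base => exact h
  | succ n _ ih => exact ih.subd hk

/-- a state -/
structure GS (S : Finset V) (d : V → ℕ) (μ e : ℕ) (A : Finset V) (c : V → ℕ)
    (m μ0 f1 f2 f3 : ℕ) : Prop where
  sub : A ⊆ S
  c1 : ∀ v ∈ A, 1 ≤ c v
  cd : ∀ v ∈ A, c v ≤ d v
  le : μ0 ≤ μ
  cs : ∑ v ∈ A, c v + 2 = 2 * (A.card + μ0)
  base : Base A c m (μ0 + e)
  M1 : ∑ v ∈ S \ A, i1 (d v) + 2 * μ + m + f1 = (S \ A).card + 2 * μ0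
  M2 : ∑ v ∈ A, (d v - c v) % 2 + ∑ v ∈ S \ A, io (d v) + 4 * μ + 2 * m + f2 =
    2 * (S \ A).card + 4 * μ0
  M3 : ∑ v ∈ A, (d v - c v) % 2 + f3 = ∑ v ∈ S \ A, io (d v)

theorem sdiff_insert_erase {S A : Finset V} {u : V} : S \ insert u A = (S \ A).erase u := by
  ext x; simp only [mem_sdiff, mem_insert, mem_erase]; tauto

section

variable {S : Finset V} {d : V → ℕ} {μ e : ℕ} {A : Finset V} {c : V → ℕ} {m μ0 f1 f2 f3 : ℕ}

theorem GS.op1 (h : GS S d μ e A c m μ0 f1 f2 f3) {a u : V} (ha : a ∈ A) (hau : c a + 1 ≤ d a)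
    (hu : u ∈ S) (huA : u ∉ A) (hdu : 1 ≤ d u) {g1 g2 g3 : ℕ} (h1 : g1 + 1 = f1 + i1 (d u))
    (h2 : g2 + 4 = f2 + 2 * ((d a - c a) % 2) + 2 * io (d u))
    (h3 : g3 + 2 = f3 + 2 * ((d a - c a) % 2)) :
    GS S d μ e (insert u A) (update (update c u 1) a (c a + 1)) m μ0 g1 g2 g3 := by
  have hne : a ≠ u := by rintro rfl; exact huA ha
  have huSA : u ∈ S \ A := mem_sdiff.mpr ⟨hu, huA⟩
  have e1 := sum_erase_one huSA d i1
  have e2 := sum_erase_one huSA d io
  have e3 := card_erase_add_one huSA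
  have e4 := sum_update_mem ha (update c u 1) (c a + 1) (fun x y => (d x - y) % 2)
  have e5 := sum_update_not_mem huA c 1 (fun x y => (d x - y) % 2)
  have e6 := sum_update_mem ha (update c u 1) (c a + 1) (fun _ y => y)
  have e7 := sum_update_not_mem huA c 1 (fun _ y => y)
  rw [update_of_ne hne] at e4 e6
  have e8 : update (update c u 1) a (c a + 1) u = 1 := by
    rw [update_of_ne hne.symm]; simp
  have hioa : io (d u) = d u % 2 := rfl
  have hm1 := h.M1
  have hm2 := h.M2
  have hm3 := h.M3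
  have hcs := h.cs
  have hca := h.c1 a ha
  refine ⟨?_, ?_, ?_, h.le, ?_, h.base.pend ha huA hca, ?_, ?_, ?_⟩
  · intro v hv
    rw [mem_insert] at hv
    rcases hv with rfl | hv
    · exact hu
    · exact h.sub hv
  · intro v hv
    rw [mem_insert] at hv
    rcases hv with rfl | hv
    · rw [e8]
    · have hvu : v ≠ u := by rintro rfl; exact huA hv
      by_cases hva : v = a
      · rw [hva]; simp
      · rw [update_of_ne hva, update_of_ne hvu]; exact h.c1 v hv
  · intro v hv
    rw [mem_insert] at hv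
    rcases hv with rfl | hv
    · rw [e8]; exact hdu
    · have hvu : v ≠ u := by rintro rfl; exact huA hv
      by_cases hva : v = a
      · rw [hva]; simp; omega
      · rw [update_of_ne hva, update_of_ne hvu]; exact h.cd v hv
  · rw [sum_insert huA, card_insert_of_notMem huA, e8]
    omega
  · rw [sdiff_insert_erase]
    omega
  · rw [sdiff_insert_erase, sum_insert huA, e8]
    omega
  · rw [sdiff_insert_erase, sum_insert huA, e8]
    omega

theorem GS.op2 (h : GS S d μ e A c (m + 1) μ0 f1 f2 f3) {w : V} (hw : w ∈ S) (hwA : w ∉ A)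
    (hdw : 2 ≤ d w) {g3 : ℕ} (h3 : g3 + 2 * io (d w) = f3) :
    GS S d μ e (insert w A) (update c w 2) m μ0 f1 f2 g3 := by
  have hwSA : w ∈ S \ A := mem_sdiff.mpr ⟨hw, hwA⟩
  have e1 := sum_erase_one hwSA d i1
  have e2 := sum_erase_one hwSA d io
  have e3 := card_erase_add_one hwSA
  have e5 := sum_update_not_mem hwA c 2 (fun x y => (d x - y) % 2)
  have e7 := sum_update_not_mem hwA c 2 (fun _ y => y)
  have hio : io (d w) = d w % 2 := rfl
  have hi1 : i1 (d w) = 0 := by unfold i1; split_ifs <;> omega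
  have hm1 := h.M1
  have hm2 := h.M2
  have hm3 := h.M3
  have hcs := h.cs
  refine ⟨?_, ?_, ?_, h.le, ?_, h.base.slot hwA, ?_, ?_, ?_⟩
  · intro v hv
    rw [mem_insert] at hv
    rcases hv with rfl | hv
    · exact hw
    · exact h.sub hv
  · intro v hv
    rw [mem_insert] at hv
    rcases hv with rfl | hv
    · simp
    · have hvu : v ≠ w := by rintro rfl; exact hwA hv
      rw [update_of_ne hvu]; exact h.c1 v hv
  · intro v hv
    rw [mem_insert] at hv
    rcases hv with rfl | hv
    · simpa using hdw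
    · have hvu : v ≠ w := by rintro rfl; exact hwA hv
      rw [update_of_ne hvu]; exact h.cd v hv
  · rw [sum_insert hwA, card_insert_of_notMem hwA, update_self]
    omega
  · rw [sdiff_insert_erase]
    omega
  · rw [sdiff_insert_erase, sum_insert hwA, update_self]
    omega
  · rw [sdiff_insert_erase, sum_insert hwA, update_self]
    omega

theorem GS.op3 (h : GS S d μ e A c m μ0 f1 f2 f3) {a : V} (ha : a ∈ A) (hau : c a + 2 ≤ d a)
    (hμ : μ0 + 1 ≤ μ) :
    GS S d μ e A (update c a (c a + 2)) (m + 2) (μ0 + 1) f1 f2 f3 := by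
  have e4 := sum_update_mem ha c (c a + 2) (fun x y => (d x - y) % 2)
  have e6 := sum_update_mem ha c (c a + 2) (fun _ y => y)
  have hm1 := h.M1
  have hm2 := h.M2
  have hm3 := h.M3
  have hcs := h.cs
  refine ⟨h.sub, ?_, ?_, hμ, ?_, ?_, ?_, ?_, ?_⟩
  · intro v hv
    by_cases hva : v = a
    · rw [hva]; simp
    · rw [update_of_ne hva]; exact h.c1 v hv
  · intro v hv
    by_cases hva : v = a
    · rw [hva]; simpa using hau
    · rw [update_of_ne hva]; exact h.cd v hv
  · omega
  · have := h.base.tri ha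
    have e9 : μ0 + 1 + e = μ0 + e + 1 := by omega
    rw [e9]; exact this
  · omega
  · omega
  · omega

theorem GS.op4 (h : GS S d μ e A c m μ0 f1 f2 f3) (hk : 1 ≤ μ0 + e) {g1 g2 : ℕ}
    (h1 : g1 + 1 = f1) (h2 : g2 + 2 = f2) : GS S d μ e A c (m + 1) μ0 g1 g2 f3 := by
  have hm1 := h.M1
  have hm2 := h.M2
  exact ⟨h.sub, h.c1, h.cd, h.le, h.cs, h.base.subd hk, by omega, by omega, h.M3⟩

/-- relation between the slacks -/
theorem GS.rel (h : GS S d μ e A c m μ0 f1 f2 f3) :
    f2 + 2 * ∑ v ∈ S \ A, io (d v) = 2 * f1 + f3 + 2 * ∑ v ∈ S \ A, i1 (d v) := by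
  have hm1 := h.M1
  have hm2 := h.M2
  have hm3 := h.M3
  omega

/-- sum relation -/
theorem GS.sum (h : GS S d μ e A c m μ0 f1 f2 f3) (hsum : ∑ v ∈ S, d v + 2 = 2 * (S.card + μ)) :
    ∑ v ∈ A, (d v - c v) + ∑ v ∈ S \ A, d v = 2 * (S \ A).card + 2 * (μ - μ0) := by
  have e1 : ∑ v ∈ A, d v = ∑ v ∈ A, c v + ∑ v ∈ A, (d v - c v) := by
    rw [← sum_add_distrib]
    refine sum_congr rfl ?_
    intro x hx
    have := h.cd x hx
    omega
  have e2 : ∑ v ∈ S, d v = ∑ v ∈ S \ A, d v + ∑ v ∈ A, d v := (sum_sdiff h.sub).symm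
  have e3 : (S \ A).card + A.card = S.card := card_sdiff_add_card_eq_card h.sub
  have := h.cs
  have := h.le
  omega

/-- parity relation -/
theorem GS.par (h : GS S d μ e A c m μ0 f1 f2 f3) (hsum : ∑ v ∈ S, d v + 2 = 2 * (S.card + μ)) :
    (∑ v ∈ A, (d v - c v) % 2 + ∑ v ∈ S \ A, io (d v)) % 2 = 0 := by
  have h1 := h.sum hsum
  have h2 : ∃ w, ∑ v ∈ A, (d v - c v) = ∑ v ∈ A, (d v - c v) % 2 + 2 * w := by
    refine ⟨∑ x ∈ A, (d x - c x) / 2, ?_⟩
    rw [mul_sum, ← sum_add_distrib]
    refine sum_congr rfl ?_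
    intro x _
    omega
  have h3 : ∃ w, ∑ v ∈ S \ A, d v = ∑ v ∈ S \ A, io (d v) + 2 * w := by
    refine ⟨∑ x ∈ S \ A, d x / 2, ?_⟩
    rw [mul_sum, ← sum_add_distrib]
    refine sum_congr rfl ?_
    intro x _
    unfold io; omega
  obtain ⟨w1, hw1⟩ := h2
  obtain ⟨w2, hw2⟩ := h3
  omega

end

end Pool.Agent.Helper53
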