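import Pool.Agent.Helper53.Mark
import Pool.Agent.Helper53.Grow

/-!
# How a state changes when an edge, a cycle or a block is glued on
-/

open Finset Function
open scoped symmDiff

set_option linter.unusedSectionVars false
set_option linter.unusedSimpArgs false

namespace Pool.Agent.Helper53

variable {V : Type*} [Fintype V] [DecidableEq V]

section

variable {S : Finset V} {d : V → ℕ} {μ e : ℕ} {A : Finset V} {c : V → ℕ} {m μ0 f1 f2 f3 : ℕ}

theorem sum_congr_update {O : Finset V} {u : V} {d d' : V → ℕ} {t : ℕ} (f : ℕ → ℕ)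
    (h1 : d' u = t) (h2 : ∀ v ∈ O, v ≠ u → d' v = d v) :
    ∑ v ∈ O, f (d' v) = ∑ v ∈ O, f (update d u t v) := by
  refine sum_congr rfl ?_
  intro v hv
  by_cases hvu : v = u
  · rw [hvu, update_self, h1]
  · rw [update_of_ne hvu, h2 v hv hvu]

/-- gluing on new vertices of degree two at one old vertex -/
theorem GS.add (h : GS S d μ e A c m μ0 f1 f2 f3) {u : V} (hu : u ∈ S) {B : Finset V}
    (hB : Disjoint S B) {d' : V → ℕ} {t : ℕ} (hdt : d' u = d u + t)
    (hdS : ∀ v ∈ S, v ≠ u → d' v = d v) {μ' g1 g2 g3 : ℕ} (hμ : μ ≤ μ')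
    (h1 : ∑ v ∈ B, i1 (d' v) + 2 * μ' + g1 + (if u ∈ A then 0 else i1 (d u + t)) =
      B.card + 2 * μ + f1 + (if u ∈ A then 0 else i1 (d u)))
    (h2 : ∑ v ∈ B, io (d' v) + 4 * μ' + g2 +
        (if u ∈ A then (d u + t - c u) % 2 else io (d u + t)) =
      2 * B.card + 4 * μ + f2 + (if u ∈ A then (d u - c u) % 2 else io (d u)))
    (h3 : g3 + (if u ∈ A then (d u + t - c u) % 2 else 0) + (if u ∈ A then 0 else io (d u)) =
      f3 + (if u ∈ A then (d u - c u) % 2 else 0) + ∑ v ∈ B, io (d' v) +
        (if u ∈ A then 0 else io (d u + t))) :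
    GS (S ∪ B) d' μ' e A c m μ0 g1 g2 g3 := by
  have hset : (S ∪ B) \ A = (S \ A) ∪ B := by
    ext x
    simp only [mem_sdiff, mem_union]
    constructor
    · tauto
    · rintro (⟨h5, h6⟩ | h5)
      · exact ⟨Or.inl h5, h6⟩
      · exact ⟨Or.inr h5, fun h6 => disjoint_left.mp hB (h.sub h6) h5⟩
  have hdis : Disjoint (S \ A) B := hB.mono_left sdiff_subset
  have hM1 := h.M1
  have hM2 := h.M2
  have hM3 := h.M3
  have hle := h.le
  have e1 := sum_congr_update (O := S \ A) (u := u) (d := d) (d' := d') i1 hdt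
    (fun v hv hvu => hdS v (mem_sdiff.mp hv).1 hvu)
  have e2 := sum_congr_update (O := S \ A) (u := u) (d := d) (d' := d') io hdt
    (fun v hv hvu => hdS v (mem_sdiff.mp hv).1 hvu)
  have e3 : ∑ v ∈ A, (d' v - c v) % 2 = ∑ v ∈ A, (update d u (d u + t) v - c v) % 2 := by
    refine sum_congr rfl ?_
    intro v hv
    by_cases hvu : v = u
    · rw [hvu, update_self, hdt]
    · rw [update_of_ne hvu, hdS v (h.sub hv) hvu]
  refine ⟨h.sub.trans subset_union_left, h.c1, ?_, by omega, h.cs, h.base, ?_, ?_, ?_⟩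
  · intro v hv
    have := h.cd v hv
    by_cases hvu : v = u
    · rw [hvu, hdt]; rw [hvu] at this; omega
    · rw [hdS v (h.sub hv) hvu]; exact this
  · rw [hset, sum_union hdis, card_union_of_disjoint hdis]
    by_cases huA : u ∈ A
    · have huO : u ∉ S \ A := fun hh => (mem_sdiff.mp hh).2 huA
      have e4 := sum_update_not_mem huO d (d u + t) (fun _ => i1)
      simp only [huA, if_true] at h1
      omega
    · have huO : u ∈ S \ A := mem_sdiff.mpr ⟨hu, huA⟩
      have e4 := sum_update_mem huO d (d u + t) (fun _ => i1)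
      simp only [huA, if_false] at h1
      omega
  · rw [hset, sum_union hdis, card_union_of_disjoint hdis]
    by_cases huA : u ∈ A
    · have huO : u ∉ S \ A := fun hh => (mem_sdiff.mp hh).2 huA
      have e4 := sum_update_not_mem huO d (d u + t) (fun _ => io)
      have e5 := sum_update_mem huA d (d u + t) (fun x y => (y - c x) % 2)
      simp only [huA, if_true] at h2
      omega
    · have huO : u ∈ S \ A := mem_sdiff.mpr ⟨hu, huA⟩
      have e4 := sum_update_mem huO d (d u + t) (fun _ => io)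
      have e5 := sum_update_not_mem huA d (d u + t) (fun x y => (y - c x) % 2)
      simp only [huA, if_false] at h2
      omega
  · rw [hset, sum_union hdis]
    by_cases huA : u ∈ A
    · have huO : u ∉ S \ A := fun hh => (mem_sdiff.mp hh).2 huA
      have e4 := sum_update_not_mem huO d (d u + t) (fun _ => io)
      have e5 := sum_update_mem huA d (d u + t) (fun x y => (y - c x) % 2)
      simp only [huA, if_true] at h3
      omega
    · have huO : u ∈ S \ A := mem_sdiff.mpr ⟨hu, huA⟩
      have e4 := sum_update_mem huO d (d u + t) (fun _ => io)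
      have e5 := sum_update_not_mem huA d (d u + t) (fun x y => (y - c x) % 2)
      simp only [huA, if_false] at h3
      omega

/-- gluing on an edge -/
theorem GS.edge (h : GS S d μ e A c m μ0 f1 f2 f3) {u w : V} (hu : u ∈ S) (hw : w ∉ S)
    {d' : V → ℕ} (hdt : d' u = d u + 1) (hdS : ∀ v ∈ S, v ≠ u → d' v = d v) (hdw : d' w = 1)
    (hdu : 1 ≤ d u) :
    ∃ g1 g2 g3, GS (S ∪ {w}) d' μ e A c m μ0 g1 g2 g3 := by
  have hdis : Disjoint S {w} := disjoint_singleton_right.mpr hw
  have f4 : i1 (d u + 1) = 0 := by unfold i1; split_ifs <;> omega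
  have f5 : io (d u + 1) + io (d u) = 1 := by unfold io; omega
  have f6 : i1 (d u) ≤ 1 := by unfold i1; split_ifs <;> omega
  have hw1 : i1 (d' w) = 1 := by rw [hdw]; rfl
  have hw2 : io (d' w) = 1 := by rw [hdw]; rfl
  by_cases huA : u ∈ A
  · have hcd := h.cd u huA
    refine ⟨f1, f2 + 1 - (d u + 1 - c u) % 2 + (d u - c u) % 2,
      f3 + 1 - (d u + 1 - c u) % 2 + (d u - c u) % 2, h.add hu hdis hdt hdS le_rfl ?_ ?_ ?_⟩
    · simp only [sum_singleton, card_singleton, huA, if_true]; omega
    · simp only [sum_singleton, card_singleton, huA, if_true]; omega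
    · simp only [sum_singleton, card_singleton, huA, if_true]; omega
  · refine ⟨f1 + i1 (d u), f2 + 1 + io (d u) - io (d u + 1), f3 + 1 + io (d u + 1) - io (d u),
      h.add hu hdis hdt hdS le_rfl ?_ ?_ ?_⟩
    · simp only [sum_singleton, card_singleton, huA, if_false]; omega
    · simp only [sum_singleton, card_singleton, huA, if_false]; omega
    · simp only [sum_singleton, card_singleton, huA, if_false]; omega

/-- gluing on a cycle -/
theorem GS.cycle (h : GS S d μ e A c m μ0 f1 f2 f3) {u : V} (hu : u ∈ S) {B : Finset V}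
    (hB : Disjoint S B) (hBc : 2 ≤ B.card)
    {d' : V → ℕ} (hdt : d' u = d u + 2) (hdS : ∀ v ∈ S, v ≠ u → d' v = d v)
    (hdB : ∀ v ∈ B, d' v = 2) (hdu : 1 ≤ d u) :
    GS (S ∪ B) d' (μ + 1) e A c m μ0 (f1 + (B.card - 2) + (if u ∈ A then 0 else i1 (d u)))
      (f2 + 2 * (B.card - 2)) f3 := by
  have f4 : i1 (d u + 2) = 0 := by unfold i1; split_ifs <;> omega
  have f5 : io (d u + 2) = io (d u) := by unfold io; omega
  have b1 : ∑ v ∈ B, i1 (d' v) = 0 := sum_eq_zero (fun v hv => by rw [hdB v hv]; rfl)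
  have b2 : ∑ v ∈ B, io (d' v) = 0 := sum_eq_zero (fun v hv => by rw [hdB v hv]; rfl)
  by_cases huA : u ∈ A
  · have hcd := h.cd u huA
    refine h.add hu hB hdt hdS (by omega) ?_ ?_ ?_
    · simp only [huA, if_true]; omega
    · simp only [huA, if_true]; omega
    · simp only [huA, if_true]; omega
  · refine h.add hu hB hdt hdS (by omega) ?_ ?_ ?_
    · simp only [huA, if_false]; omega
    · simp only [huA, if_false]; omega
    · simp only [huA, if_false]; omega

/-- after gluing a cycle to a state without slots, one can arrange for a slot -/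
theorem GS.cycle_fix (h : GS S d μ e A c 0 μ f1 f2 f3)
    (hsum : ∑ v ∈ S, d v + 2 = 2 * (S.card + μ)) (hc3 : ∀ v ∈ A, 3 ≤ c v)
    (hk : 1 ≤ μ + e) {u : V} (hu : u ∈ S)
    {B : Finset V} (hB : Disjoint S B) (hBc : 2 ≤ B.card)
    {d' : V → ℕ} (hdt : d' u = d u + 2) (hdS : ∀ v ∈ S, v ≠ u → d' v = d v)
    (hdB : ∀ v ∈ B, d' v = 2) (hdu : 1 ≤ d u) :
    ∃ A' c' m' μ0' g1 g2 g3, GS (S ∪ B) d' (μ + 1) e A' c' m' μ0' g1 g2 g3 ∧
      (∀ v ∈ A', 3 ≤ c' v) ∧ 1 ≤ m' ∧ μ0' ≤ μ + 1 := by
  have h' := h.cycle hu hB hBc hdt hdS hdB hdu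
  by_cases huA : u ∈ A
  · have hcd := h.cd u huA
    have h3 := h'.op3 huA (by omega) le_rfl
    refine ⟨_, _, 2, _, _, _, _, h3, ?_, by omega, le_rfl⟩
    intro v hv
    by_cases hvu : v = u
    · rw [hvu]; simp; have := hc3 u huA; omega
    · rw [update_of_ne hvu]; exact hc3 v hv
  · have huO : u ∈ S \ A := mem_sdiff.mpr ⟨hu, huA⟩
    have hM1 := h.M1
    have hM2 := h.M2
    have hM3 := h.M3
    rw [if_neg huA] at h'
    have hf1 : 1 ≤ f1 + (B.card - 2) + i1 (d u) := by
      by_cases hx : d u = 1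
      · have : i1 (d u) = 1 := by rw [hx]; rfl
        omega
      · have := sum_i1_lt huO (by omega : 2 ≤ d u)
        omega
    by_cases hf2 : 2 ≤ f2 + 2 * (B.card - 2)
    · have h4 := h'.op4 (g1 := f1 + (B.card - 2) + i1 (d u) - 1)
        (g2 := f2 + 2 * (B.card - 2) - 2) hk (by omega) (by omega)
      exact ⟨_, _, 1, _, _, _, _, h4, hc3, le_rfl, by omega⟩
    · have hioN := sum_io_le (d := d) (S \ A)
      have hpar := h.par hsum
      have hN : 1 ≤ (S \ A).card := card_pos.mpr ⟨u, huO⟩
      -- all vertices outside the base are odd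
      have hall : ∑ v ∈ S \ A, io (d v) = (S \ A).card := by omega
      have hodd : d u % 2 = 1 := by
        by_contra hne
        have := sum_io_lt huO (by omega : d u % 2 = 0)
        omega
      have hσ : 1 ≤ ∑ v ∈ A, (d v - c v) % 2 := by omega
      obtain ⟨a, ha, ha1⟩ := exists_of_sum_pos hσ
      have hau : a ≠ u := by rintro rfl; exact huA ha
      have hda : d' a = d a := hdS a (h.sub ha) hau
      have f4 : i1 (d' u) = 0 := by rw [hdt]; unfold i1; split_ifs <;> omega
      have f5 : io (d' u) = 1 := by rw [hdt]; unfold io; omega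
      have h2 := h'.op1 (a := a) (u := u) (g1 := f1 + (B.card - 2) + i1 (d u) - 1)
        (g2 := f2 + 2 * (B.card - 2)) (g3 := f3) ha (by omega) (mem_union_left _ hu) huA
        (by omega) (by omega) (by rw [hda, f5]; omega) (by rw [hda]; omega)
      have h3 := h2.op3 (a := u) (mem_insert_self _ _)
        (by rw [update_of_ne hau.symm, update_self]; omega) le_rfl
      refine ⟨_, _, 2, _, _, _, _, h3, ?_, by omega, le_rfl⟩
      intro v hv
      by_cases hvu : v = u
      · rw [hvu, update_self, update_of_ne hau.symm, update_self]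
      · have hvA : v ∈ A := by simp only [mem_insert] at hv; tauto
        rw [update_of_ne hvu]
        by_cases hva : v = a
        · rw [hva]; simp; have := hc3 a ha; omega
        · rw [update_of_ne hva, update_of_ne hvu]; exact hc3 v hvA

end

end Pool.Agent.Helper53
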