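import Pool.Agent.Helper53.Block
import Pool.Agent.Helper53.Pieces

/-!
# Blocks of graphs: degrees, dimension, sides
-/

open Finset
open scoped symmDiff

set_option linter.unusedSectionVars false
set_option linter.unusedSimpArgs false

namespace Pool.Agent.Helper53

variable {V : Type*} [Fintype V] [DecidableEq V]

/-- the graph with edge set `K` -/
abbrev gr (K : Finset (Sym2 V)) : SimpleGraph V := SimpleGraph.fromEdgeSet (K : Set (Sym2 V))

theorem gr_adj {K : Finset (Sym2 V)} {x y : V} : (gr K).Adj x y ↔ s(x, y) ∈ K ∧ x ≠ y := by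
  rw [SimpleGraph.fromEdgeSet_adj]; simp

theorem gr_mono {K L : Finset (Sym2 V)} (h : K ⊆ L) : gr K ≤ gr L :=
  SimpleGraph.fromEdgeSet_mono (by exact_mod_cast h)

/-- a circuit is connected and has degrees zero or two -/
theorem circuit_props {C : Finset (Sym2 V)} (hC : IsC EvenSet C) :
    (∀ v, dg C v = 0 ∨ dg C v = 2) ∧ ∀ x ∈ tch C, ∀ y ∈ tch C, (gr C).Reachable x y := by
  classical
  obtain ⟨v, w, hw, heq⟩ := exists_cycle_of_circuit (G := gr C)
    (by
      intro e he
      rw [SimpleGraph.edgeSet_fromEdgeSet]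
      exact ⟨by exact_mod_cast he, hC.1.1 e he⟩) hC
  have hsup : ∀ x, 0 < dg C x → x ∈ w.support := by
    intro x hx
    obtain ⟨e, he, hxe⟩ := dg_pos.mp hx
    rw [← heq, List.mem_toFinset] at he
    obtain ⟨y, rfl⟩ := Sym2.mem_iff_exists.mp hxe
    exact w.fst_mem_support_of_mem_edges he
  refine ⟨?_, ?_⟩
  · intro x
    rcases Nat.eq_zero_or_pos (dg C x) with h | h
    · exact Or.inl h
    · right
      have := dg_cycle hw x (hsup x h)
      rwa [heq] at this
  · have key : ∀ x ∈ tch C, (gr C).Reachable v x := by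
      intro x hx
      exact ⟨w.takeUntil x (hsup x (mem_tch.mp hx))⟩
    intro x hx y hy
    exact (key x hx).symm.trans (key y hy)

theorem card_tch_circuit {C : Finset (Sym2 V)} (hC : IsC EvenSet C) : (tch C).card = C.card := by
  have h1 := sum_dg hC.1.1
  have h2 : ∑ v : V, dg C v = 2 * (tch C).card := by
    unfold tch
    rw [card_filter, mul_sum]
    refine sum_congr rfl ?_
    intro v _
    rcases (circuit_props hC).1 v with h | h <;> rw [h] <;> simp
  omega

/-- reachability gives a set of edges with prescribed odd vertices -/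
theorem exists_odds_of_reachable {K : Finset (Sym2 V)} {x y : V} (h : (gr K).Reachable x y) :
    ∃ X, X ⊆ K ∧ odds X = ({x} : Finset V) ∆ {y} := by
  classical
  obtain ⟨w⟩ := h
  induction w with
  | nil =>
    refine ⟨∅, empty_subset _, ?_⟩
    rw [symmDiff_self]
    ext v; rw [mem_odds]; simp [dg]
  | @cons a b c hadj _ ih =>
    obtain ⟨X, hX, hXo⟩ := ih
    rw [gr_adj] at hadj
    refine ⟨X ∆ {s(a, b)}, ?_, ?_⟩
    · intro e he
      rw [mem_symmDiff, mem_singleton] at he
      rcases he with he | he
      · exact hX he.1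
      · rw [he.1]; exact hadj.1
    · rw [odds_symmDiff, hXo]
      have h1 : odds ({s(a, b)} : Finset (Sym2 V)) = ({a} : Finset V) ∆ {b} := by
        ext v
        rw [mem_odds, mem_symmDiff, mem_singleton, mem_singleton]
        unfold dg
        rw [filter_singleton]
        have hab := hadj.2
        by_cases hva : v = a
        · subst hva
          simp [hab]
        · by_cases hvb : v = b
          · subst hvb
            simp [hab, hva]
          · simp [hva, hvb]
      rw [h1]
      ext v
      simp only [mem_symmDiff, mem_singleton]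
      tauto

/-- the rank of a connected piece is at most `m - n + 1` -/
theorem Ok.mu_add_le {S : Finset V} {F : Finset (Sym2 V)} (h : Ok S F) :
    mu EvenSet F + S.card ≤ F.card + 1 := by
  classical
  obtain ⟨v0, hv0⟩ := h.ne
  have key := mul_card_image_le_card_of_maps_to (s := F.powerset)
    (t := (S.erase v0).powerset) (f := fun X => (odds X).erase v0) ?_
    (evs EvenSet F).card ?_
  · rw [card_powerset, card_powerset, card_erase_of_mem hv0, card_evs fam_evenSet, ← pow_add,
      Nat.pow_le_pow_iff_right (by norm_num)] at key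
    have : 0 < S.card := card_pos.mpr ⟨v0, hv0⟩
    omega
  · intro X hX
    rw [mem_powerset] at hX ⊢
    apply erase_subset_erase
    intro v hv
    rw [mem_odds] at hv
    obtain ⟨e, he, hve⟩ := dg_pos.mp hv.pos
    exact h.sup e (hX he) v hve
  · intro W hW
    rw [mem_powerset] at hW
    -- W is attained
    have hatt : ∀ W : Finset V, W ⊆ S.erase v0 → ∃ X, X ⊆ F ∧ (odds X).erase v0 = W := by
      intro W
      induction W using Finset.induction_on with
      | empty =>
        intro _
        refine ⟨∅, empty_subset _, ?_⟩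
        ext v; simp [mem_odds, dg]
      | insert x W hxW ih =>
        intro hW
        obtain ⟨X, hX, hXo⟩ := ih (fun y hy => hW (mem_insert_of_mem hy))
        have hx := hW (mem_insert_self x W)
        rw [mem_erase] at hx
        obtain ⟨Y, hY, hYo⟩ := exists_odds_of_reachable (h.con x hx.2 v0 hv0)
        refine ⟨X ∆ Y, ?_, ?_⟩
        · intro e he
          rw [mem_symmDiff] at he
          rcases he with he | he
          · exact hX he.1
          · exact hY he.1
        · rw [odds_symmDiff, hYo]
          ext v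
          have h1 : v ∈ (odds X).erase v0 ↔ v ∈ W := by rw [hXo]
          rw [mem_erase] at h1
          simp only [mem_erase, mem_symmDiff, mem_singleton, mem_insert]
          by_cases hvv : v = v0
          · subst hvv
            have : v ∉ W := fun hh => by simpa using hW (mem_insert_of_mem hh)
            constructor
            · intro hh; exact absurd rfl hh.1
            · rintro (hh | hh)
              · exact absurd hh.symm hx.1
              · exact absurd hh this
          · by_cases hvx : v = x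
            · subst hvx
              tauto
            · tauto
    obtain ⟨X0, hX0, hX0o⟩ := hatt W hW
    apply card_le_card_of_injOn (fun Z => Z ∆ X0)
    · intro Z hZ
      rw [mem_coe, mem_evs] at hZ
      rw [mem_coe, mem_filter, mem_powerset]
      refine ⟨?_, ?_⟩
      · intro e he
        rw [mem_symmDiff] at he
        rcases he with he | he
        · exact hZ.1 he.1
        · exact hX0 he.1
      · have h1 : odds Z = ∅ := (evenSet_iff_odds hZ.2.1).mp hZ.2
        rw [odds_symmDiff, h1]
        have : (∅ : Finset V) ∆ odds X0 = odds X0 := by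
          ext v; simp [mem_symmDiff]
        rw [this]; exact hX0o
    · intro X _ Y _ hXY
      exact symmDiff_left_injective X0 hXY

section con

variable {U : Finset (Sym2 V)}

theorem Con.nd (hU : Con EvenSet U) : ∀ e ∈ U, ¬ e.IsDiag := by
  intro e he
  obtain ⟨C, _, c2, c3, _⟩ := hU.2 e he e he
  exact c2.1.1 e c3

theorem Con.ok (hU : Con EvenSet U) : Ok (tch U) U where
  nd := hU.nd
  sup := fun e he v hv => mem_tch.mpr (dg_pos.mpr ⟨e, he, hv⟩)
  ne := by
    obtain ⟨e, he⟩ := hU.1
    exact ⟨e.out.1, mem_tch.mpr (dg_pos.mpr ⟨e, he, Sym2.out_fst_mem e⟩)⟩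
  con := by
    intro x hx y hy
    obtain ⟨e, he, hxe⟩ := dg_pos.mp (mem_tch.mp hx)
    obtain ⟨f, hf, hyf⟩ := dg_pos.mp (mem_tch.mp hy)
    obtain ⟨C, c1, c2, c3, c4⟩ := hU.2 e he f hf
    have h1 := (circuit_props c2).2 x (mem_tch.mpr (dg_pos.mpr ⟨e, c3, hxe⟩)) y
      (mem_tch.mpr (dg_pos.mpr ⟨f, c4, hyf⟩))
    exact h1.mono (gr_mono c1)

theorem Con.card_eq (hU : Con EvenSet U) : U.card + 1 = mu EvenSet U + (tch U).card := by
  have h1 := hU.ok.mu_add_le
  have h2 := card_le_mu_add hU.nd hU.ok.ne
  omega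

theorem Con.two_le_dg (hU : Con EvenSet U) {v : V} (hv : 0 < dg U v) : 2 ≤ dg U v := by
  apply two_le_dg_of_circuits _ hv
  intro f hf
  obtain ⟨C, c1, c2, c3, _⟩ := hU.2 f hf f hf
  exact ⟨C, c1, c2, c3⟩

/-- the star at `v` minus an edge is shattered by the even sets -/
theorem Con.shatter (hU : Con EvenSet U) {v : V} {e1 : Sym2 V} (he1 : e1 ∈ U) (hv : v ∈ e1) :
    ∀ J : Finset (Sym2 V), J ⊆ (U.filter (fun e => v ∈ e)).erase e1 →
      ∃ X, X ⊆ U ∧ EvenSet X ∧ X ∩ ((U.filter (fun e => v ∈ e)).erase e1) = J := by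
  classical
  set K := (U.filter (fun e => v ∈ e)).erase e1 with hK
  intro J
  induction J using Finset.induction_on with
  | empty =>
    intro _
    exact ⟨∅, empty_subset _, fam_evenSet.zero, by simp⟩
  | insert f J hfJ ih =>
    intro hJ
    obtain ⟨X, hX, hXe, hXK⟩ := ih (fun y hy => hJ (mem_insert_of_mem hy))
    have hf := hJ (mem_insert_self f J)
    rw [hK, mem_erase, mem_filter] at hf
    obtain ⟨C, c1, c2, c3, c4⟩ := hU.2 e1 he1 f hf.2.1
    have hCstar : C.filter (fun e => v ∈ e) = {e1, f} := by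
      symm
      apply eq_of_subset_of_card_le
      · intro g hg
        simp only [mem_insert, mem_singleton] at hg
        rw [mem_filter]
        rcases hg with rfl | rfl
        · exact ⟨c3, hv⟩
        · exact ⟨c4, hf.2.2⟩
      · rw [card_pair (Ne.symm hf.1)]
        rcases (circuit_props c2).1 v with h | h
        · unfold dg at h; omega
        · unfold dg at h; omega
    have hCK : C ∩ K = {f} := by
      ext g
      rw [mem_inter, hK, mem_erase, mem_filter, mem_singleton]
      constructor
      · rintro ⟨h1, h2, h3, h4⟩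
        have : g ∈ C.filter (fun e => v ∈ e) := mem_filter.mpr ⟨h1, h4⟩
        rw [hCstar] at this
        simp only [mem_insert, mem_singleton] at this
        rcases this with h5 | h5
        · exact absurd h5 h2
        · exact h5
      · rintro rfl
        exact ⟨c4, hf.1, hf.2.1, hf.2.2⟩
    refine ⟨X ∆ C, ?_, fam_evenSet.add _ _ hXe c2.1, ?_⟩
    · intro e he
      rw [mem_symmDiff] at he
      rcases he with he | he
      · exact hX he.1
      · exact c1 he.1
    · have e1' : (X ∆ C) ∩ K = (X ∩ K) ∆ (C ∩ K) := by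
        ext g; simp only [mem_inter, mem_symmDiff]; tauto
      rw [e1', hXK, hCK]
      ext g
      simp only [mem_symmDiff, mem_singleton, mem_insert]
      by_cases hg : g = f
      · subst hg; tauto
      · tauto

/-- maximum degree of a block -/
theorem Con.dg_le (hU : Con EvenSet U) (v : V) : dg U v ≤ mu EvenSet U + 1 := by
  classical
  rcases Nat.eq_zero_or_pos (dg U v) with h0 | hpos
  · omega
  · obtain ⟨e1, he1, hv⟩ := dg_pos.mp hpos
    set K := (U.filter (fun e => v ∈ e)).erase e1 with hK
    have h1 : K.powerset ⊆ (evs EvenSet U).image (fun X => X ∩ K) := by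
      intro J hJ
      rw [mem_powerset] at hJ
      obtain ⟨X, hX, hXe, hXK⟩ := hU.shatter he1 hv J hJ
      rw [mem_image]
      exact ⟨X, mem_evs.mpr ⟨hX, hXe⟩, hXK⟩
    have h2 := (card_le_card h1).trans card_image_le
    rw [card_powerset, card_evs fam_evenSet, Nat.pow_le_pow_iff_right (by norm_num)] at h2
    have h3 : K.card + 1 = dg U v := by
      rw [hK]
      exact card_erase_add_one (mem_filter.mpr ⟨he1, hv⟩)
    omega

/-- a vertex of full degree `rank + 1 ≥ 4` forces a non-circuit even set -/
theorem Con.circ_le_of_dg (hU : Con EvenSet U) {v : V} (hv4 : dg U v = mu EvenSet U + 1)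
    (hmu : 3 ≤ mu EvenSet U) : (circ EvenSet U).card + 2 ≤ 2 ^ mu EvenSet U := by
  classical
  obtain ⟨e1, he1, hv⟩ := dg_pos.mp (by omega : 0 < dg U v)
  set K := (U.filter (fun e => v ∈ e)).erase e1 with hK
  obtain ⟨X, hX, hXe, hXK⟩ := hU.shatter he1 hv K (Subset.refl _)
  have h3 : K.card + 1 = dg U v := by
    rw [hK]
    exact card_erase_add_one (mem_filter.mpr ⟨he1, hv⟩)
  have hKX : K ⊆ X.filter (fun e => v ∈ e) := by
    intro f hf
    have h4 : f ∈ X ∩ K := by rw [hXK]; exact hf
    rw [mem_inter] at h4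
    rw [hK, mem_erase, mem_filter] at hf
    exact mem_filter.mpr ⟨h4.1, hf.2.2⟩
  have h5 : K.card ≤ dg X v := card_le_card hKX
  have hXne : X ≠ ∅ := by
    rintro rfl
    have h5' : K.card ≤ 0 := by simpa [dg] using h5
    omega
  have hXc : ¬ IsC EvenSet X := by
    intro hc
    rcases (circuit_props hc).1 v with h | h <;> omega
  have h6 : circ EvenSet U ⊆ ((evs EvenSet U).erase ∅).erase X := by
    intro Y hY
    rw [mem_circ] at hY
    rw [mem_erase, mem_erase, mem_evs]
    refine ⟨?_, nonempty_iff_ne_empty.mp hY.2.2.1, hY.1, hY.2.1⟩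
    rintro rfl
    exact hXc hY.2
  have h7 := card_le_card h6
  have h8 : ∅ ∈ evs EvenSet U := mem_evs.mpr ⟨empty_subset _, fam_evenSet.zero⟩
  have h9 : X ∈ (evs EvenSet U).erase ∅ :=
    mem_erase.mpr ⟨hXne, mem_evs.mpr ⟨hX, hXe⟩⟩
  rw [card_erase_of_mem h9, card_erase_of_mem h8, card_evs fam_evenSet] at h7
  have h10 : 2 ^ 3 ≤ 2 ^ mu EvenSet U := Nat.pow_le_pow_right (by norm_num) hmu
  omega

/-- weighted count of the vertices of degree at least three -/
theorem Con.sum_excess (hU : Con EvenSet U) :
    ∑ v : V, (dg U v - 2) + 2 = 2 * mu EvenSet U := by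
  have h1 := sum_dg hU.nd
  have h2 := hU.card_eq
  have h3 : ∑ v : V, dg U v = ∑ v : V, (dg U v - 2) + 2 * (tch U).card := by
    unfold tch
    rw [card_filter, mul_sum, ← sum_add_distrib]
    refine sum_congr rfl ?_
    intro v _
    rcases Nat.eq_zero_or_pos (dg U v) with h | h
    · rw [h]; simp
    · have := hU.two_le_dg h
      rw [if_pos h]; omega
  omega

/-- the vertices of degree three and four in `U` -/
def deg3 (U : Finset (Sym2 V)) : Finset V := univ.filter (fun v => dg U v = 3)
def deg4 (U : Finset (Sym2 V)) : Finset V := univ.filter (fun v => dg U v = 4)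

theorem mem_deg3 {v : V} : v ∈ deg3 U ↔ dg U v = 3 := by simp [deg3]
theorem mem_deg4 {v : V} : v ∈ deg4 U ↔ dg U v = 4 := by simp [deg4]

theorem Con.theta (hU : Con EvenSet U) (hmu : mu EvenSet U = 2) :
    (deg3 U).card = 2 ∧ odds U = deg3 U := by
  have h1 := hU.sum_excess
  have h2 : ∀ v, dg U v ≤ 3 := fun v => by have := hU.dg_le v; omega
  have h3 : ∑ v : V, (dg U v - 2) = (deg3 U).card := by
    unfold deg3
    rw [card_filter]
    refine sum_congr rfl ?_
    intro v _
    have := h2 v
    split_ifs <;> omega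
  refine ⟨by omega, ?_⟩
  ext v
  rw [mem_odds, mem_deg3]
  have h4 := h2 v
  have h5 : 0 < dg U v → 2 ≤ dg U v := hU.two_le_dg
  constructor
  · intro h
    rw [Nat.odd_iff] at h
    omega
  · intro h; rw [h]; decide

theorem Con.three (hU : Con EvenSet U) (hmu : mu EvenSet U = 3) :
    (deg3 U).card + 2 * (deg4 U).card = 4 ∧ odds U = deg3 U := by
  have h1 := hU.sum_excess
  have h2 : ∀ v, dg U v ≤ 4 := fun v => by have := hU.dg_le v; omega
  have h3 : ∑ v : V, (dg U v - 2) = (deg3 U).card + 2 * (deg4 U).card := by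
    unfold deg3 deg4
    rw [card_filter, card_filter, mul_sum, ← sum_add_distrib]
    refine sum_congr rfl ?_
    intro v _
    have := h2 v
    split_ifs <;> omega
  refine ⟨by omega, ?_⟩
  ext v
  rw [mem_odds, mem_deg3]
  have h4 := h2 v
  have h5 : 0 < dg U v → 2 ≤ dg U v := hU.two_le_dg
  constructor
  · intro h
    rw [Nat.odd_iff] at h
    omega
  · intro h; rw [h]; decide

theorem Con.seven (hU : Con EvenSet U) (hmu : mu EvenSet U = 3)
    (h7 : (circ EvenSet U).card = 7) : (deg4 U).card = 0 := by
  rw [card_eq_zero, eq_empty_iff_forall_notMem]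
  intro v hv
  rw [mem_deg4] at hv
  have := hU.circ_le_of_dg (v := v) (by omega) (by omega)
  rw [hmu, h7] at this
  omega

/-- a block of rank three with six circuits contains a non-circuit even set, the disjoint union
of two circuits -/
theorem Con.two_disjoint (hmu : mu EvenSet U = 3) (h6 : (circ EvenSet U).card = 6) :
    ∃ Z C D, Z ⊆ U ∧ EvenSet Z ∧ ¬ IsC EvenSet Z ∧ C ⊆ Z ∧ D ⊆ Z ∧ IsC EvenSet C ∧
      IsC EvenSet D ∧ Disjoint C D := by
  classical
  have h1 : (circ EvenSet U).card < ((evs EvenSet U).erase ∅).card := by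
    have h8 : ∅ ∈ evs EvenSet U := mem_evs.mpr ⟨empty_subset _, fam_evenSet.zero⟩
    rw [card_erase_of_mem h8, card_evs fam_evenSet, hmu, h6]
    norm_num
  obtain ⟨Z, hZ, hZc⟩ := exists_mem_notMem_of_card_lt_card h1
  rw [mem_erase, mem_evs] at hZ
  have hZnc : ¬ IsC EvenSet Z := fun h => hZc (mem_circ.mpr ⟨hZ.2.1, h⟩)
  obtain ⟨x, hx⟩ := nonempty_iff_ne_empty.mpr hZ.1
  obtain ⟨C, c1, c2, c3⟩ := fam_evenSet.circuit hZ.2.2 hx
  have hne : (Z \ C).Nonempty := by
    rw [nonempty_iff_ne_empty]
    intro h0
    rw [sdiff_eq_empty_iff_subset] at h0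
    have : C = Z := Subset.antisymm c1 h0
    exact hZnc (this ▸ c2)
  obtain ⟨y, hy⟩ := hne
  obtain ⟨D, d1, d2, d3⟩ := fam_evenSet.circuit (fam_evenSet.sdiff hZ.2.2 c2.1 c1) hy
  refine ⟨Z, C, D, hZ.2.1, hZ.2.2, hZnc, c1, d1.trans sdiff_subset, c2, d2, ?_⟩
  rw [disjoint_left]
  intro e h2 h3
  exact (mem_sdiff.mp (d1 h3)).2 h2

theorem Con.eight (hU : Con EvenSet U) (hmu : mu EvenSet U = 3)
    (h6 : (circ EvenSet U).card = 6) (h4 : (deg4 U).card = 0) : 8 ≤ U.card := by
  classical
  obtain ⟨Z, C, D, hZ, _, _, hC, hD, hCc, hDc, hdis⟩ := Con.two_disjoint hmu h6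
  have h2 : ∀ v, dg U v ≤ 3 := by
    intro v
    have h3 := hU.dg_le v
    by_contra hlt
    have : v ∈ deg4 U := mem_deg4.mpr (by omega)
    rw [card_eq_zero] at h4
    rw [h4] at this; simp at this
  have h3 : Disjoint (tch C) (tch D) := by
    rw [disjoint_left]
    intro v hv1 hv2
    rw [mem_tch] at hv1 hv2
    have e1 := (circuit_props hCc).1 v
    have e2 := (circuit_props hDc).1 v
    have e3 := dg_union hdis v
    have e4 : dg (C ∪ D) v ≤ dg U v := dg_mono (union_subset (hC.trans hZ) (hD.trans hZ)) v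
    have := h2 v
    omega
  have h5 : tch C ∪ tch D ⊆ tch U := by
    intro v hv
    rw [mem_union, mem_tch, mem_tch] at hv
    rw [mem_tch]
    rcases hv with hv | hv
    · exact lt_of_lt_of_le hv (dg_mono (hC.trans hZ) v)
    · exact lt_of_lt_of_le hv (dg_mono (hD.trans hZ) v)
  have h7 := card_le_card h5
  rw [card_union_of_disjoint h3, card_tch_circuit hCc, card_tch_circuit hDc] at h7
  have h8 := three_le_of_circuit hCc
  have h9 := three_le_of_circuit hDc
  have h10 := hU.card_eq
  omega

/-- a block of rank three with six circuits has at least seven edges -/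
theorem Con.seven_edges (hU : Con EvenSet U) (hmu : mu EvenSet U = 3)
    (h6 : (circ EvenSet U).card = 6) : 7 ≤ U.card := by
  classical
  by_contra hlt
  obtain ⟨Z, C, D, hZ, hZe, hZnc, hC, hD, hCc, hDc, hdis⟩ := Con.two_disjoint hmu h6
  have h8 := three_le_of_circuit hCc
  have h9 := three_le_of_circuit hDc
  have h10 : (C ∪ D).card = C.card + D.card := card_union_of_disjoint hdis
  have h11 : C ∪ D ⊆ U := union_subset (hC.trans hZ) (hD.trans hZ)
  have h12 := card_le_card h11
  have h13 : U.card = 6 := by omega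
  have hZcard : Z.card = 6 := by
    have a1 := card_le_card (union_subset hC hD)
    have a2 := card_le_card hZ
    omega
  have hZU : Z = U := eq_of_subset_of_card_le hZ (by omega)
  -- every nonempty even subset is a triangle or U
  have h14 : ∀ X, X ⊆ U → EvenSet X → X ≠ ∅ → X.card = 3 ∨ X.card = 6 := by
    intro X hX hXe hXne
    obtain ⟨x, hx⟩ := nonempty_iff_ne_empty.mpr hXne
    obtain ⟨E, e1, e2, _⟩ := fam_evenSet.circuit hXe hx
    have e3 := three_le_of_circuit e2
    have e4 := card_le_card e1
    have e5 := card_le_card hX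
    by_cases hXU : X = U
    · right; rw [hXU]; exact h13
    · left
      -- complement is even and nonempty
      have c1 : EvenSet (U \ X) := fam_evenSet.sdiff (hZU ▸ hZe) hXe hX
      have c2 : (U \ X).Nonempty := by
        rw [nonempty_iff_ne_empty]
        intro h0
        rw [sdiff_eq_empty_iff_subset] at h0
        exact hXU (Subset.antisymm hX h0)
      obtain ⟨y, hy⟩ := c2
      obtain ⟨E', e1', e2', _⟩ := fam_evenSet.circuit c1 hy
      have e3' := three_le_of_circuit e2'
      have e4' := card_le_card e1'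
      have e6 := card_sdiff_add_card_eq_card hX
      omega
  obtain ⟨e, he⟩ := hU.1
  have hthr := hU.mu_le_thr fam_evenSet he
  have h15 : 1 < (thr EvenSet U e).card := by omega
  obtain ⟨X, hX, Y, hY, hXY⟩ := one_lt_card.mp h15
  obtain ⟨x1, x2, x3⟩ := mem_thr.mp hX
  obtain ⟨y1, y2, y3⟩ := mem_thr.mp hY
  have hne : X ∆ Y ≠ ∅ := by
    intro h0
    exact hXY (symmDiff_eq_bot.mp h0)
  have hsub : X ∆ Y ⊆ U := by
    intro f hf
    rw [mem_symmDiff] at hf
    rcases hf with hf | hf
    · exact x1 hf.1
    · exact y1 hf.1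
  have a1 := h14 _ hsub (fam_evenSet.add _ _ x2.1 y2.1) hne
  have a2 := h14 X x1 x2.1 (nonempty_iff_ne_empty.mp x2.2.1)
  have a3 := h14 Y y1 y2.1 (nonempty_iff_ne_empty.mp y2.2.1)
  have a4 := card_symmDiff_add X Y
  have a5 : 1 ≤ (X ∩ Y).card := card_pos.mpr ⟨e, mem_inter.mpr ⟨x3, y3⟩⟩
  -- a circuit cannot be all of U
  have notU : ∀ W, W ⊆ U → IsC EvenSet W → W.card ≠ 6 := by
    intro W hW hWc h
    have : W = U := eq_of_subset_of_card_le hW (by omega)
    rw [this, ← hZU] at hWc
    exact hZnc hWc
  have a6 := notU X x1 x2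
  have a7 := notU Y y1 y2
  omega

end con

end Pool.Agent.Helper53
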