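import Pool.Agent.Helper53.Pieces

/-!
# Subdividing an edge
-/

open Finset
open scoped symmDiff

set_option linter.unusedSectionVars false
set_option linter.unusedSimpArgs false

namespace Pool.Agent.Helper53

variable {V : Type*} [Fintype V] [DecidableEq V]

theorem evenSet_triangle {x y z : V} (hxy : x ≠ y) (hxz : x ≠ z) (hyz : y ≠ z) :
    EvenSet ({s(x, y), s(x, z), s(y, z)} : Finset (Sym2 V)) := by
  have e1 : s(x, y) ≠ s(x, z) := by simp [hyz, hxy, hxz]
  have e2 : s(x, y) ≠ s(y, z) := by simp [hyz, hxy, hxz]
  have e3 : s(x, z) ≠ s(y, z) := by simp [hyz, hxy, hxz]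
  refine ⟨?_, ?_⟩
  · intro e he
    simp only [mem_insert, mem_singleton] at he
    rcases he with rfl | rfl | rfl <;> simpa
  · intro w
    unfold dg
    by_cases h1 : w = x
    · subst h1
      have : ({s(w, y), s(w, z), s(y, z)} : Finset (Sym2 V)).filter (fun e => w ∈ e) =
          {s(w, y), s(w, z)} := by
        simp [filter_insert, filter_singleton, hxy, hxz]
      rw [this, card_pair e1]; exact even_two
    · by_cases h2 : w = y
      · subst h2
        have : ({s(x, w), s(x, z), s(w, z)} : Finset (Sym2 V)).filter (fun e => w ∈ e) =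
            {s(x, w), s(w, z)} := by
          simp [filter_insert, filter_singleton, hxy.symm, hyz]
        rw [this, card_pair e2]; exact even_two
      · by_cases h3 : w = z
        · subst h3
          have : ({s(x, y), s(x, w), s(y, w)} : Finset (Sym2 V)).filter (fun e => w ∈ e) =
              {s(x, w), s(y, w)} := by
            simp [filter_insert, filter_singleton, hxz.symm, hyz.symm]
          rw [this, card_pair e3]; exact even_two
        · have : ({s(x, y), s(x, z), s(y, z)} : Finset (Sym2 V)).filter (fun e => w ∈ e) = ∅ := by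
            simp [filter_insert, filter_singleton, h1, h2, h3]
          rw [this]; simp

/-- subdividing an edge keeps the number of circuits -/
theorem card_circ_subdiv {F : Finset (Sym2 V)} {x y z : V} (hxy : x ≠ y) (hF : s(x, y) ∈ F)
    (hz : dg F z = 0) :
    (circ EvenSet (F.erase s(x, y) ∪ {s(x, z), s(y, z)})).card = (circ EvenSet F).card := by
  classical
  have hzF : ∀ e ∈ F, z ∉ e := by
    intro e he hze
    have := dg_pos.mpr ⟨e, he, hze⟩
    omega
  have hxz : x ≠ z := by rintro rfl; exact hzF _ hF (by simp)
  have hyz : y ≠ z := by rintro rfl; exact hzF _ hF (by simp)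
  have e1 : s(x, y) ≠ s(x, z) := by simp [hyz, hxy, hxz]
  have e2 : s(x, y) ≠ s(y, z) := by simp [hyz, hxy, hxz]
  have e3 : s(x, z) ≠ s(y, z) := by simp [hyz, hxy, hxz]
  have n1 : s(x, z) ∉ F := fun h => hzF _ h (by simp)
  have n2 : s(y, z) ∉ F := fun h => hzF _ h (by simp)
  set T : Finset (Sym2 V) := {s(x, y), s(x, z), s(y, z)} with hT
  have hTe : EvenSet T := evenSet_triangle hxy hxz hyz
  have mT : ∀ e, e ∈ T ↔ e = s(x, y) ∨ e = s(x, z) ∨ e = s(y, z) := by
    intro e; rw [hT]; simp
  set F' : Finset (Sym2 V) := F.erase s(x, y) ∪ {s(x, z), s(y, z)} with hF'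
  have mF' : ∀ e, e ∈ F' ↔ (e ≠ s(x, y) ∧ e ∈ F) ∨ e = s(x, z) ∨ e = s(y, z) := by
    intro e; rw [hF']; simp only [mem_union, mem_erase, mem_insert, mem_singleton]
  have n3 : s(x, y) ∉ F' := by
    rw [mF']
    rintro (h | h | h)
    · exact h.1 rfl
    · exact e1 h
    · exact e2 h
  -- an even subset of F' contains both or none of the new edges
  have both : ∀ D, D ⊆ F' → EvenSet D → (s(x, z) ∈ D ↔ s(y, z) ∈ D) := by
    intro D hD hDe
    constructor
    · intro h1
      by_contra h2
      refine no_pendant hDe (v := z) (e := s(x, z)) (by simp) ?_ h1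
      intro f hf hzf
      rcases (mF' f).mp (hD hf) with h3 | h3 | h3
      · exact absurd hzf (hzF f h3.2)
      · exact h3
      · rw [h3] at hf; exact absurd hf h2
    · intro h1
      by_contra h2
      refine no_pendant hDe (v := z) (e := s(y, z)) (by simp) ?_ h1
      intro f hf hzf
      rcases (mF' f).mp (hD hf) with h3 | h3 | h3
      · exact absurd hzf (hzF f h3.2)
      · rw [h3] at hf; exact absurd hf h2
      · exact h3
  symm
  refine card_bij' (fun X _ => if s(x, y) ∈ X then X ∆ T else X)
    (fun Y _ => if s(x, z) ∈ Y then Y ∆ T else Y) ?_ ?_ ?_ ?_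
  · intro X hX
    rw [mem_circ] at hX
    obtain ⟨hXF, hXc⟩ := hX
    split_ifs with hxX
    · rw [mem_circ]
      have hsub : X ∆ T ⊆ F' := by
        intro e he
        rw [mem_symmDiff, mT] at he
        rw [mF']
        rcases he with ⟨h1, h2⟩ | ⟨h1, h2⟩
        · left; exact ⟨fun h => h2 (Or.inl h), hXF h1⟩
        · rcases h1 with h1 | h1 | h1
          · rw [h1] at h2; exact absurd hxX h2
          · right; left; exact h1
          · right; right; exact h1
      refine ⟨hsub, fam_evenSet.add _ _ hXc.1 hTe, ?_, ?_⟩
      · refine ⟨s(x, z), ?_⟩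
        rw [mem_symmDiff, mT]
        right
        exact ⟨Or.inr (Or.inl rfl), fun h => n1 (hXF h)⟩
      · intro D hD hDe
        have hb := both D (hD.trans hsub) hDe
        have hxD : s(x, y) ∉ D := fun h => n3 (hsub (hD h))
        by_cases hzD : s(x, z) ∈ D
        · right
          have h1 : D ∆ T ⊆ X := by
            intro e he
            rw [mem_symmDiff, mT] at he
            rcases he with ⟨h1, h2⟩ | ⟨h1, h2⟩
            · have := hD h1
              rw [mem_symmDiff, mT] at this
              tauto
            · rcases h1 with h1 | h1 | h1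
              · rw [h1]; exact hxX
              · rw [h1] at h2; exact absurd hzD h2
              · rw [h1] at h2; exact absurd (hb.mp hzD) h2
          have h2 : s(x, y) ∈ D ∆ T := by
            rw [mem_symmDiff, mT]; right; exact ⟨Or.inl rfl, hxD⟩
          rcases hXc.2.2 _ h1 (fam_evenSet.add _ _ hDe hTe) with h3 | h3
          · rw [h3] at h2; simp at h2
          · rw [← h3, symmDiff_symmDiff_cancel_right]
        · left
          have h1 : D ⊆ X := by
            intro e he
            have := hD he
            rw [mem_symmDiff, mT] at this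
            rcases this with h2 | ⟨h2, h3⟩
            · exact h2.1
            · exfalso
              rcases h2 with h2 | h2 | h2
              · rw [h2] at he; exact hxD he
              · rw [h2] at he; exact hzD he
              · rw [h2] at he; exact hzD (hb.mpr he)
          rcases hXc.2.2 _ h1 hDe with h3 | h3
          · exact h3
          · rw [h3] at hxD; exact absurd hxX hxD
    · rw [mem_circ]
      refine ⟨?_, hXc⟩
      intro e he
      rw [mF']
      left
      exact ⟨fun h => hxX (h ▸ he), hXF he⟩
  · intro Y hY
    rw [mem_circ] at hY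
    obtain ⟨hYF, hYc⟩ := hY
    have hb := both Y hYF hYc.1
    have hxY : s(x, y) ∉ Y := fun h => n3 (hYF h)
    split_ifs with hzY
    · rw [mem_circ]
      have hsub : Y ∆ T ⊆ F := by
        intro e he
        rw [mem_symmDiff, mT] at he
        rcases he with ⟨h1, h2⟩ | ⟨h1, h2⟩
        · rcases (mF' e).mp (hYF h1) with h3 | h3 | h3
          · exact h3.2
          · exact absurd (Or.inr (Or.inl h3)) h2
          · exact absurd (Or.inr (Or.inr h3)) h2
        · rcases h1 with h1 | h1 | h1
          · rw [h1]; exact hF
          · rw [h1] at h2; exact absurd hzY h2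
          · rw [h1] at h2; exact absurd (hb.mp hzY) h2
      refine ⟨hsub, fam_evenSet.add _ _ hYc.1 hTe, ?_, ?_⟩
      · refine ⟨s(x, y), ?_⟩
        rw [mem_symmDiff, mT]
        right
        exact ⟨Or.inl rfl, hxY⟩
      · intro D hD hDe
        have hzD : s(x, z) ∉ D := fun h => n1 (hsub (hD h))
        by_cases hxD : s(x, y) ∈ D
        · right
          have h1 : D ∆ T ⊆ Y := by
            intro e he
            rw [mem_symmDiff, mT] at he
            rcases he with ⟨h1, h2⟩ | ⟨h1, h2⟩
            · have := hD h1
              rw [mem_symmDiff, mT] at this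
              tauto
            · rcases h1 with h1 | h1 | h1
              · rw [h1] at h2; exact absurd hxD h2
              · rw [h1]; exact hzY
              · rw [h1]; exact hb.mp hzY
          have h2 : s(x, z) ∈ D ∆ T := by
            rw [mem_symmDiff, mT]; right; exact ⟨Or.inr (Or.inl rfl), hzD⟩
          rcases hYc.2.2 _ h1 (fam_evenSet.add _ _ hDe hTe) with h3 | h3
          · rw [h3] at h2; simp at h2
          · rw [← h3, symmDiff_symmDiff_cancel_right]
        · left
          have h1 : D ⊆ Y := by
            intro e he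
            have := hD he
            rw [mem_symmDiff, mT] at this
            rcases this with h2 | ⟨h2, h3⟩
            · exact h2.1
            · exfalso
              have h4 := hsub (hD he)
              rcases h2 with h2 | h2 | h2
              · rw [h2] at he; exact hxD he
              · rw [h2] at h4; exact n1 h4
              · rw [h2] at h4; exact n2 h4
          rcases hYc.2.2 _ h1 hDe with h3 | h3
          · exact h3
          · rw [h3] at hzD; exact absurd hzY hzD
    · rw [mem_circ]
      refine ⟨?_, hYc⟩
      intro e he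
      rcases (mF' e).mp (hYF he) with h3 | h3 | h3
      · exact h3.2
      · rw [h3] at he; exact absurd he hzY
      · rw [h3] at he; exact absurd (hb.mpr he) hzY
  · intro X hX
    rw [mem_circ] at hX
    by_cases hxX : s(x, y) ∈ X
    · rw [if_pos hxX, if_pos, symmDiff_symmDiff_cancel_right]
      rw [mem_symmDiff, mT]
      right
      exact ⟨Or.inr (Or.inl rfl), fun h => n1 (hX.1 h)⟩
    · rw [if_neg hxX, if_neg]
      exact fun h => n1 (hX.1 h)
  · intro Y hY
    rw [mem_circ] at hY
    have hxY : s(x, y) ∉ Y := fun h => n3 (hY.1 h)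
    by_cases hzY : s(x, z) ∈ Y
    · rw [if_pos hzY, if_pos, symmDiff_symmDiff_cancel_right]
      rw [mem_symmDiff, mT]
      right
      exact ⟨Or.inl rfl, hxY⟩
    · rw [if_neg hzY, if_neg hxY]

/-- the subdivision operation -/
theorem Good.subdivide {S : Finset V} {d d' : V → ℕ} {k : ℕ} (h : Good S d k) (hk : 1 ≤ k)
    {z : V} (hz : z ∉ S) (hd : ∀ v ∈ S, d' v = d v) (hdz : d' z = 2) :
    Good (insert z S) d' k := by
  obtain ⟨F, hok, hdF, hkF⟩ := h
  have hne : (circ EvenSet F).Nonempty := by rw [← card_pos]; omega
  obtain ⟨C, hC⟩ := hne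
  rw [mem_circ] at hC
  obtain ⟨e, he⟩ := hC.2.2.1
  have heF := hC.1 he
  have hend := hok.nd e heF
  induction e using Sym2.ind with
  | _ x y =>
    have hxy : x ≠ y := by simpa using hend
    have hxS : x ∈ S := hok.sup _ heF x (by simp)
    have hyS : y ∈ S := hok.sup _ heF y (by simp)
    have hxz : x ≠ z := by rintro rfl; exact hz hxS
    have hyz : y ≠ z := by rintro rfl; exact hz hyS
    have hz0 := hok.dg_zero hz
    have hzF : ∀ e ∈ F, z ∉ e := by
      intro e he hze
      have := dg_pos.mpr ⟨e, he, hze⟩
      omega
    have e3 : s(x, z) ≠ s(y, z) := by simp [hyz, hxy, hxz]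
    have n1 : s(x, z) ∉ F := fun h => hzF _ h (by simp)
    have n2 : s(y, z) ∉ F := fun h => hzF _ h (by simp)
    have mF' : ∀ e, e ∈ (F.erase s(x, y) ∪ {s(x, z), s(y, z)} : Finset (Sym2 V)) ↔
        (e ≠ s(x, y) ∧ e ∈ F) ∨ e = s(x, z) ∨ e = s(y, z) := by
      intro e; simp only [mem_union, mem_erase, mem_insert, mem_singleton]
    have hdis : Disjoint (F.erase s(x, y)) ({s(x, z), s(y, z)} : Finset (Sym2 V)) := by
      rw [disjoint_left]
      intro e h1 h2
      have h3 := (mem_erase.mp h1).2
      simp only [mem_insert, mem_singleton] at h2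
      rcases h2 with rfl | rfl
      · exact n1 h3
      · exact n2 h3
    have hdg0 : ∀ w, dg F w = dg (F.erase s(x, y)) w + dg ({s(x, y)} : Finset (Sym2 V)) w := by
      intro w
      rw [← dg_union]
      · congr 1
        rw [union_comm, ← insert_eq, insert_erase heF]
      · rw [disjoint_singleton_right]; simp
    refine ⟨F.erase s(x, y) ∪ {s(x, z), s(y, z)}, ⟨?_, ?_, ?_, ?_⟩, ?_, ?_⟩
    · intro e he
      rcases (mF' e).mp he with h1 | h1 | h1
      · exact hok.nd e h1.2
      · rw [h1]; simpa
      · rw [h1]; simpa
    · intro e he w hw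
      rcases (mF' e).mp he with h1 | h1 | h1
      · exact mem_insert_of_mem (hok.sup e h1.2 w hw)
      · rw [h1] at hw
        simp only [Sym2.mem_iff] at hw
        rcases hw with rfl | rfl
        · exact mem_insert_of_mem hxS
        · exact mem_insert_self _ _
      · rw [h1] at hw
        simp only [Sym2.mem_iff] at hw
        rcases hw with rfl | rfl
        · exact mem_insert_of_mem hyS
        · exact mem_insert_self _ _
    · exact ⟨z, mem_insert_self _ _⟩
    · set F' : Finset (Sym2 V) := F.erase s(x, y) ∪ {s(x, z), s(y, z)} with hF'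
      have r1 : (SimpleGraph.fromEdgeSet (F' : Set (Sym2 V))).Reachable x z :=
        reach_of_mem ((mF' _).mpr (Or.inr (Or.inl rfl))) hxz
      have r2 : (SimpleGraph.fromEdgeSet (F' : Set (Sym2 V))).Reachable y z :=
        reach_of_mem ((mF' _).mpr (Or.inr (Or.inr rfl))) hyz
      have step : ∀ a b, (SimpleGraph.fromEdgeSet (F : Set (Sym2 V))).Adj a b →
          (SimpleGraph.fromEdgeSet (F' : Set (Sym2 V))).Reachable a b := by
        intro a b hab
        rw [SimpleGraph.fromEdgeSet_adj] at hab
        have habF : s(a, b) ∈ F := by exact_mod_cast hab.1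
        by_cases h1 : s(a, b) = s(x, y)
        · rw [Sym2.eq_iff] at h1
          rcases h1 with ⟨rfl, rfl⟩ | ⟨rfl, rfl⟩
          · exact r1.trans r2.symm
          · exact r2.trans r1.symm
        · exact reach_of_mem ((mF' _).mpr (Or.inl ⟨h1, habF⟩)) hab.2
      have lift : ∀ a b, (SimpleGraph.fromEdgeSet (F : Set (Sym2 V))).Reachable a b →
          (SimpleGraph.fromEdgeSet (F' : Set (Sym2 V))).Reachable a b := by
        intro a b hab
        obtain ⟨q⟩ := hab
        induction q with
        | nil => exact SimpleGraph.Reachable.refl _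
        | cons hadj _ ih => exact (step _ _ hadj).trans ih
      have key : ∀ a ∈ insert z S,
          (SimpleGraph.fromEdgeSet (F' : Set (Sym2 V))).Reachable a x := by
        intro a ha
        rw [mem_insert] at ha
        rcases ha with rfl | ha
        · exact r1.symm
        · exact lift _ _ (hok.con a ha x hxS)
      intro a ha b hb
      exact (key a ha).trans (key b hb).symm
    · intro w hw
      rw [dg_union hdis]
      rw [mem_insert] at hw
      have hpair : ∀ w, dg ({s(x, z), s(y, z)} : Finset (Sym2 V)) w =
          (if w ∈ s(x, z) then 1 else 0) + (if w ∈ s(y, z) then 1 else 0) := by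
        intro w
        unfold dg
        rw [card_filter, sum_pair e3]
      have hsing : ∀ w, dg ({s(x, y)} : Finset (Sym2 V)) w = (if w ∈ s(x, y) then 1 else 0) := by
        intro w
        unfold dg
        rw [card_filter, sum_singleton]
      rcases hw with rfl | hw
      · have h0 := hdg0 w
        rw [hpair, hdz]
        have h1 : dg (F.erase s(x, y)) w = 0 := by omega
        rw [h1]; simp
      · rw [hd w hw, ← hdF w hw, hdg0 w, hpair, hsing]
        have hwz : w ≠ z := by rintro rfl; exact hz hw
        simp only [Sym2.mem_iff, hwz, or_false]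
        by_cases h1 : w = x
        · subst h1; simp [hxy]
        · by_cases h2 : w = y
          · subst h2; simp [hxy.symm]
          · simp [h1, h2]
    · rw [card_circ_subdiv hxy heF hz0, hkF]

end Pool.Agent.Helper53
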