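import Pool.Agent.Helper53.Peel

/-!
# Sufficiency: the degree conditions produce a graph
-/

open Finset Function
open scoped symmDiff

set_option linter.unusedSectionVars false
set_option linter.unusedSimpArgs false

namespace Pool.Agent.Helper53

variable {V : Type*} [Fintype V] [DecidableEq V]

/-- indicator of `n = 1` -/
def i1 (n : ℕ) : ℕ := if n = 1 then 1 else 0
/-- indicator of `3 ≤ n` -/
def i3 (n : ℕ) : ℕ := if 3 ≤ n then 1 else 0
/-- indicator of odd `n` -/
def io (n : ℕ) : ℕ := n % 2
/-- indicator of even `n ≥ 4` -/
def i4 (n : ℕ) : ℕ := if 3 ≤ n ∧ n % 2 = 0 then 1 else 0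
/-- indicator of `n = 2` -/
def i2 (n : ℕ) : ℕ := if n = 2 then 1 else 0
/-- indicator of `n = 3` -/
def t3 (n : ℕ) : ℕ := if n = 3 then 1 else 0

theorem exists_of_sum_pos {S : Finset V} {f : V → ℕ} (h : 1 ≤ ∑ x ∈ S, f x) :
    ∃ x ∈ S, 1 ≤ f x := by
  by_contra hcon
  push Not at hcon
  have : ∑ x ∈ S, f x = 0 := sum_eq_zero (fun x hx => by have := hcon x hx; omega)
  omega

theorem card_filter_eq_sum {S : Finset V} (d : V → ℕ) (q : ℕ → Prop) [DecidablePred q] :
    (S.filter (fun v => q (d v))).card = ∑ x ∈ S, (if q (d x) then 1 else 0) := by
  rw [card_filter]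

theorem suff : ∀ (n : ℕ) (S : Finset V) (d : V → ℕ) (μ e : ℕ), S.card = n →
    (∀ v ∈ S, 1 ≤ d v) → ∑ x ∈ S, d x + 2 = 2 * (n + μ) → 1 ≤ μ → 2 * e ≤ μ →
    2 * e ≤ ∑ x ∈ S, i3 (d x) → 2 * e ≤ ∑ x ∈ S, io (d x) →
    ∑ x ∈ S, i1 (d x) + 2 * μ + 1 ≤ n + e →
    ∑ x ∈ S, io (d x) + 4 * μ + 2 ≤ 2 * n + 4 * e → Good S d (μ + e) := by
  intro n
  induction n using Nat.strong_induction_on with
  | _ n ih =>
  intro S d μ e hS h1 hsum hμ heμ h3 ho hN1 hN2
  -- notation for the sums
  have hpar : ∃ w, ∑ x ∈ S, d x = ∑ x ∈ S, io (d x) + 2 * w := by
    refine ⟨∑ x ∈ S, d x / 2, ?_⟩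
    rw [mul_sum, ← sum_add_distrib]
    refine sum_congr rfl ?_
    intro x _
    unfold io; omega
  obtain ⟨w, hw⟩ := hpar
  have hid4 : ∑ x ∈ S, i3 (d x) + ∑ x ∈ S, i1 (d x) = ∑ x ∈ S, io (d x) + ∑ x ∈ S, i4 (d x) := by
    rw [← sum_add_distrib, ← sum_add_distrib]
    refine sum_congr rfl ?_
    intro x hx
    have := h1 x hx
    unfold i3 i1 io i4; split_ifs <;> omega
  rcases Nat.eq_zero_or_pos (∑ x ∈ S, i1 (d x)) with hs1 | hs1
  · -- no leaves
    have h2 : ∀ v ∈ S, 2 ≤ d v := by
      intro v hv
      have := (sum_eq_zero_iff.mp hs1) v hv
      have h5 := h1 v hv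
      unfold i1 at this
      split_ifs at this
      omega
    have hA : ∑ x ∈ S, d x + ∑ x ∈ S, io (d x) ≥ 2 * n + 2 * ∑ x ∈ S, i3 (d x) := by
      have : 2 * n = ∑ x ∈ S, 2 := by rw [sum_const, hS]; simp [mul_comm]
      rw [this, mul_sum, ← sum_add_distrib, ← sum_add_distrib]
      refine sum_le_sum ?_
      intro x hx
      have := h2 x hx
      unfold i3 io; split_ifs <;> omega
    have hB : ∑ x ∈ S, i2 (d x) + ∑ x ∈ S, i3 (d x) = n := by
      have : n = ∑ x ∈ S, 1 := by rw [sum_const, hS]; simp
      rw [this, ← sum_add_distrib]
      refine sum_congr rfl ?_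
      intro x hx
      have := h2 x hx
      unfold i3 i2; split_ifs <;> omega
    have hT : ∑ x ∈ S, d x + 2 * ∑ x ∈ S, t3 (d x) ≥ 2 * n + 3 * ∑ x ∈ S, io (d x) := by
      have : 2 * n = ∑ x ∈ S, 2 := by rw [sum_const, hS]; simp [mul_comm]
      rw [this, mul_sum, mul_sum, ← sum_add_distrib, ← sum_add_distrib]
      refine sum_le_sum ?_
      intro x hx
      have := h2 x hx
      unfold t3 io; split_ifs <;> omega
    have c2 : (S.filter (fun v => d v = 2)).card = ∑ x ∈ S, i2 (d x) := by
      rw [card_filter_eq_sum d (fun m => m = 2)]; rfl
    have c3 : (S.filter (fun v => d v = 3)).card = ∑ x ∈ S, t3 (d x) := by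
      rw [card_filter_eq_sum d (fun m => m = 3)]; rfl
    by_cases hcase : 2 * e + 2 ≤ ∑ x ∈ S, io (d x)
    · -- many odd vertices
      by_cases hμe : 2 * e + 1 ≤ μ
      · -- peel a triangle at any vertex of degree at least three
        obtain ⟨v, hv, hv3⟩ := exists_of_sum_pos (S := S) (f := fun x => i3 (d x)) (by omega)
        have hdv : 3 ≤ d v := by
          unfold i3 at hv3; split_ifs at hv3 with h
          · exact h
          · omega
        have h22 : 1 < (S.filter (fun v => d v = 2)).card := by rw [c2]; omega
        obtain ⟨a, ha, b, hb, hab⟩ := one_lt_card.mp h22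
        rw [mem_filter] at ha hb
        have hva : v ≠ a := by rintro rfl; omega
        have hvb : v ≠ b := by rintro rfl; omega
        have e1 := sum_erase2 ha.1 hb.1 hv hva hvb hab d (d v - 2) i1
        have e2 := sum_erase2 ha.1 hb.1 hv hva hvb hab d (d v - 2) i3
        have e3 := sum_erase2 ha.1 hb.1 hv hva hvb hab d (d v - 2) io
        have e4 := sum_erase2 ha.1 hb.1 hv hva hvb hab d (d v - 2) id
        rw [ha.2, hb.2] at e1 e2 e3 e4
        simp only [id] at e4
        have f1 : i1 2 = 0 := rfl
        have f2 : i3 2 = 0 := rfl
        have f3 : io 2 = 0 := rfl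
        have f4 : i1 (d v) = 0 := by unfold i1; split_ifs <;> omega
        have f5 : i1 (d v - 2) ≤ 1 := by unfold i1; split_ifs <;> omega
        have f6 : i3 (d v) = 1 := by unfold i3; split_ifs <;> omega
        have f7 : io (d v - 2) = io (d v) := by unfold io; omega
        have hc : ((S.erase a).erase b).card = n - 2 := by
          rw [card_erase_of_mem (mem_erase.mpr ⟨hab.symm, hb.1⟩), card_erase_of_mem ha.1]; omega
        have hn2 : 2 ≤ n := by
          have := card_le_card (filter_subset (fun v => d v = 2) S)
          omega
        have := ih (n - 2) (by omega) ((S.erase a).erase b) (update d v (d v - 2)) (μ - 1) e hc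
          (by
            intro x hx
            by_cases hxv : x = v
            · rw [hxv]; simp; omega
            · rw [update_of_ne hxv]
              exact h1 x (mem_of_mem_erase (mem_of_mem_erase hx)))
          (by omega) (by omega) (by omega) (by omega) (by omega) (by omega) (by omega)
        have h7 := peel_tri ha.1 hb.1 hv hva hvb hab ha.2 hb.2 (by omega) this
        have e8 : μ - 1 + e + 1 = μ + e := by omega
        rwa [e8] at h7
      · -- peel a diamond, all blocks are thetas
        have h33 : 2 < (S.filter (fun v => d v = 3)).card := by rw [c3]; omega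
        obtain ⟨a, b, v, ha, hb, hv, hab, hav, hbv⟩ := two_lt_card_iff.mp h33
        rw [mem_filter] at ha hb hv
        have h22 : 0 < (S.filter (fun v => d v = 2)).card := by rw [c2]; omega
        obtain ⟨c, hc⟩ := card_pos.mp h22
        rw [mem_filter] at hc
        have hvc : v ≠ c := by rintro rfl; omega
        have hac : a ≠ c := by rintro rfl; omega
        have hbc : b ≠ c := by rintro rfl; omega
        have e1 := sum_erase3 ha.1 hb.1 hc.1 hv.1 hav.symm hbv.symm hvc hab hac hbc d (d v - 2) i1
        have e2 := sum_erase3 ha.1 hb.1 hc.1 hv.1 hav.symm hbv.symm hvc hab hac hbc d (d v - 2) i3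
        have e3 := sum_erase3 ha.1 hb.1 hc.1 hv.1 hav.symm hbv.symm hvc hab hac hbc d (d v - 2) io
        have e4 := sum_erase3 ha.1 hb.1 hc.1 hv.1 hav.symm hbv.symm hvc hab hac hbc d (d v - 2) id
        rw [ha.2, hb.2, hc.2, hv.2] at e1 e2 e3 e4
        simp only [id] at e4
        have f1 : i1 2 = 0 := rfl
        have f2 : i3 2 = 0 := rfl
        have f3 : io 2 = 0 := rfl
        have f4 : i1 3 = 0 := rfl
        have f5 : i3 3 = 1 := rfl
        have f6 : io 3 = 1 := rfl
        have f7 : i1 (3 - 2) = 1 := rfl
        have f8 : i3 (3 - 2) = 0 := rfl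
        have f9 : io (3 - 2) = 1 := rfl
        have hcard : (((S.erase a).erase b).erase c).card = n - 3 := by
          rw [card_erase_of_mem (mem_erase.mpr ⟨hbc.symm, mem_erase.mpr ⟨hac.symm, hc.1⟩⟩),
            card_erase_of_mem (mem_erase.mpr ⟨hab.symm, hb.1⟩), card_erase_of_mem ha.1]; omega
        have hn3 : 3 ≤ n := by
          have := card_le_card (filter_subset (fun v => d v = 3) S)
          omega
        have := ih (n - 3) (by omega) (((S.erase a).erase b).erase c) (update d v (d v - 2))
          (μ - 2) (e - 1) hcard
          (by
            intro x hx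
            by_cases hxv : x = v
            · rw [hxv]; simp; omega
            · rw [update_of_ne hxv]
              exact h1 x (mem_of_mem_erase (mem_of_mem_erase (mem_of_mem_erase hx))))
          (by rw [hv.2]; omega) (by omega) (by omega) (by rw [hv.2]; omega)
          (by rw [hv.2]; omega) (by rw [hv.2]; omega) (by rw [hv.2]; omega)
        have h7 := peel_dia ha.1 hb.1 hc.1 hv.1 hav.symm hbv.symm hvc hab hac hbc ha.2 hb.2 hc.2
          (by omega) this
        have e8 : μ - 2 + (e - 1) + 3 = μ + e := by omega
        rwa [e8] at h7
    · -- exactly 2e odd vertices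
      have hoe : ∑ x ∈ S, io (d x) = 2 * e := by omega
      -- is there a vertex with room?
      by_cases hroom : ∃ v ∈ S, 4 ≤ d v
      · obtain ⟨v, hv, hdv⟩ := hroom
        have hs3v : 1 ≤ ∑ x ∈ S, i3 (d x) := by
          have := single_le_sum (f := fun x => i3 (d x)) (fun _ _ => Nat.zero_le _) hv
          have f6 : i3 (d v) = 1 := by unfold i3; split_ifs <;> omega
          omega
        by_cases hμe : 2 * e + 1 ≤ μ
        · have h22 : 1 < (S.filter (fun v => d v = 2)).card := by rw [c2]; omega
          obtain ⟨a, ha, b, hb, hab⟩ := one_lt_card.mp h22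
          rw [mem_filter] at ha hb
          have hva : v ≠ a := by rintro rfl; omega
          have hvb : v ≠ b := by rintro rfl; omega
          have e1 := sum_erase2 ha.1 hb.1 hv hva hvb hab d (d v - 2) i1
          have e2 := sum_erase2 ha.1 hb.1 hv hva hvb hab d (d v - 2) i3
          have e3 := sum_erase2 ha.1 hb.1 hv hva hvb hab d (d v - 2) io
          have e4 := sum_erase2 ha.1 hb.1 hv hva hvb hab d (d v - 2) id
          rw [ha.2, hb.2] at e1 e2 e3 e4
          simp only [id] at e4
          have f1 : i1 2 = 0 := rfl
          have f2 : i3 2 = 0 := rfl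
          have f3 : io 2 = 0 := rfl
          have f4 : i1 (d v) = 0 := by unfold i1; split_ifs <;> omega
          have f5 : i1 (d v - 2) = 0 := by unfold i1; split_ifs <;> omega
          have f6 : i3 (d v) = 1 := by unfold i3; split_ifs <;> omega
          have f7 : io (d v - 2) = io (d v) := by unfold io; omega
          have hc : ((S.erase a).erase b).card = n - 2 := by
            rw [card_erase_of_mem (mem_erase.mpr ⟨hab.symm, hb.1⟩), card_erase_of_mem ha.1]; omega
          have hn2 : 2 ≤ n := by
            have := card_le_card (filter_subset (fun v => d v = 2) S)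
            omega
          have hpos : ∀ x ∈ (S.erase a).erase b, 1 ≤ update d v (d v - 2) x := by
            intro x hx
            by_cases hxv : x = v
            · rw [hxv]; simp; omega
            · rw [update_of_ne hxv]
              exact h1 x (mem_of_mem_erase (mem_of_mem_erase hx))
          have hso : ∑ x ∈ (S.erase a).erase b, io (update d v (d v - 2) x) ≤
              ∑ x ∈ (S.erase a).erase b, i1 (update d v (d v - 2) x) +
              ∑ x ∈ (S.erase a).erase b, i3 (update d v (d v - 2) x) := by
            rw [← sum_add_distrib]
            refine sum_le_sum ?_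
            intro x hx
            have := hpos x hx
            unfold io i1 i3; split_ifs <;> omega
          have := ih (n - 2) (by omega) ((S.erase a).erase b) (update d v (d v - 2)) (μ - 1) e hc
            hpos (by omega) (by omega) (by omega) (by omega) (by omega) (by omega) (by omega)
          have h7 := peel_tri ha.1 hb.1 hv hva hvb hab ha.2 hb.2 (by omega) this
          have e8 : μ - 1 + e + 1 = μ + e := by omega
          rwa [e8] at h7
        · have h33 : 1 < (S.filter (fun v => d v = 3)).card := by rw [c3]; omega
          obtain ⟨a, ha, b, hb, hab⟩ := one_lt_card.mp h33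
          rw [mem_filter] at ha hb
          have h22 : 0 < (S.filter (fun v => d v = 2)).card := by rw [c2]; omega
          obtain ⟨c, hc⟩ := card_pos.mp h22
          rw [mem_filter] at hc
          have hva : v ≠ a := by rintro rfl; omega
          have hvb : v ≠ b := by rintro rfl; omega
          have hvc : v ≠ c := by rintro rfl; omega
          have hac : a ≠ c := by rintro rfl; omega
          have hbc : b ≠ c := by rintro rfl; omega
          have e1 := sum_erase3 ha.1 hb.1 hc.1 hv hva hvb hvc hab hac hbc d (d v - 2) i1
          have e2 := sum_erase3 ha.1 hb.1 hc.1 hv hva hvb hvc hab hac hbc d (d v - 2) i3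
          have e3 := sum_erase3 ha.1 hb.1 hc.1 hv hva hvb hvc hab hac hbc d (d v - 2) io
          have e4 := sum_erase3 ha.1 hb.1 hc.1 hv hva hvb hvc hab hac hbc d (d v - 2) id
          rw [ha.2, hb.2, hc.2] at e1 e2 e3 e4
          simp only [id] at e4
          have f1 : i1 2 = 0 := rfl
          have f2 : i3 2 = 0 := rfl
          have f3 : io 2 = 0 := rfl
          have f4 : i1 3 = 0 := rfl
          have f5 : i3 3 = 1 := rfl
          have f6 : io 3 = 1 := rfl
          have f7 : i1 (d v) = 0 := by unfold i1; split_ifs <;> omega
          have f8 : i1 (d v - 2) = 0 := by unfold i1; split_ifs <;> omega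
          have f9 : i3 (d v) = 1 := by unfold i3; split_ifs <;> omega
          have f10 : io (d v - 2) = io (d v) := by unfold io; omega
          have hcard : (((S.erase a).erase b).erase c).card = n - 3 := by
            rw [card_erase_of_mem (mem_erase.mpr ⟨hbc.symm, mem_erase.mpr ⟨hac.symm, hc.1⟩⟩),
              card_erase_of_mem (mem_erase.mpr ⟨hab.symm, hb.1⟩), card_erase_of_mem ha.1]; omega
          have hn3 : 3 ≤ n := by omega
          have hpos : ∀ x ∈ ((S.erase a).erase b).erase c, 1 ≤ update d v (d v - 2) x := by
            intro x hx
            by_cases hxv : x = v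
            · rw [hxv]; simp; omega
            · rw [update_of_ne hxv]
              exact h1 x (mem_of_mem_erase (mem_of_mem_erase (mem_of_mem_erase hx)))
          have hso : ∑ x ∈ ((S.erase a).erase b).erase c, io (update d v (d v - 2) x) ≤
              ∑ x ∈ ((S.erase a).erase b).erase c, i1 (update d v (d v - 2) x) +
              ∑ x ∈ ((S.erase a).erase b).erase c, i3 (update d v (d v - 2) x) := by
            rw [← sum_add_distrib]
            refine sum_le_sum ?_
            intro x hx
            have := hpos x hx
            unfold io i1 i3; split_ifs <;> omega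
          -- e ≥ 2
          have he2 : 2 ≤ e := by
            by_contra hlt
            have he1 : e = 1 := by omega
            -- sum = 2n + 2 but v has degree ≥ 4 and there are two odd vertices
            have e5 := sum_erase2 ha.1 hb.1 hv hva hvb hab d (d v) id
            rw [ha.2, hb.2] at e5
            simp only [id, update_eq_self] at e5
            have h8 : ∑ x ∈ (S.erase a).erase b, d x ≥ 2 * (n - 2) + 2 := by
              have hvm : v ∈ (S.erase a).erase b := mem_erase.mpr ⟨hvb, mem_erase.mpr ⟨hva, hv⟩⟩
              rw [← add_sum_erase _ _ hvm]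
              have h9 : ∑ x ∈ ((S.erase a).erase b).erase v, d x ≥
                  ∑ x ∈ ((S.erase a).erase b).erase v, 2 := by
                refine sum_le_sum ?_
                intro x hx
                exact h2 x (mem_of_mem_erase (mem_of_mem_erase (mem_of_mem_erase hx)))
              rw [sum_const, card_erase_of_mem hvm,
                card_erase_of_mem (mem_erase.mpr ⟨hab.symm, hb.1⟩), card_erase_of_mem ha.1] at h9
              simp only [smul_eq_mul] at h9
              omega
            omega
          have := ih (n - 3) (by omega) (((S.erase a).erase b).erase c) (update d v (d v - 2))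
            (μ - 2) (e - 1) hcard hpos
            (by omega) (by omega) (by omega) (by omega) (by omega) (by omega) (by omega)
          have h7 := peel_dia ha.1 hb.1 hc.1 hv hva hvb hvc hab hac hbc ha.2 hb.2 hc.2
            (by omega) this
          have e8 : μ - 2 + (e - 1) + 3 = μ + e := by omega
          rwa [e8] at h7
      · push Not at hroom
        have hB2 : ∑ x ∈ S, d x = 2 * n + ∑ x ∈ S, io (d x) := by
          have : 2 * n = ∑ x ∈ S, 2 := by rw [sum_const, hS]; simp [mul_comm]
          rw [this, ← sum_add_distrib]
          refine sum_congr rfl ?_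
          intro x hx
          have := h2 x hx
          have := hroom x hx
          unfold io; omega
        rcases Nat.eq_zero_or_pos e with he0 | he0
        · -- a cycle
          have h22 : ∀ v ∈ S, d v = 2 := by
            intro v hv
            have h5 : ∑ x ∈ S, io (d x) = 0 := by omega
            have h6 := (sum_eq_zero_iff.mp h5) v hv
            have := h2 v hv
            have := hroom v hv
            unfold io at h6
            omega
          have hμ1 : μ = 1 := by omega
          have := good_cycle d (n - 3) S (by omega) h22
          rw [hμ1, he0]; exact this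
        · -- a theta graph
          have he1 : e = 1 := by omega
          have hμ2 : μ = 2 := by omega
          have ht : ∑ x ∈ S, t3 (d x) = 2 := by
            have : ∑ x ∈ S, t3 (d x) = ∑ x ∈ S, io (d x) := by
              refine sum_congr rfl ?_
              intro x hx
              have := h2 x hx
              have := hroom x hx
              unfold t3 io; split_ifs <;> omega
            omega
          rw [← c3] at ht
          obtain ⟨a, b, hab, hab'⟩ := card_eq_two.mp ht
          have ha : a ∈ S.filter (fun v => d v = 3) := by rw [hab']; simp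
          have hb : b ∈ S.filter (fun v => d v = 3) := by rw [hab']; simp
          rw [mem_filter] at ha hb
          have := good_theta d hab ha.2 hb.2 (n - 4) S (by omega) ha.1 hb.1 (by
            intro v hv hva hvb
            have h5 := h2 v hv
            have h6 := hroom v hv
            by_contra hne
            have h7 : v ∈ S.filter (fun v => d v = 3) := mem_filter.mpr ⟨hv, by omega⟩
            rw [hab'] at h7
            simp only [mem_insert, mem_singleton] at h7
            tauto)
          rw [hμ2, he1]; exact this
  · -- there is a leaf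
    obtain ⟨a, ha, ha1⟩ := exists_of_sum_pos (S := S) (f := fun x => i1 (d x)) hs1
    have hda : d a = 1 := by
      unfold i1 at ha1; split_ifs at ha1 with h
      · exact h
      · omega
    have hC : ∑ x ∈ S, d x + ∑ x ∈ S, i1 (d x) = 2 * n + ∑ x ∈ S, (d x - 2) := by
      have : 2 * n = ∑ x ∈ S, 2 := by rw [sum_const, hS]; simp [mul_comm]
      rw [this, ← sum_add_distrib, ← sum_add_distrib]
      refine sum_congr rfl ?_
      intro x hx
      have := h1 x hx
      unfold i1; split_ifs <;> omega
    by_cases hH : (∃ v ∈ S, Odd (d v) ∧ 3 ≤ d v ∧ (5 ≤ d v ∨ 2 * e + 1 ≤ ∑ x ∈ S, i3 (d x))) ∧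
        2 * e + 2 ≤ ∑ x ∈ S, io (d x)
    · obtain ⟨⟨v, hv, hvo, hv3, hv5⟩, ho2⟩ := hH
      have hva : v ≠ a := by rintro rfl; omega
      have e1 := sum_erase1 ha hv hva d (d v - 1) i1
      have e2 := sum_erase1 ha hv hva d (d v - 1) i3
      have e3 := sum_erase1 ha hv hva d (d v - 1) io
      have e4 := sum_erase1 ha hv hva d (d v - 1) id
      rw [hda] at e1 e2 e3 e4
      simp only [id] at e4
      have hvo' := Nat.odd_iff.mp hvo
      have f1 : i1 1 = 1 := rfl
      have f2 : i3 1 = 0 := rfl
      have f3 : io 1 = 1 := rfl
      have f4 : i1 (d v) = 0 := by unfold i1; split_ifs <;> omega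
      have f5 : i1 (d v - 1) = 0 := by unfold i1; split_ifs <;> omega
      have f6 : i3 (d v) = 1 := by unfold i3; split_ifs <;> omega
      have f7 : io (d v) = 1 := by unfold io; omega
      have f8 : io (d v - 1) = 0 := by unfold io; omega
      have f9 : 5 ≤ d v → i3 (d v - 1) = 1 := by intro h; unfold i3; split_ifs <;> omega
      have hc : (S.erase a).card = n - 1 := by rw [card_erase_of_mem ha, hS]
      have hn1 : 1 ≤ n := by rw [← hS]; exact card_pos.mpr ⟨a, ha⟩
      have h33 : 2 * e ≤ ∑ x ∈ S.erase a, i3 (update d v (d v - 1) x) := by
        rcases hv5 with h | h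
        · have := f9 h; omega
        · omega
      have := ih (n - 1) (by omega) (S.erase a) (update d v (d v - 1)) μ e hc
        (by
          intro x hx
          by_cases hxv : x = v
          · rw [hxv]; simp; omega
          · rw [update_of_ne hxv]; exact h1 x (mem_of_mem_erase hx))
        (by omega) hμ heμ h33 (by omega) (by omega) (by omega)
      exact peel_leaf ha hv hva hda (by omega) this
    · -- then there is an even vertex of degree at least four, and slack
      have hkey : 1 ≤ ∑ x ∈ S, i4 (d x) ∧ ∑ x ∈ S, io (d x) + 4 * μ + 4 ≤ 2 * n + 4 * e := by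
        by_cases ho2 : 2 * e + 2 ≤ ∑ x ∈ S, io (d x)
        · have hno : ∀ v ∈ S, Odd (d v) → 3 ≤ d v →
              d v < 5 ∧ ∑ x ∈ S, i3 (d x) ≤ 2 * e := by
            intro v hv hvo hv3
            by_contra hcon
            apply hH
            refine ⟨⟨v, hv, hvo, hv3, ?_⟩, ho2⟩
            by_contra h5
            rw [not_or] at h5
            apply hcon
            omega
          by_cases hex : ∃ v ∈ S, Odd (d v) ∧ 3 ≤ d v
          · obtain ⟨v, hv, hvo, hv3⟩ := hex
            have h5 := (hno v hv hvo hv3).2
            have hsl : ∑ x ∈ S, io (d x) + 4 * μ + 4 ≤ 2 * n + 4 * e := by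
              by_contra hlt
              omega
            refine ⟨?_, hsl⟩
            by_contra h4
            have h40 : ∑ x ∈ S, i4 (d x) = 0 := by omega
            have hD : ∑ x ∈ S, d x + ∑ x ∈ S, i1 (d x) = 2 * n + ∑ x ∈ S, i3 (d x) := by
              rw [hC]
              congr 1
              refine sum_congr rfl ?_
              intro x hx
              have g1 := (sum_eq_zero_iff.mp h40) x hx
              have g2 := hno x hx
              unfold i4 at g1
              unfold i3
              rcases Nat.even_or_odd (d x) with hev | hod
              · have := Nat.even_iff.mp hev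
                split_ifs at g1 ⊢ <;> omega
              · by_cases g3 : 3 ≤ d x
                · have := (g2 hod g3).1
                  have := Nat.odd_iff.mp hod
                  split_ifs <;> omega
                · split_ifs <;> omega
            have hi3 : 1 ≤ ∑ x ∈ S, i3 (d x) := by
              have := single_le_sum (f := fun x => i3 (d x)) (fun _ _ => Nat.zero_le _) hv
              have f6 : i3 (d v) = 1 := by unfold i3; split_ifs <;> omega
              omega
            omega
          · push Not at hex
            have hio : ∑ x ∈ S, io (d x) = ∑ x ∈ S, i1 (d x) := by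
              refine sum_congr rfl ?_
              intro x hx
              have g2 := hex x hx
              have g3 := h1 x hx
              unfold io i1
              rcases Nat.even_or_odd (d x) with hev | hod
              · have := Nat.even_iff.mp hev
                split_ifs <;> omega
              · have := g2 hod
                have := Nat.odd_iff.mp hod
                split_ifs <;> omega
            refine ⟨?_, by omega⟩
            by_contra h4
            have h40 : ∑ x ∈ S, i4 (d x) = 0 := by omega
            have hD : ∑ x ∈ S, (d x - 2) = 0 := by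
              refine sum_eq_zero ?_
              intro x hx
              have g1 := (sum_eq_zero_iff.mp h40) x hx
              have g2 := hex x hx
              unfold i4 at g1
              rcases Nat.even_or_odd (d x) with hev | hod
              · have := Nat.even_iff.mp hev
                split_ifs at g1 <;> omega
              · have := g2 hod
                omega
            omega
        · omega
      obtain ⟨hk4, hsl⟩ := hkey
      obtain ⟨v, hv, hv4⟩ := exists_of_sum_pos (S := S) (f := fun x => i4 (d x)) hk4
      have hdv : 3 ≤ d v ∧ d v % 2 = 0 := by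
        unfold i4 at hv4; split_ifs at hv4 with h
        · exact h
        · omega
      have hva : v ≠ a := by rintro rfl; omega
      have e1 := sum_erase1 ha hv hva d (d v - 1) i1
      have e2 := sum_erase1 ha hv hva d (d v - 1) i3
      have e3 := sum_erase1 ha hv hva d (d v - 1) io
      have e4 := sum_erase1 ha hv hva d (d v - 1) id
      rw [hda] at e1 e2 e3 e4
      simp only [id] at e4
      have f1 : i1 1 = 1 := rfl
      have f2 : i3 1 = 0 := rfl
      have f3 : io 1 = 1 := rfl
      have f4 : i1 (d v) = 0 := by unfold i1; split_ifs <;> omega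
      have f5 : i1 (d v - 1) = 0 := by unfold i1; split_ifs <;> omega
      have f6 : i3 (d v) = 1 := by unfold i3; split_ifs <;> omega
      have f7 : io (d v) = 0 := by unfold io; omega
      have f8 : io (d v - 1) = 1 := by unfold io; omega
      have f9 : i3 (d v - 1) = 1 := by unfold i3; split_ifs <;> omega
      have hc : (S.erase a).card = n - 1 := by rw [card_erase_of_mem ha, hS]
      have hn1 : 1 ≤ n := by rw [← hS]; exact card_pos.mpr ⟨a, ha⟩
      have := ih (n - 1) (by omega) (S.erase a) (update d v (d v - 1)) μ e hc
        (by
          intro x hx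
          by_cases hxv : x = v
          · rw [hxv]; simp; omega
          · rw [update_of_ne hxv]; exact h1 x (mem_of_mem_erase hx))
        (by omega) hμ heμ (by omega) (by omega) (by omega) (by omega)
      exact peel_leaf ha hv hva hda (by omega) this

end Pool.Agent.Helper53
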