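import Pool.Agent.Helper53.Kernel

/-!
# Suppressing vertices of degree two
-/

open Finset Function
open scoped symmDiff

set_option linter.unusedSectionVars false
set_option linter.unusedSimpArgs false

namespace Pool.Agent.Helper53

variable {V : Type*} [Fintype V] [DecidableEq V]

theorem star_eq {F : Finset (Sym2 V)} {z x y : V} (hxz : s(x, z) ∈ F) (hyz : s(y, z) ∈ F)
    (hxy : x ≠ y) (hdz : dg F z = 2) : F.filter (fun e => z ∈ e) = {s(x, z), s(y, z)} := by
  symm
  apply eq_of_subset_of_card_le
  · intro e he
    simp only [mem_insert, mem_singleton] at he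
    rw [mem_filter]
    rcases he with rfl | rfl
    · exact ⟨hxz, by simp⟩
    · exact ⟨hyz, by simp⟩
  · have hne : s(x, z) ≠ s(y, z) := by
      intro h
      rw [Sym2.eq_iff] at h
      rcases h with h | h
      · exact hxy h.1
      · exact hxy (h.1.trans h.2)
    rw [card_pair hne]
    unfold dg at hdz; omega

theorem exists_nbrs {S : Finset V} {F : Finset (Sym2 V)} (hok : Ok S F) {z : V}
    (hdz : dg F z = 2) : ∃ x y, x ≠ y ∧ x ≠ z ∧ y ≠ z ∧ s(x, z) ∈ F ∧ s(y, z) ∈ F := by
  unfold dg at hdz
  obtain ⟨e, f, hef, heq⟩ := card_eq_two.mp hdz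
  have he : e ∈ F.filter (fun e => z ∈ e) := by rw [heq]; simp
  have hf : f ∈ F.filter (fun e => z ∈ e) := by rw [heq]; simp
  rw [mem_filter] at he hf
  obtain ⟨x, rfl⟩ := Sym2.mem_iff_exists.mp he.2
  obtain ⟨y, rfl⟩ := Sym2.mem_iff_exists.mp hf.2
  refine ⟨x, y, ?_, ?_, ?_, by rw [Sym2.eq_swap]; exact he.1, by rw [Sym2.eq_swap]; exact hf.1⟩
  · rintro rfl; exact hef rfl
  · rintro rfl; exact hok.nd _ he.1 (by simp)
  · rintro rfl; exact hok.nd _ hf.1 (by simp)

theorem suppress {S : Finset V} {F : Finset (Sym2 V)} (hok : Ok S F) {z x y : V}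
    (hxz : s(x, z) ∈ F) (hyz : s(y, z) ∈ F) (hxy : x ≠ y) (hdz : dg F z = 2)
    (hn : s(x, y) ∉ F) :
    ∃ F', Ok (S.erase z) F' ∧ (∀ w, w ≠ z → dg F' w = dg F w) ∧
      (circ EvenSet F').card = (circ EvenSet F).card := by
  classical
  have hstar := star_eq hxz hyz hxy hdz
  have hxz' : x ≠ z := by rintro rfl; exact hok.nd _ hxz (by simp)
  have hyz' : y ≠ z := by rintro rfl; exact hok.nd _ hyz (by simp)
  have hxS : x ∈ S := hok.sup _ hxz x (by simp)
  have hyS : y ∈ S := hok.sup _ hyz y (by simp)
  set F0 : Finset (Sym2 V) := F \ {s(x, z), s(y, z)} with hF0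
  have hzF0 : ∀ e ∈ F0, z ∉ e := by
    intro e he hze
    rw [hF0, mem_sdiff] at he
    apply he.2
    rw [← hstar, mem_filter]
    exact ⟨he.1, hze⟩
  set F' : Finset (Sym2 V) := insert s(x, y) F0 with hF'
  have hzF' : ∀ e ∈ F', z ∉ e := by
    intro e he hze
    rw [hF', mem_insert] at he
    rcases he with rfl | he
    · rw [Sym2.mem_iff] at hze
      rcases hze with h | h
      · exact hxz' h.symm
      · exact hyz' h.symm
    · exact hzF0 e he hze
  have hnF0 : s(x, y) ∉ F0 := fun h => hn (mem_sdiff.mp h).1
  have hpairF : ({s(x, z), s(y, z)} : Finset (Sym2 V)) ⊆ F := by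
    intro e he
    simp only [mem_insert, mem_singleton] at he
    rcases he with rfl | rfl
    · exact hxz
    · exact hyz
  have hFeq : F'.erase s(x, y) ∪ {s(x, z), s(y, z)} = F := by
    rw [hF', erase_insert hnF0, hF0, sdiff_union_of_subset hpairF]
  have hdis : Disjoint F0 ({s(x, z), s(y, z)} : Finset (Sym2 V)) := sdiff_disjoint
  have e3 : s(x, z) ≠ s(y, z) := by simp [hyz', hxy, hxz']
  have hFF : F = F0 ∪ {s(x, z), s(y, z)} := by rw [hF0, sdiff_union_of_subset hpairF]
  have hF'' : F' = F0 ∪ {s(x, y)} := by rw [hF', union_comm]; rfl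
  have hdis' : Disjoint F0 ({s(x, y)} : Finset (Sym2 V)) := by
    rw [disjoint_singleton_right]; exact hnF0
  refine ⟨F', ⟨?_, ?_, ⟨x, mem_erase.mpr ⟨hxz', hxS⟩⟩, ?_⟩, ?_, ?_⟩
  · intro e he
    rw [hF', mem_insert] at he
    rcases he with rfl | he
    · simpa using hxy
    · exact hok.nd e (mem_sdiff.mp he).1
  · intro e he w hw
    rw [mem_erase]
    refine ⟨fun h => hzF' e he (h ▸ hw), ?_⟩
    rw [hF', mem_insert] at he
    rcases he with rfl | he
    · rw [Sym2.mem_iff] at hw
      rcases hw with rfl | rfl
      · exact hxS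
      · exact hyS
    · exact hok.sup e (mem_sdiff.mp he).1 w hw
  · -- connectivity
    have hxyr : (SimpleGraph.fromEdgeSet (F' : Set (Sym2 V))).Reachable x y :=
      reach_of_mem (by rw [hF']; exact mem_insert_self _ _) hxy
    have key : ∀ a b, (SimpleGraph.fromEdgeSet (F : Set (Sym2 V))).Reachable a b →
        (SimpleGraph.fromEdgeSet (F' : Set (Sym2 V))).Reachable
          (if a = z then x else a) (if b = z then x else b) := by
      rintro a b ⟨q⟩
      induction q with
      | nil => exact SimpleGraph.Reachable.refl _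
      | @cons a b c hadj _ ih =>
        refine SimpleGraph.Reachable.trans ?_ ih
        rw [SimpleGraph.fromEdgeSet_adj] at hadj
        have hab : s(a, b) ∈ F := by exact_mod_cast hadj.1
        have hne := hadj.2
        by_cases haz : a = z
        · have hbz : b ≠ z := fun h => hne (haz.trans h.symm)
          have : s(a, b) ∈ F.filter (fun e => z ∈ e) :=
            mem_filter.mpr ⟨hab, by rw [haz]; simp⟩
          rw [hstar, mem_insert, mem_singleton, haz] at this
          rw [if_pos haz, if_neg hbz]
          rcases this with h | h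
          · rw [Sym2.eq_iff] at h
            rcases h with h | h
            · exact absurd h.1.symm hxz'
            · rw [h.2]
          · rw [Sym2.eq_iff] at h
            rcases h with h | h
            · exact absurd h.1.symm hyz'
            · rw [h.2]; exact hxyr
        · rw [if_neg haz]
          by_cases hbz : b = z
          · have : s(a, b) ∈ F.filter (fun e => z ∈ e) :=
              mem_filter.mpr ⟨hab, by rw [hbz]; simp⟩
            rw [hstar, mem_insert, mem_singleton, hbz] at this
            rw [if_pos hbz]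
            rcases this with h | h
            · rw [Sym2.eq_iff] at h
              rcases h with h | h
              · rw [h.1]
              · exact absurd h.1 haz
            · rw [Sym2.eq_iff] at h
              rcases h with h | h
              · rw [h.1]; exact hxyr.symm
              · exact absurd h.1 haz
          · rw [if_neg hbz]
            apply reach_of_mem _ hne
            rw [hF', mem_insert, hF0, mem_sdiff]
            right
            refine ⟨hab, ?_⟩
            intro h
            simp only [mem_insert, mem_singleton, Sym2.eq_iff] at h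
            rcases h with (h | h) | (h | h)
            · exact hbz h.2
            · exact haz h.1
            · exact hbz h.2
            · exact haz h.1
    intro a ha b hb
    rw [mem_erase] at ha hb
    have := key a b (hok.con a ha.2 b hb.2)
    rwa [if_neg ha.1, if_neg hb.1] at this
  · intro w hw
    have hpair : dg ({s(x, z), s(y, z)} : Finset (Sym2 V)) w =
        (if w ∈ s(x, z) then 1 else 0) + (if w ∈ s(y, z) then 1 else 0) := by
      unfold dg
      rw [card_filter, sum_pair e3]
    have hsing : dg ({s(x, y)} : Finset (Sym2 V)) w = (if w ∈ s(x, y) then 1 else 0) := by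
      unfold dg
      rw [card_filter, sum_singleton]
    rw [hF'', dg_union hdis']
    conv_rhs => rw [hFF]
    rw [dg_union hdis, hpair, hsing]
    simp only [Sym2.mem_iff, hw, or_false]
    by_cases h1 : w = x
    · subst h1; simp [hxy]
    · by_cases h2 : w = y
      · subst h2; simp [hxy.symm]
      · simp [h1, h2]
  · have hz0 : dg F' z = 0 := by
      by_contra hne
      obtain ⟨e, he, hze⟩ := dg_pos.mp (Nat.pos_of_ne_zero hne)
      exact hzF' e he hze
    have := card_circ_subdiv hxy (by rw [hF']; exact mem_insert_self _ _) hz0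
    rw [hFeq] at this
    exact this.symm

/-- even sets with private elements bound the rank from below -/
theorem card_le_mu {α : Type*} [DecidableEq α] {P : Finset α → Prop} (h : Fam P)
    (f : Finset α → α) : ∀ (T : Finset (Finset α)) (F : Finset α),
    (∀ t ∈ T, t ⊆ F ∧ P t ∧ f t ∈ t ∧ ∀ t' ∈ T, t' ≠ t → f t ∉ t') → T.card ≤ mu P F := by
  intro T
  induction T using Finset.induction_on with
  | empty => intro F _; simp
  | insert t0 T ht0 ih =>
    intro F hF
    rw [card_insert_of_notMem ht0]
    obtain ⟨a1, a2, a3, a4⟩ := hF t0 (mem_insert_self _ _)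
    have hcyc : f t0 ∈ cyc P F := by
      obtain ⟨C, c1, c2, c3⟩ := h.circuit a2 a3
      exact mem_cyc.mpr ⟨C, c1.trans a1, c2, c3⟩
    have h1 := mu_erase h hcyc
    have h2 := ih (F.erase (f t0)) ?_
    · omega
    · intro t ht
      have hne : t ≠ t0 := by rintro rfl; exact ht0 ht
      obtain ⟨b1, b2, b3, b4⟩ := hF t (mem_insert_of_mem ht)
      refine ⟨?_, b2, b3, fun t' ht' hne' => b4 t' (mem_insert_of_mem ht') hne'⟩
      intro e he
      rw [mem_erase]
      refine ⟨?_, b1 he⟩
      rintro rfl
      exact a4 t (mem_insert_of_mem ht) hne he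

/-- if all vertices of degree two outside `A` lie in triangles, there are at most twice the rank
many of them -/
theorem card_le_of_triangles {A O : Finset V} {F : Finset (Sym2 V)} (hok : Ok (A ∪ O) F)
    (hA : A.Nonempty) (hdis : Disjoint A O) (hO : ∀ v ∈ O, dg F v = 2)
    (htri : ∀ v ∈ O, ∀ x y, x ≠ y → s(x, v) ∈ F → s(y, v) ∈ F → s(x, y) ∈ F) :
    O.card ≤ 2 * mu EvenSet F := by
  classical
  have hex : ∀ v ∈ O, ∃ x y, x ≠ y ∧ x ≠ v ∧ y ≠ v ∧ s(x, v) ∈ F ∧ s(y, v) ∈ F :=
    fun v hv => exists_nbrs hok (hO v hv)
  choose! X Y hXY hXv hYv hXF hYF using hex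
  set T : V → Finset (Sym2 V) := fun v => {s(v, X v), s(v, Y v), s(X v, Y v)} with hT
  have hTF : ∀ v ∈ O, T v ⊆ F := by
    intro v hv e he
    simp only [hT, mem_insert, mem_singleton] at he
    rcases he with rfl | rfl | rfl
    · rw [Sym2.eq_swap]; exact hXF v hv
    · rw [Sym2.eq_swap]; exact hYF v hv
    · exact htri v hv _ _ (hXY v hv) (hXF v hv) (hYF v hv)
  have hTe : ∀ v ∈ O, EvenSet (T v) := by
    intro v hv
    have := evenSet_triangle (hXv v hv).symm (hYv v hv).symm (hXY v hv)
    exact this
  have hTc : ∀ v ∈ O, (T v).card = 3 := by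
    intro v hv
    have n1 : s(v, X v) ≠ s(v, Y v) := by
      intro h; rw [Sym2.congr_right] at h; exact hXY v hv h
    have n2 : s(v, X v) ≠ s(X v, Y v) := by
      intro h
      rw [Sym2.eq_swap, Sym2.congr_right] at h
      exact hYv v hv h.symm
    have n3 : s(v, Y v) ≠ s(X v, Y v) := by
      intro h
      rw [Sym2.congr_left] at h
      exact hXv v hv h.symm
    simp only [hT]
    rw [card_insert_of_notMem, card_pair n3]
    simp only [mem_insert, mem_singleton, not_or]
    exact ⟨n1, n2⟩
  have hstar : ∀ v ∈ O, F.filter (fun e => v ∈ e) = {s(X v, v), s(Y v, v)} :=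
    fun v hv => star_eq (hXF v hv) (hYF v hv) (hXY v hv) (hO v hv)
  -- two triangles sharing an edge at a vertex of O agree
  have hsame : ∀ v ∈ O, ∀ w ∈ O, s(v, X v) ∈ T w → T w = T v := by
    intro v hv w hw hmem
    have h1 : 0 < dg (T w) v := dg_pos.mpr ⟨_, hmem, by simp⟩
    have h2 := (hTe w hw).2 v
    have h3 : dg (T w) v ≤ 2 := by rw [← hO v hv]; exact dg_mono (hTF w hw) v
    have h4 : dg (T w) v = 2 := by
      rcases h2 with ⟨r, hr⟩; omega
    have h5 : (T w).filter (fun e => v ∈ e) = F.filter (fun e => v ∈ e) := by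
      apply eq_of_subset_of_card_le
      · exact filter_subset_filter _ (hTF w hw)
      · have := hO v hv
        unfold dg at h4 this
        omega
    have h6 : s(v, Y v) ∈ T w := by
      have : s(Y v, v) ∈ (T w).filter (fun e => v ∈ e) := by
        rw [h5, hstar v hv]; simp
      rw [Sym2.eq_swap]; exact (mem_filter.mp this).1
    have h7 : ({s(v, X v), s(v, Y v)} : Finset (Sym2 V)) ⊆ T w ∩ T v := by
      intro e he
      simp only [mem_insert, mem_singleton] at he
      rw [mem_inter]
      rcases he with rfl | rfl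
      · exact ⟨hmem, by simp [hT]⟩
      · exact ⟨h6, by simp [hT]⟩
    have h8 := card_le_card h7
    have n1 : s(v, X v) ≠ s(v, Y v) := by
      intro h; rw [Sym2.congr_right] at h; exact hXY v hv h
    rw [card_pair n1] at h8
    have h9 := card_symmDiff_add (T w) (T v)
    rw [hTc v hv, hTc w hw] at h9
    have h10 : EvenSet (T w ∆ T v) := fam_evenSet.add _ _ (hTe w hw) (hTe v hv)
    by_contra hne
    have h11 : (T w ∆ T v).Nonempty := by
      rw [nonempty_iff_ne_empty]
      intro h12
      exact hne (symmDiff_eq_bot.mp h12)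
    obtain ⟨e, he⟩ := h11
    obtain ⟨C, c1, c2, _⟩ := fam_evenSet.circuit h10 he
    have := three_le_of_circuit c2
    have := card_le_card c1
    omega
  have hcirc : ∀ v ∈ O, IsC EvenSet (T v) := by
    intro v hv
    obtain ⟨C, c1, c2, _⟩ := fam_evenSet.circuit (hTe v hv)
      (show s(v, X v) ∈ T v by simp [hT])
    have h1 := three_le_of_circuit c2
    have h2 : C = T v := eq_of_subset_of_card_le c1 (by rw [hTc v hv]; exact h1)
    rw [← h2]; exact c2
  -- fibres
  have hfib : ∀ t ∈ O.image T, (O.filter (fun v => T v = t)).card ≤ 2 := by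
    intro t ht
    rw [mem_image] at ht
    obtain ⟨v0, hv0, rfl⟩ := ht
    have hsub : O.filter (fun v => T v = T v0) ⊆ tch (T v0) := by
      intro v hv
      rw [mem_filter] at hv
      rw [mem_tch, ← hv.2]
      exact dg_pos.mpr ⟨s(v, X v), by simp [hT], by simp⟩
    have hcard : (tch (T v0)).card = 3 := by rw [card_tch_circuit (hcirc v0 hv0), hTc v0 hv0]
    by_contra hlt
    have heq : O.filter (fun v => T v = T v0) = tch (T v0) :=
      eq_of_subset_of_card_le hsub (by omega)
    -- closed under adjacency
    obtain ⟨a, ha⟩ := hA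
    have hreach := hok.con v0 (mem_union_right _ hv0) a (mem_union_left _ ha)
    have hclosed : ∀ p q, (SimpleGraph.fromEdgeSet (F : Set (Sym2 V))).Reachable p q →
        p ∈ tch (T v0) → q ∈ tch (T v0) := by
      rintro p q ⟨w⟩
      induction w with
      | nil => exact id
      | @cons p b c hadj _ ih =>
        intro hp
        apply ih
        rw [SimpleGraph.fromEdgeSet_adj] at hadj
        have hpb : s(p, b) ∈ F := by exact_mod_cast hadj.1
        have hpO : p ∈ O ∧ T p = T v0 := by
          rw [← heq, mem_filter] at hp; exact hp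
        have h1 : s(p, b) ∈ F.filter (fun e => p ∈ e) := mem_filter.mpr ⟨hpb, by simp⟩
        rw [hstar p hpO.1] at h1
        have h2 : s(p, b) ∈ T p := by
          simp only [mem_insert, mem_singleton] at h1
          simp only [hT, mem_insert, mem_singleton]
          rcases h1 with h1 | h1
          · left; rw [h1, Sym2.eq_swap]
          · right; left; rw [h1, Sym2.eq_swap]
        rw [hpO.2] at h2
        exact mem_tch.mpr (dg_pos.mpr ⟨_, h2, by simp⟩)
    have hv0t : v0 ∈ tch (T v0) :=
      mem_tch.mpr (dg_pos.mpr ⟨s(v0, X v0), by simp [hT], by simp⟩)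
    have h3 := hclosed v0 a hreach hv0t
    rw [← heq, mem_filter] at h3
    exact disjoint_left.mp hdis ha h3.1
  have h1 := card_le_mul_card_image (f := T) O 2 hfib
  -- choose a private edge for each triangle
  have hpriv : ∀ t ∈ O.image T, ∃ v ∈ O, T v = t := by
    intro t ht
    rw [mem_image] at ht
    exact ht
  have : Nonempty V := ⟨hA.choose⟩
  choose! g hgO hgT using hpriv
  have h2 := card_le_mu fam_evenSet (fun t => s(g t, X (g t))) (O.image T) F ?_
  · omega
  · intro t ht
    have a1 := hgO t ht
    have a2 := hgT t ht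
    refine ⟨?_, ?_, ?_, ?_⟩
    · rw [← a2]; exact hTF _ a1
    · rw [← a2]; exact hTe _ a1
    · have h5 : s(g t, X (g t)) ∈ T (g t) := by simp [hT]
      rw [a2] at h5; exact h5
    · intro t' ht' hne hmem
      have b1 := hgO t' ht'
      have b2 := hgT t' ht'
      rw [← b2] at hmem
      have := hsame (g t) a1 (g t') b1 hmem
      rw [a2, b2] at this
      exact hne this

end Pool.Agent.Helper53
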