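import Pool.Agent.Helper53.Suppress

/-!
# From edge sets to graphs and back; the finite basis theorem
-/

open Finset Function
open scoped symmDiff

set_option linter.unusedSectionVars false
set_option linter.unusedSimpArgs false

namespace Pool.Agent.Helper53

/-- `d` is the degree function of a connected graph with exactly `k` cycles -/
def Rz {V : Type*} (d : V → ℕ) (k : ℕ) : Prop :=
  ∃ G : SimpleGraph V, G.Connected ∧ (cycleSets G).ncard = k ∧ ∀ v, (G.neighborSet v).ncard = d v

variable {V : Type*} [Fintype V] [DecidableEq V] {W : Type*} [Fintype W] [DecidableEq W]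

theorem rz_of_good {k : ℕ} {d : V → ℕ} (h : Good univ d k) : Rz d k := by
  classical
  obtain ⟨F, hok, hdeg, hk⟩ := h
  set G : SimpleGraph V := SimpleGraph.fromEdgeSet (F : Set (Sym2 V)) with hG
  have hF : ∀ e, e ∈ F ↔ e ∈ G.edgeSet := by
    intro e
    rw [hG, SimpleGraph.edgeSet_fromEdgeSet]
    constructor
    · intro h; exact ⟨by exact_mod_cast h, hok.nd e h⟩
    · intro h; exact_mod_cast h.1
  refine ⟨G, ?_, ?_, ?_⟩
  · obtain ⟨x, _⟩ := hok.ne
    have : Nonempty V := ⟨x⟩
    exact ⟨fun x y => hok.con x (mem_univ _) y (mem_univ _)⟩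
  · have := ncard_cycleSets G hF
    rw [hk] at this
    exact this
  · intro i
    rw [ncard_neighborSet G hF, hdeg i (mem_univ _)]

theorem good_of_rz {k : ℕ} {d : V → ℕ} (h : Rz d k) : Good univ d k := by
  classical
  obtain ⟨G, hG, hk, hd⟩ := h
  set F := G.edgeFinset with hFdef
  have hF : ∀ e, e ∈ F ↔ e ∈ G.edgeSet := fun e => by simp [hFdef]
  refine ⟨F, ⟨not_diag_of_edge G hF, fun _ _ v _ => mem_univ v, ?_, ?_⟩, ?_, ?_⟩
  · obtain ⟨x⟩ := hG.nonempty
    exact ⟨x, mem_univ x⟩
  · intro x _ y _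
    have : SimpleGraph.fromEdgeSet (F : Set (Sym2 V)) = G := by
      ext a b
      rw [SimpleGraph.fromEdgeSet_adj, mem_coe, hF]
      constructor
      · intro h; exact h.1
      · intro h; exact ⟨h, h.ne⟩
    rw [this]
    exact hG.preconnected x y
  · intro v _
    rw [← hd v, ncard_neighborSet G hF]
  · rw [← hk, ncard_cycleSets G hF]

/-- the sequence `c` on `A` followed by `m` twos -/
def seq (A : Finset V) (c : V → ℕ) (m : ℕ) : A ⊕ Fin m → ℕ :=
  Sum.elim (fun i => c i) (fun _ => 2)

theorem base_of_rz {A : Finset V} {c : V → ℕ} {m k : ℕ} (h : Rz (seq A c m) k) :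
    Base A c m k := by
  classical
  intro O d h1 h2 h3 h4
  have hg := good_of_rz h
  have e : O ≃ Fin m := Finset.equivFinOfCardEq h2
  set f : A ⊕ Fin m → V := Sum.elim (fun i => (i : V)) (fun j => (e.symm j : V)) with hf
  have hinj : Set.InjOn f ((univ : Finset (A ⊕ Fin m)) : Set (A ⊕ Fin m)) := by
    intro x _ y _ hxy
    rcases x with x | x <;> rcases y with y | y
    · simp only [hf, Sum.elim_inl] at hxy
      rw [Subtype.ext hxy]
    · simp only [hf, Sum.elim_inl, Sum.elim_inr] at hxy
      exfalso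
      exact disjoint_left.mp h1 x.2 (hxy ▸ (e.symm y).2)
    · simp only [hf, Sum.elim_inl, Sum.elim_inr] at hxy
      exfalso
      exact disjoint_left.mp h1 y.2 (hxy ▸ (e.symm x).2)
    · simp only [hf, Sum.elim_inr] at hxy
      have := e.symm.injective (Subtype.ext hxy)
      rw [this]
  have himg : (univ : Finset (A ⊕ Fin m)).image f = A ∪ O := by
    ext v
    simp only [mem_image, mem_univ, true_and, mem_union]
    constructor
    · rintro ⟨x | x, rfl⟩
      · left; simp [hf]
      · right; simp [hf]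
    · rintro (hv | hv)
      · exact ⟨Sum.inl ⟨v, hv⟩, rfl⟩
      · exact ⟨Sum.inr (e ⟨v, hv⟩), by simp [hf]⟩
  rw [← himg]
  refine hg.image hinj ?_
  intro x _
  rcases x with x | x
  · simp only [hf, Sum.elim_inl, seq]
    exact h3 _ x.2
  · simp only [hf, Sum.elim_inr, seq]
    exact h4 _ (e.symm x).2

theorem rz_of_base {A : Finset V} {c : V → ℕ} {m k : ℕ} (h : Base A c m k)
    (hfit : A.card + m ≤ Fintype.card V) : Rz (seq A c m) k := by
  classical
  have h1 : m ≤ (univ \ A).card := by
    rw [card_univ_sdiff]; omega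
  obtain ⟨O, hO, hOc⟩ := exists_subset_card_eq h1
  have hdis : Disjoint A O := by
    rw [disjoint_left]
    intro v h5 h6
    exact (mem_sdiff.mp (hO h6)).2 h5
  have hg := h O (fun v => if v ∈ A then c v else 2) hdis hOc (fun v hv => by simp [hv])
    (fun v hv => by
      have : v ∉ A := fun hh => disjoint_left.mp hdis hh hv
      simp [this])
  have e : O ≃ Fin m := Finset.equivFinOfCardEq hOc
  obtain ⟨F, hok, _, _⟩ := id hg
  obtain ⟨x0, hx0⟩ := hok.ne
  have hne : Nonempty (A ⊕ Fin m) := by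
    rw [mem_union] at hx0
    by_cases hA : x0 ∈ A
    · exact ⟨Sum.inl ⟨x0, hA⟩⟩
    · exact ⟨Sum.inr (e ⟨x0, by tauto⟩)⟩
  obtain ⟨w0⟩ := hne
  set g : V → A ⊕ Fin m := fun v =>
    if hv : v ∈ A then Sum.inl ⟨v, hv⟩ else if hv : v ∈ O then Sum.inr (e ⟨v, hv⟩) else w0 with hgd
  have gA : ∀ v (hv : v ∈ A), g v = Sum.inl ⟨v, hv⟩ := by
    intro v hv; simp only [hgd]; rw [dif_pos hv]
  have gO : ∀ v (hv : v ∈ O), g v = Sum.inr (e ⟨v, hv⟩) := by
    intro v hv
    have : v ∉ A := fun hh => disjoint_left.mp hdis hh hv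
    simp only [hgd]; rw [dif_neg this, dif_pos hv]
  have hinj : Set.InjOn g ((A ∪ O : Finset V) : Set V) := by
    intro x hx y hy hxy
    rw [mem_coe, mem_union] at hx hy
    rcases hx with hx | hx <;> rcases hy with hy | hy
    · rw [gA x hx, gA y hy] at hxy
      have := Sum.inl_injective hxy
      simpa using this
    · rw [gA x hx, gO y hy] at hxy; simp at hxy
    · rw [gO x hx, gA y hy] at hxy; simp at hxy
    · rw [gO x hx, gO y hy] at hxy
      have := e.injective (Sum.inr_injective hxy)
      simpa using this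
  have himg : (A ∪ O).image g = univ := by
    ext x
    simp only [mem_image, mem_univ, iff_true, mem_union]
    rcases x with x | x
    · exact ⟨x, Or.inl x.2, by rw [gA _ x.2]⟩
    · exact ⟨e.symm x, Or.inr (e.symm x).2, by rw [gO _ (e.symm x).2]; simp⟩
  apply rz_of_good
  rw [← himg]
  refine hg.image hinj ?_
  intro v hv
  rw [mem_union] at hv
  rcases hv with hv | hv
  · rw [gA v hv]; simp [seq, hv]
  · have : v ∉ A := fun hh => disjoint_left.mp hdis hh hv
    rw [gO v hv]; simp [seq, this]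

theorem Ok.sum_dg {S : Finset V} {F : Finset (Sym2 V)} (h : Ok S F) :
    ∑ v ∈ S, dg F v = 2 * F.card := by
  rw [← Pool.Agent.Helper53.sum_dg h.nd]
  apply sum_subset (subset_univ _)
  intro v _ hv
  exact h.dg_zero hv

theorem Ok.card_eq {S : Finset V} {F : Finset (Sym2 V)} (h : Ok S F) (hne : F.Nonempty) :
    F.card + 1 = mu EvenSet F + S.card := by
  have h1 := h.mu_add_le
  have h2 := h.card_le hne
  omega

theorem Base.reduce {A : Finset V} {c : V → ℕ} {m k μ0 : ℕ} (h : Base A c (m + 1) k)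
    (hA : A.Nonempty) (hcs : ∑ v ∈ A, c v + 2 = 2 * (A.card + μ0))
    (hfit : A.card + (m + 1) ≤ Fintype.card V) (hm : 2 * μ0 ≤ m) : Base A c m k := by
  classical
  have h1 : m + 1 ≤ (univ \ A).card := by
    rw [card_univ_sdiff]; omega
  obtain ⟨O, hO, hOc⟩ := exists_subset_card_eq h1
  have hdis : Disjoint A O := by
    rw [disjoint_left]
    intro v h5 h6
    exact (mem_sdiff.mp (hO h6)).2 h5
  obtain ⟨F, hok, hdF, hkF⟩ := h O (fun v => if v ∈ A then c v else 2) hdis hOc
    (fun v hv => by simp [hv])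
    (fun v hv => by
      have : v ∉ A := fun hh => disjoint_left.mp hdis hh hv
      simp [this])
  have hOA : ∀ v ∈ O, v ∉ A := fun v hv hh => disjoint_left.mp hdis hh hv
  have hd2 : ∀ v ∈ O, dg F v = 2 := by
    intro v hv; rw [hdF v (mem_union_right _ hv)]; simp [hOA v hv]
  have hdA : ∀ v ∈ A, dg F v = c v := by
    intro v hv; rw [hdF v (mem_union_left _ hv)]; simp [hv]
  have hsum := hok.sum_dg
  rw [sum_union hdis, sum_congr rfl hdA, sum_congr rfl hd2, sum_const, hOc] at hsum
  have hFne : F.Nonempty := by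
    rw [← card_pos]
    simp only [smul_eq_mul] at hsum
    omega
  have hcard := hok.card_eq hFne
  rw [card_union_of_disjoint hdis, hOc] at hcard
  have hmu : mu EvenSet F = μ0 := by
    simp only [smul_eq_mul] at hsum
    have hcs' : A.sum c + 2 = 2 * (A.card + μ0) := hcs
    omega
  have hex : ¬ ∀ v ∈ O, ∀ x y, x ≠ y → s(x, v) ∈ F → s(y, v) ∈ F → s(x, y) ∈ F := by
    intro hall
    have := card_le_of_triangles hok hA hdis hd2 hall
    omega
  push Not at hex
  obtain ⟨z, hz, x, y, hxy, hxz, hyz, hn⟩ := hex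
  obtain ⟨F', hok', hdg', hcirc'⟩ := suppress hok hxz hyz hxy (hd2 z hz) hn
  have hzA := hOA z hz
  rw [erase_union_left hzA] at hok'
  have hg : Good (A ∪ O.erase z) (fun v => if v ∈ A then c v else 2) k := by
    refine ⟨F', hok', ?_, by rw [hcirc', hkF]⟩
    intro v hv
    have hvz : v ≠ z := by
      rintro rfl
      rw [mem_union] at hv
      rcases hv with hv | hv
      · exact hzA hv
      · exact (mem_erase.mp hv).1 rfl
    rw [hdg' v hvz]
    apply hdF v
    rw [mem_union] at hv ⊢
    rcases hv with hv | hv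
    · exact Or.inl hv
    · exact Or.inr (mem_erase.mp hv).2
  have := Base.of_one (c := c) hg (hdis.mono_right (erase_subset _ _))
    (fun v hv => by simp [hv]) (fun v hv => by simp [hOA v (mem_erase.mp hv).2])
  rw [card_erase_of_mem hz, hOc, Nat.add_sub_cancel] at this
  exact this

theorem Base.reduce_all {A : Finset V} {c : V → ℕ} {k μ0 : ℕ}
    (hA : A.Nonempty) (hcs : ∑ v ∈ A, c v + 2 = 2 * (A.card + μ0)) :
    ∀ n, Base A c (2 * μ0 + n) k → A.card + (2 * μ0 + n) ≤ Fintype.card V →
      Base A c (2 * μ0) k := by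
  intro n
  induction n with
  | zero => intro h _; exact h
  | succ n ih =>
    intro h hfit
    refine ih (Base.reduce (m := 2 * μ0 + n) h hA hcs hfit (by omega)) (by omega)

end Pool.Agent.Helper53
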