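import Pool.Agent.Helper53.Deg

/-!
# Cycles of a graph and circuits of the even-set family
-/

open Finset
open scoped symmDiff

set_option linter.unusedSectionVars false

namespace Pool.Agent.Helper53

variable {V : Type*}

/-- the edge sets of the cycles of `G` -/
def cycleSets (G : SimpleGraph V) : Set (Set (Sym2 V)) :=
  {s | ∃ (v : V) (w : G.Walk v v), w.IsCycle ∧ s = {e | e ∈ w.edges}}

variable [Fintype V] [DecidableEq V]

theorem dg_eq_card_nb {X : Finset (Sym2 V)} (x : V) :
    dg X x = (univ.filter (fun y => s(x, y) ∈ X)).card := by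
  unfold dg
  symm
  apply card_bij (fun y _ => s(x, y))
  · intro y hy
    rw [mem_filter] at hy ⊢
    exact ⟨hy.2, by simp⟩
  · intro y _ z _ h
    exact Sym2.congr_right.mp h
  · intro e he
    rw [mem_filter] at he
    obtain ⟨y, rfl⟩ := Sym2.mem_iff_exists.mp he.2
    exact ⟨y, by rw [mem_filter]; exact ⟨mem_univ _, he.1⟩, rfl⟩

/-- the edges of a cycle form an even set -/
theorem evenSet_of_isCycle {G : SimpleGraph V} {v : V} {w : G.Walk v v} (hw : w.IsCycle) :
    EvenSet w.edges.toFinset := by
  refine ⟨?_, ?_⟩
  · intro e he
    rw [List.mem_toFinset] at he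
    exact G.not_isDiag_of_mem_edgeSet (w.edges_subset_edgeSet he)
  · intro x
    have h1 := (hw.isTrail.even_countP_edges_iff x).mpr (fun h => absurd rfl h)
    have h2 : dg w.edges.toFinset x = w.edges.countP (fun e => decide (x ∈ e)) := by
      unfold dg
      rw [List.countP_eq_length_filter]
      have : w.edges.toFinset.filter (fun e => x ∈ e) =
          (w.edges.filter (fun e => decide (x ∈ e))).toFinset := by
        ext e; simp
      rw [this, List.toFinset_card_of_nodup]
      exact hw.edges_nodup.filter _
    rw [h2]; exact h1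

/-- every circuit inside the edge set is the edge set of a cycle -/
theorem exists_cycle_of_circuit {G : SimpleGraph V} {C : Finset (Sym2 V)}
    (hCG : ∀ e ∈ C, e ∈ G.edgeSet) (hC : IsC EvenSet C) :
    ∃ (v : V) (w : G.Walk v v), w.IsCycle ∧ w.edges.toFinset = C := by
  classical
  set H : SimpleGraph V := SimpleGraph.fromEdgeSet (C : Set (Sym2 V)) with hH
  have hHG : H ≤ G := by
    intro x y hxy
    rw [hH, SimpleGraph.fromEdgeSet_adj] at hxy
    exact hCG _ (by exact_mod_cast hxy.1)
  have hHe : ∀ e, e ∈ H.edgeSet ↔ e ∈ C := by
    intro e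
    rw [hH, SimpleGraph.edgeSet_fromEdgeSet]
    constructor
    · exact fun h => by exact_mod_cast h.1
    · exact fun h => ⟨by exact_mod_cast h, hC.1.1 e h⟩
  have hnac : ¬ H.IsAcyclic := by
    intro hac
    obtain ⟨e, he⟩ := hC.2.1
    have hVne : Nonempty V := ⟨e.out.1⟩
    obtain ⟨u, v, p, hp, hmax⟩ := SimpleGraph.Walk.exists_isPath_forall_isPath_length_le_length H
    have hnil : ¬ p.Nil := by
      intro hn
      have h0 : p.length = 0 := SimpleGraph.Walk.length_eq_zero_iff.mpr hn
      induction e using Sym2.ind with
      | _ a b =>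
        have hadj : H.Adj a b := (hHe _).mpr he
        have := hmax a b (SimpleGraph.Walk.cons hadj SimpleGraph.Walk.nil) (by
          simp [SimpleGraph.Walk.isPath_def, hadj.ne])
        simp at this
        omega
    have hadj := p.adj_penultimate hnil
    have huniq : ∀ w, H.Adj v w → w = p.penultimate := by
      intro w hw
      by_cases hs : w ∈ p.support
      · exact hac.eq_penultimate_of_adj_end hp hw hs
      · have hpath : (p.concat hw).IsPath := hp.concat hs hw
        have := hmax _ _ _ hpath
        rw [SimpleGraph.Walk.length_concat] at this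
        omega
    have h1 : dg C v = 1 := by
      rw [dg_eq_card_nb]
      rw [card_eq_one]
      refine ⟨p.penultimate, ?_⟩
      ext w
      rw [mem_filter, mem_singleton]
      constructor
      · rintro ⟨_, hw⟩
        exact huniq w ((hHe _).mpr hw)
      · rintro rfl
        exact ⟨mem_univ _, (hHe _).mp hadj.symm⟩
    have h2 := hC.1.2 v
    rw [h1] at h2
    exact absurd h2 (by decide)
  unfold SimpleGraph.IsAcyclic at hnac
  push Not at hnac
  obtain ⟨v, w, hw⟩ := hnac
  have hsub : w.edges.toFinset ⊆ C := by
    intro e he
    rw [List.mem_toFinset] at he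
    exact (hHe e).mp (w.edges_subset_edgeSet he)
  have heq : w.edges.toFinset = C := by
    rcases hC.2.2 _ hsub (evenSet_of_isCycle hw) with h0 | h1
    · exfalso
      have h3 := hw.three_le_length
      have h4 : w.edges = [] := by
        rwa [List.toFinset_eq_empty_iff] at h0
      have h5 := w.length_edges
      rw [h4] at h5
      simp at h5
      omega
    · exact h1
  refine ⟨v, w.mapLe hHG, ?_, ?_⟩
  · exact hw.mapLe hHG
  · rw [SimpleGraph.Walk.edges_mapLe_eq_edges]
    exact heq

/-- circuits have at least three elements -/
theorem three_le_of_circuit {C : Finset (Sym2 V)} (hC : IsC EvenSet C) : 3 ≤ C.card := by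
  classical
  obtain ⟨v, w, hw, heq⟩ := exists_cycle_of_circuit (G := SimpleGraph.fromEdgeSet (C : Set (Sym2 V)))
    (by
      intro e he
      rw [SimpleGraph.edgeSet_fromEdgeSet]
      exact ⟨by exact_mod_cast he, hC.1.1 e he⟩) hC
  rw [← heq, List.toFinset_card_of_nodup hw.edges_nodup, w.length_edges]
  exact hw.three_le_length

/-- degree at most two on a cycle -/
theorem dg_cycle {G : SimpleGraph V} {v : V} {w : G.Walk v v} (hw : w.IsCycle) (x : V)
    (hx : x ∈ w.support) : dg w.edges.toFinset x = 2 := by
  classical
  have h1 := hw.ncard_neighborSet_toSubgraph_eq_two hx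
  rw [dg_eq_card_nb, ← h1, ← Set.ncard_coe_finset]
  congr 1
  ext y
  simp [SimpleGraph.Walk.adj_toSubgraph_iff_mem_edges]

/-- the edge set of a cycle is a circuit -/
theorem isC_of_isCycle {G : SimpleGraph V} {v : V} {w : G.Walk v v} (hw : w.IsCycle) :
    IsC EvenSet w.edges.toFinset := by
  classical
  refine ⟨evenSet_of_isCycle hw, ?_, ?_⟩
  · rw [nonempty_iff_ne_empty]
    intro h0
    have h3 := hw.three_le_length
    have h4 : w.edges = [] := by
      rwa [List.toFinset_eq_empty_iff] at h0
    have h5 := w.length_edges
    rw [h4] at h5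
    simp at h5
    omega
  · intro D hD hDe
    rcases D.eq_empty_or_nonempty with h0 | hne
    · exact Or.inl h0
    · right
      have hfull : ∀ x, 0 < dg D x →
          D.filter (fun e => x ∈ e) = w.edges.toFinset.filter (fun e => x ∈ e) := by
        intro x hx
        apply eq_of_subset_of_card_le (filter_subset_filter _ hD)
        have h1 : 2 ≤ dg D x := by
          rcases hDe.2 x with ⟨k, hk⟩
          omega
        obtain ⟨e, he, hxe⟩ := dg_pos.mp hx
        have hxs : x ∈ w.support := by
          have := hD he
          rw [List.mem_toFinset] at this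
          obtain ⟨y, rfl⟩ := Sym2.mem_iff_exists.mp hxe
          exact w.fst_mem_support_of_mem_edges this
        have h2 := dg_cycle hw x hxs
        change dg w.edges.toFinset x ≤ dg D x
        omega
      -- all vertices of the cycle are touched by D
      have hconn := w.toSubgraph_connected
      obtain ⟨e0, he0⟩ := hne
      have hstep : ∀ x y, w.toSubgraph.Adj x y → 0 < dg D x → 0 < dg D y := by
        intro x y hxy hx
        have hmem : s(x, y) ∈ w.edges.toFinset.filter (fun e => x ∈ e) := by
          rw [mem_filter, List.mem_toFinset]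
          exact ⟨by rwa [SimpleGraph.Walk.adj_toSubgraph_iff_mem_edges] at hxy, by simp⟩
        rw [← hfull x hx, mem_filter] at hmem
        exact dg_pos.mpr ⟨_, hmem.1, by simp⟩
      have hall : ∀ x ∈ w.support, 0 < dg D x := by
        have hx0 : ∃ x0 ∈ w.support, 0 < dg D x0 := by
          have h1 := hD he0
          rw [List.mem_toFinset] at h1
          induction e0 using Sym2.ind with
          | _ a b =>
            exact ⟨a, w.fst_mem_support_of_mem_edges h1, dg_pos.mpr ⟨_, he0, by simp⟩⟩
        obtain ⟨x0, hx0, hd0⟩ := hx0
        intro x hx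
        have hr := hconn.preconnected.coe ⟨x0, by simpa using hx0⟩ ⟨x, by simpa using hx⟩
        obtain ⟨q⟩ := hr
        have : ∀ (a b : w.toSubgraph.verts) (q : w.toSubgraph.coe.Walk a b),
            0 < dg D a.1 → 0 < dg D b.1 := by
          intro a b q
          induction q with
          | nil => exact id
          | cons hadj _ ih =>
            intro ha
            exact ih (hstep _ _ hadj ha)
        exact this _ _ q hd0
      apply Subset.antisymm hD
      intro e he
      induction e using Sym2.ind with
      | _ a b =>
        have ha : a ∈ w.support := by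
          rw [List.mem_toFinset] at he
          exact w.fst_mem_support_of_mem_edges he
        have h1 := hfull a (hall a ha)
        have h2 : s(a, b) ∈ w.edges.toFinset.filter (fun e => a ∈ e) := by
          rw [mem_filter]; exact ⟨he, by simp⟩
        rw [← h1, mem_filter] at h2
        exact h2.1

/-- the number of cycles is the number of circuits -/
theorem ncard_cycleSets (G : SimpleGraph V) {F : Finset (Sym2 V)} (hF : ∀ e, e ∈ F ↔ e ∈ G.edgeSet) :
    (cycleSets G).ncard = (circ EvenSet F).card := by
  classical
  have h1 : cycleSets G = (fun C : Finset (Sym2 V) => (C : Set (Sym2 V))) ''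
      (circ EvenSet F : Set (Finset (Sym2 V))) := by
    ext s
    constructor
    · rintro ⟨v, w, hw, rfl⟩
      refine ⟨w.edges.toFinset, mem_coe.mpr (mem_circ.mpr ⟨?_, isC_of_isCycle hw⟩), ?_⟩
      · intro e he
        rw [List.mem_toFinset] at he
        exact (hF e).mpr (w.edges_subset_edgeSet he)
      · ext e; simp
    · rintro ⟨C, hC0, rfl⟩
      obtain ⟨hCF, hC⟩ := mem_circ.mp (mem_coe.mp hC0)
      obtain ⟨v, w, hw, heq⟩ := exists_cycle_of_circuit (G := G)
        (fun e he => (hF e).mp (hCF he)) hC
      refine ⟨v, w, hw, ?_⟩
      rw [← heq]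
      ext e; simp
  rw [h1, Set.ncard_image_of_injective _ coe_injective, Set.ncard_coe_finset]

end Pool.Agent.Helper53
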